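import Mathlib

/-!
Integer packings (MP_e4ee32_co): a checker for the statement no `k` of the given integer vectors
of squared length `N` have pairwise angles at least 60 degrees.  Vectors are stored with the
coordinates shifted by `o` (all natural numbers).
-/

namespace Pool.Agent.Lib.MPe4ee32.IP

abbrev V3 := ℕ × ℕ × ℕ

/-- `2 v.w > N` in shifted coordinates. -/
def conf (o N : ℕ) (v w : V3) : Bool :=
  Nat.ble (N + 2 * o * (v.1 + v.2.1 + v.2.2 + (w.1 + w.2.1 + w.2.2)) + 1)
    (2 * (v.1 * w.1 + v.2.1 * w.2.1 + v.2.2 * w.2.2) + 6 * o * o)

section general

variable {V : Type*} (cf : V → V → Bool)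

/-- every family in `l` of pairwise non-conflicting elements has fewer than `k` elements -/
def NoSet (k : ℕ) (l : List V) : Prop :=
  ∀ S : Finset V, (∀ v ∈ S, v ∈ l) → (∀ v ∈ S, ∀ w ∈ S, v ≠ w → cf v w = false) → S.card < k

/-- put `v` into the first clique with which it conflicts completely -/
def ins (v : V) : List (List V) → List (List V)
  | [] => [[v]]
  | c :: cs => match c.all (cf v) with
    | true => (v :: c) :: cs
    | false => c :: ins v cs

def cover : List V → List (List V) → List (List V)
  | [], cs => cs
  | v :: l, cs => cover l (ins cf v cs)

def go (rec : List V → Bool) : List V → List V → Bool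
  | _, [] => true
  | cur, v :: br => match rec (cur.filter fun w => !(cf v w)) with
    | true => go rec (v :: cur) br
    | false => false

def search : ℕ → ℕ → List V → Bool
  | 0, _, _ => false
  | _ + 1, 0, _ => false
  | fuel + 1, need + 1, cand =>
    go cf (search fuel need) ((cover cf cand []).take need).flatten
      ((cover cf cand []).drop need).flatten

/-- a list all of whose pairs of distinct members are in conflict -/
def Clique (c : List V) : Prop := ∀ v ∈ c, ∀ w ∈ c, v ≠ w → cf v w = true ∨ cf w v = true

theorem ins_clique (v : V) (cs : List (List V)) (h : ∀ c ∈ cs, Clique cf c) :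
    ∀ c ∈ ins cf v cs, Clique cf c := by
  induction cs with
  | nil =>
    intro c hc
    simp only [ins, List.mem_singleton] at hc
    subst hc
    intro a ha b hb hab
    simp only [List.mem_singleton] at ha hb
    exact absurd (ha.trans hb.symm) hab
  | cons d cs ih =>
    intro c hc
    simp only [ins] at hc
    have hd := h d (by simp)
    have hcs : ∀ c ∈ cs, Clique cf c := fun c hc => h c (by simp [hc])
    cases hall : d.all (cf v) with
    | true =>
      rw [hall] at hc
      simp only [List.mem_cons] at hc
      rcases hc with rfl | hc
      · have hall' : ∀ w ∈ d, cf v w = true := by simpa using hall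
        intro a ha b hb hab
        simp only [List.mem_cons] at ha hb
        rcases ha with rfl | ha
        · rcases hb with rfl | hb
          · exact absurd rfl hab
          · exact Or.inl (hall' b hb)
        · rcases hb with rfl | hb
          · exact Or.inr (hall' a ha)
          · exact hd a ha b hb hab
      · exact hcs c hc
    | false =>
      rw [hall] at hc
      simp only [List.mem_cons] at hc
      rcases hc with rfl | hc
      · exact hd
      · exact ih hcs c hc

theorem ins_flatten (v : V) (cs : List (List V)) (x : V) :
    x ∈ (ins cf v cs).flatten ↔ x = v ∨ x ∈ cs.flatten := by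
  induction cs with
  | nil => simp [ins]
  | cons d cs ih =>
    simp only [ins]
    cases hall : d.all (cf v) with
    | true => simp only [List.flatten_cons, List.mem_append, List.mem_cons]; tauto
    | false =>
      simp only [List.flatten_cons, List.mem_append] at ih ⊢
      rw [ih]; tauto

theorem cover_clique (l : List V) (cs : List (List V)) (h : ∀ c ∈ cs, Clique cf c) :
    ∀ c ∈ cover cf l cs, Clique cf c := by
  induction l generalizing cs with
  | nil => exact h
  | cons v l ih => exact ih _ (ins_clique cf v cs h)

theorem cover_flatten (l : List V) (cs : List (List V)) (x : V) :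
    x ∈ (cover cf l cs).flatten ↔ x ∈ l ∨ x ∈ cs.flatten := by
  induction l generalizing cs with
  | nil => simp [cover]
  | cons v l ih =>
    rw [cover, ih, ins_flatten, List.mem_cons]; tauto

theorem card_le_of_cliques (cs : List (List V)) (h : ∀ c ∈ cs, Clique cf c) (S : Finset V)
    (hS : ∀ v ∈ S, v ∈ cs.flatten) (hc : ∀ v ∈ S, ∀ w ∈ S, v ≠ w → cf v w = false) :
    S.card ≤ cs.length := by
  classical
  induction cs generalizing S with
  | nil =>
    have : S = ∅ := by
      apply Finset.eq_empty_of_forall_notMem
      intro v hv
      simpa using hS v hv
    simp [this]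
  | cons d cs ih =>
    have h1 : (S.filter fun v => v ∈ d).card ≤ 1 := by
      rw [Finset.card_le_one]
      intro a ha b hb
      by_contra hab
      simp only [Finset.mem_filter] at ha hb
      rcases h d (by simp) a ha.2 b hb.2 hab with h' | h'
      · rw [hc a ha.1 b hb.1 hab] at h'; simp at h'
      · rw [hc b hb.1 a ha.1 (Ne.symm hab)] at h'; simp at h'
    have h2 : (S.filter fun v => ¬ v ∈ d).card ≤ cs.length := by
      apply ih (fun c hc => h c (by simp [hc]))
      · intro v hv
        simp only [Finset.mem_filter] at hv
        have := hS v hv.1
        simp only [List.flatten_cons, List.mem_append] at this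
        exact this.resolve_left hv.2
      · intro v hv w hw
        simp only [Finset.mem_filter] at hv hw
        exact hc v hv.1 w hw.1
    have h3 := Finset.card_filter_add_card_filter_not (s := S) (fun v => v ∈ d)
    simp only [List.length_cons]
    omega

theorem NoSet.cons {k : ℕ} {cur : List V} {v : V}
    (h1 : NoSet cf k (cur.filter fun w => !(cf v w))) (h2 : NoSet cf (k + 1) cur) :
    NoSet cf (k + 1) (v :: cur) := by
  classical
  intro S hS hc
  by_cases hv : v ∈ S
  · have := h1 (S.erase v) (by
      intro w hw
      have hw' := Finset.mem_erase.1 hw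
      have h3 := hS w hw'.2
      simp only [List.mem_cons] at h3
      have h4 := h3.resolve_left hw'.1
      simp only [List.mem_filter, Bool.not_eq_true']
      exact ⟨h4, hc v hv w hw'.2 (Ne.symm hw'.1)⟩) (by
      intro a ha b hb
      exact hc a (Finset.mem_of_mem_erase ha) b (Finset.mem_of_mem_erase hb))
    rw [Finset.card_erase_of_mem hv] at this
    have hpos : 0 < S.card := Finset.card_pos.2 ⟨v, hv⟩
    omega
  · apply h2 S _ hc
    intro w hw
    have h3 := hS w hw
    simp only [List.mem_cons] at h3
    rcases h3 with rfl | h3
    · exact absurd hw hv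
    · exact h3

theorem go_sound (k : ℕ) (rec : List V → Bool) (hrec : ∀ l, rec l = true → NoSet cf k l)
    (br cur : List V) (h : go cf rec cur br = true) (hcur : NoSet cf (k + 1) cur) :
    ∀ l : List V, (∀ x ∈ l, x ∈ cur ∨ x ∈ br) → NoSet cf (k + 1) l := by
  induction br generalizing cur with
  | nil =>
    intro l hl S hS hc
    apply hcur S _ hc
    intro v hv
    simpa using hl v (hS v hv)
  | cons v br ih =>
    simp only [go] at h
    cases hr : rec (cur.filter fun w => !(cf v w)) with
    | true =>
      rw [hr] at h
      intro l hl
      apply ih (v :: cur) h (NoSet.cons cf (hrec _ hr) hcur) l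
      intro x hx
      have := hl x hx
      simp only [List.mem_cons] at this ⊢
      tauto
    | false => rw [hr] at h; simp at h

theorem search_sound (fuel : ℕ) : ∀ (k : ℕ) (l : List V), search cf fuel k l = true →
    NoSet cf k l := by
  induction fuel with
  | zero => intro k l h; simp [search] at h
  | succ fuel ih =>
    intro k l h
    cases k with
    | zero => simp [search] at h
    | succ k =>
      rw [search] at h
      have hcl := cover_clique cf l [] (by simp)
      refine go_sound cf k (search cf fuel k) (ih k) _ _ h ?_ l ?_
      · intro S hS hc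
        have h1 := card_le_of_cliques cf ((cover cf l []).take k)
          (fun c hc' => hcl c (List.mem_of_mem_take hc')) S hS hc
        have h2 : ((cover cf l []).take k).length ≤ k := List.length_take_le _ _
        omega
      · intro x hx
        have h1 : x ∈ (cover cf l []).flatten := (cover_flatten cf l [] x).2 (Or.inl hx)
        rw [← List.take_append_drop k (cover cf l []), List.flatten_append,
          List.mem_append] at h1
        exact h1

end general

/-- membership in a list of shifted vectors, by comparison of natural numbers -/
def memb (x y z : ℕ) : List V3 → Bool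
  | [] => false
  | v :: l => match Nat.beq x v.1 with
    | true => match Nat.beq y v.2.1 with
      | true => match Nat.beq z v.2.2 with
        | true => true
        | false => memb x y z l
      | false => memb x y z l
    | false => memb x y z l

theorem memb_sound (x y z : ℕ) (l : List V3) (h : memb x y z l = true) : (x, y, z) ∈ l := by
  induction l with
  | nil => simp [memb] at h
  | cons v l ih =>
    rw [memb] at h
    rw [List.mem_cons]
    cases h1 : Nat.beq x v.1 with
    | false => rw [h1] at h; exact Or.inr (ih h)
    | true =>
      cases h2 : Nat.beq y v.2.1 with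
      | false => rw [h1, h2] at h; exact Or.inr (ih h)
      | true =>
        cases h3 : Nat.beq z v.2.2 with
        | false => rw [h1, h2, h3] at h; exact Or.inr (ih h)
        | true =>
          left
          have e1 := Nat.eq_of_beq_eq_true h1
          have e2 := Nat.eq_of_beq_eq_true h2
          have e3 := Nat.eq_of_beq_eq_true h3
          exact Prod.ext e1 (Prod.ext e2 e3)

/-- one row of the table: squared length `N`, direction `(a, b, c)`, and the integer vectors of
squared length `N` in the closed half space `a x + b y + c z ≤ 0` -/
structure Row where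
  N : ℕ
  a : ℕ
  b : ℕ
  c : ℕ
  H : List V3

/-- if `a x + b y + c z ≤ 0` then the vector is in the list -/
def okVec (o : ℕ) (r : Row) (x y z : ℕ) : Bool :=
  match Nat.ble (r.a * x + r.b * y + r.c * z) (o * (r.a + r.b + r.c)) with
  | true => memb x y z r.H
  | false => true

def ok8 (o : ℕ) (r : Row) (x y z : ℕ) : Bool :=
  okVec o r (o + x) (o + y) (o + z) && okVec o r (o + x) (o + y) (o - z) &&
  okVec o r (o + x) (o - y) (o + z) && okVec o r (o + x) (o - y) (o - z) &&
  okVec o r (o - x) (o + y) (o + z) && okVec o r (o - x) (o + y) (o - z) &&
  okVec o r (o - x) (o - y) (o + z) && okVec o r (o - x) (o - y) (o - z)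

/-- loop over `z < n` -/
def loopZ (o : ℕ) (r : Row) (x y : ℕ) : ℕ → Bool
  | 0 => true
  | z + 1 => match Nat.beq (x * x + y * y + z * z) r.N with
    | true => match ok8 o r x y z with
      | true => loopZ o r x y z
      | false => false
    | false => loopZ o r x y z

def loopY (o : ℕ) (r : Row) (x : ℕ) : ℕ → Bool
  | 0 => true
  | y + 1 => match Nat.ble (x * x + y * y) r.N with
    | true => match loopZ o r x y (o + 1) with
      | true => loopY o r x y
      | false => false
    | false => loopY o r x y

def loopX (o : ℕ) (r : Row) : ℕ → Bool
  | 0 => true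
  | x + 1 => match loopY o r x (o + 1) with
    | true => loopX o r x
    | false => false

theorem loopZ_sound (o : ℕ) (r : Row) (x y n : ℕ) (h : loopZ o r x y n = true) :
    ∀ z < n, x * x + y * y + z * z = r.N → ok8 o r x y z = true := by
  induction n with
  | zero => intro z hz; omega
  | succ n ih =>
    intro z hz hN
    rw [loopZ] at h
    cases h1 : Nat.beq (x * x + y * y + n * n) r.N with
    | true =>
      cases h2 : ok8 o r x y n with
      | true =>
        rw [h1, h2] at h
        rcases Nat.lt_succ_iff_lt_or_eq.1 hz with hz' | rfl
        · exact ih h z hz' hN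
        · exact h2
      | false => rw [h1, h2] at h; simp at h
    | false =>
      rw [h1] at h
      rcases Nat.lt_succ_iff_lt_or_eq.1 hz with hz' | rfl
      · exact ih h z hz' hN
      · rw [hN] at h1; simp at h1

theorem loopY_sound (o : ℕ) (r : Row) (x n : ℕ) (h : loopY o r x n = true) :
    ∀ y < n, ∀ z < o + 1, x * x + y * y + z * z = r.N → ok8 o r x y z = true := by
  induction n with
  | zero => intro y hy; omega
  | succ n ih =>
    intro y hy z hz hN
    rw [loopY] at h
    cases h1 : Nat.ble (x * x + n * n) r.N with
    | true =>
      cases h2 : loopZ o r x n (o + 1) with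
      | true =>
        rw [h1, h2] at h
        rcases Nat.lt_succ_iff_lt_or_eq.1 hy with hy' | rfl
        · exact ih h y hy' z hz hN
        · exact loopZ_sound o r x y _ h2 z hz hN
      | false => rw [h1, h2] at h; simp at h
    | false =>
      rw [h1] at h
      rcases Nat.lt_succ_iff_lt_or_eq.1 hy with hy' | rfl
      · exact ih h y hy' z hz hN
      · have : Nat.ble (x * x + y * y) r.N = true := Nat.ble_eq_true_of_le (by omega)
        rw [this] at h1; simp at h1

theorem loopX_sound (o : ℕ) (r : Row) (n : ℕ) (h : loopX o r n = true) :
    ∀ x < n, ∀ y < o + 1, ∀ z < o + 1, x * x + y * y + z * z = r.N → ok8 o r x y z = true := by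
  induction n with
  | zero => intro x hx; omega
  | succ n ih =>
    intro x hx y hy z hz hN
    rw [loopX] at h
    cases h2 : loopY o r n (o + 1) with
    | true =>
      rw [h2] at h
      rcases Nat.lt_succ_iff_lt_or_eq.1 hx with hx' | rfl
      · exact ih h x hx' y hy z hz hN
      · exact loopY_sound o r x _ h2 y hy z hz hN
    | false => rw [h2] at h; simp at h

/-- the whole check of a row -/
def rowOK (o k fuel : ℕ) (r : Row) : Bool :=
  Nat.ble (r.N + 1) ((o + 1) * (o + 1)) && loopX o r (o + 1) && search (conf o r.N) fuel k r.H

theorem okVec_sound (o : ℕ) (r : Row) (x y z : ℕ) (h : okVec o r x y z = true)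
    (hle : r.a * x + r.b * y + r.c * z ≤ o * (r.a + r.b + r.c)) : (x, y, z) ∈ r.H := by
  rw [okVec] at h
  have h1 : Nat.ble (r.a * x + r.b * y + r.c * z) (o * (r.a + r.b + r.c)) = true :=
    Nat.ble_eq_true_of_le hle
  rw [h1] at h
  exact memb_sound _ _ _ _ h

end Pool.Agent.Lib.MPe4ee32.IP
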