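import Pool.Agent.Lib.MP_e4ee32_co.IP.Check

/-!
Integer packings (MP_e4ee32_co): from the checker to integer vectors, and from integer vectors to
finite packings in Euclidean 3-space.
-/

namespace Pool.Agent.Lib.MPe4ee32.IP

theorem rowOK_iff (o k fuel : ℕ) (r : Row) (h : rowOK o k fuel r = true) :
    r.N + 1 ≤ (o + 1) * (o + 1) ∧ loopX o r (o + 1) = true ∧
      search (conf o r.N) fuel k r.H = true := by
  rw [rowOK, Bool.and_eq_true, Bool.and_eq_true, Nat.ble_eq] at h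
  exact ⟨h.1.1, h.1.2, h.2⟩

theorem mem_H {o k fuel : ℕ} {r : Row} (h : rowOK o k fuel r = true) (x y z : ℤ)
    (hN : x ^ 2 + y ^ 2 + z ^ 2 = r.N) (hu : (r.a : ℤ) * x + r.b * y + r.c * z ≤ 0) :
    |x| ≤ o ∧ |y| ≤ o ∧ |z| ≤ o ∧
      ((x + o).toNat, (y + o).toNat, (z + o).toNat) ∈ r.H := by
  obtain ⟨h1, h2, -⟩ := rowOK_iff o k fuel r h
  have h1' : (r.N : ℤ) + 1 ≤ ((o : ℤ) + 1) * (o + 1) := by exact_mod_cast h1
  have bd : ∀ t : ℤ, t ^ 2 ≤ r.N → |t| ≤ o := by
    intro t ht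
    by_contra hc
    push Not at hc
    have h3 : (o : ℤ) + 1 ≤ |t| := hc
    have h4 : ((o : ℤ) + 1) * (o + 1) ≤ |t| * |t| := by
      apply mul_le_mul h3 h3 (by positivity) (abs_nonneg _)
    rw [abs_mul_abs_self] at h4
    nlinarith
  have hx : |x| ≤ o := bd x (by nlinarith [sq_nonneg y, sq_nonneg z])
  have hy : |y| ≤ o := bd y (by nlinarith [sq_nonneg x, sq_nonneg z])
  have hz : |z| ≤ o := bd z (by nlinarith [sq_nonneg y, sq_nonneg x])
  refine ⟨hx, hy, hz, ?_⟩
  have hx' : x.natAbs ≤ o := by zify; exact hx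
  have hy' : y.natAbs ≤ o := by zify; exact hy
  have hz' : z.natAbs ≤ o := by zify; exact hz
  have hN' : x.natAbs * x.natAbs + y.natAbs * y.natAbs + z.natAbs * z.natAbs = r.N := by
    zify
    rw [← sq, ← sq, ← sq, sq_abs, sq_abs, sq_abs]
    exact hN
  have h3 := loopX_sound o r (o + 1) h2 x.natAbs (by omega) y.natAbs (by omega) z.natAbs
    (by omega) hN'
  have key : okVec o r (x + o).toNat (y + o).toNat (z + o).toNat = true := by
    rw [ok8] at h3
    simp only [Bool.and_eq_true] at h3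
    obtain ⟨⟨⟨⟨⟨⟨⟨e1, e2⟩, e3⟩, e4⟩, e5⟩, e6⟩, e7⟩, e8⟩ := h3
    rcases le_total 0 x with sx | sx <;> rcases le_total 0 y with sy | sy <;>
      rcases le_total 0 z with sz | sz
    · have ex : (x + o).toNat = o + x.natAbs := by omega
      have ey : (y + o).toNat = o + y.natAbs := by omega
      have ez : (z + o).toNat = o + z.natAbs := by omega
      rw [ex, ey, ez]; exact e1
    · have ex : (x + o).toNat = o + x.natAbs := by omega
      have ey : (y + o).toNat = o + y.natAbs := by omega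
      have ez : (z + o).toNat = o - z.natAbs := by omega
      rw [ex, ey, ez]; exact e2
    · have ex : (x + o).toNat = o + x.natAbs := by omega
      have ey : (y + o).toNat = o - y.natAbs := by omega
      have ez : (z + o).toNat = o + z.natAbs := by omega
      rw [ex, ey, ez]; exact e3
    · have ex : (x + o).toNat = o + x.natAbs := by omega
      have ey : (y + o).toNat = o - y.natAbs := by omega
      have ez : (z + o).toNat = o - z.natAbs := by omega
      rw [ex, ey, ez]; exact e4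
    · have ex : (x + o).toNat = o - x.natAbs := by omega
      have ey : (y + o).toNat = o + y.natAbs := by omega
      have ez : (z + o).toNat = o + z.natAbs := by omega
      rw [ex, ey, ez]; exact e5
    · have ex : (x + o).toNat = o - x.natAbs := by omega
      have ey : (y + o).toNat = o + y.natAbs := by omega
      have ez : (z + o).toNat = o - z.natAbs := by omega
      rw [ex, ey, ez]; exact e6
    · have ex : (x + o).toNat = o - x.natAbs := by omega
      have ey : (y + o).toNat = o - y.natAbs := by omega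
      have ez : (z + o).toNat = o + z.natAbs := by omega
      rw [ex, ey, ez]; exact e7
    · have ex : (x + o).toNat = o - x.natAbs := by omega
      have ey : (y + o).toNat = o - y.natAbs := by omega
      have ez : (z + o).toNat = o - z.natAbs := by omega
      rw [ex, ey, ez]; exact e8
  apply okVec_sound o r _ _ _ key
  have hx0 : 0 ≤ x + o := by have := abs_le.1 hx; linarith [this.1]
  have hy0 : 0 ≤ y + o := by have := abs_le.1 hy; linarith [this.1]
  have hz0 : 0 ≤ z + o := by have := abs_le.1 hz; linarith [this.1]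
  zify
  rw [Int.toNat_of_nonneg hx0, Int.toNat_of_nonneg hy0, Int.toNat_of_nonneg hz0]
  nlinarith

/-- a set of integer vectors of squared length `N` in the half space of the row, with pairwise
angles at least 60 degrees, has fewer than `k` elements -/
theorem core {o k fuel : ℕ} {r : Row} (h : rowOK o k fuel r = true) (S : Finset (ℤ × ℤ × ℤ))
    (hN : ∀ v ∈ S, v.1 ^ 2 + v.2.1 ^ 2 + v.2.2 ^ 2 = r.N)
    (hu : ∀ v ∈ S, (r.a : ℤ) * v.1 + r.b * v.2.1 + r.c * v.2.2 ≤ 0)
    (hs : ∀ v ∈ S, ∀ w ∈ S, v ≠ w →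
      2 * (v.1 * w.1 + v.2.1 * w.2.1 + v.2.2 * w.2.2) ≤ (r.N : ℤ)) : S.card < k := by
  classical
  obtain ⟨-, -, h3⟩ := rowOK_iff o k fuel r h
  set φ : ℤ × ℤ × ℤ → V3 := fun v => ((v.1 + o).toNat, (v.2.1 + o).toNat, (v.2.2 + o).toNat)
    with hφ
  have hmem : ∀ v ∈ S, |v.1| ≤ o ∧ |v.2.1| ≤ o ∧ |v.2.2| ≤ o ∧ φ v ∈ r.H :=
    fun v hv => mem_H h v.1 v.2.1 v.2.2 (hN v hv) (hu v hv)
  have hinj : Set.InjOn φ S := by
    intro v hv w hw hvw
    obtain ⟨a1, a2, a3, -⟩ := hmem v hv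
    obtain ⟨b1, b2, b3, -⟩ := hmem w hw
    simp only [hφ, Prod.mk.injEq] at hvw
    obtain ⟨e1, e2, e3⟩ := hvw
    rw [abs_le] at a1 a2 a3 b1 b2 b3
    refine Prod.ext (by omega) (Prod.ext (by omega) (by omega))
  have hno := search_sound (conf o r.N) fuel k r.H h3 (S.image φ) (by
    intro v hv
    obtain ⟨w, hw, rfl⟩ := Finset.mem_image.1 hv
    exact (hmem w hw).2.2.2) (by
    intro v' hv' w' hw' hne
    obtain ⟨v, hv, rfl⟩ := Finset.mem_image.1 hv'
    obtain ⟨w, hw, rfl⟩ := Finset.mem_image.1 hw'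
    have hvw : v ≠ w := fun e => hne (by rw [e])
    obtain ⟨a1, a2, a3, -⟩ := hmem v hv
    obtain ⟨b1, b2, b3, -⟩ := hmem w hw
    rw [abs_le] at a1 a2 a3 b1 b2 b3
    have h4 := hs v hv w hw hvw
    rw [Bool.eq_false_iff, conf, Ne, Nat.ble_eq, not_le]
    simp only [hφ]
    have c1 : (((v.1 + o).toNat : ℕ) : ℤ) = v.1 + o := Int.toNat_of_nonneg (by linarith)
    have c2 : (((v.2.1 + o).toNat : ℕ) : ℤ) = v.2.1 + o := Int.toNat_of_nonneg (by linarith)
    have c3 : (((v.2.2 + o).toNat : ℕ) : ℤ) = v.2.2 + o := Int.toNat_of_nonneg (by linarith)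
    have d1 : (((w.1 + o).toNat : ℕ) : ℤ) = w.1 + o := Int.toNat_of_nonneg (by linarith)
    have d2 : (((w.2.1 + o).toNat : ℕ) : ℤ) = w.2.1 + o := Int.toNat_of_nonneg (by linarith)
    have d3 : (((w.2.2 + o).toNat : ℕ) : ℤ) = w.2.2 + o := Int.toNat_of_nonneg (by linarith)
    have : ((2 * ((v.1 + o).toNat * (w.1 + o).toNat + (v.2.1 + o).toNat * (w.2.1 + o).toNat +
        (v.2.2 + o).toNat * (w.2.2 + o).toNat) + 6 * o * o : ℕ) : ℤ) <
        ((r.N + 2 * o * ((v.1 + o).toNat + (v.2.1 + o).toNat + (v.2.2 + o).toNat +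
          ((w.1 + o).toNat + (w.2.1 + o).toNat + (w.2.2 + o).toNat)) + 1 : ℕ) : ℤ) := by
      push_cast
      rw [c1, c2, c3, d1, d2, d3]
      nlinarith
    exact_mod_cast this)
  rwa [Finset.card_image_of_injOn hinj] at hno

/-- Euclidean 3-space -/
abbrev E3 := EuclideanSpace ℝ (Fin 3)

open Classical in
/-- finite packings with contact vectors in a rotated copy of `(2 r / √N) ℤ³` -/
theorem packing {o k fuel : ℕ} {R : Row} (h : rowOK o k fuel R = true) (hR : 0 < R.N)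
    (P : Finset E3) (r : ℝ) (hr : 0 < r) (hP : P.Nonempty)
    (hsep : ∀ p ∈ P, ∀ q ∈ P, p ≠ q → 2 * r ≤ dist p q) (A : E3 ≃ₗᵢ[ℝ] E3)
    (hA : ∀ p ∈ P, ∀ q ∈ P, dist p q = 2 * r →
      ∀ i, ∃ z : ℤ, √(R.N : ℝ) / (2 * r) * A (p - q) i = z) :
    ∃ p ∈ P, (P.filter fun q => dist p q = 2 * r).card < k := by
  set s : ℝ := √(R.N : ℝ) / (2 * r) with hs
  have hs2 : s ^ 2 * (2 * r) ^ 2 = R.N := by
    rw [hs, div_pow, Real.sq_sqrt (by positivity)]
    field_simp
  have hs0 : 0 < s := by rw [hs]; positivity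
  obtain ⟨p, hp, hmax⟩ := Finset.exists_max_image P
    (fun p => (R.a : ℝ) * A p 0 + R.b * A p 1 + R.c * A p 2) hP
  refine ⟨p, hp, ?_⟩
  -- the integer vector of a neighbour
  have hz : ∀ q : E3, ∃ v : ℤ × ℤ × ℤ, q ∈ P → dist p q = 2 * r →
      s * A (q - p) 0 = v.1 ∧ s * A (q - p) 1 = v.2.1 ∧ s * A (q - p) 2 = v.2.2 := by
    intro q
    by_cases hq : q ∈ P ∧ dist p q = 2 * r
    · obtain ⟨z0, e0⟩ := hA q hq.1 p hp (by rw [dist_comm]; exact hq.2) 0
      obtain ⟨z1, e1⟩ := hA q hq.1 p hp (by rw [dist_comm]; exact hq.2) 1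
      obtain ⟨z2, e2⟩ := hA q hq.1 p hp (by rw [dist_comm]; exact hq.2) 2
      exact ⟨(z0, z1, z2), fun _ _ => ⟨e0, e1, e2⟩⟩
    · exact ⟨(0, 0, 0), fun h1 h2 => absurd ⟨h1, h2⟩ hq⟩
  choose v hv using hz
  set Q := P.filter fun q => dist p q = 2 * r with hQ
  have hvQ : ∀ q ∈ Q, s * A (q - p) 0 = (v q).1 ∧ s * A (q - p) 1 = (v q).2.1 ∧
      s * A (q - p) 2 = (v q).2.2 := by
    intro q hq
    rw [hQ, Finset.mem_filter] at hq
    exact hv q hq.1 hq.2
  have hnorm : ∀ x : E3, (s * A x 0) ^ 2 + (s * A x 1) ^ 2 + (s * A x 2) ^ 2 =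
      s ^ 2 * ‖x‖ ^ 2 := by
    intro x
    rw [← A.norm_map x, EuclideanSpace.norm_sq_eq, Fin.sum_univ_three]
    simp only [Real.norm_eq_abs, sq_abs]
    ring
  -- norms
  have hN : ∀ q ∈ Q, (v q).1 ^ 2 + (v q).2.1 ^ 2 + (v q).2.2 ^ 2 = (R.N : ℤ) := by
    intro q hq
    obtain ⟨e0, e1, e2⟩ := hvQ q hq
    have hd : ‖q - p‖ = 2 * r := by
      rw [← dist_eq_norm, dist_comm]; exact (Finset.mem_filter.1 hq).2
    have h1 := hnorm (q - p)
    rw [e0, e1, e2, hd, hs2] at h1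
    exact_mod_cast h1
  -- separation
  have hS : ∀ q ∈ Q, ∀ q' ∈ Q, q ≠ q' →
      2 * ((v q).1 * (v q').1 + (v q).2.1 * (v q').2.1 + (v q).2.2 * (v q').2.2) ≤
        (R.N : ℤ) := by
    intro q hq q' hq' hne
    obtain ⟨e0, e1, e2⟩ := hvQ q hq
    obtain ⟨f0, f1, f2⟩ := hvQ q' hq'
    have hd : 2 * r ≤ ‖q - q'‖ := by
      rw [← dist_eq_norm]
      exact hsep q (Finset.mem_filter.1 hq).1 q' (Finset.mem_filter.1 hq').1 hne
    have h1 := hnorm (q - q')
    have h2 : ∀ i, s * A (q - q') i = s * A (q - p) i - s * A (q' - p) i := by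
      intro i
      have : q - q' = (q - p) - (q' - p) := by abel
      rw [this, map_sub]
      simp only [PiLp.sub_apply]
      ring
    rw [h2 0, h2 1, h2 2, e0, e1, e2, f0, f1, f2] at h1
    have h3 : s ^ 2 * (2 * r) ^ 2 ≤ s ^ 2 * ‖q - q'‖ ^ 2 := by
      apply mul_le_mul_of_nonneg_left _ (by positivity)
      exact pow_le_pow_left₀ (by positivity) hd 2
    rw [hs2, ← h1] at h3
    have h4 : ((v q).1 : ℝ) ^ 2 + ((v q).2.1 : ℝ) ^ 2 + ((v q).2.2 : ℝ) ^ 2 = (R.N : ℝ) := by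
      exact_mod_cast hN q hq
    have h5 : ((v q').1 : ℝ) ^ 2 + ((v q').2.1 : ℝ) ^ 2 + ((v q').2.2 : ℝ) ^ 2 =
        (R.N : ℝ) := by
      exact_mod_cast hN q' hq'
    have h6 : 2 * (((v q).1 : ℝ) * (v q').1 + (v q).2.1 * (v q').2.1 +
        (v q).2.2 * (v q').2.2) ≤ (R.N : ℝ) := by nlinarith
    exact_mod_cast h6
  have hinj : Set.InjOn v Q := by
    intro q hq q' hq' hvv
    by_contra hne
    have h1 := hS q hq q' hq' hne
    have h2 := hN q hq
    rw [← hvv] at h1
    have h3 : (0 : ℤ) < R.N := by exact_mod_cast hR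
    nlinarith
  have hcard := core h (Q.image v) (by
      intro w hw
      obtain ⟨q, hq, rfl⟩ := Finset.mem_image.1 hw
      exact hN q hq) (by
      intro w hw
      obtain ⟨q, hq, rfl⟩ := Finset.mem_image.1 hw
      obtain ⟨e0, e1, e2⟩ := hvQ q hq
      have hm := hmax q (Finset.mem_filter.1 hq).1
      have h2 : ∀ i, A (q - p) i = A q i - A p i := by
        intro i
        rw [map_sub]; simp only [PiLp.sub_apply]
      have h3 : (R.a : ℝ) * (v q).1 + R.b * (v q).2.1 + R.c * (v q).2.2 ≤ 0 := by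
        rw [← e0, ← e1, ← e2, h2 0, h2 1, h2 2]
        have : (R.a : ℝ) * (s * (A q 0 - A p 0)) + R.b * (s * (A q 1 - A p 1)) +
            R.c * (s * (A q 2 - A p 2)) = s * (((R.a : ℝ) * A q 0 + R.b * A q 1 + R.c * A q 2)
              - ((R.a : ℝ) * A p 0 + R.b * A p 1 + R.c * A p 2)) := by ring
        rw [this]
        exact mul_nonpos_of_nonneg_of_nonpos hs0.le (by linarith)
      exact_mod_cast h3) (by
      intro w hw w' hw' hne
      obtain ⟨q, hq, rfl⟩ := Finset.mem_image.1 hw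
      obtain ⟨q', hq', rfl⟩ := Finset.mem_image.1 hw'
      exact hS q hq q' hq' (fun e => hne (by rw [e])))
  rwa [Finset.card_image_of_injOn hinj] at hcard

end Pool.Agent.Lib.MPe4ee32.IP
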