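import Pool.Agent.Lib.MP_e4ee32_co.IP.Check

/-! Integer packings (MP_e4ee32_co): rows of the table, checked by the kernel. -/

namespace Pool.Agent.Lib.MPe4ee32.IP.D7a

def row1 : Row := ⟨1, 100, 10, 1, [(11, 12, 12), (12, 11, 12), (12, 12, 11)]⟩
def row2 : Row := ⟨2, 100, 10, 1, [(11, 11, 12), (11, 12, 11), (11, 12, 13), (11, 13, 12), (12, 11, 11), (12, 11, 13)]⟩
def row3 : Row := ⟨3, 100, 10, 1, [(11, 11, 11), (11, 11, 13), (11, 13, 11), (11, 13, 13)]⟩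
def row4 : Row := ⟨4, 100, 10, 1, [(10, 12, 12), (12, 10, 12), (12, 12, 10)]⟩
def row5 : Row := ⟨5, 215, 78, 50, [(10, 11, 12), (10, 12, 11), (10, 12, 13), (10, 13, 12), (11, 10, 12), (11, 12, 10), (11, 12, 14), (11, 14, 12), (12, 10, 11), (12, 10, 13), (12, 11, 10), (12, 13, 10)]⟩
def row6 : Row := ⟨6, 340, 65, 46, [(10, 11, 11), (10, 11, 13), (10, 13, 11), (10, 13, 13), (11, 10, 11), (11, 10, 13), (11, 11, 10), (11, 11, 14), (11, 13, 10), (11, 13, 14), (11, 14, 11), (11, 14, 13)]⟩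
def row7 : Row := ⟨7, 100, 10, 1, []⟩
def row8 : Row := ⟨8, 100, 10, 1, [(10, 10, 12), (10, 12, 10), (10, 12, 14), (10, 14, 12), (12, 10, 10), (12, 10, 14)]⟩
def row9 : Row := ⟨9, 347, 249, 54, [(9, 12, 12), (10, 10, 11), (10, 10, 13), (10, 11, 10), (10, 11, 14), (10, 13, 10), (10, 13, 14), (10, 14, 11), (10, 14, 13), (11, 10, 10), (11, 10, 14), (12, 9, 12), (12, 12, 9), (13, 10, 10), (13, 10, 14)]⟩
def row10 : Row := ⟨10, 340, 335, 92, [(9, 11, 12), (9, 12, 11), (9, 12, 13), (9, 13, 12), (11, 9, 12), (11, 12, 9), (11, 12, 15), (12, 9, 11), (12, 9, 13), (12, 11, 9), (12, 11, 15), (13, 9, 12)]⟩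
def row11 : Row := ⟨11, 108, 79, 1, [(9, 11, 11), (9, 11, 13), (9, 13, 11), (9, 13, 13), (11, 9, 11), (11, 9, 13), (11, 11, 9), (11, 11, 15), (11, 13, 9), (11, 13, 15), (13, 9, 11), (13, 9, 13)]⟩
def row12 : Row := ⟨12, 100, 10, 1, [(10, 10, 10), (10, 10, 14), (10, 14, 10), (10, 14, 14)]⟩
def row13 : Row := ⟨13, 285, 219, 52, [(9, 10, 12), (9, 12, 10), (9, 12, 14), (9, 14, 12), (10, 9, 12), (10, 12, 9), (10, 12, 15), (12, 9, 10), (12, 9, 14), (12, 10, 9), (12, 10, 15), (14, 9, 12)]⟩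
def row14 : Row := ⟨14, 351, 98, 2, [(9, 10, 11), (9, 10, 13), (9, 11, 10), (9, 11, 14), (9, 13, 10), (9, 13, 14), (9, 14, 11), (9, 14, 13), (10, 9, 11), (10, 9, 13), (10, 11, 9), (10, 11, 15), (10, 13, 9), (10, 13, 15), (10, 15, 11), (10, 15, 13), (11, 9, 10), (11, 9, 14), (11, 10, 9), (11, 10, 15), (11, 14, 9), (11, 14, 15), (11, 15, 10), (11, 15, 14)]⟩
def row15 : Row := ⟨15, 100, 10, 1, []⟩
def row16 : Row := ⟨16, 100, 10, 1, [(8, 12, 12), (12, 8, 12), (12, 12, 8)]⟩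
def row17 : Row := ⟨17, 314, 280, 227, [(8, 11, 12), (8, 12, 11), (8, 12, 13), (8, 13, 12), (9, 10, 10), (9, 10, 14), (9, 14, 10), (10, 9, 10), (10, 9, 14), (10, 10, 9), (10, 10, 15), (10, 14, 9), (10, 15, 10), (11, 8, 12), (11, 12, 8), (12, 8, 11), (12, 8, 13), (12, 11, 8), (12, 13, 8), (13, 8, 12), (13, 12, 8), (14, 9, 10), (14, 10, 9), (15, 10, 10)]⟩
def row18 : Row := ⟨18, 369, 123, 18, [(8, 11, 11), (8, 11, 13), (8, 13, 11), (8, 13, 13), (9, 9, 12), (9, 12, 9), (9, 12, 15), (9, 15, 12), (11, 8, 11), (11, 8, 13), (11, 11, 8), (11, 11, 16), (11, 13, 8), (11, 13, 16), (12, 9, 9), (12, 9, 15), (13, 8, 11), (13, 8, 13)]⟩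
def row19 : Row := ⟨19, 271, 189, 43, [(9, 9, 11), (9, 9, 13), (9, 11, 9), (9, 11, 15), (9, 13, 9), (9, 13, 15), (9, 15, 11), (9, 15, 13), (11, 9, 9), (11, 9, 15), (13, 9, 9), (13, 9, 15)]⟩
def row20 : Row := ⟨20, 346, 76, 51, [(8, 10, 12), (8, 12, 10), (8, 12, 14), (8, 14, 12), (10, 8, 12), (10, 12, 8), (10, 12, 16), (10, 16, 12), (12, 8, 10), (12, 8, 14), (12, 10, 8), (12, 14, 8)]⟩
def row21 : Row := ⟨21, 303, 100, 95, [(8, 10, 11), (8, 10, 13), (8, 11, 10), (8, 11, 14), (8, 13, 10), (8, 13, 14), (8, 14, 11), (8, 14, 13), (10, 8, 11), (10, 8, 13), (10, 11, 8), (10, 11, 16), (10, 13, 8), (10, 13, 16), (10, 16, 11), (10, 16, 13), (11, 8, 10), (11, 8, 14), (11, 10, 8), (11, 10, 16), (11, 14, 8), (11, 16, 10), (13, 8, 10), (13, 10, 8)]⟩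
def row22 : Row := ⟨22, 352, 343, 180, [(9, 9, 10), (9, 9, 14), (9, 10, 9), (9, 10, 15), (9, 14, 9), (9, 15, 10), (10, 9, 9), (10, 9, 15), (10, 15, 9), (14, 9, 9), (15, 9, 10), (15, 10, 9)]⟩
def row23 : Row := ⟨23, 100, 10, 1, []⟩
def row24 : Row := ⟨24, 307, 185, 14, [(8, 10, 10), (8, 10, 14), (8, 14, 10), (8, 14, 14), (10, 8, 10), (10, 8, 14), (10, 10, 8), (10, 10, 16), (10, 14, 8), (10, 14, 16), (14, 8, 10), (14, 8, 14)]⟩
def row25 : Row := ⟨25, 363, 351, 50, [(7, 12, 12), (8, 9, 12), (8, 12, 9), (8, 12, 15), (8, 15, 12), (9, 8, 12), (9, 12, 8), (9, 12, 16), (12, 7, 12), (12, 8, 9), (12, 8, 15), (12, 9, 8), (12, 9, 16), (12, 12, 7), (15, 8, 12)]⟩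
def row26 : Row := ⟨26, 227, 63, 58, [(7, 11, 12), (7, 12, 11), (7, 12, 13), (7, 13, 12), (8, 9, 11), (8, 9, 13), (8, 11, 9), (8, 11, 15), (8, 13, 9), (8, 13, 15), (8, 15, 11), (8, 15, 13), (9, 8, 11), (9, 8, 13), (9, 11, 8), (9, 11, 16), (9, 13, 8), (9, 13, 16), (9, 16, 11), (9, 16, 13), (11, 7, 12), (11, 8, 9), (11, 8, 15), (11, 9, 8), (11, 9, 16), (11, 12, 7), (11, 15, 8), (11, 16, 9), (12, 7, 11), (12, 7, 13), (12, 11, 7), (12, 13, 7), (13, 7, 12), (13, 8, 9), (13, 9, 8), (13, 12, 7)]⟩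
def row27 : Row := ⟨27, 259, 237, 141, [(7, 11, 11), (7, 11, 13), (7, 13, 11), (7, 13, 13), (9, 9, 9), (9, 9, 15), (9, 15, 9), (11, 7, 11), (11, 7, 13), (11, 11, 7), (11, 13, 7), (13, 7, 11), (13, 7, 13), (13, 11, 7), (13, 13, 7), (15, 9, 9)]⟩
def row28 : Row := ⟨28, 100, 10, 1, []⟩
def row29 : Row := ⟨29, 227, 221, 164, [(7, 10, 12), (7, 12, 10), (7, 12, 14), (7, 14, 12), (8, 9, 10), (8, 9, 14), (8, 10, 9), (8, 10, 15), (8, 14, 9), (8, 15, 10), (9, 8, 10), (9, 8, 14), (9, 10, 8), (9, 10, 16), (9, 14, 8), (9, 16, 10), (10, 7, 12), (10, 8, 9), (10, 8, 15), (10, 9, 8), (10, 9, 16), (10, 12, 7), (10, 15, 8), (10, 16, 9), (12, 7, 10), (12, 7, 14), (12, 10, 7), (12, 14, 7), (14, 7, 12), (14, 8, 9), (14, 9, 8), (14, 12, 7), (15, 8, 10), (15, 10, 8), (16, 9, 10), (16, 10, 9)]⟩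
def row30 : Row := ⟨30, 352, 271, 192, [(7, 10, 11), (7, 10, 13), (7, 11, 10), (7, 11, 14), (7, 13, 10), (7, 13, 14), (7, 14, 11), (7, 14, 13), (10, 7, 11), (10, 7, 13), (10, 11, 7), (10, 11, 17), (10, 13, 7), (11, 7, 10), (11, 7, 14), (11, 10, 7), (11, 14, 7), (13, 7, 10), (13, 7, 14), (13, 10, 7), (13, 14, 7), (14, 7, 11), (14, 7, 13), (14, 11, 7)]⟩
def row31 : Row := ⟨31, 100, 10, 1, []⟩
def row32 : Row := ⟨32, 100, 10, 1, [(8, 8, 12), (8, 12, 8), (8, 12, 16), (8, 16, 12), (12, 8, 8), (12, 8, 16)]⟩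
def row33 : Row := ⟨33, 381, 35, 8, [(7, 10, 10), (7, 10, 14), (7, 14, 10), (7, 14, 14), (8, 8, 11), (8, 8, 13), (8, 11, 8), (8, 11, 16), (8, 13, 8), (8, 13, 16), (8, 16, 11), (8, 16, 13), (10, 7, 10), (10, 7, 14), (10, 10, 7), (10, 10, 17), (10, 14, 7), (10, 14, 17), (10, 17, 10), (10, 17, 14), (11, 8, 8), (11, 8, 16), (11, 16, 8), (11, 16, 16)]⟩
def row34 : Row := ⟨34, 197, 193, 167, [(7, 9, 12), (7, 12, 9), (7, 12, 15), (7, 15, 12), (8, 9, 9), (8, 9, 15), (8, 15, 9), (9, 7, 12), (9, 8, 9), (9, 8, 15), (9, 9, 8), (9, 9, 16), (9, 12, 7), (9, 15, 8), (9, 16, 9), (12, 7, 9), (12, 7, 15), (12, 9, 7), (12, 15, 7), (15, 7, 12), (15, 8, 9), (15, 9, 8), (15, 12, 7), (16, 9, 9)]⟩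
def row35 : Row := ⟨35, 397, 373, 24, [(7, 9, 11), (7, 9, 13), (7, 11, 9), (7, 11, 15), (7, 13, 9), (7, 13, 15), (7, 15, 11), (7, 15, 13), (9, 7, 11), (9, 7, 13), (9, 11, 7), (9, 11, 17), (9, 13, 7), (9, 13, 17), (11, 7, 9), (11, 7, 15), (11, 9, 7), (11, 9, 17), (13, 7, 9), (13, 7, 15), (13, 9, 7), (13, 9, 17), (15, 7, 11), (15, 7, 13)]⟩
def row36 : Row := ⟨36, 153, 104, 1, [(6, 12, 12), (8, 8, 10), (8, 8, 14), (8, 10, 8), (8, 10, 16), (8, 14, 8), (8, 14, 16), (8, 16, 10), (8, 16, 14), (10, 8, 8), (10, 8, 16), (12, 6, 12), (12, 12, 6), (14, 8, 8), (14, 8, 16)]⟩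
def row37 : Row := ⟨37, 361, 225, 44, [(6, 11, 12), (6, 12, 11), (6, 12, 13), (6, 13, 12), (11, 6, 12), (11, 12, 6), (11, 12, 18), (12, 6, 11), (12, 6, 13), (12, 11, 6), (12, 13, 6), (13, 6, 12)]⟩
def row38 : Row := ⟨38, 386, 113, 46, [(6, 11, 11), (6, 11, 13), (6, 13, 11), (6, 13, 13), (7, 9, 10), (7, 9, 14), (7, 10, 9), (7, 10, 15), (7, 14, 9), (7, 14, 15), (7, 15, 10), (7, 15, 14), (9, 7, 10), (9, 7, 14), (9, 10, 7), (9, 10, 17), (9, 14, 7), (9, 14, 17), (9, 17, 10), (9, 17, 14), (10, 7, 9), (10, 7, 15), (10, 9, 7), (10, 9, 17), (10, 15, 7), (10, 15, 17), (10, 17, 9), (10, 17, 15), (11, 6, 11), (11, 6, 13), (11, 11, 6), (11, 11, 18), (11, 13, 6), (13, 6, 11), (13, 6, 13), (13, 11, 6)]⟩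
def row39 : Row := ⟨39, 100, 10, 1, []⟩
def row40 : Row := ⟨40, 308, 176, 93, [(6, 10, 12), (6, 12, 10), (6, 12, 14), (6, 14, 12), (10, 6, 12), (10, 12, 6), (10, 12, 18), (12, 6, 10), (12, 6, 14), (12, 10, 6), (12, 14, 6), (14, 6, 12)]⟩
def row41 : Row := ⟨41, 394, 75, 59, [(6, 10, 11), (6, 10, 13), (6, 11, 10), (6, 11, 14), (6, 13, 10), (6, 13, 14), (6, 14, 11), (6, 14, 13), (7, 8, 12), (7, 12, 8), (7, 12, 16), (7, 16, 12), (8, 7, 12), (8, 8, 9), (8, 8, 15), (8, 9, 8), (8, 9, 16), (8, 12, 7), (8, 12, 17), (8, 15, 8), (8, 15, 16), (8, 16, 9), (8, 16, 15), (8, 17, 12), (9, 8, 8), (9, 8, 16), (9, 16, 8), (9, 16, 16), (10, 6, 11), (10, 6, 13), (10, 11, 6), (10, 11, 18), (10, 13, 6), (10, 13, 18), (10, 18, 11), (10, 18, 13), (11, 6, 10), (11, 6, 14), (11, 10, 6), (11, 10, 18), (11, 14, 6), (11, 18, 10), (12, 7, 8), (12, 7, 16), (12, 8, 7), (12, 8, 17), (13, 6, 10),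 (13, 10, 6)]⟩
def row42 : Row := ⟨42, 355, 22, 14, [(7, 8, 11), (7, 8, 13), (7, 11, 8), (7, 11, 16), (7, 13, 8), (7, 13, 16), (7, 16, 11), (7, 16, 13), (8, 7, 11), (8, 7, 13), (8, 11, 7), (8, 11, 17), (8, 13, 7), (8, 13, 17), (8, 17, 11), (8, 17, 13), (11, 7, 8), (11, 7, 16), (11, 8, 7), (11, 8, 17), (11, 16, 7), (11, 16, 17), (11, 17, 8), (11, 17, 16)]⟩
def row43 : Row := ⟨43, 270, 204, 38, [(7, 9, 9), (7, 9, 15), (7, 15, 9), (7, 15, 15), (9, 7, 9), (9, 7, 15), (9, 9, 7), (9, 9, 17), (9, 15, 7), (9, 15, 17), (15, 7, 9), (15, 7, 15)]⟩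
def row44 : Row := ⟨44, 382, 352, 86, [(6, 10, 10), (6, 10, 14), (6, 14, 10), (6, 14, 14), (10, 6, 10), (10, 6, 14), (10, 10, 6), (10, 10, 18), (10, 14, 6), (14, 6, 10), (14, 6, 14), (14, 10, 6)]⟩
def row45 : Row := ⟨45, 374, 342, 328, [(6, 9, 12), (6, 12, 9), (6, 12, 15), (6, 15, 12), (7, 8, 10), (7, 8, 14), (7, 10, 8), (7, 10, 16), (7, 14, 8), (7, 16, 10), (8, 7, 10), (8, 7, 14), (8, 10, 7), (8, 10, 17), (8, 14, 7), (8, 17, 10), (9, 6, 12), (9, 12, 6), (10, 7, 8), (10, 7, 16), (10, 8, 7), (10, 8, 17), (10, 16, 7), (10, 17, 8), (12, 6, 9), (12, 6, 15), (12, 9, 6), (12, 15, 6), (14, 7, 8), (14, 8, 7), (15, 6, 12), (15, 12, 6), (16, 7, 10), (16, 10, 7), (17, 8, 10), (17, 10, 8)]⟩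
def row46 : Row := ⟨46, 80, 46, 15, [(6, 9, 11), (6, 9, 13), (6, 11, 9), (6, 11, 15), (6, 13, 9), (6, 13, 15), (6, 15, 11), (6, 15, 13), (9, 6, 11), (9, 6, 13), (9, 11, 6), (9, 11, 18), (9, 13, 6), (9, 13, 18), (11, 6, 9), (11, 6, 15), (11, 9, 6), (11, 9, 18), (11, 15, 6), (13, 6, 9), (13, 6, 15), (13, 9, 6), (15, 6, 11), (15, 6, 13)]⟩
def row47 : Row := ⟨47, 100, 10, 1, []⟩
def row48 : Row := ⟨48, 100, 10, 1, [(8, 8, 8), (8, 8, 16), (8, 16, 8), (8, 16, 16)]⟩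
def row49 : Row := ⟨49, 342, 304, 287, [(5, 12, 12), (6, 9, 10), (6, 9, 14), (6, 10, 9), (6, 10, 15), (6, 14, 9), (6, 14, 15), (6, 15, 10), (6, 15, 14), (9, 6, 10), (9, 6, 14), (9, 10, 6), (9, 14, 6), (10, 6, 9), (10, 6, 15), (10, 9, 6), (10, 15, 6), (12, 5, 12), (12, 12, 5), (14, 6, 9), (14, 6, 15), (14, 9, 6), (14, 15, 6), (15, 6, 10), (15, 6, 14), (15, 10, 6), (15, 14, 6)]⟩
def row50 : Row := ⟨50, 345, 49, 2, [(5, 11, 12), (5, 12, 11), (5, 12, 13), (5, 13, 12), (7, 7, 12), (7, 8, 9), (7, 8, 15), (7, 9, 8), (7, 9, 16), (7, 12, 7), (7, 12, 17), (7, 15, 8), (7, 15, 16), (7, 16, 9), (7, 16, 15), (7, 17, 12), (8, 7, 9), (8, 7, 15), (8, 9, 7), (8, 9, 17), (8, 15, 7), (8, 15, 17), (8, 17, 9), (8, 17, 15), (9, 7, 8), (9, 7, 16), (9, 8, 7), (9, 8, 17), (9, 16, 7), (9, 16, 17), (9, 17, 8), (9, 17, 16), (11, 5, 12), (11, 12, 5), (11, 12, 19), (11, 19, 12), (12, 5, 11),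 (12, 5, 13), (12, 7, 7), (12, 7, 17), (12, 11, 5), (12, 11, 19)]⟩
def row51 : Row := ⟨51, 226, 125, 57, [(5, 11, 11), (5, 11, 13), (5, 13, 11), (5, 13, 13), (7, 7, 11), (7, 7, 13), (7, 11, 7), (7, 11, 17), (7, 13, 7), (7, 13, 17), (7, 17, 11), (7, 17, 13), (11, 5, 11), (11, 5, 13), (11, 7, 7), (11, 7, 17), (11, 11, 5), (11, 13, 5), (13, 5, 11), (13, 5, 13), (13, 7, 7), (13, 7, 17), (13, 11, 5), (13, 13, 5)]⟩
def row52 : Row := ⟨52, 286, 244, 30, [(6, 8, 12), (6, 12, 8), (6, 12, 16), (6, 16, 12), (8, 6, 12), (8, 12, 6), (8, 12, 18), (12, 6, 8), (12, 6, 16), (12, 8, 6), (12, 8, 18), (16, 6, 12)]⟩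
def row53 : Row := ⟨53, 387, 359, 162, [(5, 10, 12), (5, 12, 10), (5, 12, 14), (5, 14, 12), (6, 8, 11), (6, 8, 13), (6, 11, 8), (6, 11, 16), (6, 13, 8), (6, 13, 16), (6, 16, 11), (6, 16, 13), (8, 6, 11), (8, 6, 13), (8, 11, 6), (8, 11, 18), (8, 13, 6), (8, 13, 18), (10, 5, 12), (10, 12, 5), (11, 6, 8), (11, 6, 16), (11, 8, 6), (11, 8, 18), (12, 5, 10), (12, 5, 14), (12, 10, 5), (12, 14, 5), (13, 6, 8), (13, 6, 16), (13, 8, 6), (13, 8, 18), (14, 5, 12), (14, 12, 5), (16, 6, 11), (16, 6, 13)]⟩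
def row54 : Row := ⟨54, 363, 32, 31, [(5, 10, 11), (5, 10, 13), (5, 11, 10), (5, 11, 14), (5, 13, 10), (5, 13, 14), (5, 14, 11), (5, 14, 13), (6, 9, 9), (6, 9, 15), (6, 15, 9), (6, 15, 15), (7, 7, 10), (7, 7, 14), (7, 10, 7), (7, 10, 17), (7, 14, 7), (7, 14, 17), (7, 17, 10), (7, 17, 14), (9, 6, 9), (9, 6, 15), (9, 9, 6), (9, 9, 18), (9, 15, 6), (9, 15, 18), (9, 18, 9), (9, 18, 15), (10, 5, 11), (10, 5, 13), (10, 7, 7), (10, 7, 17), (10, 11, 5), (10, 11, 19), (10, 13, 5), (10, 13, 19), (10, 17, 7), (10, 17, 17), (10, 19, 11), (10, 19, 13), (11, 5, 10), (11, 5, 14), (11, 10, 5), (11, 10, 19), (11, 14, 5), (11, 14, 19), (11, 19, 10), (11, 19, 14)]⟩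
def row55 : Row := ⟨55, 100, 10, 1, []⟩
def row56 : Row := ⟨56, 390, 206, 203, [(6, 8, 10), (6, 8, 14), (6, 10, 8), (6, 10, 16), (6, 14, 8), (6, 14, 16), (6, 16, 10), (6, 16, 14), (8, 6, 10), (8, 6, 14), (8, 10, 6), (8, 10, 18), (8, 14, 6), (8, 18, 10), (10, 6, 8), (10, 6, 16), (10, 8, 6), (10, 8, 18), (10, 16, 6), (10, 18, 8), (14, 6, 8), (14, 8, 6), (16, 6, 10), (16, 10, 6)]⟩
def row57 : Row := ⟨57, 383, 125, 5, [(5, 10, 10), (5, 10, 14), (5, 14, 10), (5, 14, 14), (7, 8, 8), (7, 8, 16), (7, 16, 8), (7, 16, 16), (8, 7, 8), (8, 7, 16), (8, 8, 7), (8, 8, 17), (8, 16, 7), (8, 16, 17), (8, 17, 8), (8, 17, 16), (10, 5, 10), (10, 5, 14), (10, 10, 5), (10, 10, 19), (10, 14, 5), (10, 14, 19), (14, 5, 10), (14, 5, 14)]⟩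
def row58 : Row := ⟨58, 323, 74, 0, [(5, 9, 12), (5, 12, 9), (5, 12, 15), (5, 15, 12), (9, 5, 12), (9, 12, 5), (9, 12, 19), (9, 19, 12), (12, 5, 9), (12, 5, 15), (12, 9, 5), (12, 9, 19)]⟩
def row59 : Row := ⟨59, 184, 18, 1, [(5, 9, 11), (5, 9, 13), (5, 11, 9), (5, 11, 15), (5, 13, 9), (5, 13, 15), (5, 15, 11), (5, 15, 13), (7, 7, 9), (7, 7, 15), (7, 9, 7), (7, 9, 17), (7, 15, 7), (7, 15, 17), (7, 17, 9), (7, 17, 15), (9, 5, 11), (9, 5, 13), (9, 7, 7), (9, 7, 17), (9, 11, 5), (9, 11, 19), (9, 13, 5), (9, 13, 19), (9, 17, 7), (9, 17, 17), (9, 19, 11), (9, 19, 13), (11, 5, 9), (11, 5, 15), (11, 9, 5), (11, 9, 19), (11, 15, 5), (11, 15, 19), (11, 19, 9), (11, 19, 15)]⟩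
def row60 : Row := ⟨60, 100, 10, 1, []⟩
def row61 : Row := ⟨61, 169, 157, 121, [(6, 7, 12), (6, 8, 9), (6, 8, 15), (6, 9, 8), (6, 9, 16), (6, 12, 7), (6, 12, 17), (6, 15, 8), (6, 15, 16), (6, 16, 9), (6, 16, 15), (6, 17, 12), (7, 6, 12), (7, 12, 6), (7, 12, 18), (8, 6, 9), (8, 6, 15), (8, 9, 6), (8, 9, 18), (8, 15, 6), (8, 18, 9), (9, 6, 8), (9, 6, 16), (9, 8, 6), (9, 8, 18), (9, 16, 6), (9, 18, 8), (12, 6, 7), (12, 6, 17), (12, 7, 6), (12, 7, 18), (15, 6, 8), (15, 8, 6), (16, 6, 9), (16, 9, 6), (17, 6, 12)]⟩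
def row62 : Row := ⟨62, 337, 41, 12, [(5, 9, 10), (5, 9, 14), (5, 10, 9), (5, 10, 15), (5, 14, 9), (5, 14, 15), (5, 15, 10), (5, 15, 14), (6, 7, 11), (6, 7, 13), (6, 11, 7), (6, 11, 17), (6, 13, 7), (6, 13, 17), (6, 17, 11), (6, 17, 13), (7, 6, 11), (7, 6, 13), (7, 11, 6), (7, 11, 18), (7, 13, 6), (7, 13, 18), (7, 18, 11), (7, 18, 13), (9, 5, 10), (9, 5, 14), (9, 10, 5), (9, 10, 19), (9, 14, 5), (9, 14, 19), (9, 19, 10), (9, 19, 14), (10, 5, 9), (10, 5, 15), (10, 9, 5), (10, 9, 19), (10, 15, 5), (10, 15, 19), (10, 19, 9), (10, 19, 15), (11, 6, 7), (11, 6, 17), (11, 7, 6), (11, 7, 18), (11, 17, 6), (11, 17, 18), (11, 18, 7), (11, 18, 17)]⟩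
def row63 : Row := ⟨63, 100, 10, 1, []⟩
def row64 : Row := ⟨64, 100, 10, 1, [(4, 12, 12), (12, 4, 12), (12, 12, 4)]⟩
def row65 : Row := ⟨65, 206, 186, 184, [(4, 11, 12), (4, 12, 11), (4, 12, 13), (4, 13, 12), (5, 8, 12), (5, 12, 8), (5, 12, 16), (5, 16, 12), (6, 7, 10), (6, 7, 14), (6, 10, 7), (6, 10, 17), (6, 14, 7), (6, 17, 10), (7, 6, 10), (7, 6, 14), (7, 10, 6), (7, 10, 18), (7, 14, 6), (7, 18, 10), (8, 5, 12), (8, 12, 5), (10, 6, 7), (10, 6, 17), (10, 7, 6), (10, 7, 18), (10, 17, 6), (10, 18, 7), (11, 4, 12), (11, 12, 4), (12, 4, 11), (12, 4, 13), (12, 5, 8), (12, 5, 16), (12, 8, 5), (12, 11, 4), (12, 13, 4), (12, 16, 5), (13, 4, 12), (13, 12, 4), (14, 6, 7), (14, 7, 6), (16, 5, 12), (16, 12, 5), (17, 6, 10), (17, 10, 6), (18, 7, 10), (18, 10, 7)]⟩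
def row66 : Row := ⟨66, 309, 75, 14, [(4, 11, 11), (4, 11, 13), (4, 13, 11), (4, 13, 13), (5, 8, 11), (5, 8, 13), (5, 11, 8), (5, 11, 16), (5, 13, 8), (5, 13, 16), (5, 16, 11), (5, 16, 13), (7, 7, 8), (7, 7, 16), (7, 8, 7), (7, 8, 17), (7, 16, 7), (7, 16, 17), (7, 17, 8), (7, 17, 16), (8, 5, 11), (8, 5, 13), (8, 7, 7), (8, 7, 17), (8, 11, 5), (8, 11, 19), (8, 13, 5), (8, 13, 19), (8, 17, 7), (8, 17, 17), (8, 19, 11), (8, 19, 13), (11, 4, 11), (11, 4, 13), (11, 5, 8), (11, 5, 16), (11, 8, 5), (11, 8, 19), (11, 11, 4), (11, 11, 20), (11, 13, 4), (11, 13, 20), (11, 16, 5), (13, 4, 11), (13, 4, 13), (13, 5, 8), (13, 5, 16), (13, 8, 5)]⟩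
def row67 : Row := ⟨67, 253, 129, 1, [(5, 9, 9), (5, 9, 15), (5, 15, 9), (5, 15, 15), (9, 5, 9), (9, 5, 15), (9, 9, 5), (9, 9, 19), (9, 15, 5), (9, 15, 19), (15, 5, 9), (15, 5, 15)]⟩
def row68 : Row := ⟨68, 328, 113, 74, [(4, 10, 12), (4, 12, 10), (4, 12, 14), (4, 14, 12), (6, 8, 8), (6, 8, 16), (6, 16, 8), (6, 16, 16), (8, 6, 8), (8, 6, 16), (8, 8, 6), (8, 8, 18), (8, 16, 6), (8, 16, 18), (8, 18, 8), (8, 18, 16), (10, 4, 12), (10, 12, 4), (10, 12, 20), (12, 4, 10), (12, 4, 14), (12, 10, 4), (12, 14, 4), (14, 4, 12)]⟩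
def row69 : Row := ⟨69, 393, 83, 37, [(4, 10, 11), (4, 10, 13), (4, 11, 10), (4, 11, 14), (4, 13, 10), (4, 13, 14), (4, 14, 11), (4, 14, 13), (5, 8, 10), (5, 8, 14), (5, 10, 8), (5, 10, 16), (5, 14, 8), (5, 14, 16), (5, 16, 10), (5, 16, 14), (8, 5, 10), (8, 5, 14), (8, 10, 5), (8, 10, 19), (8, 14, 5), (8, 14, 19), (8, 19, 10), (8, 19, 14), (10, 4, 11), (10, 4, 13), (10, 5, 8), (10, 5, 16), (10, 8, 5), (10, 8, 19), (10, 11, 4), (10, 11, 20), (10, 13, 4), (10, 13, 20), (10, 16, 5), (10, 16, 19), (10, 19, 8), (10, 19, 16), (10, 20, 11), (10, 20, 13), (11, 4, 10), (11, 4, 14), (11, 10, 4), (11, 10, 20), (11, 14, 4), (13, 4, 10), (13, 4, 14), (13, 10, 4)]⟩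
def row70 : Row := ⟨70, 232, 146, 131, [(6, 7, 9), (6, 7, 15), (6, 9, 7), (6, 9, 17), (6, 15, 7), (6, 15, 17), (6, 17, 9), (6, 17, 15), (7, 6, 9), (7, 6, 15), (7, 9, 6), (7, 9, 18), (7, 15, 6), (7, 18, 9), (9, 6, 7), (9, 6, 17), (9, 7, 6), (9, 7, 18), (9, 17, 6), (9, 18, 7), (15, 6, 7), (15, 7, 6), (17, 6, 9), (17, 9, 6)]⟩
def row71 : Row := ⟨71, 100, 10, 1, []⟩
def row72 : Row := ⟨72, 391, 149, 1, [(4, 10, 10), (4, 10, 14), (4, 14, 10), (4, 14, 14), (6, 6, 12), (6, 12, 6), (6, 12, 18), (6, 18, 12), (10, 4, 10), (10, 4, 14), (10, 10, 4), (10, 10, 20), (10, 14, 4), (10, 14, 20), (12, 6, 6), (12, 6, 18), (14, 4, 10), (14, 4, 14)]⟩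
def row73 : Row := ⟨73, 309, 22, 4, [(4, 9, 12), (4, 12, 9), (4, 12, 15), (4, 15, 12), (6, 6, 11), (6, 6, 13), (6, 11, 6), (6, 11, 18), (6, 13, 6), (6, 13, 18), (6, 18, 11), (6, 18, 13), (9, 4, 12), (9, 12, 4), (9, 12, 20), (9, 20, 12), (11, 6, 6), (11, 6, 18), (11, 18, 6), (11, 18, 18), (12, 4, 9), (12, 4, 15), (12, 9, 4), (12, 9, 20)]⟩
def row74 : Row := ⟨74, 396, 158, 20, [(4, 9, 11), (4, 9, 13), (4, 11, 9), (4, 11, 15), (4, 13, 9), (4, 13, 15), (4, 15, 11), (4, 15, 13), (5, 7, 12), (5, 8, 9), (5, 8, 15), (5, 9, 8), (5, 9, 16), (5, 12, 7), (5, 12, 17), (5, 15, 8), (5, 15, 16), (5, 16, 9), (5, 16, 15), (5, 17, 12), (7, 5, 12), (7, 12, 5), (7, 12, 19), (7, 19, 12), (8, 5, 9), (8, 5, 15), (8, 9, 5), (8, 9, 19), (8, 15, 5), (8, 15, 19), (8, 19, 9), (8, 19, 15), (9, 4, 11), (9, 4, 13), (9, 5, 8), (9, 5, 16), (9, 8, 5), (9, 8, 19), (9, 11, 4), (9, 11, 20), (9, 13,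 4), (9, 13, 20), (9, 16, 5), (9, 16, 19), (9, 19, 8), (9, 19, 16), (11, 4, 9), (11, 4, 15), (11, 9, 4), (11, 9, 20), (11, 15, 4), (12, 5, 7), (12, 5, 17), (12, 7, 5), (12, 7, 19), (13, 4, 9), (13, 4, 15), (13, 9, 4), (15, 4, 11), (15, 4, 13)]⟩
def row75 : Row := ⟨75, 306, 300, 279, [(5, 7, 11), (5, 7, 13), (5, 11, 7), (5, 11, 17), (5, 13, 7), (5, 13, 17), (5, 17, 11), (5, 17, 13), (7, 5, 11), (7, 5, 13), (7, 7, 7), (7, 7, 17), (7, 11, 5), (7, 13, 5), (7, 17, 7), (11, 5, 7), (11, 5, 17), (11, 7, 5), (11, 17, 5), (13, 5, 7), (13, 5, 17), (13, 7, 5), (13, 17, 5), (17, 5, 11), (17, 5, 13), (17, 7, 7), (17, 11, 5), (17, 13, 5)]⟩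
def row76 : Row := ⟨76, 350, 269, 83, [(6, 6, 10), (6, 6, 14), (6, 10, 6), (6, 10, 18), (6, 14, 6), (6, 14, 18), (6, 18, 10), (6, 18, 14), (10, 6, 6), (10, 6, 18), (14, 6, 6), (14, 6, 18)]⟩
def row77 : Row := ⟨77, 356, 55, 8, [(4, 9, 10), (4, 9, 14), (4, 10, 9), (4, 10, 15), (4, 14, 9), (4, 14, 15), (4, 15, 10), (4, 15, 14), (6, 7, 8), (6, 7, 16), (6, 8, 7), (6, 8, 17), (6, 16, 7), (6, 16, 17), (6, 17, 8), (6, 17, 16), (7, 6, 8), (7, 6, 16), (7, 8, 6), (7, 8, 18), (7, 16, 6), (7, 16, 18), (7, 18, 8), (7, 18, 16), (8, 6, 7), (8, 6, 17), (8, 7, 6), (8, 7, 18), (8, 17, 6), (8, 17, 18), (8, 18, 7), (8, 18, 17), (9, 4, 10), (9, 4, 14), (9, 10, 4), (9, 10, 20), (9, 14, 4), (9, 14, 20), (9, 20, 10), (9, 20, 14), (10, 4, 9), (10, 4, 15), (10, 9, 4), (10, 9, 20), (10, 15, 4), (10, 15, 20), (10, 20, 9), (10, 20, 15)]⟩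
def row78 : Row := ⟨78, 328, 276, 264, [(5, 7, 10), (5, 7, 14), (5, 10, 7), (5, 10, 17), (5, 14, 7), (5, 14, 17), (5, 17, 10), (5, 17, 14), (7, 5, 10), (7, 5, 14), (7, 10, 5), (7, 10, 19), (7, 14, 5), (7, 19, 10), (10, 5, 7), (10, 5, 17), (10, 7, 5), (10, 7, 19), (10, 17, 5), (10, 19, 7), (14, 5, 7), (14, 7, 5), (17, 5, 10), (17, 10, 5)]⟩
def row79 : Row := ⟨79, 100, 10, 1, []⟩
def row80 : Row := ⟨80, 161, 100, 43, [(4, 8, 12), (4, 12, 8), (4, 12, 16), (4, 16, 12), (8, 4, 12), (8, 12, 4), (8, 12, 20), (12, 4, 8), (12, 4, 16), (12, 8, 4), (12, 8, 20), (16, 4, 12)]⟩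
def row81 : Row := ⟨81, 76, 13, 1, [(3, 12, 12), (4, 8, 11), (4, 8, 13), (4, 11, 8), (4, 11, 16), (4, 13, 8), (4, 13, 16), (4, 16, 11), (4, 16, 13), (5, 8, 8), (5, 8, 16), (5, 16, 8), (5, 16, 16), (6, 6, 9), (6, 6, 15), (6, 9, 6), (6, 9, 18), (6, 15, 6), (6, 15, 18), (6, 18, 9), (6, 18, 15), (8, 4, 11), (8, 4, 13), (8, 5, 8), (8, 5, 16), (8, 8, 5), (8, 8, 19), (8, 11, 4), (8, 11, 20), (8, 13, 4), (8, 13, 20), (8, 16, 5), (8, 16, 19), (8, 19, 8), (8, 19, 16), (8, 20, 11), (8, 20, 13), (9, 6, 6), (9, 6, 18), (9, 18, 6), (9, 18, 18), (11, 4, 8), (11, 4, 16), (11, 8, 4), (11, 8, 20), (11, 16, 4), (11, 16, 20), (12, 3, 12), (12, 12, 3), (13, 4, 8), (13, 4, 16)]⟩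
def row82 : Row := ⟨82, 310, 283, 121, [(3, 11, 12), (3, 12, 11), (3, 12, 13), (3, 13, 12), (4, 9, 9), (4, 9, 15), (4, 15, 9), (4, 15, 15), (9, 4, 9), (9, 4, 15), (9, 9, 4), (9, 9, 20), (9, 15, 4), (11, 3, 12), (11, 12, 3), (12, 3, 11), (12, 3, 13), (12, 11, 3), (12, 13, 3), (13, 3, 12), (13, 12, 3), (15, 4, 9), (15, 4, 15), (15, 9, 4)]⟩
def row83 : Row := ⟨83, 352, 180, 60, [(3, 11, 11), (3, 11, 13), (3, 13, 11), (3, 13, 13), (5, 7, 9), (5, 7, 15), (5, 9, 7), (5, 9, 17), (5, 15, 7), (5, 15, 17), (5, 17, 9), (5, 17, 15), (7, 5, 9), (7, 5, 15), (7, 9, 5), (7, 9, 19), (7, 15, 5), (7, 15, 19), (7, 19, 9), (7, 19, 15), (9, 5, 7), (9, 5, 17), (9, 7, 5), (9, 7, 19), (9, 17, 5), (9, 19, 7), (11, 3, 11), (11, 3, 13), (11, 11, 3), (11, 13, 3), (13, 3, 11), (13, 3, 13), (13, 11, 3), (13, 13, 3), (15, 5, 7), (15, 7, 5)]⟩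
def row84 : Row := ⟨84, 331, 303, 67, [(4, 8, 10), (4, 8, 14), (4, 10, 8), (4, 10, 16), (4, 14, 8), (4, 14, 16), (4, 16, 10), (4, 16, 14), (8, 4, 10), (8, 4, 14), (8, 10, 4), (8, 10, 20), (8, 14, 4), (8, 14, 20), (10, 4, 8), (10, 4, 16), (10, 8, 4), (10, 8, 20), (14, 4, 8), (14, 4, 16), (14, 8, 4), (14, 8, 20), (16, 4, 10), (16, 4, 14)]⟩
def row85 : Row := ⟨85, 398, 365, 221, [(3, 10, 12), (3, 12, 10), (3, 12, 14), (3, 14, 12), (5, 6, 12), (5, 12, 6), (5, 12, 18), (5, 18, 12), (6, 5, 12), (6, 12, 5), (6, 12, 19), (10, 3, 12), (10, 12, 3), (12, 3, 10), (12, 3, 14), (12, 5, 6), (12, 5, 18), (12, 6, 5), (12, 6, 19), (12, 10, 3), (12, 14, 3), (14, 3, 12), (14, 12, 3), (18, 5, 12)]⟩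
def row86 : Row := ⟨86, 260, 159, 3, [(3, 10, 11), (3, 10, 13), (3, 11, 10), (3, 11, 14), (3, 13, 10), (3, 13, 14), (3, 14, 11), (3, 14, 13), (5, 6, 11), (5, 6, 13), (5, 11, 6), (5, 11, 18), (5, 13, 6), (5, 13, 18), (5, 18, 11), (5, 18, 13), (6, 5, 11), (6, 5, 13), (6, 7, 7), (6, 7, 17), (6, 11, 5), (6, 11, 19), (6, 13, 5), (6, 13, 19), (6, 17, 7), (6, 17, 17), (6, 19, 11), (6, 19, 13), (7, 6, 7), (7, 6, 17), (7, 7, 6), (7, 7, 18), (7, 17, 6), (7, 17, 18), (7, 18, 7), (7, 18, 17), (10, 3, 11), (10, 3, 13), (10, 11, 3), (10, 11, 21), (10, 13, 3), (10, 13, 21), (11, 3, 10), (11, 3, 14), (11, 5, 6), (11, 5, 18), (11, 6, 5), (11, 6, 19), (11, 10, 3), (11, 10, 21), (13, 3, 10), (13, 3, 14), (13, 5, 6), (13, 5, 18), (13, 6, 5), (13, 6, 19), (13, 10, 3), (13, 10, 21), (14, 3, 11), (14, 3, 13)]⟩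
def row87 : Row := ⟨87, 100, 10, 1, []⟩
def row88 : Row := ⟨88, 144, 113, 73, [(6, 6, 8), (6, 6, 16), (6, 8, 6), (6, 8, 18), (6, 16, 6), (6, 18, 8), (8, 6, 6), (8, 6, 18), (8, 18, 6), (16, 6, 6), (18, 6, 8), (18, 8, 6)]⟩
def row89 : Row := ⟨89, 333, 23, 2, [(3, 10, 10), (3, 10, 14), (3, 14, 10), (3, 14, 14), (4, 7, 12), (4, 8, 9), (4, 8, 15), (4, 9, 8), (4, 9, 16), (4, 12, 7), (4, 12, 17), (4, 15, 8), (4, 15, 16), (4, 16, 9), (4, 16, 15), (4, 17, 12), (5, 6, 10), (5, 6, 14), (5, 10, 6), (5, 10, 18), (5, 14, 6), (5, 14, 18), (5, 18, 10), (5, 18, 14), (6, 5, 10), (6, 5, 14), (6, 10, 5), (6, 10, 19), (6, 14, 5), (6, 14, 19), (6, 19, 10), (6, 19, 14), (7, 4, 12), (7, 12, 4), (7, 12, 20), (7, 20, 12), (8, 4, 9), (8, 4, 15), (8, 9, 4), (8, 9, 20), (8, 15, 4), (8, 15, 20), (8, 20, 9), (8, 20, 15), (9, 4, 8), (9, 4, 16), (9, 8, 4), (9, 8, 20), (9, 16, 4), (9, 16, 20),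 (9, 20, 8), (9, 20, 16), (10, 3, 10), (10, 3, 14), (10, 5, 6), (10, 5, 18), (10, 6, 5), (10, 6, 19), (10, 10, 3), (10, 10, 21), (10, 14, 3), (10, 14, 21), (10, 18, 5), (10, 18, 19), (10, 19, 6), (10, 19, 18), (10, 21, 10), (10, 21, 14), (12, 4, 7), (12, 4, 17), (12, 7, 4), (12, 7, 20)]⟩
def row90 : Row := ⟨90, 293, 85, 32, [(3, 9, 12), (3, 12, 9), (3, 12, 15), (3, 15, 12), (4, 7, 11), (4, 7, 13), (4, 11, 7), (4, 11, 17), (4, 13, 7), (4, 13, 17), (4, 17, 11), (4, 17, 13), (5, 7, 8), (5, 7, 16), (5, 8, 7), (5, 8, 17), (5, 16, 7), (5, 16, 17), (5, 17, 8), (5, 17, 16), (7, 4, 11), (7, 4, 13), (7, 5, 8), (7, 5, 16), (7, 8, 5), (7, 8, 19), (7, 11, 4), (7, 11, 20), (7, 13, 4), (7, 13, 20), (7, 16, 5), (7, 16, 19), (7, 19, 8), (7, 19, 16), (7, 20, 11), (7, 20, 13), (8, 5, 7), (8, 5, 17), (8, 7, 5), (8, 7, 19), (8, 17, 5), (8, 17, 19), (8, 19, 7), (8, 19, 17), (9, 3, 12),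 (9, 12, 3), (9, 12, 21), (9, 21, 12), (11, 4, 7), (11, 4, 17), (11, 7, 4), (11, 7, 20), (11, 17, 4), (12, 3, 9), (12, 3, 15), (12, 9, 3), (12, 15, 3), (13, 4, 7), (13, 4, 17), (13, 7, 4)]⟩
def row91 : Row := ⟨91, 181, 155, 131, [(3, 9, 11), (3, 9, 13), (3, 11, 9), (3, 11, 15), (3, 13, 9), (3, 13, 15), (3, 15, 11), (3, 15, 13), (9, 3, 11), (9, 3, 13), (9, 11, 3), (9, 13, 3), (11, 3, 9), (11, 3, 15), (11, 9, 3), (11, 15, 3), (13, 3, 9), (13, 3, 15), (13, 9, 3), (13, 15, 3), (15, 3, 11), (15, 3, 13), (15, 11, 3), (15, 13, 3)]⟩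
def row92 : Row := ⟨92, 100, 10, 1, []⟩
def row93 : Row := ⟨93, 292, 168, 164, [(4, 7, 10), (4, 7, 14), (4, 10, 7), (4, 10, 17), (4, 14, 7), (4, 14, 17), (4, 17, 10), (4, 17, 14), (7, 4, 10), (7, 4, 14), (7, 10, 4), (7, 10, 20), (7, 14, 4), (7, 20, 10), (10, 4, 7), (10, 4, 17), (10, 7, 4), (10, 7, 20), (10, 17, 4), (10, 20, 7), (14, 4, 7), (14, 7, 4), (17, 4, 10), (17, 10, 4)]⟩
def row94 : Row := ⟨94, 384, 32, 23, [(3, 9, 10), (3, 9, 14), (3, 10, 9), (3, 10, 15), (3, 14, 9), (3, 14, 15), (3, 15, 10), (3, 15, 14), (5, 6, 9), (5, 6, 15), (5, 9, 6), (5, 9, 18), (5, 15, 6), (5, 15, 18), (5, 18, 9), (5, 18, 15), (6, 5, 9), (6, 5, 15), (6, 9, 5), (6, 9, 19), (6, 15, 5), (6, 15, 19), (6, 19, 9), (6, 19, 15), (9, 3, 10), (9, 3, 14), (9, 5, 6), (9, 5, 18), (9, 6, 5), (9, 6, 19), (9, 10, 3), (9, 10, 21), (9, 14, 3), (9, 14, 21), (9, 18, 5), (9, 18, 19), (9, 19, 6), (9,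 19, 18), (9, 21, 10), (9, 21, 14), (10, 3, 9), (10, 3, 15), (10, 9, 3), (10, 9, 21), (10, 15, 3), (10, 15, 21), (10, 21, 9), (10, 21, 15)]⟩
def row95 : Row := ⟨95, 100, 10, 1, []⟩
def row96 : Row := ⟨96, 379, 165, 48, [(4, 8, 8), (4, 8, 16), (4, 16, 8), (4, 16, 16), (8, 4, 8), (8, 4, 16), (8, 8, 4), (8, 8, 20), (8, 16, 4), (8, 16, 20), (8, 20, 8), (8, 20, 16)]⟩
def row97 : Row := ⟨97, 317, 299, 157, [(3, 8, 12), (3, 12, 8), (3, 12, 16), (3, 16, 12), (6, 6, 7), (6, 6, 17), (6, 7, 6), (6, 7, 18), (6, 17, 6), (6, 18, 7), (7, 6, 6), (7, 6, 18), (7, 18, 6), (8, 3, 12), (8, 12, 3), (12, 3, 8), (12, 3, 16), (12, 8, 3), (12, 16, 3), (16, 3, 12), (16, 12, 3), (17, 6, 6), (18, 6, 7), (18, 7, 6)]⟩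
def row98 : Row := ⟨98, 173, 11, 3, [(3, 8, 11), (3, 8, 13), (3, 11, 8), (3, 11, 16), (3, 13, 8), (3, 13, 16), (3, 16, 11), (3, 16, 13), (4, 7, 9), (4, 7, 15), (4, 9, 7), (4, 9, 17), (4, 15, 7), (4, 15, 17), (4, 17, 9), (4, 17, 15), (5, 5, 12), (5, 12, 5), (5, 12, 19), (5, 19, 12), (7, 4, 9), (7, 4, 15), (7, 9, 4), (7, 9, 20), (7, 15, 4), (7, 15, 20), (7, 20, 9), (7, 20, 15), (8, 3, 11), (8, 3, 13), (8, 11, 3), (8, 11, 21), (8, 13, 3), (8, 13, 21), (8, 21, 11), (8, 21, 13), (9, 4, 7), (9, 4, 17), (9, 7, 4), (9, 7, 20), (9, 17, 4), (9, 17, 20), (9, 20, 7), (9, 20, 17), (11, 3, 8), (11, 3, 16), (11, 8, 3), (11, 8, 21), (11, 16, 3), (11, 16, 21), (11, 21, 8), (11, 21, 16), (12, 5, 5), (12, 5, 19)]⟩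
def row99 : Row := ⟨99, 250, 24, 2, [(3, 9, 9), (3, 9, 15), (3, 15, 9), (3, 15, 15), (5, 5, 11), (5, 5, 13), (5, 7, 7), (5, 7, 17), (5, 11, 5), (5, 11, 19), (5, 13, 5), (5, 13, 19), (5, 17, 7), (5, 17, 17), (5, 19, 11), (5, 19, 13), (7, 5, 7), (7, 5, 17), (7, 7, 5), (7, 7, 19), (7, 17, 5), (7, 17, 19), (7, 19, 7), (7, 19, 17), (9, 3, 9), (9, 3, 15), (9, 9, 3), (9, 9, 21), (9, 15, 3), (9, 15, 21), (9, 21, 9), (9, 21, 15), (11, 5, 5), (11, 5, 19), (11, 19, 5), (11, 19, 19)]⟩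
def row100 : Row := ⟨100, 320, 241, 66, [(2, 12, 12), (4, 6, 12), (4, 12, 6), (4, 12, 18), (4, 18, 12), (6, 4, 12), (6, 12, 4), (6, 12, 20), (12, 2, 12), (12, 4, 6), (12, 4, 18), (12, 6, 4), (12, 6, 20), (12, 12, 2), (18, 4, 12)]⟩

theorem ok1 : rowOK 12 7 12 row1 = true := by decide +kernel
theorem ok2 : rowOK 12 7 12 row2 = true := by decide +kernel
theorem ok3 : rowOK 12 7 12 row3 = true := by decide +kernel
theorem ok4 : rowOK 12 7 12 row4 = true := by decide +kernel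
theorem ok5 : rowOK 12 7 12 row5 = true := by decide +kernel
theorem ok6 : rowOK 12 7 12 row6 = true := by decide +kernel
theorem ok7 : rowOK 12 7 12 row7 = true := by decide +kernel
theorem ok8 : rowOK 12 7 12 row8 = true := by decide +kernel
theorem ok9 : rowOK 12 7 12 row9 = true := by decide +kernel
theorem ok10 : rowOK 12 7 12 row10 = true := by decide +kernel
theorem ok11 : rowOK 12 7 12 row11 = true := by decide +kernel
theorem ok12 : rowOK 12 7 12 row12 = true := by decide +kernel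
theorem ok13 : rowOK 12 7 12 row13 = true := by decide +kernel
theorem ok14 : rowOK 12 7 12 row14 = true := by decide +kernel
theorem ok15 : rowOK 12 7 12 row15 = true := by decide +kernel
theorem ok16 : rowOK 12 7 12 row16 = true := by decide +kernel
theorem ok17 : rowOK 12 7 12 row17 = true := by decide +kernel
theorem ok18 : rowOK 12 7 12 row18 = true := by decide +kernel
theorem ok19 : rowOK 12 7 12 row19 = true := by decide +kernel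
theorem ok20 : rowOK 12 7 12 row20 = true := by decide +kernel
theorem ok21 : rowOK 12 7 12 row21 = true := by decide +kernel
theorem ok22 : rowOK 12 7 12 row22 = true := by decide +kernel
theorem ok23 : rowOK 12 7 12 row23 = true := by decide +kernel
theorem ok24 : rowOK 12 7 12 row24 = true := by decide +kernel
theorem ok25 : rowOK 12 7 12 row25 = true := by decide +kernel
theorem ok26 : rowOK 12 7 12 row26 = true := by decide +kernel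
theorem ok27 : rowOK 12 7 12 row27 = true := by decide +kernel
theorem ok28 : rowOK 12 7 12 row28 = true := by decide +kernel
theorem ok29 : rowOK 12 7 12 row29 = true := by decide +kernel
theorem ok30 : rowOK 12 7 12 row30 = true := by decide +kernel
theorem ok31 : rowOK 12 7 12 row31 = true := by decide +kernel
theorem ok32 : rowOK 12 7 12 row32 = true := by decide +kernel
theorem ok33 : rowOK 12 7 12 row33 = true := by decide +kernel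
theorem ok34 : rowOK 12 7 12 row34 = true := by decide +kernel
theorem ok35 : rowOK 12 7 12 row35 = true := by decide +kernel
theorem ok36 : rowOK 12 7 12 row36 = true := by decide +kernel
theorem ok37 : rowOK 12 7 12 row37 = true := by decide +kernel
theorem ok38 : rowOK 12 7 12 row38 = true := by decide +kernel
theorem ok39 : rowOK 12 7 12 row39 = true := by decide +kernel
theorem ok40 : rowOK 12 7 12 row40 = true := by decide +kernel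
theorem ok41 : rowOK 12 7 12 row41 = true := by decide +kernel
theorem ok42 : rowOK 12 7 12 row42 = true := by decide +kernel
theorem ok43 : rowOK 12 7 12 row43 = true := by decide +kernel
theorem ok44 : rowOK 12 7 12 row44 = true := by decide +kernel
theorem ok45 : rowOK 12 7 12 row45 = true := by decide +kernel
theorem ok46 : rowOK 12 7 12 row46 = true := by decide +kernel
theorem ok47 : rowOK 12 7 12 row47 = true := by decide +kernel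
theorem ok48 : rowOK 12 7 12 row48 = true := by decide +kernel
theorem ok49 : rowOK 12 7 12 row49 = true := by decide +kernel
theorem ok50 : rowOK 12 7 12 row50 = true := by decide +kernel
theorem ok51 : rowOK 12 7 12 row51 = true := by decide +kernel
theorem ok52 : rowOK 12 7 12 row52 = true := by decide +kernel
theorem ok53 : rowOK 12 7 12 row53 = true := by decide +kernel
theorem ok54 : rowOK 12 7 12 row54 = true := by decide +kernel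
theorem ok55 : rowOK 12 7 12 row55 = true := by decide +kernel
theorem ok56 : rowOK 12 7 12 row56 = true := by decide +kernel
theorem ok57 : rowOK 12 7 12 row57 = true := by decide +kernel
theorem ok58 : rowOK 12 7 12 row58 = true := by decide +kernel
theorem ok59 : rowOK 12 7 12 row59 = true := by decide +kernel
theorem ok60 : rowOK 12 7 12 row60 = true := by decide +kernel
theorem ok61 : rowOK 12 7 12 row61 = true := by decide +kernel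
theorem ok62 : rowOK 12 7 12 row62 = true := by decide +kernel
theorem ok63 : rowOK 12 7 12 row63 = true := by decide +kernel
theorem ok64 : rowOK 12 7 12 row64 = true := by decide +kernel
theorem ok65 : rowOK 12 7 12 row65 = true := by decide +kernel
theorem ok66 : rowOK 12 7 12 row66 = true := by decide +kernel
theorem ok67 : rowOK 12 7 12 row67 = true := by decide +kernel
theorem ok68 : rowOK 12 7 12 row68 = true := by decide +kernel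
theorem ok69 : rowOK 12 7 12 row69 = true := by decide +kernel
theorem ok70 : rowOK 12 7 12 row70 = true := by decide +kernel
theorem ok71 : rowOK 12 7 12 row71 = true := by decide +kernel
theorem ok72 : rowOK 12 7 12 row72 = true := by decide +kernel
theorem ok73 : rowOK 12 7 12 row73 = true := by decide +kernel
theorem ok74 : rowOK 12 7 12 row74 = true := by decide +kernel
theorem ok75 : rowOK 12 7 12 row75 = true := by decide +kernel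
theorem ok76 : rowOK 12 7 12 row76 = true := by decide +kernel
theorem ok77 : rowOK 12 7 12 row77 = true := by decide +kernel
theorem ok78 : rowOK 12 7 12 row78 = true := by decide +kernel
theorem ok79 : rowOK 12 7 12 row79 = true := by decide +kernel
theorem ok80 : rowOK 12 7 12 row80 = true := by decide +kernel
theorem ok81 : rowOK 12 7 12 row81 = true := by decide +kernel
theorem ok82 : rowOK 12 7 12 row82 = true := by decide +kernel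
theorem ok83 : rowOK 12 7 12 row83 = true := by decide +kernel
theorem ok84 : rowOK 12 7 12 row84 = true := by decide +kernel
theorem ok85 : rowOK 12 7 12 row85 = true := by decide +kernel
theorem ok86 : rowOK 12 7 12 row86 = true := by decide +kernel
theorem ok87 : rowOK 12 7 12 row87 = true := by decide +kernel
theorem ok88 : rowOK 12 7 12 row88 = true := by decide +kernel
theorem ok89 : rowOK 12 7 12 row89 = true := by decide +kernel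
theorem ok90 : rowOK 12 7 12 row90 = true := by decide +kernel
theorem ok91 : rowOK 12 7 12 row91 = true := by decide +kernel
theorem ok92 : rowOK 12 7 12 row92 = true := by decide +kernel
theorem ok93 : rowOK 12 7 12 row93 = true := by decide +kernel
theorem ok94 : rowOK 12 7 12 row94 = true := by decide +kernel
theorem ok95 : rowOK 12 7 12 row95 = true := by decide +kernel
theorem ok96 : rowOK 12 7 12 row96 = true := by decide +kernel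
theorem ok97 : rowOK 12 7 12 row97 = true := by decide +kernel
theorem ok98 : rowOK 12 7 12 row98 = true := by decide +kernel
theorem ok99 : rowOK 12 7 12 row99 = true := by decide +kernel
theorem ok100 : rowOK 12 7 12 row100 = true := by decide +kernel

theorem rows (N : ℕ) (h1 : 1 ≤ N) (h2 : N ≤ 100) :
    ∃ R : Row, R.N = N ∧ rowOK 12 7 12 R = true := by
  interval_cases N
  · exact ⟨row1, rfl, ok1⟩
  · exact ⟨row2, rfl, ok2⟩
  · exact ⟨row3, rfl, ok3⟩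
  · exact ⟨row4, rfl, ok4⟩
  · exact ⟨row5, rfl, ok5⟩
  · exact ⟨row6, rfl, ok6⟩
  · exact ⟨row7, rfl, ok7⟩
  · exact ⟨row8, rfl, ok8⟩
  · exact ⟨row9, rfl, ok9⟩
  · exact ⟨row10, rfl, ok10⟩
  · exact ⟨row11, rfl, ok11⟩
  · exact ⟨row12, rfl, ok12⟩
  · exact ⟨row13, rfl, ok13⟩
  · exact ⟨row14, rfl, ok14⟩
  · exact ⟨row15, rfl, ok15⟩
  · exact ⟨row16, rfl, ok16⟩
  · exact ⟨row17, rfl, ok17⟩
  · exact ⟨row18, rfl, ok18⟩
  · exact ⟨row19, rfl, ok19⟩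
  · exact ⟨row20, rfl, ok20⟩
  · exact ⟨row21, rfl, ok21⟩
  · exact ⟨row22, rfl, ok22⟩
  · exact ⟨row23, rfl, ok23⟩
  · exact ⟨row24, rfl, ok24⟩
  · exact ⟨row25, rfl, ok25⟩
  · exact ⟨row26, rfl, ok26⟩
  · exact ⟨row27, rfl, ok27⟩
  · exact ⟨row28, rfl, ok28⟩
  · exact ⟨row29, rfl, ok29⟩
  · exact ⟨row30, rfl, ok30⟩
  · exact ⟨row31, rfl, ok31⟩
  · exact ⟨row32, rfl, ok32⟩
  · exact ⟨row33, rfl, ok33⟩
  · exact ⟨row34, rfl, ok34⟩
  · exact ⟨row35, rfl, ok35⟩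
  · exact ⟨row36, rfl, ok36⟩
  · exact ⟨row37, rfl, ok37⟩
  · exact ⟨row38, rfl, ok38⟩
  · exact ⟨row39, rfl, ok39⟩
  · exact ⟨row40, rfl, ok40⟩
  · exact ⟨row41, rfl, ok41⟩
  · exact ⟨row42, rfl, ok42⟩
  · exact ⟨row43, rfl, ok43⟩
  · exact ⟨row44, rfl, ok44⟩
  · exact ⟨row45, rfl, ok45⟩
  · exact ⟨row46, rfl, ok46⟩
  · exact ⟨row47, rfl, ok47⟩
  · exact ⟨row48, rfl, ok48⟩
  · exact ⟨row49, rfl, ok49⟩
  · exact ⟨row50, rfl, ok50⟩
  · exact ⟨row51, rfl, ok51⟩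
  · exact ⟨row52, rfl, ok52⟩
  · exact ⟨row53, rfl, ok53⟩
  · exact ⟨row54, rfl, ok54⟩
  · exact ⟨row55, rfl, ok55⟩
  · exact ⟨row56, rfl, ok56⟩
  · exact ⟨row57, rfl, ok57⟩
  · exact ⟨row58, rfl, ok58⟩
  · exact ⟨row59, rfl, ok59⟩
  · exact ⟨row60, rfl, ok60⟩
  · exact ⟨row61, rfl, ok61⟩
  · exact ⟨row62, rfl, ok62⟩
  · exact ⟨row63, rfl, ok63⟩
  · exact ⟨row64, rfl, ok64⟩
  · exact ⟨row65, rfl, ok65⟩
  · exact ⟨row66, rfl, ok66⟩
  · exact ⟨row67, rfl, ok67⟩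
  · exact ⟨row68, rfl, ok68⟩
  · exact ⟨row69, rfl, ok69⟩
  · exact ⟨row70, rfl, ok70⟩
  · exact ⟨row71, rfl, ok71⟩
  · exact ⟨row72, rfl, ok72⟩
  · exact ⟨row73, rfl, ok73⟩
  · exact ⟨row74, rfl, ok74⟩
  · exact ⟨row75, rfl, ok75⟩
  · exact ⟨row76, rfl, ok76⟩
  · exact ⟨row77, rfl, ok77⟩
  · exact ⟨row78, rfl, ok78⟩
  · exact ⟨row79, rfl, ok79⟩
  · exact ⟨row80, rfl, ok80⟩
  · exact ⟨row81, rfl, ok81⟩
  · exact ⟨row82, rfl, ok82⟩
  · exact ⟨row83, rfl, ok83⟩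
  · exact ⟨row84, rfl, ok84⟩
  · exact ⟨row85, rfl, ok85⟩
  · exact ⟨row86, rfl, ok86⟩
  · exact ⟨row87, rfl, ok87⟩
  · exact ⟨row88, rfl, ok88⟩
  · exact ⟨row89, rfl, ok89⟩
  · exact ⟨row90, rfl, ok90⟩
  · exact ⟨row91, rfl, ok91⟩
  · exact ⟨row92, rfl, ok92⟩
  · exact ⟨row93, rfl, ok93⟩
  · exact ⟨row94, rfl, ok94⟩
  · exact ⟨row95, rfl, ok95⟩
  · exact ⟨row96, rfl, ok96⟩
  · exact ⟨row97, rfl, ok97⟩
  · exact ⟨row98, rfl, ok98⟩
  · exact ⟨row99, rfl, ok99⟩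
  · exact ⟨row100, rfl, ok100⟩

end Pool.Agent.Lib.MPe4ee32.IP.D7a
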