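import Pool.Agent.Lib.MP_e4ee32_co.IP.Check

/-! Integer packings (MP_e4ee32_co): rows of the table, checked by the kernel. -/

namespace Pool.Agent.Lib.MPe4ee32.IP.D7b

def row101 : Row := ⟨101, 343, 27, 12, [(2, 11, 12), (2, 12, 11), (2, 12, 13), (2, 13, 12), (3, 8, 10), (3, 8, 14), (3, 10, 8), (3, 10, 16), (3, 14, 8), (3, 14, 16), (3, 16, 10), (3, 16, 14), (4, 6, 11), (4, 6, 13), (4, 11, 6), (4, 11, 18), (4, 13, 6), (4, 13, 18), (4, 18, 11), (4, 18, 13), (5, 6, 8), (5, 6, 16), (5, 8, 6), (5, 8, 18), (5, 16, 6), (5, 16, 18), (5, 18, 8), (5, 18, 16), (6, 4, 11), (6, 4, 13), (6, 5, 8), (6, 5, 16), (6, 8, 5), (6, 8, 19), (6, 11, 4), (6, 11, 20), (6, 13, 4), (6, 13, 20), (6, 16, 5), (6, 16, 19), (6, 19, 8), (6, 19, 16), (6, 20, 11), (6, 20, 13), (8, 3, 10), (8, 3, 14), (8, 5, 6), (8, 5, 18), (8, 6, 5), (8, 6, 19), (8, 10, 3), (8, 10, 21), (8, 14, 3),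 (8, 14, 21), (8, 18, 5), (8, 18, 19), (8, 19, 6), (8, 19, 18), (8, 21, 10), (8, 21, 14), (10, 3, 8), (10, 3, 16), (10, 8, 3), (10, 8, 21), (10, 16, 3), (10, 16, 21), (10, 21, 8), (10, 21, 16), (11, 2, 12), (11, 4, 6), (11, 4, 18), (11, 6, 4), (11, 6, 20), (11, 12, 2), (11, 12, 22), (11, 18, 4), (11, 18, 20), (11, 20, 6), (11, 20, 18), (11, 22, 12), (12, 2, 11), (12, 2, 13), (12, 11, 2), (12, 13, 2)]⟩
def row102 : Row := ⟨102, 363, 346, 28, [(2, 11, 11), (2, 11, 13), (2, 13, 11), (2, 13, 13), (5, 5, 10), (5, 5, 14), (5, 10, 5), (5, 10, 19), (5, 14, 5), (5, 14, 19), (5, 19, 10), (5, 19, 14), (10, 5, 5), (10, 5, 19), (11, 2, 11), (11, 2, 13), (11, 11, 2), (11, 11, 22), (11, 13, 2), (13, 2, 11), (13, 2, 13), (13, 11, 2), (14, 5, 5), (14, 5, 19)]⟩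
def row103 : Row := ⟨103, 100, 10, 1, []⟩
def row104 : Row := ⟨104, 206, 115, 106, [(2, 10, 12), (2, 12, 10), (2, 12, 14), (2, 14, 12), (4, 6, 10), (4, 6, 14), (4, 10, 6), (4, 10, 18), (4, 14, 6), (4, 14, 18), (4, 18, 10), (4, 18, 14), (6, 4, 10), (6, 4, 14), (6, 10, 4), (6, 10, 20), (6, 14, 4), (6, 14, 20), (6, 20, 10), (6, 20, 14), (10, 2, 12), (10, 4, 6), (10, 4, 18), (10, 6, 4), (10, 6, 20), (10, 12, 2), (10, 18, 4), (10, 20, 6), (12, 2, 10), (12, 2, 14), (12, 10, 2), (12, 14, 2), (14, 2, 12), (14, 4, 6), (14, 6, 4), (14, 12, 2)]⟩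
def row105 : Row := ⟨105, 326, 132, 6, [(2, 10, 11), (2, 10, 13), (2, 11, 10), (2, 11, 14), (2, 13, 10), (2, 13, 14), (2, 14, 11), (2, 14, 13), (4, 7, 8), (4, 7, 16), (4, 8, 7), (4, 8, 17), (4, 16, 7), (4, 16, 17), (4, 17, 8), (4, 17, 16), (7, 4, 8), (7, 4, 16), (7, 8, 4), (7, 8, 20), (7, 16, 4), (7, 16, 20), (7, 20, 8), (7, 20, 16), (8, 4, 7), (8, 4, 17), (8, 7, 4), (8, 7, 20), (8, 17, 4), (8, 17, 20), (8, 20, 7), (8, 20, 17), (10, 2, 11), (10, 2, 13), (10, 11, 2), (10, 11, 22), (10, 13, 2), (10, 13, 22), (11, 2, 10), (11, 2, 14), (11, 10, 2), (11, 10, 22), (11, 14, 2), (11, 14, 22), (13, 2, 10), (13, 2, 14), (14, 2, 11), (14, 2, 13)]⟩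
def row106 : Row := ⟨106, 362, 74, 21, [(3, 7, 12), (3, 8, 9), (3, 8, 15), (3, 9, 8), (3, 9, 16), (3, 12, 7), (3, 12, 17), (3, 15, 8), (3, 15, 16), (3, 16, 9), (3, 16, 15), (3, 17, 12), (7, 3, 12), (7, 12, 3), (7, 12, 21), (7, 21, 12), (8, 3, 9), (8, 3, 15), (8, 9, 3), (8, 9, 21), (8, 15, 3), (8, 15, 21), (8, 21, 9), (8, 21, 15), (9, 3, 8), (9, 3, 16), (9, 8, 3), (9, 8, 21), (9, 16, 3), (9, 16, 21), (9, 21, 8), (9, 21, 16), (12, 3, 7), (12, 3, 17), (12, 7, 3), (12, 7, 21)]⟩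
def row107 : Row := ⟨107, 254, 21, 12, [(3, 7, 11), (3, 7, 13), (3, 11, 7), (3, 11, 17), (3, 13, 7), (3, 13, 17), (3, 17, 11), (3, 17, 13), (5, 5, 9), (5, 5, 15), (5, 9, 5), (5, 9, 19), (5, 15, 5), (5, 15, 19), (5, 19, 9), (5, 19, 15), (7, 3, 11), (7, 3, 13), (7, 11, 3), (7, 11, 21), (7, 13, 3), (7, 13, 21), (7, 21, 11), (7, 21, 13), (9, 5, 5), (9, 5, 19), (9, 19, 5), (9, 19, 19), (11, 3, 7), (11, 3, 17), (11, 7, 3), (11, 7, 21), (11, 17, 3), (11, 17, 21), (11, 21, 7), (11, 21, 17)]⟩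
def row108 : Row := ⟨108, 394, 311, 147, [(2, 10, 10), (2, 10, 14), (2, 14, 10), (2, 14, 14), (6, 6, 6), (6, 6, 18), (6, 18, 6), (10, 2, 10), (10, 2, 14), (10, 10, 2), (10, 14, 2), (14, 2, 10), (14, 2, 14), (14, 10, 2), (14, 14, 2), (18, 6, 6)]⟩
def row109 : Row := ⟨109, 359, 120, 114, [(2, 9, 12), (2, 12, 9), (2, 12, 15), (2, 15, 12), (4, 6, 9), (4, 6, 15), (4, 9, 6), (4, 9, 18), (4, 15, 6), (4, 15, 18), (4, 18, 9), (4, 18, 15), (6, 4, 9), (6, 4, 15), (6, 9, 4), (6, 9, 20), (6, 15, 4), (6, 15, 20), (6, 20, 9), (6, 20, 15), (9, 2, 12), (9, 4, 6), (9, 4, 18), (9, 6, 4), (9, 6, 20), (9, 12, 2), (9, 18, 4), (9, 20, 6), (12, 2, 9), (12, 2, 15), (12, 9, 2), (12, 15, 2), (15, 2, 12), (15, 4, 6), (15, 6, 4), (15, 12, 2)]⟩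
def row110 : Row := ⟨110, 269, 73, 10, [(2, 9, 11), (2, 9, 13), (2, 11, 9), (2, 11, 15), (2, 13, 9), (2, 13, 15), (2, 15, 11), (2, 15, 13), (3, 7, 10), (3, 7, 14), (3, 10, 7), (3, 10, 17), (3, 14, 7), (3, 14, 17), (3, 17, 10), (3, 17, 14), (5, 6, 7), (5, 6, 17), (5, 7, 6), (5, 7, 18), (5, 17, 6), (5, 17, 18), (5, 18, 7), (5, 18, 17), (6, 5, 7), (6, 5, 17), (6, 7, 5), (6, 7, 19), (6, 17, 5), (6, 17, 19), (6, 19, 7), (6, 19, 17), (7, 3, 10), (7, 3, 14), (7, 5, 6), (7, 5, 18), (7, 6, 5), (7, 6, 19), (7, 10, 3), (7, 10, 21), (7, 14, 3), (7, 14, 21), (7, 18, 5), (7, 18, 19), (7, 19, 6), (7, 19, 18), (7, 21, 10), (7, 21, 14), (9, 2, 11), (9, 2, 13), (9, 11, 2), (9, 11, 22), (9, 13, 2), (9, 13, 22), (9, 22, 11), (9, 22, 13), (10, 3, 7), (10, 3, 17), (10, 7, 3), (10, 7, 21), (10, 17, 3), (10, 17, 21), (11, 2, 9), (11, 2, 15), (11, 9, 2), (11, 9, 22), (11,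 15, 2), (13, 2, 9), (13, 2, 15), (13, 9, 2), (14, 3, 7), (14, 3, 17)]⟩
def row111 : Row := ⟨111, 100, 10, 1, []⟩
def row112 : Row := ⟨112, 100, 10, 1, []⟩
def row113 : Row := ⟨113, 324, 140, 4, [(2, 9, 10), (2, 9, 14), (2, 10, 9), (2, 10, 15), (2, 14, 9), (2, 14, 15), (2, 15, 10), (2, 15, 14), (3, 8, 8), (3, 8, 16), (3, 16, 8), (3, 16, 16), (4, 5, 12), (4, 12, 5), (4, 12, 19), (4, 19, 12), (5, 4, 12), (5, 12, 4), (5, 12, 20), (5, 20, 12), (8, 3, 8), (8, 3, 16), (8, 8, 3), (8, 8, 21), (8, 16, 3), (8, 16, 21), (8, 21, 8), (8, 21, 16), (9, 2, 10), (9, 2, 14), (9, 10, 2), (9, 10, 22), (9, 14, 2), (9, 14, 22), (10, 2, 9), (10, 2, 15), (10, 9, 2), (10, 9, 22), (10, 15, 2), (10, 15, 22), (12, 4, 5), (12, 4, 19), (12, 5, 4), (12, 5, 20), (14, 2, 9), (14, 2, 15), (15, 2, 10), (15, 2, 14)]⟩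
def row114 : Row := ⟨114, 108, 9, 2, [(4, 5, 11), (4, 5, 13), (4, 7, 7), (4, 7, 17), (4, 11, 5), (4, 11, 19), (4, 13, 5), (4, 13, 19), (4, 17, 7), (4, 17, 17), (4, 19, 11), (4, 19, 13), (5, 4, 11), (5, 4, 13), (5, 5, 8), (5, 5, 16), (5, 8, 5), (5, 8, 19), (5, 11, 4), (5, 11, 20), (5, 13, 4), (5, 13, 20), (5, 16, 5), (5, 16, 19), (5, 19, 8), (5, 19, 16), (5, 20, 11), (5, 20, 13), (7, 4, 7), (7, 4, 17), (7, 7, 4), (7, 7, 20), (7, 17, 4), (7, 17, 20), (7, 20, 7), (7, 20, 17), (8, 5, 5), (8, 5, 19), (8, 19, 5), (8, 19, 19), (11, 4, 5), (11, 4, 19), (11, 5, 4), (11, 5, 20), (11, 19, 4), (11, 19, 20), (11, 20, 5), (11, 20, 19)]⟩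
def row115 : Row := ⟨115, 336, 332, 322, [(3, 7, 9), (3, 7, 15), (3, 9, 7), (3, 9, 17), (3, 15, 7), (3, 15, 17), (3, 17, 9), (3, 17, 15), (7, 3, 9), (7, 3, 15), (7, 9, 3), (7, 15, 3), (9, 3, 7), (9, 3, 17), (9, 7, 3), (9, 17, 3), (15, 3, 7), (15, 3, 17), (15, 7, 3), (15, 17, 3), (17, 3, 9), (17, 3, 15), (17, 9, 3), (17, 15, 3)]⟩
def row116 : Row := ⟨116, 378, 353, 325, [(2, 8, 12), (2, 12, 8), (2, 12, 16), (2, 16, 12), (4, 6, 8), (4, 6, 16), (4, 8, 6), (4, 8, 18), (4, 16, 6), (4, 18, 8), (6, 4, 8), (6, 4, 16), (6, 8, 4), (6, 8, 20), (6, 16, 4), (6, 20, 8), (8, 2, 12), (8, 4, 6), (8, 4, 18), (8, 6, 4), (8, 6, 20), (8, 12, 2), (8, 18, 4), (8, 20, 6), (12, 2, 8), (12, 2, 16), (12, 8, 2), (12, 16, 2), (16, 2, 12), (16, 4, 6), (16, 6, 4), (16, 12, 2), (18, 4, 8), (18, 8, 4), (20, 6, 8), (20, 8, 6)]⟩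
def row117 : Row := ⟨117, 272, 254, 50, [(2, 8, 11), (2, 8, 13), (2, 11, 8), (2, 11, 16), (2, 13, 8), (2, 13, 16), (2, 16, 11), (2, 16, 13), (3, 6, 12), (3, 12, 6), (3, 12, 18), (3, 18, 12), (4, 5, 10), (4, 5, 14), (4, 10, 5), (4, 10, 19), (4, 14, 5), (4, 14, 19), (4, 19, 10), (4, 19, 14), (5, 4, 10), (5, 4, 14), (5, 10, 4), (5, 10, 20), (5, 14, 4), (5, 14, 20), (6, 3, 12), (6, 12, 3), (6, 12, 21), (8, 2, 11), (8, 2, 13), (8, 11, 2), (8, 11, 22), (8, 13, 2), (8, 13, 22), (10, 4, 5), (10, 4, 19), (10, 5, 4), (10, 5, 20), (11, 2, 8), (11, 2, 16), (11, 8, 2), (11, 8, 22), (12, 3, 6), (12, 3, 18), (12, 6, 3), (12, 6, 21), (13, 2, 8), (13, 2, 16), (13, 8, 2), (13, 8, 22), (14, 4, 5), (14, 4, 19), (14, 5, 4), (14, 5, 20), (16, 2, 11), (16, 2, 13), (18, 3, 12), (19, 4, 10), (19, 4, 14)]⟩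
def row118 : Row := ⟨118, 286, 272, 135, [(2, 9, 9), (2, 9, 15), (2, 15, 9), (2, 15, 15), (3, 6, 11), (3, 6, 13), (3, 11, 6), (3, 11, 18), (3, 13, 6), (3, 13, 18), (3, 18, 11), (3, 18, 13), (6, 3, 11), (6, 3, 13), (6, 11, 3), (6, 11, 21), (6, 13, 3), (6, 13, 21), (9, 2, 9), (9, 2, 15), (9, 9, 2), (9, 9, 22), (9, 15, 2), (11, 3, 6), (11, 3, 18), (11, 6, 3), (11, 6, 21), (13, 3, 6), (13, 3, 18), (13, 6, 3), (13, 6, 21), (15, 2, 9), (15, 2, 15), (15, 9, 2), (18, 3, 11), (18, 3, 13)]⟩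
def row119 : Row := ⟨119, 100, 10, 1, []⟩
def row120 : Row := ⟨120, 389, 222, 134, [(2, 8, 10), (2, 8, 14), (2, 10, 8), (2, 10, 16), (2, 14, 8), (2, 14, 16), (2, 16, 10), (2, 16, 14), (8, 2, 10), (8, 2, 14), (8, 10, 2), (8, 10, 22), (8, 14, 2), (10, 2, 8), (10, 2, 16), (10, 8, 2), (10, 8, 22), (10, 16, 2), (14, 2, 8), (14, 2, 16), (14, 8, 2), (16, 2, 10), (16, 2, 14), (16, 10, 2)]⟩
def row121 : Row := ⟨121, 316, 178, 162, [(1, 12, 12), (3, 6, 10), (3, 6, 14), (3, 10, 6), (3, 10, 18), (3, 14, 6), (3, 14, 18), (3, 18, 10), (3, 18, 14), (5, 6, 6), (5, 6, 18), (5, 18, 6), (5, 18, 18), (6, 3, 10), (6, 3, 14), (6, 5, 6), (6, 5, 18), (6, 6, 5), (6, 6, 19), (6, 10, 3), (6, 10, 21), (6, 14, 3), (6, 14, 21), (6, 18, 5), (6, 19, 6), (6, 21, 10), (10, 3, 6), (10, 3, 18), (10, 6, 3), (10, 6, 21), (10, 18, 3), (10, 21, 6), (12, 1, 12), (12, 12, 1), (14, 3, 6),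 (14, 6, 3), (18, 3, 10), (18, 5, 6), (18, 6, 5)]⟩
def row122 : Row := ⟨122, 345, 220, 27, [(1, 11, 12), (1, 12, 11), (1, 12, 13), (1, 13, 12), (3, 7, 8), (3, 7, 16), (3, 8, 7), (3, 8, 17), (3, 16, 7), (3, 16, 17), (3, 17, 8), (3, 17, 16), (4, 5, 9), (4, 5, 15), (4, 9, 5), (4, 9, 19), (4, 15, 5), (4, 15, 19), (4, 19, 9), (4, 19, 15), (5, 4, 9), (5, 4, 15), (5, 9, 4), (5, 9, 20), (5, 15, 4), (5, 15, 20), (5, 20, 9), (5, 20, 15), (7, 3, 8), (7, 3, 16), (7, 8, 3), (7, 8, 21), (7, 16, 3), (7, 16, 21), (8, 3, 7), (8, 3, 17), (8, 7, 3), (8, 7, 21), (8, 17, 3), (8, 17, 21), (9, 4, 5), (9, 4, 19), (9, 5, 4), (9, 5, 20), (11, 1, 12), (11, 12, 1), (11, 12, 23), (12, 1, 11), (12, 1, 13), (12, 11, 1), (12, 13, 1), (13, 1, 12), (15, 4, 5), (15, 4, 19), (15, 5, 4), (15, 5, 20), (16, 3, 7), (16, 3, 17), (17, 3, 8), (17, 3, 16)]⟩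
def row123 : Row := ⟨123, 369, 359, 224, [(1, 11, 11), (1, 11, 13), (1, 13, 11), (1, 13, 13), (5, 5, 7), (5, 5, 17), (5, 7, 5), (5, 7, 19), (5, 17, 5), (5, 19, 7), (7, 5, 5), (7, 5, 19), (7, 19, 5), (11, 1, 11), (11, 1, 13), (11, 11, 1), (11, 13, 1), (13, 1, 11), (13, 1, 13), (13, 11, 1), (13, 13, 1), (17, 5, 5), (19, 5, 7), (19, 7, 5)]⟩
def row124 : Row := ⟨124, 100, 10, 1, []⟩
def row125 : Row := ⟨125, 269, 266, 162, [(1, 10, 12), (1, 12, 10), (1, 12, 14), (1, 14, 12), (2, 7, 12), (2, 8, 9), (2, 8, 15), (2, 9, 8), (2, 9, 16), (2, 12, 7), (2, 12, 17), (2, 15, 8), (2, 15, 16), (2, 16, 9), (2, 16, 15), (2, 17, 12), (4, 6, 7), (4, 6, 17), (4, 7, 6), (4, 7, 18), (4, 17, 6), (4, 18, 7), (6, 4, 7), (6, 4, 17), (6, 7, 4), (6, 7, 20), (6, 17, 4), (6, 20, 7), (7, 2, 12), (7, 4, 6), (7, 4, 18), (7, 6, 4), (7, 6, 20), (7, 12, 2), (7, 18, 4), (7, 20, 6), (8,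 2, 9), (8, 2, 15), (8, 9, 2), (8, 9, 22), (8, 15, 2), (9, 2, 8), (9, 2, 16), (9, 8, 2), (9, 8, 22), (9, 16, 2), (10, 1, 12), (10, 12, 1), (12, 1, 10), (12, 1, 14), (12, 2, 7), (12, 2, 17), (12, 7, 2), (12, 10, 1), (12, 14, 1), (12, 17, 2), (14, 1, 12), (14, 12, 1), (15, 2, 8), (15, 2, 16), (15, 8, 2), (16, 2, 9), (16, 2, 15), (16, 9, 2), (17, 2, 12), (17, 4, 6), (17, 6, 4), (17, 12, 2), (18, 4, 7), (18, 7, 4), (20, 6, 7), (20, 7, 6)]⟩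
def row126 : Row := ⟨126, 153, 12, 4, [(1, 10, 11), (1, 10, 13), (1, 11, 10), (1, 11, 14), (1, 13, 10), (1, 13, 14), (1, 14, 11), (1, 14, 13), (2, 7, 11), (2, 7, 13), (2, 11, 7), (2, 11, 17), (2, 13, 7), (2, 13, 17), (2, 17, 11), (2, 17, 13), (3, 6, 9), (3, 6, 15), (3, 9, 6), (3, 9, 18), (3, 15, 6), (3, 15, 18), (3, 18, 9), (3, 18, 15), (6, 3, 9), (6, 3, 15), (6, 9, 3), (6, 9, 21), (6, 15, 3), (6, 15, 21), (6, 21, 9), (6, 21, 15), (7, 2, 11), (7, 2, 13), (7, 11, 2), (7, 11, 22), (7, 13, 2), (7, 13, 22), (7, 22, 11), (7, 22, 13), (9, 3, 6), (9, 3, 18), (9, 6, 3), (9, 6, 21), (9, 18, 3), (9, 18, 21), (9, 21, 6), (9, 21, 18), (10, 1, 11), (10, 1, 13), (10, 11, 1), (10, 11, 23), (10, 13, 1), (10, 13, 23), (10, 23, 11), (10, 23, 13), (11, 1, 10), (11, 1, 14), (11, 2, 7), (11, 2, 17), (11, 7, 2), (11, 7, 22), (11, 10, 1), (11, 10, 23), (11, 14, 1), (11,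 14, 23), (11, 17, 2), (11, 17, 22), (11, 22, 7), (11, 22, 17), (11, 23, 10), (11, 23, 14)]⟩
def row127 : Row := ⟨127, 100, 10, 1, []⟩
def row128 : Row := ⟨128, 100, 10, 1, [(4, 4, 12), (4, 12, 4), (4, 12, 20), (4, 20, 12), (12, 4, 4), (12, 4, 20)]⟩
def row129 : Row := ⟨129, 332, 22, 7, [(1, 10, 10), (1, 10, 14), (1, 14, 10), (1, 14, 14), (2, 7, 10), (2, 7, 14), (2, 10, 7), (2, 10, 17), (2, 14, 7), (2, 14, 17), (2, 17, 10), (2, 17, 14), (4, 4, 11), (4, 4, 13), (4, 5, 8), (4, 5, 16), (4, 8, 5), (4, 8, 19), (4, 11, 4), (4, 11, 20), (4, 13, 4), (4, 13, 20), (4, 16, 5), (4, 16, 19), (4, 19, 8), (4, 19, 16), (4, 20, 11), (4, 20, 13), (5, 4, 8), (5, 4, 16), (5, 8, 4), (5, 8, 20), (5, 16, 4), (5, 16, 20), (5, 20, 8), (5, 20, 16), (7, 2, 10), (7, 2, 14), (7, 10, 2), (7, 10, 22), (7, 14, 2), (7, 14, 22), (7, 22, 10), (7, 22, 14), (8, 4, 5), (8, 4, 19), (8,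 5, 4), (8, 5, 20), (8, 19, 4), (8, 19, 20), (8, 20, 5), (8, 20, 19), (10, 1, 10), (10, 1, 14), (10, 2, 7), (10, 2, 17), (10, 7, 2), (10, 7, 22), (10, 10, 1), (10, 10, 23), (10, 14, 1), (10, 14, 23), (10, 17, 2), (10, 17, 22), (10, 22, 7), (10, 22, 17), (10, 23, 10), (10, 23, 14), (11, 4, 4), (11, 4, 20), (11, 20, 4), (11, 20, 20)]⟩
def row130 : Row := ⟨130, 219, 197, 33, [(1, 9, 12), (1, 12, 9), (1, 12, 15), (1, 15, 12), (3, 5, 12), (3, 12, 5), (3, 12, 19), (3, 19, 12), (5, 3, 12), (5, 12, 3), (5, 12, 21), (9, 1, 12), (9, 12, 1), (9, 12, 23), (12, 1, 9), (12, 1, 15), (12, 3, 5), (12, 3, 19), (12, 5, 3), (12, 5, 21), (12, 9, 1), (12, 9, 23), (15, 1, 12), (19, 3, 12)]⟩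
def row131 : Row := ⟨131, 317, 123, 32, [(1, 9, 11), (1, 9, 13), (1, 11, 9), (1, 11, 15), (1, 13, 9), (1, 13, 15), (1, 15, 11), (1, 15, 13), (3, 5, 11), (3, 5, 13), (3, 7, 7), (3, 7, 17), (3, 11, 5), (3, 11, 19), (3, 13, 5), (3, 13, 19), (3, 17, 7), (3, 17, 17), (3, 19, 11), (3, 19, 13), (5, 3, 11), (5, 3, 13), (5, 11, 3), (5, 11, 21), (5, 13, 3), (5, 13, 21), (5, 21, 11), (5, 21, 13), (7, 3, 7), (7, 3, 17), (7, 7, 3), (7, 7, 21), (7, 17, 3), (7, 17, 21), (7, 21, 7), (7, 21, 17), (9, 1, 11), (9, 1, 13), (9, 11, 1), (9, 11, 23), (9, 13, 1), (9, 13, 23), (11, 1, 9), (11, 1, 15), (11, 3, 5), (11, 3, 19), (11, 5, 3), (11, 5, 21), (11, 9, 1), (11, 9, 23), (11, 15, 1), (13, 1, 9), (13, 1, 15), (13, 3, 5), (13, 3, 19), (13, 5, 3), (13, 5, 21), (13, 9, 1), (15, 1, 11), (15, 1, 13)]⟩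
def row132 : Row := ⟨132, 322, 58, 12, [(2, 8, 8), (2, 8, 16), (2, 16, 8), (2, 16, 16), (4, 4, 10), (4, 4, 14), (4, 10, 4), (4, 10, 20), (4, 14, 4), (4, 14, 20), (4, 20, 10), (4, 20, 14), (8, 2, 8), (8, 2, 16), (8, 8, 2), (8, 8, 22), (8, 16, 2), (8, 16, 22), (8, 22, 8), (8, 22, 16), (10, 4, 4), (10, 4, 20), (10, 20, 4), (10, 20, 20)]⟩
def row133 : Row := ⟨133, 263, 156, 112, [(3, 6, 8), (3, 6, 16), (3, 8, 6), (3, 8, 18), (3, 16, 6), (3, 16, 18), (3, 18, 8), (3, 18, 16), (6, 3, 8), (6, 3, 16), (6, 8, 3), (6, 8, 21), (6, 16, 3), (6, 21, 8), (8, 3, 6), (8, 3, 18), (8, 6, 3), (8, 6, 21), (8, 18, 3), (8, 21, 6), (16, 3, 6), (16, 6, 3), (18, 3, 8), (18, 8, 3)]⟩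
def row134 : Row := ⟨134, 299, 49, 8, [(1, 9, 10), (1, 9, 14), (1, 10, 9), (1, 10, 15), (1, 14, 9), (1, 14, 15), (1, 15, 10), (1, 15, 14), (2, 7, 9), (2, 7, 15), (2, 9, 7), (2, 9, 17), (2, 15, 7), (2, 15, 17), (2, 17, 9), (2, 17, 15), (3, 5, 10), (3, 5, 14), (3, 10, 5), (3, 10, 19), (3, 14, 5), (3, 14, 19), (3, 19, 10), (3, 19, 14), (5, 3, 10), (5, 3, 14), (5, 5, 6), (5, 5, 18), (5, 6, 5), (5, 6, 19), (5, 10, 3), (5, 10, 21), (5, 14, 3), (5, 14, 21), (5, 18, 5), (5, 18, 19), (5, 19, 6), (5, 19, 18), (5, 21, 10), (5, 21, 14), (6, 5, 5), (6, 5, 19), (6, 19, 5), (6, 19, 19), (7, 2, 9), (7, 2, 15), (7, 9, 2), (7, 9, 22), (7, 15, 2), (7, 15, 22), (7, 22, 9), (7, 22, 15), (9, 1, 10), (9, 1, 14), (9, 2, 7), (9, 2, 17), (9, 7, 2), (9, 7, 22), (9, 10, 1), (9, 10, 23), (9, 14, 1), (9, 14, 23), (9, 17, 2), (9, 17, 22), (9, 22, 7), (9, 22, 17), (9, 23, 10),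 (9, 23, 14), (10, 1, 9), (10, 1, 15), (10, 3, 5), (10, 3, 19), (10, 5, 3), (10, 5, 21), (10, 9, 1), (10, 9, 23), (10, 15, 1), (10, 15, 23), (10, 19, 3), (10, 19, 21), (10, 21, 5), (10, 21, 19), (10, 23, 9), (10, 23, 15)]⟩
def row135 : Row := ⟨135, 100, 10, 1, []⟩
def row136 : Row := ⟨136, 349, 298, 245, [(2, 6, 12), (2, 12, 6), (2, 12, 18), (2, 18, 12), (4, 6, 6), (4, 6, 18), (4, 18, 6), (6, 2, 12), (6, 4, 6), (6, 4, 18), (6, 6, 4), (6, 6, 20), (6, 12, 2), (6, 18, 4), (6, 20, 6), (12, 2, 6), (12, 2, 18), (12, 6, 2), (12, 18, 2), (18, 2, 12), (18, 4, 6), (18, 6, 4), (18, 12, 2), (20, 6, 6)]⟩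
def row137 : Row := ⟨137, 305, 44, 23, [(1, 8, 12), (1, 12, 8), (1, 12, 16), (1, 16, 12), (2, 6, 11), (2, 6, 13), (2, 11, 6), (2, 11, 18), (2, 13, 6), (2, 13, 18), (2, 18, 11), (2, 18, 13), (4, 4, 9), (4, 4, 15), (4, 9, 4), (4, 9, 20), (4, 15, 4), (4, 15, 20), (4, 20, 9), (4, 20, 15), (6, 2, 11), (6, 2, 13), (6, 11, 2), (6, 11, 22), (6, 13, 2), (6, 13, 22), (6, 22, 11), (6, 22, 13), (8, 1, 12), (8, 12, 1), (8, 12, 23), (8, 23, 12), (9, 4, 4), (9, 4, 20), (9, 20, 4), (9, 20, 20), (11, 2, 6), (11, 2, 18), (11, 6, 2), (11, 6, 22), (11, 18, 2), (11, 22, 6), (12, 1, 8), (12, 1, 16), (12, 8, 1), (12, 16, 1), (13, 2, 6), (13, 6, 2)]⟩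
def row138 : Row := ⟨138, 397, 108, 0, [(1, 8, 11), (1, 8, 13), (1, 11, 8), (1, 11, 16), (1, 13, 8), (1, 13, 16), (1, 16, 11), (1, 16, 13), (4, 5, 7), (4, 5, 17), (4, 7, 5), (4, 7, 19), (4, 17, 5), (4, 17, 19), (4, 19, 7), (4, 19, 17), (5, 4, 7), (5, 4, 17), (5, 7, 4), (5, 7, 20), (5, 17, 4), (5, 17, 20), (5, 20, 7), (5, 20, 17), (7, 4, 5), (7, 4, 19), (7, 5, 4), (7, 5, 20), (7, 19, 4), (7, 19, 20), (7, 20, 5), (7, 20, 19), (8, 1, 11), (8, 1, 13), (8, 11, 1), (8, 11, 23), (8, 13, 1), (8, 13, 23), (8, 23, 11), (8, 23, 13), (11, 1, 8), (11, 1, 16), (11, 8, 1), (11, 8, 23), (13, 1, 8), (13, 1, 16), (13, 8, 1), (13, 8, 23)]⟩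
def row139 : Row := ⟨139, 323, 42, 15, [(1, 9, 9), (1, 9, 15), (1, 15, 9), (1, 15, 15), (3, 5, 9), (3, 5, 15), (3, 9, 5), (3, 9, 19), (3, 15, 5), (3, 15, 19), (3, 19, 9), (3, 19, 15), (5, 3, 9), (5, 3, 15), (5, 9, 3), (5, 9, 21), (5, 15, 3), (5, 15, 21), (5, 21, 9), (5, 21, 15), (9, 1, 9), (9, 1, 15), (9, 3, 5), (9, 3, 19), (9, 5, 3), (9, 5, 21), (9, 9, 1), (9, 9, 23), (9, 15, 1), (9, 15, 23), (9, 19, 3), (9, 19, 21), (9, 21, 5), (9, 21, 19), (9, 23, 9), (9, 23, 15)]⟩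
def row140 : Row := ⟨140, 354, 223, 52, [(2, 6, 10), (2, 6, 14), (2, 10, 6), (2, 10, 18), (2, 14, 6), (2, 14, 18), (2, 18, 10), (2, 18, 14), (6, 2, 10), (6, 2, 14), (6, 10, 2), (6, 10, 22), (6, 14, 2), (6, 14, 22), (10, 2, 6), (10, 2, 18), (10, 6, 2), (10, 6, 22), (14, 2, 6), (14, 2, 18), (14, 6, 2), (14, 6, 22), (18, 2, 10), (18, 2, 14)]⟩
def row141 : Row := ⟨141, 394, 210, 7, [(1, 8, 10), (1, 8, 14), (1, 10, 8), (1, 10, 16), (1, 14, 8), (1, 14, 16), (1, 16, 10), (1, 16, 14), (2, 7, 8), (2, 7, 16), (2, 8, 7), (2, 8, 17), (2, 16, 7), (2, 16, 17), (2, 17, 8), (2, 17, 16), (7, 2, 8), (7, 2, 16), (7, 8, 2), (7, 8, 22), (7, 16, 2), (7, 16, 22), (8, 1, 10), (8, 1, 14), (8, 2, 7), (8, 2, 17), (8, 7, 2), (8, 7, 22), (8, 10, 1), (8, 10, 23), (8, 14, 1), (8, 14, 23), (8, 17, 2), (8, 17, 22), (10, 1, 8), (10, 1, 16), (10, 8, 1), (10, 8, 23), (10, 16, 1), (14,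 1, 8), (14, 1, 16), (14, 8, 1), (16, 1, 10), (16, 1, 14), (16, 2, 7), (16, 2, 17), (17, 2, 8), (17, 2, 16)]⟩
def row142 : Row := ⟨142, 320, 198, 90, [(3, 6, 7), (3, 6, 17), (3, 7, 6), (3, 7, 18), (3, 17, 6), (3, 17, 18), (3, 18, 7), (3, 18, 17), (6, 3, 7), (6, 3, 17), (6, 7, 3), (6, 7, 21), (6, 17, 3), (6, 17, 21), (6, 21, 7), (7, 3, 6), (7, 3, 18), (7, 6, 3), (7, 6, 21), (7, 18, 3), (7, 21, 6), (17, 3, 6), (17, 6, 3), (18, 3, 7)]⟩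
def row143 : Row := ⟨143, 100, 10, 1, []⟩
def row144 : Row := ⟨144, 332, 267, 238, [(0, 12, 12), (4, 4, 8), (4, 4, 16), (4, 8, 4), (4, 8, 20), (4, 16, 4), (4, 20, 8), (8, 4, 4), (8, 4, 20), (8, 20, 4), (12, 0, 12), (12, 12, 0), (16, 4, 4), (20, 4, 8), (20, 8, 4)]⟩
def row145 : Row := ⟨145, 347, 61, 32, [(0, 11, 12), (0, 12, 11), (0, 12, 13), (0, 13, 12), (2, 6, 9), (2, 6, 15), (2, 9, 6), (2, 9, 18), (2, 15, 6), (2, 15, 18), (2, 18, 9), (2, 18, 15), (3, 4, 12), (3, 12, 4), (3, 12, 20), (3, 20, 12), (4, 3, 12), (4, 12, 3), (4, 12, 21), (4, 21, 12), (6, 2, 9), (6, 2, 15), (6, 9, 2), (6, 9, 22), (6, 15, 2), (6, 15, 22), (6, 22, 9), (6, 22, 15), (9, 2, 6), (9, 2, 18), (9, 6, 2), (9, 6, 22), (9, 18, 2), (9, 18, 22), (9, 22, 6), (9, 22, 18), (11, 0, 12), (11, 12, 0), (12, 0, 11), (12, 0, 13), (12, 3, 4), (12, 3, 20), (12, 4, 3), (12, 4, 21), (12, 11, 0),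 (12, 13, 0), (13, 0, 12), (13, 12, 0)]⟩
def row146 : Row := ⟨146, 337, 83, 8, [(0, 11, 11), (0, 11, 13), (0, 13, 11), (0, 13, 13), (1, 7, 12), (1, 8, 9), (1, 8, 15), (1, 9, 8), (1, 9, 16), (1, 12, 7), (1, 12, 17), (1, 15, 8), (1, 15, 16), (1, 16, 9), (1, 16, 15), (1, 17, 12), (3, 4, 11), (3, 4, 13), (3, 5, 8), (3, 5, 16), (3, 8, 5), (3, 8, 19), (3, 11, 4), (3, 11, 20), (3, 13, 4), (3, 13, 20), (3, 16, 5), (3, 16, 19), (3, 19, 8), (3, 19, 16), (3, 20, 11), (3, 20, 13), (4, 3, 11), (4, 3, 13), (4, 11, 3), (4, 11, 21), (4, 13, 3), (4, 13, 21), (4, 21, 11), (4, 21, 13), (5, 3, 8), (5, 3, 16), (5, 8, 3), (5, 8, 21), (5, 16, 3), (5, 16, 21), (5, 21, 8), (5, 21, 16), (7, 1, 12), (7, 12, 1), (7, 12, 23), (7, 23, 12), (8, 1, 9), (8, 1, 15), (8, 3, 5), (8, 3, 19), (8, 5, 3), (8, 5, 21), (8, 9, 1), (8, 9, 23), (8, 15, 1), (8, 15, 23), (8, 19, 3), (8, 19, 21),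 (8, 21, 5), (8, 21, 19), (8, 23, 9), (8, 23, 15), (9, 1, 8), (9, 1, 16), (9, 8, 1), (9, 8, 23), (9, 16, 1), (9, 16, 23), (9, 23, 8), (9, 23, 16), (11, 0, 11), (11, 0, 13), (11, 3, 4), (11, 3, 20), (11, 4, 3), (11, 4, 21), (11, 11, 0), (11, 11, 24), (11, 13, 0), (11, 13, 24), (12, 1, 7), (12, 1, 17), (12, 7, 1), (12, 7, 23), (13, 0, 11), (13, 0, 13), (13, 3, 4), (13, 3, 20), (13, 4, 3), (13, 4, 21)]⟩
def row147 : Row := ⟨147, 331, 287, 69, [(1, 7, 11), (1, 7, 13), (1, 11, 7), (1, 11, 17), (1, 13, 7), (1, 13, 17), (1, 17, 11), (1, 17, 13), (5, 5, 5), (5, 5, 19), (5, 19, 5), (7, 1, 11), (7, 1, 13), (7, 11, 1), (7, 11, 23), (7, 13, 1), (7, 13, 23), (11, 1, 7), (11, 1, 17), (11, 7, 1), (11, 7, 23), (13, 1, 7), (13, 1, 17), (13, 7, 1), (13, 7, 23), (17, 1, 11), (17, 1, 13), (19, 5, 5)]⟩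
def row148 : Row := ⟨148, 345, 323, 121, [(0, 10, 12), (0, 12, 10), (0, 12, 14), (0, 14, 12), (10, 0, 12), (10, 12, 0), (12, 0, 10), (12, 0, 14), (12, 10, 0), (12, 14, 0), (14, 0, 12), (14, 12, 0)]⟩
def row149 : Row := ⟨149, 231, 56, 54, [(0, 10, 11), (0, 10, 13), (0, 11, 10), (0, 11, 14), (0, 13, 10), (0, 13, 14), (0, 14, 11), (0, 14, 13), (2, 5, 12), (2, 12, 5), (2, 12, 19), (2, 19, 12), (3, 4, 10), (3, 4, 14), (3, 10, 4), (3, 10, 20), (3, 14, 4), (3, 14, 20), (3, 20, 10), (3, 20, 14), (4, 3, 10), (4, 3, 14), (4, 5, 6), (4, 5, 18), (4, 6, 5), (4, 6, 19), (4, 10, 3), (4, 10, 21), (4, 14, 3), (4, 14, 21), (4, 18, 5), (4, 18, 19), (4, 19, 6), (4, 19, 18), (4, 21, 10), (4, 21, 14), (5, 2, 12), (5, 4, 6), (5, 4, 18), (5, 6, 4), (5, 6, 20), (5, 12, 2), (5, 12, 22), (5, 18, 4), (5, 18, 20), (5, 20, 6), (5, 20, 18), (5, 22, 12), (6, 4, 5), (6, 4, 19),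 (6, 5, 4), (6, 5, 20), (6, 19, 4), (6, 19, 20), (6, 20, 5), (6, 20, 19), (10, 0, 11), (10, 0, 13), (10, 3, 4), (10, 3, 20), (10, 4, 3), (10, 4, 21), (10, 11, 0), (10, 13, 0), (10, 20, 3), (10, 21, 4), (11, 0, 10), (11, 0, 14), (11, 10, 0), (11, 14, 0), (12, 2, 5), (12, 2, 19), (12, 5, 2), (12, 19, 2), (13, 0, 10), (13, 0, 14), (13, 10, 0), (13, 14, 0), (14, 0, 11), (14, 0, 13), (14, 3, 4), (14, 4, 3), (14, 11, 0), (14, 13, 0)]⟩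
def row150 : Row := ⟨150, 73, 5, 0, [(1, 7, 10), (1, 7, 14), (1, 10, 7), (1, 10, 17), (1, 14, 7), (1, 14, 17), (1, 17, 10), (1, 17, 14), (2, 5, 11), (2, 5, 13), (2, 7, 7), (2, 7, 17), (2, 11, 5), (2, 11, 19), (2, 13, 5), (2, 13, 19), (2, 17, 7), (2, 17, 17), (2, 19, 11), (2, 19, 13), (5, 2, 11), (5, 2, 13), (5, 11, 2), (5, 11, 22), (5, 13, 2), (5, 13, 22), (5, 22, 11), (5, 22, 13), (7, 1, 10), (7, 1, 14), (7, 2, 7), (7, 2, 17), (7, 7, 2), (7, 7, 22), (7, 10, 1), (7, 10, 23), (7, 14, 1), (7, 14, 23), (7, 17, 2), (7, 17, 22), (7, 22, 7), (7, 22, 17), (7, 23, 10), (7, 23, 14), (10, 1, 7), (10, 1, 17), (10, 7, 1), (10, 7, 23), (10, 17, 1), (10, 17, 23), (10, 23, 7), (10, 23, 17), (11, 2, 5), (11, 2, 19), (11, 5, 2), (11, 5, 22), (11, 19, 2), (11, 19, 22), (11, 22, 5), (11, 22, 19)]⟩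
def row151 : Row := ⟨151, 100, 10, 1, []⟩
def row152 : Row := ⟨152, 395, 79, 45, [(0, 10, 10), (0, 10, 14), (0, 14, 10), (0, 14, 14), (2, 6, 8), (2, 6, 16), (2, 8, 6), (2, 8, 18), (2, 16, 6), (2, 16, 18), (2, 18, 8), (2, 18, 16), (6, 2, 8), (6, 2, 16), (6, 8, 2), (6, 8, 22), (6, 16, 2), (6, 16, 22), (6, 22, 8), (6, 22, 16), (8, 2, 6), (8, 2, 18), (8, 6, 2), (8, 6, 22), (8, 18, 2), (8, 18, 22), (8, 22, 6), (8, 22, 18), (10, 0, 10), (10, 0, 14), (10, 10, 0), (10, 10, 24), (10, 14, 0), (10, 14, 24), (14, 0, 10), (14, 0, 14)]⟩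
def row153 : Row := ⟨153, 386, 54, 8, [(0, 9, 12), (0, 12, 9), (0, 12, 15), (0, 15, 12), (1, 8, 8), (1, 8, 16), (1, 16, 8), (1, 16, 16), (2, 5, 10), (2, 5, 14), (2, 10, 5), (2, 10, 19), (2, 14, 5), (2, 14, 19), (2, 19, 10), (2, 19, 14), (3, 6, 6), (3, 6, 18), (3, 18, 6), (3, 18, 18), (4, 4, 7), (4, 4, 17), (4, 7, 4), (4, 7, 20), (4, 17, 4), (4, 17, 20), (4, 20, 7), (4, 20, 17), (5, 2, 10), (5, 2, 14), (5, 10, 2), (5, 10, 22), (5, 14, 2), (5, 14, 22), (5, 22, 10), (5, 22, 14), (6, 3, 6), (6, 3, 18), (6, 6, 3), (6, 6, 21), (6, 18, 3), (6, 18, 21), (6, 21, 6), (6, 21, 18), (7, 4, 4), (7, 4, 20), (7, 20, 4), (7, 20, 20), (8, 1, 8), (8, 1, 16), (8, 8, 1), (8, 8, 23), (8, 16, 1), (8, 16, 23), (8, 23, 8), (8, 23, 16), (9, 0, 12), (9, 12, 0), (9, 12, 24), (9, 24, 12), (10, 2, 5), (10, 2, 19), (10, 5, 2), (10, 5, 22), (10, 19, 2), (10, 19, 22), (10, 22, 5),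 (10, 22, 19), (12, 0, 9), (12, 0, 15), (12, 9, 0), (12, 9, 24)]⟩
def row154 : Row := ⟨154, 280, 187, 162, [(0, 9, 11), (0, 9, 13), (0, 11, 9), (0, 11, 15), (0, 13, 9), (0, 13, 15), (0, 15, 11), (0, 15, 13), (3, 4, 9), (3, 4, 15), (3, 9, 4), (3, 9, 20), (3, 15, 4), (3, 15, 20), (3, 20, 9), (3, 20, 15), (4, 3, 9), (4, 3, 15), (4, 9, 3), (4, 9, 21), (4, 15, 3), (4, 15, 21), (4, 21, 9), (4, 21, 15), (9, 0, 11), (9, 0, 13), (9, 3, 4), (9, 3, 20), (9, 4, 3), (9, 4, 21), (9, 11, 0), (9, 13, 0), (9, 20, 3), (9, 21, 4), (11, 0, 9), (11, 0, 15), (11, 9, 0), (11, 15, 0), (13, 0, 9), (13, 0, 15), (13, 9, 0), (13, 15, 0), (15, 0, 11), (15, 0, 13), (15, 3, 4), (15, 4, 3), (15, 11, 0), (15, 13, 0)]⟩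
def row155 : Row := ⟨155, 287, 58, 0, [(1, 7, 9), (1, 7, 15), (1, 9, 7), (1, 9, 17), (1, 15, 7), (1, 15, 17), (1, 17, 9), (1, 17, 15), (3, 5, 7), (3, 5, 17), (3, 7, 5), (3, 7, 19), (3, 17, 5), (3, 17, 19), (3, 19, 7), (3, 19, 17), (5, 3, 7), (5, 3, 17), (5, 7, 3), (5, 7, 21), (5, 17, 3), (5, 17, 21), (5, 21, 7), (5, 21, 17), (7, 1, 9), (7, 1, 15), (7, 3, 5), (7, 3, 19), (7, 5, 3), (7, 5, 21), (7, 9, 1), (7, 9, 23), (7, 15, 1), (7, 15, 23), (7, 19, 3), (7, 19, 21), (7, 21, 5), (7, 21, 19), (7, 23, 9), (7, 23, 15), (9, 1, 7), (9, 1, 17), (9, 7, 1), (9, 7, 23), (9, 17, 1), (9, 17, 23), (9, 23, 7), (9, 23, 17)]⟩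
def row156 : Row := ⟨156, 100, 10, 1, []⟩
def row157 : Row := ⟨157, 202, 194, 155, [(0, 9, 10), (0, 9, 14), (0, 10, 9), (0, 10, 15), (0, 14, 9), (0, 14, 15), (0, 15, 10), (0, 15, 14), (1, 6, 12), (1, 12, 6), (1, 12, 18), (1, 18, 12), (6, 1, 12), (6, 12, 1), (9, 0, 10), (9, 0, 14), (9, 10, 0), (9, 14, 0), (10, 0, 9), (10, 0, 15), (10, 9, 0), (10, 15, 0), (12, 1, 6), (12, 1, 18), (12, 6, 1), (12, 18, 1), (14, 0, 9), (14, 0, 15), (14, 9, 0), (14, 15, 0), (15, 0, 10), (15, 0, 14), (15, 10, 0), (15, 14, 0), (18, 1, 12), (18, 12, 1)]⟩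
def row158 : Row := ⟨158, 364, 16, 10, [(1, 6, 11), (1, 6, 13), (1, 11, 6), (1, 11, 18), (1, 13, 6), (1, 13, 18), (1, 18, 11), (1, 18, 13), (2, 5, 9), (2, 5, 15), (2, 9, 5), (2, 9, 19), (2, 15, 5), (2, 15, 19), (2, 19, 9), (2, 19, 15), (5, 2, 9), (5, 2, 15), (5, 9, 2), (5, 9, 22), (5, 15, 2), (5, 15, 22), (5, 22, 9), (5, 22, 15), (6, 1, 11), (6, 1, 13), (6, 11, 1), (6, 11, 23), (6, 13, 1), (6, 13, 23), (6, 23, 11), (6, 23, 13), (9, 2, 5), (9, 2, 19), (9, 5, 2), (9, 5, 22), (9, 19, 2), (9, 19, 22), (9, 22, 5), (9, 22, 19), (11, 1, 6), (11, 1, 18), (11, 6, 1), (11, 6, 23), (11, 18, 1), (11, 18, 23), (11, 23, 6), (11, 23, 18)]⟩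
def row159 : Row := ⟨159, 100, 10, 1, []⟩
def row160 : Row := ⟨160, 372, 102, 25, [(0, 8, 12), (0, 12, 8), (0, 12, 16), (0, 16, 12), (8, 0, 12), (8, 12, 0), (8, 12, 24), (8, 24, 12), (12, 0, 8), (12, 0, 16), (12, 8, 0), (12, 8, 24)]⟩
def row161 : Row := ⟨161, 222, 6, 2, [(0, 8, 11), (0, 8, 13), (0, 11, 8), (0, 11, 16), (0, 13, 8), (0, 13, 16), (0, 16, 11), (0, 16, 13), (1, 6, 10), (1, 6, 14), (1, 10, 6), (1, 10, 18), (1, 14, 6), (1, 14, 18), (1, 18, 10), (1, 18, 14), (2, 6, 7), (2, 6, 17), (2, 7, 6), (2, 7, 18), (2, 17, 6), (2, 17, 18), (2, 18, 7), (2, 18, 17), (3, 4, 8), (3, 4, 16), (3, 8, 4), (3, 8, 20), (3, 16, 4), (3, 16, 20), (3, 20, 8), (3, 20, 16), (4, 3, 8), (4, 3, 16), (4, 8, 3), (4, 8, 21), (4, 16, 3), (4, 16, 21), (4, 21, 8), (4, 21, 16), (6, 1, 10), (6, 1, 14), (6, 2, 7), (6, 2, 17), (6, 7, 2), (6, 7, 22), (6, 10, 1), (6, 10, 23), (6,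 14, 1), (6, 14, 23), (6, 17, 2), (6, 17, 22), (6, 22, 7), (6, 22, 17), (6, 23, 10), (6, 23, 14), (7, 2, 6), (7, 2, 18), (7, 6, 2), (7, 6, 22), (7, 18, 2), (7, 18, 22), (7, 22, 6), (7, 22, 18), (8, 0, 11), (8, 0, 13), (8, 3, 4), (8, 3, 20), (8, 4, 3), (8, 4, 21), (8, 11, 0), (8, 11, 24), (8, 13, 0), (8, 13, 24), (8, 20, 3), (8, 20, 21), (8, 21, 4), (8, 21, 20), (8, 24, 11), (8, 24, 13), (10, 1, 6), (10, 1, 18), (10, 6, 1), (10, 6, 23), (10, 18, 1), (10, 18, 23), (10, 23, 6), (10, 23, 18), (11, 0, 8), (11, 0, 16), (11, 8, 0), (11, 8, 24), (11, 16, 0), (11, 16, 24), (11, 24, 8), (11, 24, 16)]⟩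

theorem ok101 : rowOK 12 7 12 row101 = true := by decide +kernel
theorem ok102 : rowOK 12 7 12 row102 = true := by decide +kernel
theorem ok103 : rowOK 12 7 12 row103 = true := by decide +kernel
theorem ok104 : rowOK 12 7 12 row104 = true := by decide +kernel
theorem ok105 : rowOK 12 7 12 row105 = true := by decide +kernel
theorem ok106 : rowOK 12 7 12 row106 = true := by decide +kernel
theorem ok107 : rowOK 12 7 12 row107 = true := by decide +kernel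
theorem ok108 : rowOK 12 7 12 row108 = true := by decide +kernel
theorem ok109 : rowOK 12 7 12 row109 = true := by decide +kernel
theorem ok110 : rowOK 12 7 12 row110 = true := by decide +kernel
theorem ok111 : rowOK 12 7 12 row111 = true := by decide +kernel
theorem ok112 : rowOK 12 7 12 row112 = true := by decide +kernel
theorem ok113 : rowOK 12 7 12 row113 = true := by decide +kernel
theorem ok114 : rowOK 12 7 12 row114 = true := by decide +kernel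
theorem ok115 : rowOK 12 7 12 row115 = true := by decide +kernel
theorem ok116 : rowOK 12 7 12 row116 = true := by decide +kernel
theorem ok117 : rowOK 12 7 12 row117 = true := by decide +kernel
theorem ok118 : rowOK 12 7 12 row118 = true := by decide +kernel
theorem ok119 : rowOK 12 7 12 row119 = true := by decide +kernel
theorem ok120 : rowOK 12 7 12 row120 = true := by decide +kernel
theorem ok121 : rowOK 12 7 12 row121 = true := by decide +kernel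
theorem ok122 : rowOK 12 7 12 row122 = true := by decide +kernel
theorem ok123 : rowOK 12 7 12 row123 = true := by decide +kernel
theorem ok124 : rowOK 12 7 12 row124 = true := by decide +kernel
theorem ok125 : rowOK 12 7 12 row125 = true := by decide +kernel
theorem ok126 : rowOK 12 7 12 row126 = true := by decide +kernel
theorem ok127 : rowOK 12 7 12 row127 = true := by decide +kernel
theorem ok128 : rowOK 12 7 12 row128 = true := by decide +kernel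
theorem ok129 : rowOK 12 7 12 row129 = true := by decide +kernel
theorem ok130 : rowOK 12 7 12 row130 = true := by decide +kernel
theorem ok131 : rowOK 12 7 12 row131 = true := by decide +kernel
theorem ok132 : rowOK 12 7 12 row132 = true := by decide +kernel
theorem ok133 : rowOK 12 7 12 row133 = true := by decide +kernel
theorem ok134 : rowOK 12 7 12 row134 = true := by decide +kernel
theorem ok135 : rowOK 12 7 12 row135 = true := by decide +kernel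
theorem ok136 : rowOK 12 7 12 row136 = true := by decide +kernel
theorem ok137 : rowOK 12 7 12 row137 = true := by decide +kernel
theorem ok138 : rowOK 12 7 12 row138 = true := by decide +kernel
theorem ok139 : rowOK 12 7 12 row139 = true := by decide +kernel
theorem ok140 : rowOK 12 7 12 row140 = true := by decide +kernel
theorem ok141 : rowOK 12 7 12 row141 = true := by decide +kernel
theorem ok142 : rowOK 12 7 12 row142 = true := by decide +kernel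
theorem ok143 : rowOK 12 7 12 row143 = true := by decide +kernel
theorem ok144 : rowOK 12 7 12 row144 = true := by decide +kernel
theorem ok145 : rowOK 12 7 12 row145 = true := by decide +kernel
theorem ok146 : rowOK 12 7 12 row146 = true := by decide +kernel
theorem ok147 : rowOK 12 7 12 row147 = true := by decide +kernel
theorem ok148 : rowOK 12 7 12 row148 = true := by decide +kernel
theorem ok149 : rowOK 12 7 12 row149 = true := by decide +kernel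
theorem ok150 : rowOK 12 7 12 row150 = true := by decide +kernel
theorem ok151 : rowOK 12 7 12 row151 = true := by decide +kernel
theorem ok152 : rowOK 12 7 12 row152 = true := by decide +kernel
theorem ok153 : rowOK 12 7 12 row153 = true := by decide +kernel
theorem ok154 : rowOK 12 7 12 row154 = true := by decide +kernel
theorem ok155 : rowOK 12 7 12 row155 = true := by decide +kernel
theorem ok156 : rowOK 12 7 12 row156 = true := by decide +kernel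
theorem ok157 : rowOK 12 7 12 row157 = true := by decide +kernel
theorem ok158 : rowOK 12 7 12 row158 = true := by decide +kernel
theorem ok159 : rowOK 12 7 12 row159 = true := by decide +kernel
theorem ok160 : rowOK 12 7 12 row160 = true := by decide +kernel
theorem ok161 : rowOK 12 7 12 row161 = true := by decide +kernel

theorem rows (N : ℕ) (h1 : 101 ≤ N) (h2 : N ≤ 161) :
    ∃ R : Row, R.N = N ∧ rowOK 12 7 12 R = true := by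
  interval_cases N
  · exact ⟨row101, rfl, ok101⟩
  · exact ⟨row102, rfl, ok102⟩
  · exact ⟨row103, rfl, ok103⟩
  · exact ⟨row104, rfl, ok104⟩
  · exact ⟨row105, rfl, ok105⟩
  · exact ⟨row106, rfl, ok106⟩
  · exact ⟨row107, rfl, ok107⟩
  · exact ⟨row108, rfl, ok108⟩
  · exact ⟨row109, rfl, ok109⟩
  · exact ⟨row110, rfl, ok110⟩
  · exact ⟨row111, rfl, ok111⟩
  · exact ⟨row112, rfl, ok112⟩
  · exact ⟨row113, rfl, ok113⟩
  · exact ⟨row114, rfl, ok114⟩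
  · exact ⟨row115, rfl, ok115⟩
  · exact ⟨row116, rfl, ok116⟩
  · exact ⟨row117, rfl, ok117⟩
  · exact ⟨row118, rfl, ok118⟩
  · exact ⟨row119, rfl, ok119⟩
  · exact ⟨row120, rfl, ok120⟩
  · exact ⟨row121, rfl, ok121⟩
  · exact ⟨row122, rfl, ok122⟩
  · exact ⟨row123, rfl, ok123⟩
  · exact ⟨row124, rfl, ok124⟩
  · exact ⟨row125, rfl, ok125⟩
  · exact ⟨row126, rfl, ok126⟩
  · exact ⟨row127, rfl, ok127⟩
  · exact ⟨row128, rfl, ok128⟩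
  · exact ⟨row129, rfl, ok129⟩
  · exact ⟨row130, rfl, ok130⟩
  · exact ⟨row131, rfl, ok131⟩
  · exact ⟨row132, rfl, ok132⟩
  · exact ⟨row133, rfl, ok133⟩
  · exact ⟨row134, rfl, ok134⟩
  · exact ⟨row135, rfl, ok135⟩
  · exact ⟨row136, rfl, ok136⟩
  · exact ⟨row137, rfl, ok137⟩
  · exact ⟨row138, rfl, ok138⟩
  · exact ⟨row139, rfl, ok139⟩
  · exact ⟨row140, rfl, ok140⟩
  · exact ⟨row141, rfl, ok141⟩
  · exact ⟨row142, rfl, ok142⟩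
  · exact ⟨row143, rfl, ok143⟩
  · exact ⟨row144, rfl, ok144⟩
  · exact ⟨row145, rfl, ok145⟩
  · exact ⟨row146, rfl, ok146⟩
  · exact ⟨row147, rfl, ok147⟩
  · exact ⟨row148, rfl, ok148⟩
  · exact ⟨row149, rfl, ok149⟩
  · exact ⟨row150, rfl, ok150⟩
  · exact ⟨row151, rfl, ok151⟩
  · exact ⟨row152, rfl, ok152⟩
  · exact ⟨row153, rfl, ok153⟩
  · exact ⟨row154, rfl, ok154⟩
  · exact ⟨row155, rfl, ok155⟩
  · exact ⟨row156, rfl, ok156⟩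
  · exact ⟨row157, rfl, ok157⟩
  · exact ⟨row158, rfl, ok158⟩
  · exact ⟨row159, rfl, ok159⟩
  · exact ⟨row160, rfl, ok160⟩
  · exact ⟨row161, rfl, ok161⟩

end Pool.Agent.Lib.MPe4ee32.IP.D7b
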