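import Pool.Agent.Lib.MP_e4ee32_co.IP.Check

/-! Integer packings (MP_e4ee32_co): rows of the table, checked by the kernel. -/

namespace Pool.Agent.Lib.MPe4ee32.IP.D7c

def row163 : Row := ⟨163, 383, 333, 12, [(8, 8, 16), (8, 8, 18), (8, 16, 8), (8, 16, 26), (8, 18, 8), (8, 18, 26), (8, 26, 16), (8, 26, 18), (16, 8, 8), (16, 8, 26), (18, 8, 8), (18, 8, 26)]⟩
def row164 : Row := ⟨164, 335, 64, 37, [(5, 13, 15), (5, 13, 19), (5, 15, 13), (5, 15, 21), (5, 19, 13), (5, 19, 21), (5, 21, 15), (5, 21, 19), (7, 9, 17), (7, 17, 9), (7, 17, 25), (7, 25, 17), (9, 7, 17), (9, 9, 11), (9, 9, 23), (9, 11, 9), (9, 11, 25), (9, 17, 7), (9, 17, 27), (9, 23, 9), (9, 23, 25), (9, 25, 11), (9, 25, 23), (9, 27, 17), (11, 9, 9), (11, 9, 25), (11, 25, 9), (11, 25, 25), (13, 5, 15), (13, 5, 19), (13, 15, 5), (13, 15, 29), (13, 19, 5), (13, 19, 29), (13, 29, 15), (13, 29, 19), (15, 5, 13), (15, 5, 21),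 (15, 13, 5), (15, 13, 29), (15, 21, 5), (15, 29, 13), (17, 7, 9), (17, 7, 25), (17, 9, 7), (17, 9, 27), (19, 5, 13), (19, 13, 5)]⟩
def row165 : Row := ⟨165, 216, 181, 75, [(7, 9, 16), (7, 9, 18), (7, 10, 13), (7, 10, 21), (7, 13, 10), (7, 13, 24), (7, 16, 9), (7, 16, 25), (7, 18, 9), (7, 18, 25), (7, 21, 10), (7, 21, 24), (7, 24, 13), (7, 24, 21), (7, 25, 16), (7, 25, 18), (9, 7, 16), (9, 7, 18), (9, 16, 7), (9, 16, 27), (9, 18, 7), (9, 18, 27), (10, 7, 13), (10, 7, 21), (10, 13, 7), (10, 13, 27), (10, 21, 7), (10, 21, 27), (10, 27, 13), (13, 7, 10), (13, 7, 24), (13, 10, 7), (13, 10, 27), (13, 24, 7), (16, 7, 9), (16, 7, 25), (16, 9, 7), (16, 9, 27), (18, 7, 9), (18, 7, 25), (18, 9, 7), (18, 9, 27), (21, 7, 10), (21, 7, 24), (21, 10, 7), (24, 7, 13), (25, 7, 16), (25, 7, 18)]⟩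
def row166 : Row := ⟨166, 393, 63, 13, [(6, 11, 14), (6, 11, 20), (6, 14, 11), (6, 14, 23), (6, 20, 11), (6, 20, 23), (6, 23, 14), (6, 23, 20), (8, 8, 15), (8, 8, 19), (8, 10, 11), (8, 10, 23), (8, 11, 10), (8, 11, 24), (8, 15, 8), (8, 15, 26), (8, 19, 8), (8, 19, 26), (8, 23, 10), (8, 23, 24), (8, 24, 11), (8, 24, 23), (8, 26, 15), (8, 26, 19), (10, 8, 11), (10, 8, 23), (10, 11, 8), (10, 11, 26), (10, 23, 8), (10, 23, 26), (10, 26, 11), (10, 26, 23), (11, 6, 14), (11, 6, 20), (11, 8, 10), (11, 8, 24), (11, 10, 8), (11, 10, 26), (11, 14, 6), (11, 14, 28), (11, 20, 6), (11, 20, 28), (11, 24, 8), (11, 24, 26), (11, 26, 10), (11, 26, 24), (11, 28, 14), (11, 28, 20), (14, 6, 11), (14, 6, 23), (14, 11, 6), (14, 11, 28), (14, 23, 6), (14, 23, 28), (14, 28, 11), (14, 28, 23), (15, 8, 8), (15, 8, 26), (15, 26, 8), (15, 26, 26)]⟩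
def row167 : Row := ⟨167, 100, 10, 1, []⟩
def row168 : Row := ⟨168, 170, 21, 15, [(7, 9, 15), (7, 9, 19), (7, 15, 9), (7, 15, 25), (7, 19, 9), (7, 19, 25), (7, 25, 15), (7, 25, 19), (9, 7, 15), (9, 7, 19), (9, 15, 7), (9, 15, 27), (9, 19, 7), (9, 19, 27), (9, 27, 15), (9, 27, 19), (15, 7, 9), (15, 7, 25), (15, 9, 7), (15, 9, 27), (15, 25, 7), (15, 25, 27), (15, 27, 9), (15, 27, 25)]⟩
def row169 : Row := ⟨169, 394, 211, 10, [(4, 17, 17), (5, 12, 17), (5, 13, 14), (5, 13, 20), (5, 14, 13), (5, 14, 21), (5, 17, 12), (5, 17, 22), (5, 20, 13), (5, 20, 21), (5, 21, 14), (5, 21, 20), (5, 22, 17), (12, 5, 17), (12, 17, 5), (12, 17, 29), (13, 5, 14), (13, 5, 20), (13, 14, 5), (13, 14, 29), (13, 20, 5), (13, 20, 29), (14, 5, 13), (14, 5, 21), (14, 13, 5), (14, 13, 29), (14, 21, 5), (14, 21, 29), (17, 4, 17), (17, 5, 12), (17, 5, 22), (17, 12, 5), (17, 12, 29), (17, 17, 4), (20, 5, 13), (20,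 5, 21), (21, 5, 14), (21, 5, 20), (22, 5, 17)]⟩
def row170 : Row := ⟨170, 334, 133, 27, [(4, 16, 17), (4, 17, 16), (4, 17, 18), (4, 18, 17), (5, 12, 16), (5, 12, 18), (5, 16, 12), (5, 16, 22), (5, 18, 12), (5, 18, 22), (5, 22, 16), (5, 22, 18), (6, 10, 17), (6, 17, 10), (6, 17, 24), (6, 24, 17), (8, 9, 12), (8, 9, 22), (8, 12, 9), (8, 12, 25), (8, 22, 9), (8, 22, 25), (8, 25, 12), (8, 25, 22), (9, 8, 12), (9, 8, 22), (9, 12, 8), (9, 12, 26), (9, 22, 8), (9, 22, 26), (9, 26, 12), (9, 26, 22), (10, 6, 17), (10, 17, 6), (10, 17, 28), (10, 28, 17), (12, 5, 16), (12, 5, 18), (12, 8, 9), (12, 8, 25), (12, 9, 8), (12, 9, 26), (12, 16, 5), (12, 16, 29), (12, 18, 5), (12, 18, 29), (12, 25, 8), (12, 25, 26), (12, 26, 9), (12, 26, 25), (12, 29, 16), (12, 29, 18), (16, 4, 17), (16, 5, 12), (16, 5, 22), (16, 12, 5), (16, 12, 29), (16, 17, 4), (17, 4, 16), (17, 4, 18), (17, 6, 10), (17, 6, 24),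 (17, 10, 6), (17, 10, 28), (17, 16, 4), (17, 18, 4), (18, 4, 17), (18, 5, 12), (18, 5, 22), (18, 12, 5), (18, 12, 29), (18, 17, 4)]⟩
def row171 : Row := ⟨171, 279, 129, 66, [(4, 16, 16), (4, 16, 18), (4, 18, 16), (4, 18, 18), (6, 10, 16), (6, 10, 18), (6, 12, 12), (6, 12, 22), (6, 16, 10), (6, 16, 24), (6, 18, 10), (6, 18, 24), (6, 22, 12), (6, 22, 22), (6, 24, 16), (6, 24, 18), (8, 8, 14), (8, 8, 20), (8, 14, 8), (8, 14, 26), (8, 20, 8), (8, 20, 26), (8, 26, 14), (8, 26, 20), (10, 6, 16), (10, 6, 18), (10, 16, 6), (10, 16, 28), (10, 18, 6), (10, 18, 28), (10, 28, 16), (10, 28, 18), (12, 6, 12), (12, 6, 22), (12, 12, 6), (12, 12, 28), (12, 22, 6), (12, 22, 28), (12, 28, 12), (14, 8, 8), (14, 8, 26), (14, 26, 8), (16, 4, 16), (16, 4, 18), (16, 6, 10), (16, 6, 24), (16, 10, 6), (16, 10, 28), (16, 16, 4), (16, 18, 4), (16, 24, 6), (18, 4, 16), (18, 4, 18), (18, 6, 10), (18, 6, 24),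 (18, 10, 6), (18, 16, 4), (18, 18, 4), (20, 8, 8), (22, 6, 12)]⟩
def row172 : Row := ⟨172, 279, 245, 1, [(7, 11, 11), (7, 11, 23), (7, 23, 11), (7, 23, 23), (11, 7, 11), (11, 7, 23), (11, 11, 7), (11, 11, 27), (11, 23, 7), (11, 23, 27), (23, 7, 11), (23, 7, 23)]⟩
def row173 : Row := ⟨173, 321, 19, 2, [(4, 15, 17), (4, 17, 15), (4, 17, 19), (4, 19, 17), (5, 12, 15), (5, 12, 19), (5, 15, 12), (5, 15, 22), (5, 19, 12), (5, 19, 22), (5, 22, 15), (5, 22, 19), (6, 11, 13), (6, 11, 21), (6, 13, 11), (6, 13, 23), (6, 21, 11), (6, 21, 23), (6, 23, 13), (6, 23, 21), (7, 9, 14), (7, 9, 20), (7, 14, 9), (7, 14, 25), (7, 20, 9), (7, 20, 25), (7, 25, 14), (7, 25, 20), (9, 7, 14), (9, 7, 20), (9, 14, 7), (9, 14, 27), (9, 20, 7), (9, 20, 27), (9, 27, 14), (9, 27, 20), (11, 6, 13), (11, 6, 21), (11, 13, 6), (11, 13, 28), (11, 21, 6), (11, 21, 28), (11, 28, 13), (11, 28, 21), (12, 5, 15), (12, 5,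 19), (12, 15, 5), (12, 15, 29), (12, 19, 5), (12, 19, 29), (12, 29, 15), (12, 29, 19), (13, 6, 11), (13, 6, 23), (13, 11, 6), (13, 11, 28), (13, 23, 6), (13, 23, 28), (13, 28, 11), (13, 28, 23), (14, 7, 9), (14, 7, 25), (14, 9, 7), (14, 9, 27), (14, 25, 7), (14, 25, 27), (14, 27, 9), (14, 27, 25), (15, 4, 17), (15, 5, 12), (15, 5, 22), (15, 12, 5), (15, 12, 29), (15, 17, 4), (15, 17, 30), (15, 22, 5), (15, 22, 29), (15, 29, 12), (15, 29, 22), (15, 30, 17), (17, 4, 15), (17, 4, 19), (17, 15, 4), (17, 15, 30)]⟩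
def row174 : Row := ⟨174, 242, 81, 76, [(4, 15, 16), (4, 15, 18), (4, 16, 15), (4, 16, 19), (4, 18, 15), (4, 18, 19), (4, 19, 16), (4, 19, 18), (6, 10, 15), (6, 10, 19), (6, 15, 10), (6, 15, 24), (6, 19, 10), (6, 19, 24), (6, 24, 15), (6, 24, 19), (7, 10, 12), (7, 10, 22), (7, 12, 10), (7, 12, 24), (7, 22, 10), (7, 22, 24), (7, 24, 12), (7, 24, 22), (10, 6, 15), (10, 6, 19), (10, 7, 12), (10, 7, 22), (10, 12, 7), (10, 12, 27), (10, 15, 6), (10, 15, 28), (10, 19, 6), (10, 19, 28), (10, 22, 7), (10, 22, 27), (10, 27, 12), (10, 27, 22), (10, 28, 15), (10, 28, 19), (12, 7, 10), (12, 7, 24), (12, 10, 7), (12, 10, 27), (12, 24, 7), (12, 27, 10), (15, 4, 16), (15, 4, 18), (15, 6, 10), (15, 6, 24), (15, 10, 6), (15, 10, 28), (15, 16, 4), (15, 18, 4), (15, 24, 6), (15, 28, 10), (16, 4, 15), (16, 4, 19), (16, 15, 4), (16, 19, 4), (18, 4, 15), (18, 4, 19), (18, 15, 4), (18, 19, 4), (19, 4,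 16), (19, 4, 18), (19, 6, 10), (19, 10, 6), (19, 16, 4), (19, 18, 4), (22, 7, 10), (22, 10, 7)]⟩
def row175 : Row := ⟨175, 100, 10, 1, []⟩
def row176 : Row := ⟨176, 175, 157, 126, [(5, 13, 13), (5, 13, 21), (5, 21, 13), (5, 21, 21), (13, 5, 13), (13, 5, 21), (13, 13, 5), (13, 21, 5), (21, 5, 13), (21, 5, 21), (21, 13, 5), (21, 21, 5)]⟩
def row177 : Row := ⟨177, 265, 236, 92, [(4, 15, 15), (4, 15, 19), (4, 19, 15), (4, 19, 19), (9, 9, 10), (9, 9, 24), (9, 10, 9), (9, 10, 25), (9, 24, 9), (9, 25, 10), (10, 9, 9), (10, 9, 25), (10, 25, 9), (15, 4, 15), (15, 4, 19), (15, 15, 4), (15, 19, 4), (19, 4, 15), (19, 4, 19), (19, 15, 4), (19, 19, 4), (24, 9, 9), (25, 9, 10), (25, 10, 9)]⟩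
def row178 : Row := ⟨178, 360, 76, 27, [(4, 14, 17), (4, 17, 14), (4, 17, 20), (4, 20, 17), (5, 12, 14), (5, 12, 20), (5, 14, 12), (5, 14, 22), (5, 20, 12), (5, 20, 22), (5, 22, 14), (5, 22, 20), (8, 8, 13), (8, 8, 21), (8, 13, 8), (8, 13, 26), (8, 21, 8), (8, 21, 26), (8, 26, 13), (8, 26, 21), (12, 5, 14), (12, 5, 20), (12, 14, 5), (12, 14, 29), (12, 20, 5), (12, 20, 29), (12, 29, 14), (12, 29, 20), (13, 8, 8), (13, 8, 26), (13, 26, 8), (13, 26, 26), (14, 4, 17), (14, 5, 12), (14, 5, 22), (14, 12, 5), (14, 12, 29), (14, 17, 4), (14, 17, 30), (14, 22, 5), (14, 22, 29), (14, 29, 12), (14, 29, 22), (14, 30, 17), (17, 4, 14), (17, 4, 20), (17, 14, 4), (17, 20, 4)]⟩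
def row179 : Row := ⟨179, 316, 89, 40, [(4, 14, 16), (4, 14, 18), (4, 16, 14), (4, 16, 20), (4, 18, 14), (4, 18, 20), (4, 20, 16), (4, 20, 18), (6, 10, 14), (6, 10, 20), (6, 14, 10), (6, 14, 24), (6, 20, 10), (6, 20, 24), (6, 24, 14), (6, 24, 20), (8, 10, 10), (8, 10, 24), (8, 24, 10), (8, 24, 24), (10, 6, 14), (10, 6, 20), (10, 8, 10), (10, 8, 24), (10, 10, 8), (10, 10, 26), (10, 14, 6), (10, 14, 28), (10, 20, 6), (10, 20, 28), (10, 24, 8), (10, 24, 26), (10, 26, 10), (10, 26, 24), (10, 28, 14), (10, 28, 20), (14, 4, 16), (14, 4, 18), (14, 6, 10), (14, 6, 24), (14, 10, 6), (14, 10, 28), (14, 16, 4), (14, 16, 30), (14, 18, 4), (14, 18, 30), (14, 24, 6), (14, 28, 10), (16, 4, 14), (16, 4, 20), (16, 14, 4), (16, 14, 30), (16, 20, 4), (18, 4, 14), (18, 4, 20), (18, 14, 4), (20, 4, 16), (20, 4, 18), (20, 6, 10), (20, 10, 6)]⟩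
def row180 : Row := ⟨180, 269, 254, 230, [(5, 11, 17), (5, 17, 11), (5, 17, 23), (5, 23, 17), (7, 9, 13), (7, 9, 21), (7, 13, 9), (7, 13, 25), (7, 21, 9), (7, 25, 13), (9, 7, 13), (9, 7, 21), (9, 13, 7), (9, 13, 27), (9, 21, 7), (9, 27, 13), (11, 5, 17), (11, 17, 5), (13, 7, 9), (13, 7, 25), (13, 9, 7), (13, 9, 27), (13, 25, 7), (13, 27, 9), (17, 5, 11), (17, 5, 23), (17, 11, 5), (17, 23, 5), (21, 7, 9), (21, 9, 7), (23, 5, 17), (23, 17, 5), (25, 7, 13), (25, 13, 7), (27, 9, 13), (27, 13, 9)]⟩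
def row181 : Row := ⟨181, 110, 23, 22, [(5, 11, 16), (5, 11, 18), (5, 16, 11), (5, 16, 23), (5, 18, 11), (5, 18, 23), (5, 23, 16), (5, 23, 18), (7, 8, 17), (7, 17, 8), (7, 17, 26), (7, 26, 17), (8, 7, 17), (8, 9, 11), (8, 9, 23), (8, 11, 9), (8, 11, 25), (8, 17, 7), (8, 17, 27), (8, 23, 9), (8, 23, 25), (8, 25, 11), (8, 25, 23), (8, 27, 17), (9, 8, 11), (9, 8, 23), (9, 11, 8), (9, 11, 26), (9, 23, 8), (9, 23, 26), (9, 26, 11), (9, 26, 23), (11, 5, 16), (11, 5, 18), (11, 8, 9), (11, 8, 25), (11, 9, 8), (11, 9, 26), (11, 16, 5), (11, 16, 29), (11, 18, 5), (11, 18, 29), (11, 25, 8), (11, 25, 26), (11, 26, 9), (11, 26, 25), (11, 29, 16), (11, 29, 18), (16, 5, 11), (16, 5, 23), (16, 11, 5), (16, 23, 5), (17, 7, 8), (17, 7, 26), (17, 8, 7), (17, 26, 7), (18, 5, 11), (18, 5, 23), (18, 11, 5), (18, 23, 5)]⟩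
def row182 : Row := ⟨182, 141, 53, 6, [(4, 14, 15), (4, 14, 19), (4, 15, 14), (4, 15, 20), (4, 19, 14), (4, 19, 20), (4, 20, 15), (4, 20, 19), (6, 11, 12), (6, 11, 22), (6, 12, 11), (6, 12, 23), (6, 22, 11), (6, 22, 23), (6, 23, 12), (6, 23, 22), (7, 8, 16), (7, 8, 18), (7, 16, 8), (7, 16, 26), (7, 18, 8), (7, 18, 26), (7, 26, 16), (7, 26, 18), (8, 7, 16), (8, 7, 18), (8, 16, 7), (8, 16, 27), (8, 18, 7), (8, 18, 27), (8, 27, 16), (8, 27, 18), (11, 6, 12), (11, 6, 22), (11, 12, 6), (11, 12, 28), (11, 22, 6), (11, 22, 28), (11, 28, 12), (11, 28, 22), (12, 6, 11), (12, 6, 23), (12, 11, 6), (12, 11, 28), (12, 23, 6), (12, 23, 28), (12, 28, 11), (12, 28, 23), (14, 4, 15), (14, 4, 19), (14, 15, 4), (14, 15, 30), (14, 19, 4), (14, 19, 30), (15, 4, 14), (15, 4, 20), (15, 14, 4), (15, 14, 30), (15, 20, 4), (15, 20, 30), (16, 7, 8), (16, 7, 26), (16, 8, 7), (16, 8, 27), (18, 7, 8), (18,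 7, 26), (18, 8, 7), (18, 8, 27), (19, 4, 14), (19, 4, 20), (20, 4, 15), (20, 4, 19)]⟩
def row183 : Row := ⟨183, 100, 10, 1, []⟩
def row184 : Row := ⟨184, 142, 107, 59, [(5, 11, 15), (5, 11, 19), (5, 15, 11), (5, 15, 23), (5, 19, 11), (5, 19, 23), (5, 23, 15), (5, 23, 19), (11, 5, 15), (11, 5, 19), (11, 15, 5), (11, 15, 29), (11, 19, 5), (15, 5, 11), (15, 5, 23), (15, 11, 5), (15, 11, 29), (15, 23, 5), (19, 5, 11), (19, 5, 23), (19, 11, 5), (23, 5, 15), (23, 5, 19), (23, 15, 5)]⟩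
def row185 : Row := ⟨185, 368, 26, 2, [(4, 13, 17), (4, 17, 13), (4, 17, 21), (4, 21, 17), (5, 12, 13), (5, 12, 21), (5, 13, 12), (5, 13, 22), (5, 21, 12), (5, 21, 22), (5, 22, 13), (5, 22, 21), (6, 9, 17), (6, 17, 9), (6, 17, 25), (6, 25, 17), (7, 8, 15), (7, 8, 19), (7, 10, 11), (7, 10, 23), (7, 11, 10), (7, 11, 24), (7, 15, 8), (7, 15, 26), (7, 19, 8), (7, 19, 26), (7, 23, 10), (7, 23, 24), (7, 24, 11), (7, 24, 23), (7, 26, 15), (7, 26, 19), (8, 7, 15), (8, 7, 19), (8, 15, 7), (8, 15, 27), (8, 19, 7), (8, 19, 27), (8, 27, 15), (8, 27, 19), (9, 6, 17), (9, 17, 6), (9, 17, 28), (9, 28, 17), (10, 7, 11), (10, 7, 23), (10, 11, 7), (10, 11, 27), (10, 23, 7), (10, 23, 27), (10, 27, 11), (10, 27, 23), (11, 7, 10), (11, 7, 24), (11, 10, 7), (11, 10, 27), (11, 24, 7), (11, 24, 27), (11, 27, 10), (11, 27, 24), (12, 5, 13), (12, 5, 21), (12, 13, 5), (12, 13, 29), (12, 21, 5), (12, 21,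 29), (12, 29, 13), (12, 29, 21), (13, 4, 17), (13, 5, 12), (13, 5, 22), (13, 12, 5), (13, 12, 29), (13, 17, 4), (13, 17, 30), (13, 22, 5), (13, 22, 29), (13, 29, 12), (13, 29, 22), (13, 30, 17), (15, 7, 8), (15, 7, 26), (15, 8, 7), (15, 8, 27), (15, 26, 7), (15, 26, 27), (15, 27, 8), (15, 27, 26), (17, 4, 13), (17, 4, 21), (17, 6, 9), (17, 6, 25), (17, 9, 6), (17, 9, 28), (17, 13, 4), (17, 13, 30)]⟩
def row186 : Row := ⟨186, 334, 117, 2, [(4, 13, 16), (4, 13, 18), (4, 16, 13), (4, 16, 21), (4, 18, 13), (4, 18, 21), (4, 21, 16), (4, 21, 18), (6, 9, 16), (6, 9, 18), (6, 10, 13), (6, 10, 21), (6, 13, 10), (6, 13, 24), (6, 16, 9), (6, 16, 25), (6, 18, 9), (6, 18, 25), (6, 21, 10), (6, 21, 24), (6, 24, 13), (6, 24, 21), (6, 25, 16), (6, 25, 18), (9, 6, 16), (9, 6, 18), (9, 16, 6), (9, 16, 28), (9, 18, 6), (9, 18, 28), (9, 28, 16), (9, 28, 18), (10, 6, 13), (10, 6, 21), (10, 13, 6),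 (10, 13, 28), (10, 21, 6), (10, 21, 28), (10, 28, 13), (10, 28, 21), (13, 4, 16), (13, 4, 18), (13, 6, 10), (13, 6, 24), (13, 10, 6), (13, 10, 28), (13, 16, 4), (13, 16, 30), (13, 18, 4), (13, 18, 30), (13, 24, 6), (13, 24, 28), (13, 28, 10), (13, 28, 24), (16, 4, 13), (16, 4, 21), (16, 6, 9), (16, 6, 25), (16, 9, 6), (16, 9, 28), (16, 13, 4), (16, 13, 30), (18, 4, 13), (18, 4, 21), (18, 6, 9), (18, 6, 25), (18, 9, 6), (18, 9, 28), (18, 13, 4), (18, 13, 30), (21, 4, 16), (21, 4, 18)]⟩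
def row187 : Row := ⟨187, 297, 48, 17, [(4, 14, 14), (4, 14, 20), (4, 20, 14), (4, 20, 20), (8, 8, 12), (8, 8, 22), (8, 12, 8), (8, 12, 26), (8, 22, 8), (8, 22, 26), (8, 26, 12), (8, 26, 22), (12, 8, 8), (12, 8, 26), (12, 26, 8), (12, 26, 26), (14, 4, 14), (14, 4, 20), (14, 14, 4), (14, 14, 30), (14, 20, 4), (14, 20, 30), (14, 30, 14), (14, 30, 20)]⟩
def row188 : Row := ⟨188, 100, 10, 1, []⟩
def row189 : Row := ⟨189, 347, 44, 6, [(4, 13, 15), (4, 13, 19), (4, 15, 13), (4, 15, 21), (4, 19, 13), (4, 19, 21), (4, 21, 15), (4, 21, 19), (5, 11, 14), (5, 11, 20), (5, 14, 11), (5, 14, 23), (5, 20, 11), (5, 20, 23), (5, 23, 14), (5, 23, 20), (6, 9, 15), (6, 9, 19), (6, 15, 9), (6, 15, 25), (6, 19, 9), (6, 19, 25), (6, 25, 15), (6, 25, 19), (7, 9, 12), (7, 9, 22), (7, 12, 9), (7, 12, 25), (7, 22, 9), (7, 22, 25), (7, 25, 12), (7, 25, 22), (9, 6, 15), (9, 6, 19), (9, 7, 12), (9, 7, 22),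 (9, 12, 7), (9, 12, 27), (9, 15, 6), (9, 15, 28), (9, 19, 6), (9, 19, 28), (9, 22, 7), (9, 22, 27), (9, 27, 12), (9, 27, 22), (9, 28, 15), (9, 28, 19), (11, 5, 14), (11, 5, 20), (11, 14, 5), (11, 14, 29), (11, 20, 5), (11, 20, 29), (11, 29, 14), (11, 29, 20), (12, 7, 9), (12, 7, 25), (12, 9, 7), (12, 9, 27), (12, 25, 7), (12, 25, 27), (12, 27, 9), (12, 27, 25), (13, 4, 15), (13, 4, 19), (13, 15, 4), (13, 15, 30), (13, 19, 4), (13, 19, 30), (13, 30, 15), (13, 30, 19), (14, 5, 11), (14, 5, 23), (14, 11, 5), (14, 11, 29), (14, 23, 5), (14, 23, 29), (14, 29, 11), (14, 29, 23), (15, 4, 13), (15, 4, 21), (15, 6, 9), (15, 6, 25), (15, 9, 6), (15, 9, 28), (15, 13, 4), (15, 13, 30), (15, 21, 4), (15, 21, 30), (15, 25, 6), (15, 25, 28), (15, 28, 9), (15, 28, 25), (15, 30, 13), (15, 30, 21)]⟩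
def row190 : Row := ⟨190, 302, 294, 273, [(7, 8, 14), (7, 8, 20), (7, 14, 8), (7, 14, 26), (7, 20, 8), (7, 26, 14), (8, 7, 14), (8, 7, 20), (8, 14, 7), (8, 14, 27), (8, 20, 7), (8, 27, 14), (14, 7, 8), (14, 7, 26), (14, 8, 7), (14, 8, 27), (14, 26, 7), (14, 27, 8), (20, 7, 8), (20, 8, 7), (26, 7, 14), (26, 14, 7), (27, 8, 14), (27, 14, 8)]⟩
def row191 : Row := ⟨191, 100, 10, 1, []⟩
def row192 : Row := ⟨192, 100, 10, 1, [(9, 9, 9), (9, 9, 25), (9, 25, 9), (9, 25, 25)]⟩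
def row193 : Row := ⟨193, 353, 264, 250, [(5, 10, 17), (5, 17, 10), (5, 17, 24), (5, 24, 17), (6, 11, 11), (6, 11, 23), (6, 23, 11), (6, 23, 23), (10, 5, 17), (10, 17, 5), (11, 6, 11), (11, 6, 23), (11, 11, 6), (11, 11, 28), (11, 23, 6), (11, 28, 11), (17, 5, 10), (17, 5, 24), (17, 10, 5), (17, 24, 5), (23, 6, 11), (23, 11, 6), (24, 5, 17), (24, 17, 5)]⟩
def row194 : Row := ⟨194, 373, 153, 32, [(4, 12, 17), (4, 13, 14), (4, 13, 20), (4, 14, 13), (4, 14, 21), (4, 17, 12), (4, 17, 22), (4, 20, 13), (4, 20, 21), (4, 21, 14), (4, 21, 20), (4, 22, 17), (5, 10, 16), (5, 10, 18), (5, 12, 12), (5, 12, 22), (5, 16, 10), (5, 16, 24), (5, 18, 10), (5, 18, 24), (5, 22, 12), (5, 22, 22), (5, 24, 16), (5, 24, 18), (6, 9, 14), (6, 9, 20), (6, 14, 9), (6, 14, 25), (6, 20, 9), (6, 20, 25), (6, 25, 14), (6, 25, 20), (8, 9, 10), (8, 9, 24), (8, 10, 9), (8, 10, 25), (8, 24, 9), (8, 24, 25), (8, 25,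 10), (8, 25, 24), (9, 6, 14), (9, 6, 20), (9, 8, 10), (9, 8, 24), (9, 10, 8), (9, 10, 26), (9, 14, 6), (9, 14, 28), (9, 20, 6), (9, 20, 28), (9, 24, 8), (9, 24, 26), (9, 26, 10), (9, 26, 24), (9, 28, 14), (9, 28, 20), (10, 5, 16), (10, 5, 18), (10, 8, 9), (10, 8, 25), (10, 9, 8), (10, 9, 26), (10, 16, 5), (10, 16, 29), (10, 18, 5), (10, 18, 29), (10, 25, 8), (10, 25, 26), (10, 26, 9), (10, 26, 25), (10, 29, 16), (10, 29, 18), (12, 4, 17), (12, 5, 12), (12, 5, 22), (12, 12, 5), (12, 12, 29), (12, 17, 4), (12, 17, 30), (12, 22, 5), (12, 22, 29), (12, 29, 12), (13, 4, 14), (13, 4, 20), (13, 14, 4), (13, 14, 30), (13, 20, 4), (13, 20, 30), (14, 4, 13), (14, 4, 21), (14, 6, 9), (14, 6, 25), (14, 9, 6), (14, 9, 28), (14, 13, 4), (14, 13, 30), (14, 21, 4), (14, 21, 30), (14, 25, 6), (16, 5, 10), (16, 5, 24), (16, 10, 5), (16, 10, 29), (17, 4, 12), (17, 4, 22), (17, 12, 4), (17, 12, 30),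 (18, 5, 10), (18, 5, 24), (18, 10, 5), (18, 10, 29), (20, 4, 13), (20, 4, 21), (20, 6, 9), (20, 6, 25), (20, 9, 6), (21, 4, 14), (21, 4, 20), (22, 4, 17), (22, 5, 12)]⟩
def row195 : Row := ⟨195, 393, 166, 90, [(4, 12, 16), (4, 12, 18), (4, 16, 12), (4, 16, 22), (4, 18, 12), (4, 18, 22), (4, 22, 16), (4, 22, 18), (6, 10, 12), (6, 10, 22), (6, 12, 10), (6, 12, 24), (6, 22, 10), (6, 22, 24), (6, 24, 12), (6, 24, 22), (10, 6, 12), (10, 6, 22), (10, 12, 6), (10, 12, 28), (10, 22, 6), (10, 22, 28), (10, 28, 12), (10, 28, 22), (12, 4, 16), (12, 4, 18), (12, 6, 10), (12, 6, 24), (12, 10, 6), (12, 10, 28), (12, 16, 4), (12, 16, 30), (12, 18, 4), (12, 18, 30), (12, 24, 6), (12, 28, 10), (16, 4, 12), (16, 4, 22), (16, 12, 4), (16, 12, 30), (16, 22, 4), (18, 4, 12), (18, 4, 22), (18, 12, 4), (22, 4, 16), (22, 4, 18), (22, 6, 10), (22, 10, 6)]⟩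
def row196 : Row := ⟨196, 368, 89, 7, [(3, 17, 17), (5, 11, 13), (5, 11, 21), (5, 13, 11), (5, 13, 23), (5, 21, 11), (5, 21, 23), (5, 23, 13), (5, 23, 21), (11, 5, 13), (11, 5, 21), (11, 13, 5), (11, 13, 29), (11, 21, 5), (11, 21, 29), (11, 29, 13), (11, 29, 21), (13, 5, 11), (13, 5, 23), (13, 11, 5), (13, 11, 29), (13, 23, 5), (13, 23, 29), (13, 29, 11), (13, 29, 23), (17, 3, 17), (17, 17, 3)]⟩
def row197 : Row := ⟨197, 380, 296, 112, [(3, 16, 17), (3, 17, 16), (3, 17, 18), (3, 18, 17), (5, 10, 15), (5, 10, 19), (5, 15, 10), (5, 15, 24), (5, 19, 10), (5, 19, 24), (5, 24, 15), (5, 24, 19), (7, 8, 13), (7, 8, 21), (7, 13, 8), (7, 13, 26), (7, 21, 8), (7, 21, 26), (7, 26, 13), (7, 26, 21), (8, 7, 13), (8, 7, 21), (8, 13, 7), (8, 13, 27), (8, 21, 7), (8, 21, 27), (8, 27, 13), (8, 27, 21), (10, 5, 15), (10, 5, 19), (10, 15, 5), (10, 15, 29), (10, 19, 5), (10, 19, 29), (13, 7, 8), (13,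 7, 26), (13, 8, 7), (13, 8, 27), (15, 5, 10), (15, 5, 24), (15, 10, 5), (15, 10, 29), (15, 24, 5), (16, 3, 17), (16, 17, 3), (17, 3, 16), (17, 3, 18), (17, 16, 3), (17, 18, 3), (18, 3, 17), (18, 17, 3), (19, 5, 10), (19, 5, 24), (19, 10, 5), (21, 7, 8), (21, 7, 26), (21, 8, 7), (21, 8, 27), (24, 5, 15), (24, 5, 19)]⟩
def row198 : Row := ⟨198, 358, 83, 12, [(3, 16, 16), (3, 16, 18), (3, 18, 16), (3, 18, 18), (4, 12, 15), (4, 12, 19), (4, 15, 12), (4, 15, 22), (4, 19, 12), (4, 19, 22), (4, 22, 15), (4, 22, 19), (7, 10, 10), (7, 10, 24), (7, 24, 10), (7, 24, 24), (8, 8, 11), (8, 8, 23), (8, 11, 8), (8, 11, 26), (8, 23, 8), (8, 23, 26), (8, 26, 11), (8, 26, 23), (10, 7, 10), (10, 7, 24), (10, 10, 7), (10, 10, 27), (10, 24, 7), (10, 24, 27), (10, 27, 10), (10, 27, 24), (11, 8, 8), (11, 8, 26), (11, 26, 8), (11, 26, 26), (12, 4, 15), (12, 4, 19), (12, 15, 4), (12, 15, 30), (12, 19, 4),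 (12, 19, 30), (12, 30, 15), (12, 30, 19), (15, 4, 12), (15, 4, 22), (15, 12, 4), (15, 12, 30), (15, 22, 4), (15, 22, 30), (16, 3, 16), (16, 3, 18), (16, 16, 3), (16, 16, 31), (16, 18, 3), (16, 18, 31), (18, 3, 16), (18, 3, 18), (19, 4, 12), (19, 4, 22)]⟩
def row199 : Row := ⟨199, 100, 10, 1, []⟩
def row200 : Row := ⟨200, 349, 49, 0, [(3, 15, 17), (3, 17, 15), (3, 17, 19), (3, 19, 17), (7, 7, 17), (7, 9, 11), (7, 9, 23), (7, 11, 9), (7, 11, 25), (7, 17, 7), (7, 17, 27), (7, 23, 9), (7, 23, 25), (7, 25, 11), (7, 25, 23), (7, 27, 17), (9, 7, 11), (9, 7, 23), (9, 11, 7), (9, 11, 27), (9, 23, 7), (9, 23, 27), (9, 27, 11), (9, 27, 23), (11, 7, 9), (11, 7, 25), (11, 9, 7), (11, 9, 27), (11, 25, 7), (11, 25, 27), (11, 27, 9), (11, 27, 25), (15, 3, 17), (15, 17, 3), (15, 17, 31), (15, 31, 17), (17, 3, 15), (17, 3, 19), (17, 7, 7), (17, 7, 27), (17, 15, 3), (17, 15, 31)]⟩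

theorem ok163 : rowOK 17 7 12 row163 = true := by decide +kernel
theorem ok164 : rowOK 17 7 12 row164 = true := by decide +kernel
theorem ok165 : rowOK 17 7 12 row165 = true := by decide +kernel
theorem ok166 : rowOK 17 7 12 row166 = true := by decide +kernel
theorem ok167 : rowOK 17 7 12 row167 = true := by decide +kernel
theorem ok168 : rowOK 17 7 12 row168 = true := by decide +kernel
theorem ok169 : rowOK 17 7 12 row169 = true := by decide +kernel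
theorem ok170 : rowOK 17 7 12 row170 = true := by decide +kernel
theorem ok171 : rowOK 17 7 12 row171 = true := by decide +kernel
theorem ok172 : rowOK 17 7 12 row172 = true := by decide +kernel
theorem ok173 : rowOK 17 7 12 row173 = true := by decide +kernel
theorem ok174 : rowOK 17 7 12 row174 = true := by decide +kernel
theorem ok175 : rowOK 17 7 12 row175 = true := by decide +kernel
theorem ok176 : rowOK 17 7 12 row176 = true := by decide +kernel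
theorem ok177 : rowOK 17 7 12 row177 = true := by decide +kernel
theorem ok178 : rowOK 17 7 12 row178 = true := by decide +kernel
theorem ok179 : rowOK 17 7 12 row179 = true := by decide +kernel
theorem ok180 : rowOK 17 7 12 row180 = true := by decide +kernel
theorem ok181 : rowOK 17 7 12 row181 = true := by decide +kernel
theorem ok182 : rowOK 17 7 12 row182 = true := by decide +kernel
theorem ok183 : rowOK 17 7 12 row183 = true := by decide +kernel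
theorem ok184 : rowOK 17 7 12 row184 = true := by decide +kernel
theorem ok185 : rowOK 17 7 12 row185 = true := by decide +kernel
theorem ok186 : rowOK 17 7 12 row186 = true := by decide +kernel
theorem ok187 : rowOK 17 7 12 row187 = true := by decide +kernel
theorem ok188 : rowOK 17 7 12 row188 = true := by decide +kernel
theorem ok189 : rowOK 17 7 12 row189 = true := by decide +kernel
theorem ok190 : rowOK 17 7 12 row190 = true := by decide +kernel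
theorem ok191 : rowOK 17 7 12 row191 = true := by decide +kernel
theorem ok192 : rowOK 17 7 12 row192 = true := by decide +kernel
theorem ok193 : rowOK 17 7 12 row193 = true := by decide +kernel
theorem ok194 : rowOK 17 7 12 row194 = true := by decide +kernel
theorem ok195 : rowOK 17 7 12 row195 = true := by decide +kernel
theorem ok196 : rowOK 17 7 12 row196 = true := by decide +kernel
theorem ok197 : rowOK 17 7 12 row197 = true := by decide +kernel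
theorem ok198 : rowOK 17 7 12 row198 = true := by decide +kernel
theorem ok199 : rowOK 17 7 12 row199 = true := by decide +kernel
theorem ok200 : rowOK 17 7 12 row200 = true := by decide +kernel

theorem rows (N : ℕ) (h1 : 162 ≤ N) (h2 : N ≤ 200) (h3 : N ≠ 162) :
    ∃ R : Row, R.N = N ∧ rowOK 17 7 12 R = true := by
  interval_cases N
  · exact absurd rfl h3
  · exact ⟨row163, rfl, ok163⟩
  · exact ⟨row164, rfl, ok164⟩
  · exact ⟨row165, rfl, ok165⟩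
  · exact ⟨row166, rfl, ok166⟩
  · exact ⟨row167, rfl, ok167⟩
  · exact ⟨row168, rfl, ok168⟩
  · exact ⟨row169, rfl, ok169⟩
  · exact ⟨row170, rfl, ok170⟩
  · exact ⟨row171, rfl, ok171⟩
  · exact ⟨row172, rfl, ok172⟩
  · exact ⟨row173, rfl, ok173⟩
  · exact ⟨row174, rfl, ok174⟩
  · exact ⟨row175, rfl, ok175⟩
  · exact ⟨row176, rfl, ok176⟩
  · exact ⟨row177, rfl, ok177⟩
  · exact ⟨row178, rfl, ok178⟩
  · exact ⟨row179, rfl, ok179⟩
  · exact ⟨row180, rfl, ok180⟩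
  · exact ⟨row181, rfl, ok181⟩
  · exact ⟨row182, rfl, ok182⟩
  · exact ⟨row183, rfl, ok183⟩
  · exact ⟨row184, rfl, ok184⟩
  · exact ⟨row185, rfl, ok185⟩
  · exact ⟨row186, rfl, ok186⟩
  · exact ⟨row187, rfl, ok187⟩
  · exact ⟨row188, rfl, ok188⟩
  · exact ⟨row189, rfl, ok189⟩
  · exact ⟨row190, rfl, ok190⟩
  · exact ⟨row191, rfl, ok191⟩
  · exact ⟨row192, rfl, ok192⟩
  · exact ⟨row193, rfl, ok193⟩
  · exact ⟨row194, rfl, ok194⟩
  · exact ⟨row195, rfl, ok195⟩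
  · exact ⟨row196, rfl, ok196⟩
  · exact ⟨row197, rfl, ok197⟩
  · exact ⟨row198, rfl, ok198⟩
  · exact ⟨row199, rfl, ok199⟩
  · exact ⟨row200, rfl, ok200⟩

end Pool.Agent.Lib.MPe4ee32.IP.D7c
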