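import Pool.Agent.Lib.MP_e4ee32_co.IP.Check

/-! Integer packings (MP_e4ee32_co): rows of the table, checked by the kernel. -/

namespace Pool.Agent.Lib.MPe4ee32.IP.D7d

def row201 : Row := ⟨201, 291, 39, 1, [(3, 15, 16), (3, 15, 18), (3, 16, 15), (3, 16, 19), (3, 18, 15), (3, 18, 19), (3, 19, 16), (3, 19, 18), (4, 13, 13), (4, 13, 21), (4, 21, 13), (4, 21, 21), (6, 9, 13), (6, 9, 21), (6, 13, 9), (6, 13, 25), (6, 21, 9), (6, 21, 25), (6, 25, 13), (6, 25, 21), (7, 7, 16), (7, 7, 18), (7, 16, 7), (7, 16, 27), (7, 18, 7), (7, 18, 27), (7, 27, 16), (7, 27, 18), (9, 6, 13), (9, 6, 21), (9, 13, 6), (9, 13, 28), (9, 21, 6), (9, 21, 28), (9, 28, 13), (9, 28, 21), (13, 4, 13), (13, 4, 21), (13, 6, 9), (13, 6, 25), (13, 9, 6), (13, 9, 28), (13, 13, 4), (13, 13, 30), (13, 21, 4), (13, 21, 30), (13, 25, 6), (13, 25, 28), (13, 28, 9), (13, 28, 25), (13, 30, 13), (13, 30, 21), (15, 3,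 16), (15, 3, 18), (15, 16, 3), (15, 16, 31), (15, 18, 3), (15, 18, 31), (15, 31, 16), (15, 31, 18), (16, 3, 15), (16, 3, 19), (16, 7, 7), (16, 7, 27), (16, 15, 3), (16, 15, 31), (16, 19, 3), (16, 19, 31), (18, 3, 15), (18, 3, 19), (18, 7, 7), (18, 7, 27)]⟩
def row202 : Row := ⟨202, 251, 167, 68, [(5, 10, 14), (5, 10, 20), (5, 14, 10), (5, 14, 24), (5, 20, 10), (5, 20, 24), (5, 24, 14), (5, 24, 20), (6, 8, 17), (6, 17, 8), (6, 17, 26), (6, 26, 17), (8, 6, 17), (8, 17, 6), (8, 17, 28), (8, 28, 17), (10, 5, 14), (10, 5, 20), (10, 14, 5), (10, 14, 29), (10, 20, 5), (10, 20, 29), (14, 5, 10), (14, 5, 24), (14, 10, 5), (14, 10, 29), (14, 24, 5), (17, 6, 8), (17, 6, 26), (17, 8, 6), (17, 8, 28), (20, 5, 10), (20, 5, 24), (20, 10, 5), (24, 5, 14), (24, 5, 20)]⟩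
def row203 : Row := ⟨203, 293, 216, 10, [(4, 12, 14), (4, 12, 20), (4, 14, 12), (4, 14, 22), (4, 20, 12), (4, 20, 22), (4, 22, 14), (4, 22, 20), (6, 8, 16), (6, 8, 18), (6, 16, 8), (6, 16, 26), (6, 18, 8), (6, 18, 26), (6, 26, 16), (6, 26, 18), (8, 6, 16), (8, 6, 18), (8, 16, 6), (8, 16, 28), (8, 18, 6), (8, 18, 28), (8, 28, 16), (8, 28, 18), (12, 4, 14), (12, 4, 20), (12, 14, 4), (12, 14, 30), (12, 20, 4), (12, 20, 30), (14, 4, 12), (14, 4, 22), (14, 12, 4), (14, 12, 30), (16, 6, 8), (16, 6, 26), (16, 8, 6), (16, 8, 28), (18, 6, 8), (18, 6, 26), (18, 8, 6), (18, 8, 28), (20, 4, 12), (20, 4, 22), (20, 12, 4), (20, 12, 30), (22, 4, 14), (22, 4, 20)]⟩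
def row204 : Row := ⟨204, 127, 79, 53, [(3, 15, 15), (3, 15, 19), (3, 19, 15), (3, 19, 19), (7, 7, 15), (7, 7, 19), (7, 15, 7), (7, 15, 27), (7, 19, 7), (7, 19, 27), (7, 27, 15), (7, 27, 19), (15, 3, 15), (15, 3, 19), (15, 7, 7), (15, 7, 27), (15, 15, 3), (15, 19, 3), (19, 3, 15), (19, 3, 19), (19, 7, 7), (19, 7, 27), (19, 15, 3), (19, 19, 3)]⟩
def row205 : Row := ⟨205, 191, 139, 4, [(3, 14, 17), (3, 17, 14), (3, 17, 20), (3, 20, 17), (4, 11, 17), (4, 17, 11), (4, 17, 23), (4, 23, 17), (5, 11, 12), (5, 11, 22), (5, 12, 11), (5, 12, 23), (5, 22, 11), (5, 22, 23), (5, 23, 12), (5, 23, 22), (11, 4, 17), (11, 5, 12), (11, 5, 22), (11, 12, 5), (11, 12, 29), (11, 17, 4), (11, 17, 30), (11, 22, 5), (11, 22, 29), (12, 5, 11), (12, 5, 23), (12, 11, 5), (12, 11, 29), (12, 23, 5), (12, 23, 29), (14, 3, 17), (14, 17, 3), (14, 17, 31), (17, 3, 14), (17, 3, 20), (17, 4, 11), (17, 4,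 23), (17, 11, 4), (17, 11, 30), (17, 14, 3), (17, 14, 31), (20, 3, 17), (22, 5, 11), (22, 5, 23), (23, 4, 17), (23, 5, 12), (23, 5, 22)]⟩
def row206 : Row := ⟨206, 378, 131, 40, [(3, 14, 16), (3, 14, 18), (3, 16, 14), (3, 16, 20), (3, 18, 14), (3, 18, 20), (3, 20, 16), (3, 20, 18), (4, 11, 16), (4, 11, 18), (4, 16, 11), (4, 16, 23), (4, 18, 11), (4, 18, 23), (4, 23, 16), (4, 23, 18), (6, 8, 15), (6, 8, 19), (6, 10, 11), (6, 10, 23), (6, 11, 10), (6, 11, 24), (6, 15, 8), (6, 15, 26), (6, 19, 8), (6, 19, 26), (6, 23, 10), (6, 23, 24), (6, 24, 11), (6, 24, 23), (6, 26, 15), (6, 26, 19), (7, 8, 12), (7, 8, 22), (7, 12, 8), (7, 12, 26), (7, 22, 8), (7, 22, 26), (7, 26, 12), (7, 26, 22), (8, 6, 15), (8, 6, 19), (8, 7, 12), (8, 7, 22), (8, 12, 7), (8, 12, 27), (8, 15, 6), (8, 15, 28), (8, 19, 6), (8, 19, 28), (8, 22, 7), (8, 22, 27), (8, 27, 12), (8, 27, 22), (8, 28, 15), (8,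 28, 19), (10, 6, 11), (10, 6, 23), (10, 11, 6), (10, 11, 28), (10, 23, 6), (10, 23, 28), (10, 28, 11), (10, 28, 23), (11, 4, 16), (11, 4, 18), (11, 6, 10), (11, 6, 24), (11, 10, 6), (11, 10, 28), (11, 16, 4), (11, 16, 30), (11, 18, 4), (11, 18, 30), (11, 24, 6), (11, 24, 28), (11, 28, 10), (11, 28, 24), (11, 30, 16), (11, 30, 18), (12, 7, 8), (12, 7, 26), (12, 8, 7), (12, 8, 27), (12, 26, 7), (12, 26, 27), (12, 27, 8), (12, 27, 26), (14, 3, 16), (14, 3, 18), (14, 16, 3), (14, 16, 31), (14, 18, 3), (14, 18, 31), (15, 6, 8), (15, 6, 26), (15, 8, 6), (15, 8, 28), (15, 26, 6), (16, 3, 14), (16, 3, 20), (16, 4, 11), (16, 4, 23), (16, 11, 4), (16, 11, 30), (16, 14, 3), (16, 14, 31), (16, 20, 3), (16, 23, 4), (18, 3, 14), (18, 3, 20), (18, 4, 11), (18, 4, 23), (18, 11, 4), (18, 14, 3), (19, 6, 8), (19, 6, 26), (19, 8, 6), (20, 3, 16), (20, 3, 18)]⟩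
def row207 : Row := ⟨207, 100, 10, 1, []⟩
def row208 : Row := ⟨208, 322, 268, 171, [(5, 9, 17), (5, 17, 9), (5, 17, 25), (5, 25, 17), (9, 5, 17), (9, 17, 5), (9, 17, 29), (17, 5, 9), (17, 5, 25), (17, 9, 5), (17, 9, 29), (25, 5, 17)]⟩
def row209 : Row := ⟨209, 360, 4, 0, [(3, 14, 15), (3, 14, 19), (3, 15, 14), (3, 15, 20), (3, 19, 14), (3, 19, 20), (3, 20, 15), (3, 20, 19), (4, 11, 15), (4, 11, 19), (4, 15, 11), (4, 15, 23), (4, 19, 11), (4, 19, 23), (4, 23, 15), (4, 23, 19), (5, 9, 16), (5, 9, 18), (5, 10, 13), (5, 10, 21), (5, 13, 10), (5, 13, 24), (5, 16, 9), (5, 16, 25), (5, 18, 9), (5, 18, 25), (5, 21, 10), (5, 21, 24), (5, 24, 13), (5, 24, 21), (5, 25, 16), (5, 25, 18), (7, 7, 14), (7, 7, 20), (7, 14, 7), (7, 14, 27), (7, 20, 7), (7, 20, 27), (7, 27, 14), (7, 27, 20), (8, 9, 9), (8, 9, 25), (8, 25, 9), (8, 25, 25), (9, 5, 16), (9, 5, 18), (9, 8, 9), (9, 8, 25), (9,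 9, 8), (9, 9, 26), (9, 16, 5), (9, 16, 29), (9, 18, 5), (9, 18, 29), (9, 25, 8), (9, 25, 26), (9, 26, 9), (9, 26, 25), (9, 29, 16), (9, 29, 18), (10, 5, 13), (10, 5, 21), (10, 13, 5), (10, 13, 29), (10, 21, 5), (10, 21, 29), (10, 29, 13), (10, 29, 21), (11, 4, 15), (11, 4, 19), (11, 15, 4), (11, 15, 30), (11, 19, 4), (11, 19, 30), (11, 30, 15), (11, 30, 19), (13, 5, 10), (13, 5, 24), (13, 10, 5), (13, 10, 29), (13, 24, 5), (13, 24, 29), (13, 29, 10), (13, 29, 24), (14, 3, 15), (14, 3, 19), (14, 7, 7), (14, 7, 27), (14, 15, 3), (14, 15, 31), (14, 19, 3), (14, 19, 31), (14, 27, 7), (14, 27, 27), (14, 31, 15), (14, 31, 19), (15, 3, 14), (15, 3, 20), (15, 4, 11), (15, 4, 23), (15, 11, 4), (15, 11, 30), (15, 14, 3), (15, 14, 31), (15, 20, 3), (15, 20, 31), (15, 23, 4), (15, 23, 30), (15, 30, 11), (15, 30, 23), (15, 31, 14), (15, 31, 20), (16, 5, 9), (16, 5, 25), (16, 9, 5),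 (16, 9, 29), (16, 25, 5), (16, 25, 29), (16, 29, 9), (16, 29, 25)]⟩
def row210 : Row := ⟨210, 332, 6, 4, [(4, 12, 13), (4, 12, 21), (4, 13, 12), (4, 13, 22), (4, 21, 12), (4, 21, 22), (4, 22, 13), (4, 22, 21), (6, 9, 12), (6, 9, 22), (6, 12, 9), (6, 12, 25), (6, 22, 9), (6, 22, 25), (6, 25, 12), (6, 25, 22), (9, 6, 12), (9, 6, 22), (9, 12, 6), (9, 12, 28), (9, 22, 6), (9, 22, 28), (9, 28, 12), (9, 28, 22), (12, 4, 13), (12, 4, 21), (12, 6, 9), (12, 6, 25), (12, 9, 6), (12, 9, 28), (12, 13, 4), (12, 13, 30), (12, 21, 4), (12, 21, 30), (12, 25, 6), (12, 25, 28), (12, 28, 9), (12, 28, 25), (12, 30, 13), (12, 30, 21), (13, 4, 12), (13, 4, 22), (13, 12, 4), (13, 12, 30), (13, 22, 4), (13, 22, 30), (13, 30, 12), (13, 30, 22)]⟩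
def row211 : Row := ⟨211, 319, 55, 19, [(6, 8, 14), (6, 8, 20), (6, 14, 8), (6, 14, 26), (6, 20, 8), (6, 20, 26), (6, 26, 14), (6, 26, 20), (8, 6, 14), (8, 6, 20), (8, 8, 10), (8, 8, 24), (8, 10, 8), (8, 10, 26), (8, 14, 6), (8, 14, 28), (8, 20, 6), (8, 20, 28), (8, 24, 8), (8, 24, 26), (8, 26, 10), (8, 26, 24), (8, 28, 14), (8, 28, 20), (10, 8, 8), (10, 8, 26), (10, 26, 8), (10, 26, 26), (14, 6, 8), (14, 6, 26), (14, 8, 6), (14, 8, 28), (14, 26, 6), (14, 26, 28), (14, 28, 8), (14, 28, 26)]⟩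
def row212 : Row := ⟨212, 342, 258, 30, [(3, 13, 17), (3, 17, 13), (3, 17, 21), (3, 21, 17), (5, 9, 15), (5, 9, 19), (5, 15, 9), (5, 15, 25), (5, 19, 9), (5, 19, 25), (5, 25, 15), (5, 25, 19), (9, 5, 15), (9, 5, 19), (9, 15, 5), (9, 15, 29), (9, 19, 5), (9, 19, 29), (13, 3, 17), (13, 17, 3), (13, 17, 31), (15, 5, 9), (15, 5, 25), (15, 9, 5), (15, 9, 29), (17, 3, 13), (17, 3, 21), (17, 13, 3), (17, 13, 31), (19, 5, 9), (19, 5, 25), (19, 9, 5), (19, 9, 29), (21, 3, 17), (25, 5, 15), (25, 5, 19)]⟩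
def row213 : Row := ⟨213, 259, 73, 1, [(3, 13, 16), (3, 13, 18), (3, 16, 13), (3, 16, 21), (3, 18, 13), (3, 18, 21), (3, 21, 16), (3, 21, 18), (7, 9, 10), (7, 9, 24), (7, 10, 9), (7, 10, 25), (7, 24, 9), (7, 24, 25), (7, 25, 10), (7, 25, 24), (9, 7, 10), (9, 7, 24), (9, 10, 7), (9, 10, 27), (9, 24, 7), (9, 24, 27), (9, 27, 10), (9, 27, 24), (10, 7, 9), (10, 7, 25), (10, 9, 7), (10, 9, 27), (10, 25, 7), (10, 25, 27), (10, 27, 9), (10, 27, 25), (13, 3, 16), (13, 3, 18), (13, 16, 3), (13, 16, 31), (13, 18, 3), (13, 18, 31), (13, 31, 16), (13, 31, 18), (16, 3, 13), (16, 3, 21), (16, 13, 3), (16, 13, 31), (18, 3, 13), (18, 3, 21), (18, 13, 3), (18, 13, 31)]⟩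
def row214 : Row := ⟨214, 375, 239, 205, [(3, 14, 14), (3, 14, 20), (3, 20, 14), (3, 20, 20), (4, 11, 14), (4, 11, 20), (4, 14, 11), (4, 14, 23), (4, 20, 11), (4, 20, 23), (4, 23, 14), (4, 23, 20), (11, 4, 14), (11, 4, 20), (11, 14, 4), (11, 14, 30), (11, 20, 4), (14, 3, 14), (14, 3, 20), (14, 4, 11), (14, 4, 23), (14, 11, 4), (14, 14, 3), (14, 20, 3), (14, 23, 4), (20, 3, 14), (20, 3, 20), (20, 4, 11), (20, 4, 23), (20, 11, 4), (20, 14, 3), (20, 20, 3), (20, 23, 4), (23, 4, 14), (23, 4, 20), (23, 14, 4)]⟩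
def row215 : Row := ⟨215, 100, 10, 1, []⟩
def row216 : Row := ⟨216, 385, 40, 5, [(3, 13, 15), (3, 13, 19), (3, 15, 13), (3, 15, 21), (3, 19, 13), (3, 19, 21), (3, 21, 15), (3, 21, 19), (5, 11, 11), (5, 11, 23), (5, 23, 11), (5, 23, 23), (7, 7, 13), (7, 7, 21), (7, 13, 7), (7, 13, 27), (7, 21, 7), (7, 21, 27), (7, 27, 13), (7, 27, 21), (11, 5, 11), (11, 5, 23), (11, 11, 5), (11, 11, 29), (11, 23, 5), (11, 23, 29), (11, 29, 11), (11, 29, 23), (13, 3, 15), (13, 3, 19), (13, 7, 7), (13, 7, 27), (13, 15, 3), (13, 15, 31), (13, 19, 3), (13, 19, 31), (13, 27, 7), (13, 27, 27), (13, 31, 15), (13, 31, 19), (15, 3, 13), (15, 3, 21), (15, 13, 3), (15, 13, 31), (15, 21, 3), (15, 21, 31), (15, 31, 13), (15, 31, 21)]⟩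
def row217 : Row := ⟨217, 294, 8, 0, [(5, 9, 14), (5, 9, 20), (5, 14, 9), (5, 14, 25), (5, 20, 9), (5, 20, 25), (5, 25, 14), (5, 25, 20), (7, 8, 11), (7, 8, 23), (7, 11, 8), (7, 11, 26), (7, 23, 8), (7, 23, 26), (7, 26, 11), (7, 26, 23), (8, 7, 11), (8, 7, 23), (8, 11, 7), (8, 11, 27), (8, 23, 7), (8, 23, 27), (8, 27, 11), (8, 27, 23), (9, 5, 14), (9, 5, 20), (9, 14, 5), (9, 14, 29), (9, 20, 5), (9, 20, 29), (9, 29, 14), (9, 29, 20), (11, 7, 8), (11, 7, 26), (11, 8, 7), (11, 8, 27), (11, 26, 7), (11, 26, 27), (11, 27, 8), (11, 27, 26), (14, 5, 9), (14, 5, 25), (14, 9, 5), (14, 9, 29), (14, 25, 5), (14, 25, 29), (14, 29, 9), (14, 29, 25)]⟩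
def row218 : Row := ⟨218, 367, 33, 26, [(4, 10, 17), (4, 17, 10), (4, 17, 24), (4, 24, 17), (5, 10, 12), (5, 10, 22), (5, 12, 10), (5, 12, 24), (5, 22, 10), (5, 22, 24), (5, 24, 12), (5, 24, 22), (6, 8, 13), (6, 8, 21), (6, 13, 8), (6, 13, 26), (6, 21, 8), (6, 21, 26), (6, 26, 13), (6, 26, 21), (8, 6, 13), (8, 6, 21), (8, 13, 6), (8, 13, 28), (8, 21, 6), (8, 21, 28), (8, 28, 13), (8, 28, 21), (10, 4, 17), (10, 5, 12), (10, 5, 22), (10, 12, 5), (10, 12, 29), (10, 17, 4), (10, 17, 30), (10, 22, 5), (10, 22, 29), (10, 29, 12), (10, 29, 22), (10, 30, 17), (12, 5, 10), (12, 5, 24), (12, 10, 5), (12, 10, 29), (12, 24, 5), (12, 24, 29), (12, 29, 10), (12, 29, 24), (13, 6, 8), (13, 6, 26), (13, 8, 6), (13, 8, 28), (13, 26, 6), (13, 26, 28), (13, 28, 8), (13, 28, 26), (17, 4, 10), (17, 4, 24), (17, 10, 4), (17, 24, 4)]⟩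
def row219 : Row := ⟨219, 298, 86, 61, [(4, 10, 16), (4, 10, 18), (4, 12, 12), (4, 12, 22), (4, 16, 10), (4, 16, 24), (4, 18, 10), (4, 18, 24), (4, 22, 12), (4, 22, 22), (4, 24, 16), (4, 24, 18), (6, 10, 10), (6, 10, 24), (6, 24, 10), (6, 24, 24), (10, 4, 16), (10, 4, 18), (10, 6, 10), (10, 6, 24), (10, 10, 6), (10, 10, 28), (10, 16, 4), (10, 16, 30), (10, 18, 4), (10, 18, 30), (10, 24, 6), (10, 24, 28), (10, 28, 10), (10, 28, 24), (10, 30, 16), (10, 30, 18), (12, 4, 12), (12, 4, 22), (12, 12, 4), (12, 12, 30), (12, 22, 4), (12, 22, 30), (12, 30, 12), (12, 30, 22), (16, 4, 10), (16, 4, 24), (16, 10, 4), (16, 10, 30), (16, 24, 4), (18, 4, 10), (18, 4, 24), (18, 10, 4)]⟩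
def row220 : Row := ⟨220, 100, 10, 1, []⟩
def row221 : Row := ⟨221, 313, 63, 3, [(3, 12, 17), (3, 13, 14), (3, 13, 20), (3, 14, 13), (3, 14, 21), (3, 17, 12), (3, 17, 22), (3, 20, 13), (3, 20, 21), (3, 21, 14), (3, 21, 20), (3, 22, 17), (4, 11, 13), (4, 11, 21), (4, 13, 11), (4, 13, 23), (4, 21, 11), (4, 21, 23), (4, 23, 13), (4, 23, 21), (6, 7, 17), (6, 9, 11), (6, 9, 23), (6, 11, 9), (6, 11, 25), (6, 17, 7), (6, 17, 27), (6, 23, 9), (6, 23, 25), (6, 25, 11), (6, 25, 23), (6, 27, 17), (7, 6, 17), (7, 17, 6), (7, 17, 28), (7, 28, 17), (9, 6, 11), (9, 6, 23), (9, 11, 6), (9, 11, 28), (9, 23, 6), (9, 23, 28), (9, 28, 11), (9, 28, 23), (11, 4, 13), (11, 4, 21), (11, 6, 9), (11, 6, 25), (11, 9, 6), (11, 9, 28), (11, 13, 4), (11, 13, 30), (11, 21, 4), (11, 21, 30), (11, 25, 6), (11, 25, 28), (11, 28, 9), (11, 28, 25), (11, 30, 13), (11, 30, 21), (12, 3, 17), (12, 17, 3), (12,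 17, 31), (12, 31, 17), (13, 3, 14), (13, 3, 20), (13, 4, 11), (13, 4, 23), (13, 11, 4), (13, 11, 30), (13, 14, 3), (13, 14, 31), (13, 20, 3), (13, 20, 31), (13, 23, 4), (13, 23, 30), (13, 30, 11), (13, 30, 23), (13, 31, 14), (13, 31, 20), (14, 3, 13), (14, 3, 21), (14, 13, 3), (14, 13, 31), (14, 21, 3), (14, 21, 31), (14, 31, 13), (14, 31, 21), (17, 3, 12), (17, 3, 22), (17, 6, 7), (17, 6, 27), (17, 7, 6), (17, 7, 28), (17, 12, 3), (17, 12, 31)]⟩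
def row222 : Row := ⟨222, 339, 280, 31, [(3, 12, 16), (3, 12, 18), (3, 16, 12), (3, 16, 22), (3, 18, 12), (3, 18, 22), (3, 22, 16), (3, 22, 18), (4, 10, 15), (4, 10, 19), (4, 15, 10), (4, 15, 24), (4, 19, 10), (4, 19, 24), (4, 24, 15), (4, 24, 19), (6, 7, 16), (6, 7, 18), (6, 16, 7), (6, 16, 27), (6, 18, 7), (6, 18, 27), (6, 27, 16), (6, 27, 18), (7, 6, 16), (7, 6, 18), (7, 16, 6), (7, 16, 28), (7, 18, 6), (7, 18, 28), (7, 28, 16), (7, 28, 18), (10, 4, 15), (10, 4, 19), (10, 15, 4), (10, 15, 30), (10, 19, 4), (10, 19, 30), (12, 3, 16), (12, 3, 18), (12, 16, 3), (12, 16, 31), (12, 18, 3), (12, 18, 31), (15, 4, 10), (15, 4, 24), (15, 10, 4), (15, 10, 30), (16, 3, 12), (16, 3, 22), (16, 6, 7), (16, 6, 27), (16, 7, 6), (16, 7, 28), (16, 12, 3), (16, 12, 31), (18, 3, 12), (18, 3, 22), (18, 6, 7), (18, 6, 27), (18, 7, 6), (18, 7, 28), (18, 12, 3), (18, 12, 31), (19, 4, 10), (19,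 4, 24), (19, 10, 4), (19, 10, 30), (22, 3, 16), (22, 3, 18), (24, 4, 15), (24, 4, 19)]⟩
def row223 : Row := ⟨223, 100, 10, 1, []⟩
def row224 : Row := ⟨224, 263, 164, 129, [(5, 9, 13), (5, 9, 21), (5, 13, 9), (5, 13, 25), (5, 21, 9), (5, 21, 25), (5, 25, 13), (5, 25, 21), (9, 5, 13), (9, 5, 21), (9, 13, 5), (9, 13, 29), (9, 21, 5), (9, 29, 13), (13, 5, 9), (13, 5, 25), (13, 9, 5), (13, 9, 29), (13, 25, 5), (13, 29, 9), (21, 5, 9), (21, 9, 5), (25, 5, 13), (25, 13, 5)]⟩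
def row225 : Row := ⟨225, 286, 136, 4, [(2, 17, 17), (3, 12, 15), (3, 12, 19), (3, 15, 12), (3, 15, 22), (3, 19, 12), (3, 19, 22), (3, 22, 15), (3, 22, 19), (5, 8, 17), (5, 17, 8), (5, 17, 26), (5, 26, 17), (6, 7, 15), (6, 7, 19), (6, 15, 7), (6, 15, 27), (6, 19, 7), (6, 19, 27), (6, 27, 15), (6, 27, 19), (7, 6, 15), (7, 6, 19), (7, 7, 12), (7, 7, 22), (7, 12, 7), (7, 12, 27), (7, 15, 6), (7, 15, 28), (7, 19, 6), (7, 19, 28), (7, 22, 7), (7, 22, 27), (7, 27, 12), (7, 27, 22), (7, 28, 15), (7, 28, 19), (8, 5, 17), (8, 17, 5), (8, 17, 29), (8, 29, 17), (12, 3, 15), (12, 3, 19), (12, 7, 7), (12, 7, 27), (12, 15, 3), (12, 15, 31), (12, 19, 3), (12, 19, 31), (12, 27, 7), (12, 27, 27), (15, 3, 12), (15, 3, 22), (15, 6, 7), (15, 6, 27), (15, 7, 6), (15, 7, 28), (15, 12, 3), (15, 12, 31), (17, 2, 17), (17, 5, 8), (17, 5, 26), (17, 8, 5), (17, 8, 29), (17, 17, 2), (19, 3, 12), (19,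 3, 22), (19, 6, 7), (19, 6, 27), (19, 7, 6), (19, 7, 28), (19, 12, 3), (19, 12, 31), (22, 3, 15), (22, 3, 19)]⟩
def row226 : Row := ⟨226, 335, 311, 278, [(2, 16, 17), (2, 17, 16), (2, 17, 18), (2, 18, 17), (5, 8, 16), (5, 8, 18), (5, 16, 8), (5, 16, 26), (5, 18, 8), (5, 18, 26), (5, 26, 16), (5, 26, 18), (8, 5, 16), (8, 5, 18), (8, 8, 9), (8, 8, 25), (8, 9, 8), (8, 9, 26), (8, 16, 5), (8, 18, 5), (8, 25, 8), (8, 26, 9), (9, 8, 8), (9, 8, 26), (9, 26, 8), (16, 2, 17), (16, 5, 8), (16, 5, 26), (16, 8, 5), (16, 17, 2), (16, 26, 5), (17, 2, 16), (17, 2, 18), (17, 16, 2), (17, 18, 2), (18, 2, 17), (18, 5, 8), (18, 5, 26), (18, 8, 5), (18, 17, 2), (18, 26, 5), (25, 8, 8), (26, 5, 16), (26, 5, 18), (26, 8, 9), (26, 9, 8), (26, 16, 5), (26, 18, 5)]⟩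
def row227 : Row := ⟨227, 252, 148, 5, [(2, 16, 16), (2, 16, 18), (2, 18, 16), (2, 18, 18), (4, 10, 14), (4, 10, 20), (4, 14, 10), (4, 14, 24), (4, 20, 10), (4, 20, 24), (4, 24, 14), (4, 24, 20), (6, 8, 12), (6, 8, 22), (6, 12, 8), (6, 12, 26), (6, 22, 8), (6, 22, 26), (6, 26, 12), (6, 26, 22), (8, 6, 12), (8, 6, 22), (8, 12, 6), (8, 12, 28), (8, 22, 6), (8, 22, 28), (8, 28, 12), (8, 28, 22), (10, 4, 14), (10, 4, 20), (10, 14, 4), (10, 14, 30), (10, 20, 4), (10, 20, 30), (12, 6, 8), (12, 6, 26), (12, 8, 6), (12, 8, 28), (14, 4, 10), (14, 4, 24), (14, 10, 4), (14, 10, 30), (16, 2, 16), (16, 2, 18), (16, 16, 2), (16, 16, 32), (16, 18, 2), (16, 18, 32), (18, 2, 16), (18, 2, 18), (20, 4, 10), (20, 4, 24), (20, 10, 4), (20, 10, 30), (22, 6, 8), (22, 6, 26), (22, 8, 6), (22, 8, 28), (24, 4, 14), (24, 4, 20)]⟩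
def row228 : Row := ⟨228, 218, 53, 33, [(3, 13, 13), (3, 13, 21), (3, 21, 13), (3, 21, 21), (7, 9, 9), (7, 9, 25), (7, 25, 9), (7, 25, 25), (9, 7, 9), (9, 7, 25), (9, 9, 7), (9, 9, 27), (9, 25, 7), (9, 25, 27), (9, 27, 9), (9, 27, 25), (13, 3, 13), (13, 3, 21), (13, 13, 3), (13, 13, 31), (13, 21, 3), (13, 21, 31), (13, 31, 13), (21, 3, 13)]⟩
def row229 : Row := ⟨229, 378, 53, 10, [(2, 15, 17), (2, 17, 15), (2, 17, 19), (2, 19, 17), (5, 8, 15), (5, 8, 19), (5, 10, 11), (5, 10, 23), (5, 11, 10), (5, 11, 24), (5, 15, 8), (5, 15, 26), (5, 19, 8), (5, 19, 26), (5, 23, 10), (5, 23, 24), (5, 24, 11), (5, 24, 23), (5, 26, 15), (5, 26, 19), (8, 5, 15), (8, 5, 19), (8, 15, 5), (8, 15, 29), (8, 19, 5), (8, 19, 29), (8, 29, 15), (8, 29, 19), (10, 5, 11), (10, 5, 23), (10, 11, 5), (10, 11, 29), (10, 23, 5), (10, 23, 29), (10, 29, 11), (10, 29, 23), (11, 5, 10), (11, 5, 24), (11, 10,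 5), (11, 10, 29), (11, 24, 5), (11, 24, 29), (11, 29, 10), (11, 29, 24), (15, 2, 17), (15, 5, 8), (15, 5, 26), (15, 8, 5), (15, 8, 29), (15, 17, 2), (15, 17, 32), (15, 26, 5), (15, 26, 29), (15, 29, 8), (15, 29, 26), (17, 2, 15), (17, 2, 19), (17, 15, 2), (17, 19, 2), (19, 2, 17)]⟩
def row230 : Row := ⟨230, 227, 32, 9, [(2, 15, 16), (2, 15, 18), (2, 16, 15), (2, 16, 19), (2, 18, 15), (2, 18, 19), (2, 19, 16), (2, 19, 18), (3, 12, 14), (3, 12, 20), (3, 14, 12), (3, 14, 22), (3, 20, 12), (3, 20, 22), (3, 22, 14), (3, 22, 20), (4, 11, 12), (4, 11, 22), (4, 12, 11), (4, 12, 23), (4, 22, 11), (4, 22, 23), (4, 23, 12), (4, 23, 22), (6, 7, 14), (6, 7, 20), (6, 14, 7), (6, 14, 27), (6, 20, 7), (6, 20, 27), (6, 27, 14), (6, 27, 20), (7, 6, 14), (7, 6, 20), (7, 8, 10), (7, 8, 24), (7, 10, 8), (7, 10, 26), (7, 14, 6), (7, 14, 28), (7, 20, 6), (7, 20, 28), (7, 24, 8), (7, 24, 26),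 (7, 26, 10), (7, 26, 24), (7, 28, 14), (7, 28, 20), (8, 7, 10), (8, 7, 24), (8, 10, 7), (8, 10, 27), (8, 24, 7), (8, 24, 27), (8, 27, 10), (8, 27, 24), (10, 7, 8), (10, 7, 26), (10, 8, 7), (10, 8, 27), (10, 26, 7), (10, 26, 27), (10, 27, 8), (10, 27, 26), (11, 4, 12), (11, 4, 22), (11, 12, 4), (11, 12, 30), (11, 22, 4), (11, 22, 30), (11, 30, 12), (11, 30, 22), (12, 3, 14), (12, 3, 20), (12, 4, 11), (12, 4, 23), (12, 11, 4), (12, 11, 30), (12, 14, 3), (12, 14, 31), (12, 20, 3), (12, 20, 31), (12, 23, 4), (12, 23, 30), (12, 30, 11), (12, 30, 23), (12, 31, 14), (12, 31, 20), (14, 3, 12), (14, 3, 22), (14, 6, 7), (14, 6, 27), (14, 7, 6), (14, 7, 28), (14, 12, 3), (14, 12, 31), (14, 22, 3), (14, 22, 31), (14, 27, 6), (14, 27, 28), (14, 28, 7), (14, 28, 27), (14, 31, 12), (14, 31, 22), (15, 2, 16), (15, 2, 18), (15, 16, 2), (15, 16, 32), (15, 18, 2), (15, 18, 32), (16, 2, 15),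 (16, 2, 19), (16, 15, 2), (16, 15, 32), (16, 19, 2), (16, 19, 32), (18, 2, 15), (18, 2, 19), (19, 2, 16), (19, 2, 18)]⟩

theorem ok201 : rowOK 17 7 12 row201 = true := by decide +kernel
theorem ok202 : rowOK 17 7 12 row202 = true := by decide +kernel
theorem ok203 : rowOK 17 7 12 row203 = true := by decide +kernel
theorem ok204 : rowOK 17 7 12 row204 = true := by decide +kernel
theorem ok205 : rowOK 17 7 12 row205 = true := by decide +kernel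
theorem ok206 : rowOK 17 7 12 row206 = true := by decide +kernel
theorem ok207 : rowOK 17 7 12 row207 = true := by decide +kernel
theorem ok208 : rowOK 17 7 12 row208 = true := by decide +kernel
theorem ok209 : rowOK 17 7 12 row209 = true := by decide +kernel
theorem ok210 : rowOK 17 7 12 row210 = true := by decide +kernel
theorem ok211 : rowOK 17 7 12 row211 = true := by decide +kernel
theorem ok212 : rowOK 17 7 12 row212 = true := by decide +kernel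
theorem ok213 : rowOK 17 7 12 row213 = true := by decide +kernel
theorem ok214 : rowOK 17 7 12 row214 = true := by decide +kernel
theorem ok215 : rowOK 17 7 12 row215 = true := by decide +kernel
theorem ok216 : rowOK 17 7 12 row216 = true := by decide +kernel
theorem ok217 : rowOK 17 7 12 row217 = true := by decide +kernel
theorem ok218 : rowOK 17 7 12 row218 = true := by decide +kernel
theorem ok219 : rowOK 17 7 12 row219 = true := by decide +kernel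
theorem ok220 : rowOK 17 7 12 row220 = true := by decide +kernel
theorem ok221 : rowOK 17 7 12 row221 = true := by decide +kernel
theorem ok222 : rowOK 17 7 12 row222 = true := by decide +kernel
theorem ok223 : rowOK 17 7 12 row223 = true := by decide +kernel
theorem ok224 : rowOK 17 7 12 row224 = true := by decide +kernel
theorem ok225 : rowOK 17 7 12 row225 = true := by decide +kernel
theorem ok226 : rowOK 17 7 12 row226 = true := by decide +kernel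
theorem ok227 : rowOK 17 7 12 row227 = true := by decide +kernel
theorem ok228 : rowOK 17 7 12 row228 = true := by decide +kernel
theorem ok229 : rowOK 17 7 12 row229 = true := by decide +kernel
theorem ok230 : rowOK 17 7 12 row230 = true := by decide +kernel

theorem rows (N : ℕ) (h1 : 201 ≤ N) (h2 : N ≤ 230) :
    ∃ R : Row, R.N = N ∧ rowOK 17 7 12 R = true := by
  interval_cases N
  · exact ⟨row201, rfl, ok201⟩
  · exact ⟨row202, rfl, ok202⟩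
  · exact ⟨row203, rfl, ok203⟩
  · exact ⟨row204, rfl, ok204⟩
  · exact ⟨row205, rfl, ok205⟩
  · exact ⟨row206, rfl, ok206⟩
  · exact ⟨row207, rfl, ok207⟩
  · exact ⟨row208, rfl, ok208⟩
  · exact ⟨row209, rfl, ok209⟩
  · exact ⟨row210, rfl, ok210⟩
  · exact ⟨row211, rfl, ok211⟩
  · exact ⟨row212, rfl, ok212⟩
  · exact ⟨row213, rfl, ok213⟩
  · exact ⟨row214, rfl, ok214⟩
  · exact ⟨row215, rfl, ok215⟩
  · exact ⟨row216, rfl, ok216⟩
  · exact ⟨row217, rfl, ok217⟩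
  · exact ⟨row218, rfl, ok218⟩
  · exact ⟨row219, rfl, ok219⟩
  · exact ⟨row220, rfl, ok220⟩
  · exact ⟨row221, rfl, ok221⟩
  · exact ⟨row222, rfl, ok222⟩
  · exact ⟨row223, rfl, ok223⟩
  · exact ⟨row224, rfl, ok224⟩
  · exact ⟨row225, rfl, ok225⟩
  · exact ⟨row226, rfl, ok226⟩
  · exact ⟨row227, rfl, ok227⟩
  · exact ⟨row228, rfl, ok228⟩
  · exact ⟨row229, rfl, ok229⟩
  · exact ⟨row230, rfl, ok230⟩

end Pool.Agent.Lib.MPe4ee32.IP.D7d
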