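import Pool.Agent.Lib.MP_e4ee32_co.IP.Check

/-! Integer packings (MP_e4ee32_co): rows of the table, checked by the kernel. -/

namespace Pool.Agent.Lib.MPe4ee32.IP.D7e

def row231 : Row := ⟨231, 100, 10, 1, []⟩
def row232 : Row := ⟨232, 363, 329, 46, [(3, 11, 17), (3, 17, 11), (3, 17, 23), (3, 23, 17), (11, 3, 17), (11, 17, 3), (11, 17, 31), (17, 3, 11), (17, 3, 23), (17, 11, 3), (17, 11, 31), (23, 3, 17)]⟩
def row233 : Row := ⟨233, 338, 89, 62, [(2, 15, 15), (2, 15, 19), (2, 19, 15), (2, 19, 19), (3, 11, 16), (3, 11, 18), (3, 16, 11), (3, 16, 23), (3, 18, 11), (3, 18, 23), (3, 23, 16), (3, 23, 18), (4, 9, 17), (4, 17, 9), (4, 17, 25), (4, 25, 17), (5, 9, 12), (5, 9, 22), (5, 12, 9), (5, 12, 25), (5, 22, 9), (5, 22, 25), (5, 25, 12), (5, 25, 22), (9, 4, 17), (9, 5, 12), (9, 5, 22), (9, 12, 5), (9, 12, 29), (9, 17, 4), (9, 17, 30), (9, 22, 5), (9, 22, 29), (9, 29, 12),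 (9, 29, 22), (9, 30, 17), (11, 3, 16), (11, 3, 18), (11, 16, 3), (11, 16, 31), (11, 18, 3), (11, 18, 31), (11, 31, 16), (11, 31, 18), (12, 5, 9), (12, 5, 25), (12, 9, 5), (12, 9, 29), (12, 25, 5), (12, 25, 29), (12, 29, 9), (12, 29, 25), (15, 2, 15), (15, 2, 19), (15, 15, 2), (15, 19, 2), (16, 3, 11), (16, 3, 23), (16, 11, 3), (16, 11, 31), (16, 23, 3), (17, 4, 9), (17, 4, 25), (17, 9, 4), (17, 25, 4), (18, 3, 11), (18, 3, 23), (18, 11, 3), (19, 2, 15), (19, 2, 19), (19, 15, 2), (19, 19, 2)]⟩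
def row234 : Row := ⟨234, 368, 364, 24, [(2, 14, 17), (2, 17, 14), (2, 17, 20), (2, 20, 17), (4, 9, 16), (4, 9, 18), (4, 10, 13), (4, 10, 21), (4, 13, 10), (4, 13, 24), (4, 16, 9), (4, 16, 25), (4, 18, 9), (4, 18, 25), (4, 21, 10), (4, 21, 24), (4, 24, 13), (4, 24, 21), (4, 25, 16), (4, 25, 18), (5, 8, 14), (5, 8, 20), (5, 14, 8), (5, 14, 26), (5, 20, 8), (5, 20, 26), (5, 26, 14), (5, 26, 20), (6, 9, 10), (6, 9, 24), (6, 10, 9), (6, 10, 25), (6, 24, 9), (6, 24, 25), (6, 25, 10), (6, 25, 24), (8, 5, 14), (8, 5, 20), (8, 14, 5), (8, 14, 29), (8, 20, 5), (8, 20, 29), (9, 4, 16), (9, 4, 18), (9, 6, 10), (9, 6, 24), (9, 10, 6), (9, 10, 28), (9, 16, 4), (9, 16, 30), (9, 18, 4), (9, 18, 30), (9, 24, 6), (9, 24, 28), (10, 4, 13), (10, 4, 21), (10, 6, 9), (10, 6, 25), (10, 9, 6), (10, 9, 28), (10, 13, 4), (10, 13, 30), (10, 21, 4), (10, 21, 30), (13, 4, 10), (13, 4, 24), (13,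 10, 4), (13, 10, 30), (14, 2, 17), (14, 5, 8), (14, 5, 26), (14, 8, 5), (14, 8, 29), (14, 17, 2), (14, 17, 32), (16, 4, 9), (16, 4, 25), (16, 9, 4), (16, 9, 30), (17, 2, 14), (17, 2, 20), (17, 14, 2), (17, 14, 32), (18, 4, 9), (18, 4, 25), (18, 9, 4), (18, 9, 30), (20, 2, 17), (20, 5, 8), (20, 5, 26), (20, 8, 5), (20, 8, 29), (21, 4, 10), (21, 4, 24), (21, 10, 4), (21, 10, 30), (24, 4, 13), (24, 4, 21), (24, 6, 9), (24, 6, 25), (24, 9, 6), (24, 9, 28), (25, 4, 16), (25, 4, 18), (25, 6, 10), (25, 6, 24), (26, 5, 14), (26, 5, 20)]⟩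
def row235 : Row := ⟨235, 231, 210, 160, [(2, 14, 16), (2, 14, 18), (2, 16, 14), (2, 16, 20), (2, 18, 14), (2, 18, 20), (2, 20, 16), (2, 20, 18), (14, 2, 16), (14, 2, 18), (14, 16, 2), (14, 18, 2), (16, 2, 14), (16, 2, 20), (16, 14, 2), (16, 20, 2), (18, 2, 14), (18, 2, 20), (18, 14, 2), (18, 20, 2), (20, 2, 16), (20, 2, 18), (20, 16, 2), (20, 18, 2)]⟩
def row236 : Row := ⟨236, 378, 46, 12, [(3, 11, 15), (3, 11, 19), (3, 15, 11), (3, 15, 23), (3, 19, 11), (3, 19, 23), (3, 23, 15), (3, 23, 19), (7, 7, 11), (7, 7, 23), (7, 11, 7), (7, 11, 27), (7, 23, 7), (7, 23, 27), (7, 27, 11), (7, 27, 23), (11, 3, 15), (11, 3, 19), (11, 7, 7), (11, 7, 27), (11, 15, 3), (11, 15, 31), (11, 19, 3), (11, 19, 31), (11, 27, 7), (11, 27, 27), (11, 31, 15), (11, 31, 19), (15, 3, 11), (15, 3, 23), (15, 11, 3), (15, 11, 31), (15, 23, 3), (15, 23, 31), (15, 31, 11), (15, 31, 23)]⟩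
def row237 : Row := ⟨237, 364, 35, 19, [(3, 12, 13), (3, 12, 21), (3, 13, 12), (3, 13, 22), (3, 21, 12), (3, 21, 22), (3, 22, 13), (3, 22, 21), (4, 9, 15), (4, 9, 19), (4, 15, 9), (4, 15, 25), (4, 19, 9), (4, 19, 25), (4, 25, 15), (4, 25, 19), (6, 7, 13), (6, 7, 21), (6, 13, 7), (6, 13, 27), (6, 21, 7), (6, 21, 27), (6, 27, 13), (6, 27, 21), (7, 6, 13), (7, 6, 21), (7, 13, 6), (7, 13, 28), (7, 21, 6), (7, 21, 28), (7, 28, 13), (7, 28, 21), (9, 4, 15), (9, 4, 19), (9, 15, 4), (9, 15, 30), (9, 19, 4), (9, 19, 30), (9, 30, 15), (9, 30, 19), (12, 3, 13), (12, 3, 21), (12, 13, 3), (12, 13, 31), (12, 21, 3), (12, 21, 31), (12, 31, 13), (12, 31, 21), (13, 3, 12), (13, 3, 22), (13, 6, 7), (13, 6, 27), (13, 7, 6), (13, 7, 28), (13, 12, 3), (13, 12, 31), (13, 22, 3), (13, 22, 31), (13, 27, 6), (13, 27, 28), (13, 28, 7), (13, 28, 27), (13, 31, 12), (13, 31, 22), (15, 4, 9), (15,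 4, 25), (15, 9, 4), (15, 9, 30), (15, 25, 4), (15, 25, 30), (15, 30, 9), (15, 30, 25)]⟩
def row238 : Row := ⟨238, 296, 251, 224, [(2, 14, 15), (2, 14, 19), (2, 15, 14), (2, 15, 20), (2, 19, 14), (2, 19, 20), (2, 20, 15), (2, 20, 19), (6, 8, 11), (6, 8, 23), (6, 11, 8), (6, 11, 26), (6, 23, 8), (6, 26, 11), (8, 6, 11), (8, 6, 23), (8, 11, 6), (8, 11, 28), (8, 23, 6), (8, 28, 11), (11, 6, 8), (11, 6, 26), (11, 8, 6), (11, 8, 28), (11, 26, 6), (11, 28, 8), (14, 2, 15), (14, 2, 19), (14, 15, 2), (14, 19, 2), (15, 2, 14), (15, 2, 20), (15, 14, 2), (15, 20, 2), (19, 2, 14), (19, 2, 20), (19, 14, 2), (19, 20, 2), (20, 2, 15), (20, 2, 19), (20, 15, 2), (20, 19, 2), (23, 6, 8), (23, 8, 6), (26, 6, 11), (26, 11, 6), (28, 8, 11), (28, 11, 8)]⟩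
def row239 : Row := ⟨239, 100, 10, 1, []⟩
def row240 : Row := ⟨240, 100, 10, 1, []⟩
def row241 : Row := ⟨241, 346, 43, 38, [(2, 13, 17), (2, 17, 13), (2, 17, 21), (2, 21, 17), (3, 11, 14), (3, 11, 20), (3, 14, 11), (3, 14, 23), (3, 20, 11), (3, 20, 23), (3, 23, 14), (3, 23, 20), (4, 11, 11), (4, 11, 23), (4, 23, 11), (4, 23, 23), (5, 8, 13), (5, 8, 21), (5, 13, 8), (5, 13, 26), (5, 21, 8), (5, 21, 26), (5, 26, 13), (5, 26, 21), (8, 5, 13), (8, 5, 21), (8, 13, 5), (8, 13, 29), (8, 21, 5), (8, 21, 29), (8, 29, 13), (8, 29, 21), (11, 3, 14), (11, 3, 20), (11, 4, 11), (11, 4, 23), (11, 11, 4), (11, 11, 30), (11, 14, 3), (11, 14, 31), (11, 20, 3), (11, 20, 31), (11, 23, 4), (11, 23, 30), (11, 30, 11), (11, 30, 23), (11, 31, 14), (11, 31, 20), (13, 2, 17), (13, 5, 8), (13, 5, 26), (13, 8, 5), (13, 8, 29), (13, 17, 2), (13, 17, 32), (13, 26, 5), (13, 26, 29), (13, 29, 8), (13,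 29, 26), (13, 32, 17), (14, 3, 11), (14, 3, 23), (14, 11, 3), (14, 11, 31), (14, 23, 3), (14, 23, 31), (14, 31, 11), (14, 31, 23), (17, 2, 13), (17, 2, 21), (17, 13, 2), (17, 21, 2)]⟩
def row243 : Row := ⟨243, 211, 15, 3, [(2, 14, 14), (2, 14, 20), (2, 20, 14), (2, 20, 20), (4, 10, 12), (4, 10, 22), (4, 12, 10), (4, 12, 24), (4, 22, 10), (4, 22, 24), (4, 24, 12), (4, 24, 22), (6, 6, 16), (6, 6, 18), (6, 16, 6), (6, 16, 28), (6, 18, 6), (6, 18, 28), (6, 28, 16), (6, 28, 18), (8, 8, 8), (8, 8, 26), (8, 26, 8), (8, 26, 26), (10, 4, 12), (10, 4, 22), (10, 12, 4), (10, 12, 30), (10, 22, 4), (10, 22, 30), (10, 30, 12), (10, 30, 22), (12, 4, 10), (12, 4, 24), (12, 10, 4), (12, 10, 30), (12, 24, 4), (12, 24, 30), (12, 30, 10), (12, 30, 24), (14, 2, 14), (14, 2, 20), (14, 14, 2), (14, 14, 32), (14, 20, 2), (14, 20, 32), (14, 32, 14), (14, 32, 20), (16, 6, 6), (16, 6, 28), (16,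 28, 6), (16, 28, 28)]⟩
def row244 : Row := ⟨244, 79, 71, 54, [(5, 7, 17), (5, 9, 11), (5, 9, 23), (5, 11, 9), (5, 11, 25), (5, 17, 7), (5, 17, 27), (5, 23, 9), (5, 23, 25), (5, 25, 11), (5, 25, 23), (5, 27, 17), (7, 5, 17), (7, 17, 5), (7, 17, 29), (9, 5, 11), (9, 5, 23), (9, 11, 5), (9, 11, 29), (9, 23, 5), (9, 29, 11), (11, 5, 9), (11, 5, 25), (11, 9, 5), (11, 9, 29), (11, 25, 5), (11, 29, 9), (17, 5, 7), (17, 5, 27), (17, 7, 5), (17, 7, 29), (23, 5, 9), (23, 9, 5), (25, 5, 11), (25, 11, 5), (27, 5, 17)]⟩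
def row245 : Row := ⟨245, 157, 25, 19, [(2, 13, 15), (2, 13, 19), (2, 15, 13), (2, 15, 21), (2, 19, 13), (2, 19, 21), (2, 21, 15), (2, 21, 19), (3, 10, 17), (3, 17, 10), (3, 17, 24), (3, 24, 17), (5, 7, 16), (5, 7, 18), (5, 16, 7), (5, 16, 27), (5, 18, 7), (5, 18, 27), (5, 27, 16), (5, 27, 18), (7, 5, 16), (7, 5, 18), (7, 8, 9), (7, 8, 25), (7, 9, 8), (7, 9, 26), (7, 16, 5), (7, 16, 29), (7, 18, 5), (7, 18, 29), (7, 25, 8), (7, 25, 26), (7, 26, 9), (7, 26, 25), (7, 29, 16), (7, 29, 18), (8, 7, 9), (8, 7, 25), (8, 9, 7), (8, 9, 27), (8, 25, 7), (8, 25, 27), (8, 27, 9), (8, 27, 25), (9, 7, 8), (9, 7, 26), (9, 8, 7), (9, 8, 27), (9, 26, 7), (9, 26, 27), (9, 27, 8), (9, 27, 26), (10, 3, 17), (10, 17, 3), (10, 17, 31), (10, 31, 17), (13, 2, 15), (13, 2, 19), (13, 15, 2), (13, 15, 32), (13, 19, 2), (13, 19, 32), (13, 32, 15), (13, 32, 19), (15, 2, 13), (15, 2, 21), (15, 13,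 2), (15, 13, 32), (15, 21, 2), (15, 32, 13), (16, 5, 7), (16, 5, 27), (16, 7, 5), (16, 7, 29), (16, 27, 5), (16, 29, 7), (17, 3, 10), (17, 3, 24), (17, 10, 3), (17, 24, 3), (18, 5, 7), (18, 7, 5), (19, 2, 13), (19, 13, 2)]⟩
def row246 : Row := ⟨246, 343, 54, 2, [(3, 10, 16), (3, 10, 18), (3, 12, 12), (3, 12, 22), (3, 16, 10), (3, 16, 24), (3, 18, 10), (3, 18, 24), (3, 22, 12), (3, 22, 22), (3, 24, 16), (3, 24, 18), (6, 6, 15), (6, 6, 19), (6, 7, 12), (6, 7, 22), (6, 12, 7), (6, 12, 27), (6, 15, 6), (6, 15, 28), (6, 19, 6), (6, 19, 28), (6, 22, 7), (6, 22, 27), (6, 27, 12), (6, 27, 22), (6, 28, 15), (6, 28, 19), (7, 6, 12), (7, 6, 22), (7, 12, 6), (7, 12, 28), (7, 22, 6), (7, 22, 28), (7, 28, 12), (7, 28, 22), (10, 3, 16), (10, 3, 18), (10, 16, 3), (10, 16, 31), (10, 18, 3), (10, 18, 31), (10, 31, 16), (10, 31, 18), (12, 3, 12), (12, 3, 22), (12, 6, 7), (12, 6, 27), (12,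 7, 6), (12, 7, 28), (12, 12, 3), (12, 12, 31), (12, 22, 3), (12, 22, 31), (12, 27, 6), (12, 27, 28), (12, 28, 7), (12, 28, 27), (12, 31, 12), (12, 31, 22), (15, 6, 6), (15, 6, 28), (15, 28, 6), (15, 28, 28), (16, 3, 10), (16, 3, 24), (16, 10, 3), (16, 10, 31), (18, 3, 10), (18, 3, 24), (18, 10, 3), (18, 10, 31)]⟩
def row247 : Row := ⟨247, 100, 10, 1, []⟩
def row248 : Row := ⟨248, 286, 16, 12, [(3, 11, 13), (3, 11, 21), (3, 13, 11), (3, 13, 23), (3, 21, 11), (3, 21, 23), (3, 23, 13), (3, 23, 21), (5, 7, 15), (5, 7, 19), (5, 15, 7), (5, 15, 27), (5, 19, 7), (5, 19, 27), (5, 27, 15), (5, 27, 19), (7, 5, 15), (7, 5, 19), (7, 15, 5), (7, 15, 29), (7, 19, 5), (7, 19, 29), (7, 29, 15), (7, 29, 19), (11, 3, 13), (11, 3, 21), (11, 13, 3), (11, 13, 31), (11, 21, 3), (11, 21, 31), (11, 31, 13), (11, 31, 21), (13, 3, 11), (13, 3, 23), (13, 11, 3), (13, 11, 31), (13, 23, 3), (13,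 23, 31), (13, 31, 11), (13, 31, 23), (15, 5, 7), (15, 5, 27), (15, 7, 5), (15, 7, 29), (15, 27, 5), (15, 27, 29), (15, 29, 7), (15, 29, 27)]⟩
def row249 : Row := ⟨249, 330, 26, 8, [(3, 10, 15), (3, 10, 19), (3, 15, 10), (3, 15, 24), (3, 19, 10), (3, 19, 24), (3, 24, 15), (3, 24, 19), (4, 9, 13), (4, 9, 21), (4, 13, 9), (4, 13, 25), (4, 21, 9), (4, 21, 25), (4, 25, 13), (4, 25, 21), (6, 9, 9), (6, 9, 25), (6, 25, 9), (6, 25, 25), (7, 7, 10), (7, 7, 24), (7, 10, 7), (7, 10, 27), (7, 24, 7), (7, 24, 27), (7, 27, 10), (7, 27, 24), (9, 4, 13), (9, 4, 21), (9, 6, 9), (9, 6, 25), (9, 9, 6), (9, 9, 28), (9, 13, 4), (9, 13, 30), (9, 21, 4), (9, 21, 30), (9, 25, 6), (9, 25, 28), (9, 28, 9), (9, 28, 25), (9, 30, 13), (9, 30, 21), (10, 3, 15), (10, 3, 19), (10, 7, 7), (10, 7, 27), (10, 15, 3), (10, 15, 31), (10, 19, 3), (10, 19, 31), (10, 27, 7), (10, 27, 27), (10, 31, 15), (10,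 31, 19), (13, 4, 9), (13, 4, 25), (13, 9, 4), (13, 9, 30), (13, 25, 4), (13, 25, 30), (13, 30, 9), (13, 30, 25), (15, 3, 10), (15, 3, 24), (15, 10, 3), (15, 10, 31), (15, 24, 3), (15, 24, 31), (15, 31, 10), (15, 31, 24)]⟩
def row250 : Row := ⟨250, 216, 118, 82, [(2, 12, 17), (2, 13, 14), (2, 13, 20), (2, 14, 13), (2, 14, 21), (2, 17, 12), (2, 17, 22), (2, 20, 13), (2, 20, 21), (2, 21, 14), (2, 21, 20), (2, 22, 17), (4, 8, 17), (4, 17, 8), (4, 17, 26), (4, 26, 17), (5, 8, 12), (5, 8, 22), (5, 12, 8), (5, 12, 26), (5, 22, 8), (5, 22, 26), (5, 26, 12), (5, 26, 22), (8, 4, 17), (8, 5, 12), (8, 5, 22), (8, 12, 5), (8, 12, 29), (8, 17, 4), (8, 17, 30), (8, 22, 5), (8, 22, 29), (8, 29, 12), (8, 29, 22), (8, 30, 17), (12, 2, 17), (12, 5, 8), (12, 5, 26), (12, 8, 5), (12, 8, 29), (12, 17, 2), (12, 26, 5), (12, 29, 8), (13, 2, 14), (13, 2, 20), (13, 14, 2), (13, 20, 2), (14, 2,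 13), (14, 2, 21), (14, 13, 2), (14, 21, 2), (17, 2, 12), (17, 2, 22), (17, 4, 8), (17, 4, 26), (17, 8, 4), (17, 12, 2), (17, 22, 2), (17, 26, 4), (20, 2, 13), (20, 2, 21), (20, 13, 2), (20, 21, 2), (21, 2, 14), (21, 2, 20), (21, 14, 2), (21, 20, 2), (22, 2, 17), (22, 5, 8), (22, 8, 5), (22, 17, 2)]⟩
def row251 : Row := ⟨251, 247, 62, 1, [(2, 12, 16), (2, 12, 18), (2, 16, 12), (2, 16, 22), (2, 18, 12), (2, 18, 22), (2, 22, 16), (2, 22, 18), (4, 8, 16), (4, 8, 18), (4, 16, 8), (4, 16, 26), (4, 18, 8), (4, 18, 26), (4, 26, 16), (4, 26, 18), (6, 6, 14), (6, 6, 20), (6, 8, 10), (6, 8, 24), (6, 10, 8), (6, 10, 26), (6, 14, 6), (6, 14, 28), (6, 20, 6), (6, 20, 28), (6, 24, 8), (6, 24, 26), (6, 26, 10), (6, 26, 24), (6, 28, 14), (6, 28, 20), (8, 4, 16), (8, 4, 18), (8, 6, 10), (8, 6, 24), (8, 10, 6), (8, 10, 28), (8, 16, 4), (8, 16, 30), (8, 18, 4), (8, 18, 30), (8, 24, 6),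 (8, 24, 28), (8, 28, 10), (8, 28, 24), (8, 30, 16), (8, 30, 18), (10, 6, 8), (10, 6, 26), (10, 8, 6), (10, 8, 28), (10, 26, 6), (10, 26, 28), (10, 28, 8), (10, 28, 26), (12, 2, 16), (12, 2, 18), (12, 16, 2), (12, 16, 32), (12, 18, 2), (12, 18, 32), (12, 32, 16), (12, 32, 18), (14, 6, 6), (14, 6, 28), (14, 28, 6), (14, 28, 28), (16, 2, 12), (16, 2, 22), (16, 4, 8), (16, 4, 26), (16, 8, 4), (16, 8, 30), (16, 12, 2), (16, 12, 32), (18, 2, 12), (18, 2, 22), (18, 4, 8), (18, 4, 26), (18, 8, 4), (18, 8, 30), (18, 12, 2), (18, 12, 32)]⟩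
def row252 : Row := ⟨252, 100, 10, 1, []⟩
def row253 : Row := ⟨253, 372, 331, 293, [(5, 7, 14), (5, 7, 20), (5, 14, 7), (5, 14, 27), (5, 20, 7), (5, 20, 27), (5, 27, 14), (5, 27, 20), (7, 5, 14), (7, 5, 20), (7, 14, 5), (7, 14, 29), (7, 20, 5), (7, 29, 14), (14, 5, 7), (14, 5, 27), (14, 7, 5), (14, 7, 29), (14, 27, 5), (14, 29, 7), (20, 5, 7), (20, 7, 5), (27, 5, 14), (27, 14, 5)]⟩
def row254 : Row := ⟨254, 233, 18, 18, [(2, 12, 15), (2, 12, 19), (2, 15, 12), (2, 15, 22), (2, 19, 12), (2, 19, 22), (2, 22, 15), (2, 22, 19), (3, 10, 14), (3, 10, 20), (3, 14, 10), (3, 14, 24), (3, 20, 10), (3, 20, 24), (3, 24, 14), (3, 24, 20), (4, 8, 15), (4, 8, 19), (4, 10, 11), (4, 10, 23), (4, 11, 10), (4, 11, 24), (4, 15, 8), (4, 15, 26), (4, 19, 8), (4, 19, 26), (4, 23, 10), (4, 23, 24), (4, 24, 11), (4, 24, 23), (4, 26, 15), (4, 26, 19), (8, 4, 15), (8, 4, 19), (8, 15, 4), (8, 15,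 30), (8, 19, 4), (8, 19, 30), (8, 30, 15), (8, 30, 19), (10, 3, 14), (10, 3, 20), (10, 4, 11), (10, 4, 23), (10, 11, 4), (10, 11, 30), (10, 14, 3), (10, 14, 31), (10, 20, 3), (10, 20, 31), (10, 23, 4), (10, 23, 30), (10, 30, 11), (10, 30, 23), (10, 31, 14), (10, 31, 20), (11, 4, 10), (11, 4, 24), (11, 10, 4), (11, 10, 30), (11, 24, 4), (11, 24, 30), (11, 30, 10), (11, 30, 24), (12, 2, 15), (12, 2, 19), (12, 15, 2), (12, 15, 32), (12, 19, 2), (12, 19, 32), (12, 32, 15), (12, 32, 19), (14, 3, 10), (14, 3, 24), (14, 10, 3), (14, 10, 31), (14, 24, 3), (14, 24, 31), (14, 31, 10), (14, 31, 24), (15, 2, 12), (15, 2, 22), (15, 4, 8), (15, 4, 26), (15, 8, 4), (15, 8, 30), (15, 12, 2), (15, 12, 32), (15, 22, 2), (15, 22, 32), (15, 26, 4), (15, 26, 30), (15, 30, 8), (15, 30, 26), (15, 32, 12), (15, 32, 22)]⟩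
def row255 : Row := ⟨255, 100, 10, 1, []⟩
def row256 : Row := ⟨256, 100, 10, 1, [(1, 17, 17), (17, 1, 17), (17, 17, 1)]⟩
def row257 : Row := ⟨257, 320, 25, 19, [(1, 16, 17), (1, 17, 16), (1, 17, 18), (1, 18, 17), (2, 13, 13), (2, 13, 21), (2, 21, 13), (2, 21, 21), (3, 11, 12), (3, 11, 22), (3, 12, 11), (3, 12, 23), (3, 22, 11), (3, 22, 23), (3, 23, 12), (3, 23, 22), (5, 9, 10), (5, 9, 24), (5, 10, 9), (5, 10, 25), (5, 24, 9), (5, 24, 25), (5, 25, 10), (5, 25, 24), (6, 7, 11), (6, 7, 23), (6, 11, 7), (6, 11, 27), (6, 23, 7), (6, 23, 27), (6, 27, 11), (6, 27, 23), (7, 6, 11), (7, 6, 23), (7, 11, 6), (7, 11, 28), (7, 23, 6), (7, 23, 28), (7, 28, 11), (7, 28, 23), (9, 5, 10), (9, 5, 24), (9, 10, 5), (9, 10, 29), (9, 24, 5), (9, 24, 29), (9, 29, 10), (9, 29, 24), (10, 5, 9), (10, 5, 25), (10, 9, 5), (10, 9, 29), (10, 25, 5), (10, 25, 29), (10, 29, 9), (10, 29, 25), (11, 3,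 12), (11, 3, 22), (11, 6, 7), (11, 6, 27), (11, 7, 6), (11, 7, 28), (11, 12, 3), (11, 12, 31), (11, 22, 3), (11, 22, 31), (11, 27, 6), (11, 27, 28), (11, 28, 7), (11, 28, 27), (11, 31, 12), (11, 31, 22), (12, 3, 11), (12, 3, 23), (12, 11, 3), (12, 11, 31), (12, 23, 3), (12, 23, 31), (12, 31, 11), (12, 31, 23), (13, 2, 13), (13, 2, 21), (13, 13, 2), (13, 13, 32), (13, 21, 2), (13, 21, 32), (13, 32, 13), (13, 32, 21), (16, 1, 17), (16, 17, 1), (16, 17, 33), (17, 1, 16), (17, 1, 18), (17, 16, 1), (17, 18, 1), (18, 1, 17)]⟩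
def row258 : Row := ⟨258, 362, 224, 1, [(1, 16, 16), (1, 16, 18), (1, 18, 16), (1, 18, 18), (4, 9, 12), (4, 9, 22), (4, 12, 9), (4, 12, 25), (4, 22, 9), (4, 22, 25), (4, 25, 12), (4, 25, 22), (6, 6, 13), (6, 6, 21), (6, 13, 6), (6, 13, 28), (6, 21, 6), (6, 21, 28), (6, 28, 13), (6, 28, 21), (9, 4, 12), (9, 4, 22), (9, 12, 4), (9, 12, 30), (9, 22, 4), (9, 22, 30), (12, 4, 9), (12, 4, 25), (12, 9, 4), (12, 9, 30), (12, 25, 4), (12, 25, 30), (13, 6, 6), (13, 6, 28), (16, 1, 16), (16, 1, 18), (16, 16, 1), (16, 16, 33), (16, 18, 1), (16, 18, 33), (18, 1, 16), (18, 1, 18), (21, 6, 6), (21, 6, 28), (22, 4, 9), (22, 4, 25), (25, 4, 12), (25, 4, 22)]⟩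
def row259 : Row := ⟨259, 388, 177, 170, [(2, 12, 14), (2, 12, 20), (2, 14, 12), (2, 14, 22), (2, 20, 12), (2, 20, 22), (2, 22, 14), (2, 22, 20), (4, 8, 14), (4, 8, 20), (4, 14, 8), (4, 14, 26), (4, 20, 8), (4, 20, 26), (4, 26, 14), (4, 26, 20), (8, 4, 14), (8, 4, 20), (8, 14, 4), (8, 14, 30), (8, 20, 4), (8, 20, 30), (8, 30, 14), (8, 30, 20), (12, 2, 14), (12, 2, 20), (12, 14, 2), (12, 20, 2), (14, 2, 12), (14, 2, 22), (14, 4, 8), (14, 4, 26), (14, 8, 4), (14, 8, 30), (14, 12, 2), (14, 22, 2), (14, 26, 4), (14, 30, 8), (20, 2, 12), (20, 2, 22), (20, 4, 8), (20, 8, 4), (20, 12, 2), (20, 22, 2), (22, 2, 14), (22, 2, 20), (22, 14, 2), (22, 20, 2)]⟩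
def row260 : Row := ⟨260, 338, 323, 309, [(1, 15, 17), (1, 17, 15), (1, 17, 19), (1, 19, 17), (3, 9, 17), (3, 17, 9), (3, 17, 25), (3, 25, 17), (5, 7, 13), (5, 7, 21), (5, 13, 7), (5, 13, 27), (5, 21, 7), (5, 27, 13), (7, 5, 13), (7, 5, 21), (7, 13, 5), (7, 13, 29), (7, 21, 5), (7, 29, 13), (9, 3, 17), (9, 17, 3), (13, 5, 7), (13, 5, 27), (13, 7, 5), (13, 7, 29), (13, 27, 5), (13, 29, 7), (15, 1, 17), (15, 17, 1), (17, 1, 15), (17, 1, 19), (17, 3, 9), (17, 3, 25), (17, 9, 3), (17, 15, 1), (17, 19, 1), (17, 25, 3), (19, 1, 17), (19, 17, 1), (21, 5, 7), (21, 7, 5), (25, 3, 17), (25, 17, 3), (27, 5, 13), (27, 13, 5), (29, 7, 13), (29, 13, 7)]⟩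
def row261 : Row := ⟨261, 112, 91, 89, [(1, 15, 16), (1, 15, 18), (1, 16, 15), (1, 16, 19), (1, 18, 15), (1, 18, 19), (1, 19, 16), (1, 19, 18), (2, 11, 17), (2, 17, 11), (2, 17, 23), (2, 23, 17), (3, 9, 16), (3, 9, 18), (3, 10, 13), (3, 10, 21), (3, 13, 10), (3, 13, 24), (3, 16, 9), (3, 16, 25), (3, 18, 9), (3, 18, 25), (3, 21, 10), (3, 21, 24), (3, 24, 13), (3, 24, 21), (3, 25, 16), (3, 25, 18), (5, 8, 11), (5, 8, 23), (5, 11, 8), (5, 11, 26), (5, 23, 8), (5, 26, 11), (8, 5, 11), (8, 5, 23), (8, 11, 5), (8, 11, 29), (8, 23, 5), (8, 29, 11), (9, 3, 16), (9, 3, 18), (9, 16, 3), (9, 18, 3), (10, 3, 13), (10, 3, 21), (10, 13, 3), (10, 21, 3), (11, 2, 17), (11, 5, 8), (11, 5, 26), (11, 8, 5), (11, 8, 29), (11, 17, 2), (11, 26, 5), (11, 29, 8), (13, 3, 10), (13, 3, 24), (13, 10, 3), (13, 24, 3), (15, 1, 16), (15, 1, 18), (15, 16, 1), (15, 18, 1), (16, 1, 15), (16, 1, 19),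 (16, 3, 9), (16, 3, 25), (16, 9, 3), (16, 15, 1), (16, 19, 1), (16, 25, 3), (17, 2, 11), (17, 2, 23), (17, 11, 2), (17, 23, 2), (18, 1, 15), (18, 1, 19), (18, 3, 9), (18, 3, 25), (18, 9, 3), (18, 15, 1), (18, 19, 1), (18, 25, 3), (19, 1, 16), (19, 1, 18), (19, 16, 1), (19, 18, 1), (21, 3, 10), (21, 3, 24), (21, 10, 3), (21, 24, 3), (23, 2, 17), (23, 5, 8), (23, 8, 5), (23, 17, 2), (24, 3, 13), (24, 3, 21), (24, 13, 3), (24, 21, 3), (25, 3, 16), (25, 3, 18), (25, 16, 3), (25, 18, 3), (26, 5, 11), (26, 11, 5), (29, 8, 11), (29, 11, 8)]⟩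
def row262 : Row := ⟨262, 333, 238, 136, [(2, 11, 16), (2, 11, 18), (2, 16, 11), (2, 16, 23), (2, 18, 11), (2, 18, 23), (2, 23, 16), (2, 23, 18), (7, 8, 8), (7, 8, 26), (7, 26, 8), (8, 7, 8), (8, 7, 26), (8, 8, 7), (8, 8, 27), (8, 26, 7), (8, 27, 8), (11, 2, 16), (11, 2, 18), (11, 16, 2), (11, 16, 32), (11, 18, 2), (16, 2, 11), (16, 2, 23), (16, 11, 2), (16, 23, 2), (18, 2, 11), (18, 2, 23), (18, 11, 2), (18, 23, 2), (23, 2, 16), (23, 2, 18), (23, 16, 2), (26, 7, 8), (26, 8, 7), (27, 8, 8)]⟩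

theorem ok231 : rowOK 17 7 12 row231 = true := by decide +kernel
theorem ok232 : rowOK 17 7 12 row232 = true := by decide +kernel
theorem ok233 : rowOK 17 7 12 row233 = true := by decide +kernel
theorem ok234 : rowOK 17 7 12 row234 = true := by decide +kernel
theorem ok235 : rowOK 17 7 12 row235 = true := by decide +kernel
theorem ok236 : rowOK 17 7 12 row236 = true := by decide +kernel
theorem ok237 : rowOK 17 7 12 row237 = true := by decide +kernel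
theorem ok238 : rowOK 17 7 12 row238 = true := by decide +kernel
theorem ok239 : rowOK 17 7 12 row239 = true := by decide +kernel
theorem ok240 : rowOK 17 7 12 row240 = true := by decide +kernel
theorem ok241 : rowOK 17 7 12 row241 = true := by decide +kernel
theorem ok243 : rowOK 17 7 12 row243 = true := by decide +kernel
theorem ok244 : rowOK 17 7 12 row244 = true := by decide +kernel
theorem ok245 : rowOK 17 7 12 row245 = true := by decide +kernel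
theorem ok246 : rowOK 17 7 12 row246 = true := by decide +kernel
theorem ok247 : rowOK 17 7 12 row247 = true := by decide +kernel
theorem ok248 : rowOK 17 7 12 row248 = true := by decide +kernel
theorem ok249 : rowOK 17 7 12 row249 = true := by decide +kernel
theorem ok250 : rowOK 17 7 12 row250 = true := by decide +kernel
theorem ok251 : rowOK 17 7 12 row251 = true := by decide +kernel
theorem ok252 : rowOK 17 7 12 row252 = true := by decide +kernel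
theorem ok253 : rowOK 17 7 12 row253 = true := by decide +kernel
theorem ok254 : rowOK 17 7 12 row254 = true := by decide +kernel
theorem ok255 : rowOK 17 7 12 row255 = true := by decide +kernel
theorem ok256 : rowOK 17 7 12 row256 = true := by decide +kernel
theorem ok257 : rowOK 17 7 12 row257 = true := by decide +kernel
theorem ok258 : rowOK 17 7 12 row258 = true := by decide +kernel
theorem ok259 : rowOK 17 7 12 row259 = true := by decide +kernel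
theorem ok260 : rowOK 17 7 12 row260 = true := by decide +kernel
theorem ok261 : rowOK 17 7 12 row261 = true := by decide +kernel
theorem ok262 : rowOK 17 7 12 row262 = true := by decide +kernel

theorem rows (N : ℕ) (h1 : 231 ≤ N) (h2 : N ≤ 262) (h3 : N ≠ 242) :
    ∃ R : Row, R.N = N ∧ rowOK 17 7 12 R = true := by
  interval_cases N
  · exact ⟨row231, rfl, ok231⟩
  · exact ⟨row232, rfl, ok232⟩
  · exact ⟨row233, rfl, ok233⟩
  · exact ⟨row234, rfl, ok234⟩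
  · exact ⟨row235, rfl, ok235⟩
  · exact ⟨row236, rfl, ok236⟩
  · exact ⟨row237, rfl, ok237⟩
  · exact ⟨row238, rfl, ok238⟩
  · exact ⟨row239, rfl, ok239⟩
  · exact ⟨row240, rfl, ok240⟩
  · exact ⟨row241, rfl, ok241⟩
  · exact absurd rfl h3
  · exact ⟨row243, rfl, ok243⟩
  · exact ⟨row244, rfl, ok244⟩
  · exact ⟨row245, rfl, ok245⟩
  · exact ⟨row246, rfl, ok246⟩
  · exact ⟨row247, rfl, ok247⟩
  · exact ⟨row248, rfl, ok248⟩
  · exact ⟨row249, rfl, ok249⟩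
  · exact ⟨row250, rfl, ok250⟩
  · exact ⟨row251, rfl, ok251⟩
  · exact ⟨row252, rfl, ok252⟩
  · exact ⟨row253, rfl, ok253⟩
  · exact ⟨row254, rfl, ok254⟩
  · exact ⟨row255, rfl, ok255⟩
  · exact ⟨row256, rfl, ok256⟩
  · exact ⟨row257, rfl, ok257⟩
  · exact ⟨row258, rfl, ok258⟩
  · exact ⟨row259, rfl, ok259⟩
  · exact ⟨row260, rfl, ok260⟩
  · exact ⟨row261, rfl, ok261⟩
  · exact ⟨row262, rfl, ok262⟩

end Pool.Agent.Lib.MPe4ee32.IP.D7e
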