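import Pool.Agent.Lib.MP_e4ee32_co.IP.Check

/-! Integer packings (MP_e4ee32_co): rows of the table, checked by the kernel. -/

namespace Pool.Agent.Lib.MPe4ee32.IP.D7f

def row263 : Row := ⟨263, 100, 10, 1, []⟩
def row264 : Row := ⟨264, 222, 56, 7, [(1, 15, 15), (1, 15, 19), (1, 19, 15), (1, 19, 19), (3, 9, 15), (3, 9, 19), (3, 15, 9), (3, 15, 25), (3, 19, 9), (3, 19, 25), (3, 25, 15), (3, 25, 19), (7, 7, 9), (7, 7, 25), (7, 9, 7), (7, 9, 27), (7, 25, 7), (7, 25, 27), (7, 27, 9), (7, 27, 25), (9, 3, 15), (9, 3, 19), (9, 7, 7), (9, 7, 27), (9, 15, 3), (9, 15, 31), (9, 19, 3), (9, 19, 31), (9, 27, 7), (9, 27, 27), (9, 31, 15), (9, 31, 19), (15, 1, 15), (15, 1, 19), (15, 3, 9), (15, 3, 25), (15, 9, 3), (15, 9, 31), (15, 15, 1), (15, 15, 33), (15, 19, 1), (15, 19, 33), (15, 25, 3), (19, 1, 15), (19, 1, 19), (19, 3, 9), (19, 3, 25), (19, 9, 3)]⟩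
def row265 : Row := ⟨265, 170, 59, 0, [(1, 14, 17), (1, 17, 14), (1, 17, 20), (1, 20, 17), (2, 11, 15), (2, 11, 19), (2, 15, 11), (2, 15, 23), (2, 19, 11), (2, 19, 23), (2, 23, 15), (2, 23, 19), (5, 6, 17), (5, 17, 6), (5, 17, 28), (5, 28, 17), (6, 5, 17), (6, 17, 5), (6, 17, 29), (6, 29, 17), (11, 2, 15), (11, 2, 19), (11, 15, 2), (11, 15, 32), (11, 19, 2), (11, 19, 32), (11, 32, 15), (11, 32, 19), (14, 1, 17), (14, 17, 1), (14, 17, 33), (15, 2, 11), (15, 2, 23), (15, 11, 2), (15, 11, 32), (17, 1, 14), (17, 1, 20), (17, 5, 6), (17, 5, 28), (17, 6, 5), (17, 6, 29), (17, 14, 1), (17, 14, 33), (19, 2, 11), (19, 2, 23), (19, 11, 2), (19, 11, 32), (20, 1, 17)]⟩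
def row266 : Row := ⟨266, 364, 75, 37, [(1, 14, 16), (1, 14, 18), (1, 16, 14), (1, 16, 20), (1, 18, 14), (1, 18, 20), (1, 20, 16), (1, 20, 18), (2, 12, 13), (2, 12, 21), (2, 13, 12), (2, 13, 22), (2, 21, 12), (2, 21, 22), (2, 22, 13), (2, 22, 21), (4, 8, 13), (4, 8, 21), (4, 13, 8), (4, 13, 26), (4, 21, 8), (4, 21, 26), (4, 26, 13), (4, 26, 21), (5, 6, 16), (5, 6, 18), (5, 16, 6), (5, 16, 28), (5, 18, 6), (5, 18, 28), (5, 28, 16), (5, 28, 18), (6, 5, 16), (6, 5, 18), (6, 8, 9), (6, 8, 25), (6, 9, 8), (6, 9, 26), (6, 16, 5), (6, 16, 29), (6, 18, 5), (6, 18, 29), (6, 25, 8), (6, 25, 26), (6, 26, 9), (6, 26, 25), (6, 29, 16), (6, 29, 18), (8, 4, 13), (8, 4, 21), (8, 6, 9), (8, 6, 25), (8, 9, 6), (8, 9, 28), (8, 13, 4), (8, 13, 30), (8, 21, 4), (8, 21, 30), (8, 25, 6), (8, 25, 28), (8, 28, 9), (8, 28, 25), (8, 30, 13), (8, 30, 21), (9, 6, 8), (9, 6, 26), (9, 8, 6), (9,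 8, 28), (9, 26, 6), (9, 26, 28), (9, 28, 8), (9, 28, 26), (12, 2, 13), (12, 2, 21), (12, 13, 2), (12, 13, 32), (12, 21, 2), (12, 21, 32), (12, 32, 13), (12, 32, 21), (13, 2, 12), (13, 2, 22), (13, 4, 8), (13, 4, 26), (13, 8, 4), (13, 8, 30), (13, 12, 2), (13, 12, 32), (13, 22, 2), (13, 22, 32), (13, 26, 4), (13, 26, 30), (13, 30, 8), (13, 30, 26), (13, 32, 12), (13, 32, 22), (14, 1, 16), (14, 1, 18), (14, 16, 1), (14, 16, 33), (14, 18, 1), (14, 18, 33), (16, 1, 14), (16, 1, 20), (16, 5, 6), (16, 5, 28), (16, 6, 5), (16, 6, 29), (16, 14, 1), (16, 20, 1), (18, 1, 14), (18, 1, 20), (18, 5, 6), (18, 5, 28), (18, 6, 5), (18, 6, 29), (18, 14, 1), (18, 20, 1), (20, 1, 16), (20, 1, 18)]⟩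
def row267 : Row := ⟨267, 249, 248, 229, [(4, 10, 10), (4, 10, 24), (4, 24, 10), (6, 6, 12), (6, 6, 22), (6, 12, 6), (6, 12, 28), (6, 22, 6), (6, 28, 12), (10, 4, 10), (10, 4, 24), (10, 10, 4), (10, 10, 30), (10, 24, 4), (10, 30, 10), (12, 6, 6), (12, 6, 28), (12, 28, 6), (22, 6, 6), (24, 4, 10), (24, 10, 4), (28, 6, 12), (28, 12, 6), (30, 10, 10)]⟩
def row268 : Row := ⟨268, 372, 128, 68, [(3, 11, 11), (3, 11, 23), (3, 23, 11), (3, 23, 23), (11, 3, 11), (11, 3, 23), (11, 11, 3), (11, 11, 31), (11, 23, 3), (11, 23, 31), (11, 31, 11), (11, 31, 23)]⟩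
def row269 : Row := ⟨269, 242, 76, 1, [(1, 14, 15), (1, 14, 19), (1, 15, 14), (1, 15, 20), (1, 19, 14), (1, 19, 20), (1, 20, 15), (1, 20, 19), (3, 9, 14), (3, 9, 20), (3, 14, 9), (3, 14, 25), (3, 20, 9), (3, 20, 25), (3, 25, 14), (3, 25, 20), (4, 7, 17), (4, 9, 11), (4, 9, 23), (4, 11, 9), (4, 11, 25), (4, 17, 7), (4, 17, 27), (4, 23, 9), (4, 23, 25), (4, 25, 11), (4, 25, 23), (4, 27, 17), (5, 6, 15), (5, 6, 19), (5, 7, 12), (5, 7, 22), (5, 12, 7), (5, 12, 27), (5, 15, 6), (5, 15, 28), (5, 19, 6), (5, 19, 28), (5, 22, 7), (5, 22, 27), (5, 27, 12), (5, 27, 22), (5, 28, 15), (5, 28, 19), (6, 5, 15), (6, 5, 19), (6, 15, 5), (6, 15, 29), (6, 19, 5), (6, 19, 29), (6, 29, 15), (6, 29, 19), (7, 4, 17), (7, 5, 12), (7, 5, 22), (7, 12, 5), (7, 12, 29), (7, 17, 4), (7, 17, 30), (7, 22, 5), (7, 22, 29), (7, 29, 12), (7, 29, 22), (7, 30, 17), (9, 3, 14), (9, 3, 20), (9, 4, 11),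 (9, 4, 23), (9, 11, 4), (9, 11, 30), (9, 14, 3), (9, 14, 31), (9, 20, 3), (9, 20, 31), (9, 23, 4), (9, 23, 30), (9, 30, 11), (9, 30, 23), (9, 31, 14), (9, 31, 20), (11, 4, 9), (11, 4, 25), (11, 9, 4), (11, 9, 30), (11, 25, 4), (11, 25, 30), (11, 30, 9), (11, 30, 25), (12, 5, 7), (12, 5, 27), (12, 7, 5), (12, 7, 29), (12, 27, 5), (12, 27, 29), (12, 29, 7), (12, 29, 27), (14, 1, 15), (14, 1, 19), (14, 3, 9), (14, 3, 25), (14, 9, 3), (14, 9, 31), (14, 15, 1), (14, 15, 33), (14, 19, 1), (14, 19, 33), (14, 25, 3), (14, 25, 31), (15, 1, 14), (15, 1, 20), (15, 5, 6), (15, 5, 28), (15, 6, 5), (15, 6, 29), (15, 14, 1), (15, 14, 33), (15, 20, 1), (15, 20, 33), (17, 4, 7), (17, 4, 27), (17, 7, 4), (17, 7, 30), (19, 1, 14), (19, 1, 20), (19, 5, 6), (19, 5, 28), (19, 6, 5), (19, 6, 29), (20, 1, 15), (20, 1, 19), (20, 3, 9), (20, 3, 25)]⟩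
def row270 : Row := ⟨270, 356, 11, 9, [(2, 11, 14), (2, 11, 20), (2, 14, 11), (2, 14, 23), (2, 20, 11), (2, 20, 23), (2, 23, 14), (2, 23, 20), (3, 10, 12), (3, 10, 22), (3, 12, 10), (3, 12, 24), (3, 22, 10), (3, 22, 24), (3, 24, 12), (3, 24, 22), (4, 7, 16), (4, 7, 18), (4, 16, 7), (4, 16, 27), (4, 18, 7), (4, 18, 27), (4, 27, 16), (4, 27, 18), (6, 7, 10), (6, 7, 24), (6, 10, 7), (6, 10, 27), (6, 24, 7), (6, 24, 27), (6, 27, 10), (6, 27, 24), (7, 4, 16), (7, 4, 18), (7, 6, 10), (7, 6, 24), (7, 10, 6), (7, 10, 28), (7, 16, 4), (7, 16, 30), (7, 18, 4), (7, 18, 30), (7, 24, 6), (7, 24, 28), (7, 28, 10), (7, 28, 24), (7, 30, 16), (7, 30, 18), (10, 3, 12), (10, 3, 22), (10, 6, 7), (10, 6, 27), (10, 7, 6), (10, 7, 28), (10, 12, 3), (10, 12, 31), (10, 22, 3), (10, 22, 31), (10, 27, 6), (10, 27, 28), (10, 28, 7), (10, 28, 27), (10, 31, 12), (10, 31, 22), (11, 2, 14), (11,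 2, 20), (11, 14, 2), (11, 14, 32), (11, 20, 2), (11, 20, 32), (11, 32, 14), (11, 32, 20), (12, 3, 10), (12, 3, 24), (12, 10, 3), (12, 10, 31), (12, 24, 3), (12, 24, 31), (12, 31, 10), (12, 31, 24), (14, 2, 11), (14, 2, 23), (14, 11, 2), (14, 11, 32), (14, 23, 2), (14, 23, 32), (14, 32, 11), (14, 32, 23), (16, 4, 7), (16, 4, 27), (16, 7, 4), (16, 7, 30), (16, 27, 4), (16, 27, 30), (16, 30, 7), (16, 30, 27)]⟩
def row271 : Row := ⟨271, 100, 10, 1, []⟩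
def row272 : Row := ⟨272, 299, 45, 43, [(1, 13, 17), (1, 17, 13), (1, 17, 21), (1, 21, 17), (5, 9, 9), (5, 9, 25), (5, 25, 9), (5, 25, 25), (9, 5, 9), (9, 5, 25), (9, 9, 5), (9, 9, 29), (9, 25, 5), (9, 25, 29), (9, 29, 9), (9, 29, 25), (13, 1, 17), (13, 17, 1), (13, 17, 33), (13, 33, 17), (17, 1, 13), (17, 1, 21), (17, 13, 1), (17, 21, 1)]⟩
def row273 : Row := ⟨273, 382, 203, 193, [(1, 13, 16), (1, 13, 18), (1, 16, 13), (1, 16, 21), (1, 18, 13), (1, 18, 21), (1, 21, 16), (1, 21, 18), (4, 7, 15), (4, 7, 19), (4, 15, 7), (4, 15, 27), (4, 19, 7), (4, 19, 27), (4, 27, 15), (4, 27, 19), (7, 4, 15), (7, 4, 19), (7, 15, 4), (7, 15, 30), (7, 19, 4), (7, 19, 30), (7, 30, 15), (7, 30, 19), (13, 1, 16), (13, 1, 18), (13, 16, 1), (13, 18, 1), (15, 4, 7), (15, 4, 27), (15, 7, 4), (15, 7, 30), (15, 27, 4), (15, 30, 7), (16, 1, 13), (16, 1, 21), (16, 13, 1), (16, 21, 1), (18, 1,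 13), (18, 1, 21), (18, 13, 1), (18, 21, 1), (19, 4, 7), (19, 7, 4), (21, 1, 16), (21, 1, 18), (21, 16, 1), (21, 18, 1)]⟩
def row274 : Row := ⟨274, 355, 43, 11, [(1, 14, 14), (1, 14, 20), (1, 20, 14), (1, 20, 20), (2, 10, 17), (2, 17, 10), (2, 17, 24), (2, 24, 17), (5, 6, 14), (5, 6, 20), (5, 8, 10), (5, 8, 24), (5, 10, 8), (5, 10, 26), (5, 14, 6), (5, 14, 28), (5, 20, 6), (5, 20, 28), (5, 24, 8), (5, 24, 26), (5, 26, 10), (5, 26, 24), (5, 28, 14), (5, 28, 20), (6, 5, 14), (6, 5, 20), (6, 14, 5), (6, 14, 29), (6, 20, 5), (6, 20, 29), (6, 29, 14), (6, 29, 20), (8, 5, 10), (8, 5, 24), (8, 10, 5), (8, 10, 29), (8, 24, 5), (8, 24, 29), (8, 29, 10), (8, 29, 24), (10, 2, 17), (10, 5, 8), (10, 5, 26), (10, 8, 5), (10, 8, 29), (10, 17, 2), (10, 17, 32), (10, 26, 5), (10, 26, 29), (10, 29, 8), (10, 29, 26), (10, 32, 17), (14, 1, 14), (14, 1, 20), (14, 5, 6), (14, 5, 28), (14,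 6, 5), (14, 6, 29), (14, 14, 1), (14, 14, 33), (14, 20, 1), (14, 20, 33), (14, 28, 5), (14, 28, 29), (14, 29, 6), (14, 29, 28), (14, 33, 14), (14, 33, 20), (17, 2, 10), (17, 2, 24), (17, 10, 2), (17, 10, 32)]⟩
def row275 : Row := ⟨275, 366, 20, 5, [(2, 10, 16), (2, 10, 18), (2, 12, 12), (2, 12, 22), (2, 16, 10), (2, 16, 24), (2, 18, 10), (2, 18, 24), (2, 22, 12), (2, 22, 22), (2, 24, 16), (2, 24, 18), (4, 8, 12), (4, 8, 22), (4, 12, 8), (4, 12, 26), (4, 22, 8), (4, 22, 26), (4, 26, 12), (4, 26, 22), (8, 4, 12), (8, 4, 22), (8, 12, 4), (8, 12, 30), (8, 22, 4), (8, 22, 30), (8, 30, 12), (8, 30, 22), (10, 2, 16), (10, 2, 18), (10, 16, 2), (10, 16, 32), (10, 18, 2), (10, 18, 32), (10, 32, 16), (10, 32, 18), (12, 2, 12), (12, 2, 22), (12, 4, 8), (12, 4, 26), (12, 8, 4), (12, 8, 30), (12, 12, 2), (12, 12, 32), (12, 22, 2), (12, 22, 32), (12, 26, 4), (12, 26, 30), (12,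 30, 8), (12, 30, 26), (12, 32, 12), (12, 32, 22), (16, 2, 10), (16, 2, 24), (16, 10, 2), (16, 10, 32), (16, 24, 2), (16, 24, 32), (16, 32, 10), (16, 32, 24)]⟩
def row276 : Row := ⟨276, 273, 71, 7, [(1, 13, 15), (1, 13, 19), (1, 15, 13), (1, 15, 21), (1, 19, 13), (1, 19, 21), (1, 21, 15), (1, 21, 19), (3, 9, 13), (3, 9, 21), (3, 13, 9), (3, 13, 25), (3, 21, 9), (3, 21, 25), (3, 25, 13), (3, 25, 21), (9, 3, 13), (9, 3, 21), (9, 13, 3), (9, 13, 31), (9, 21, 3), (9, 21, 31), (9, 31, 13), (9, 31, 21), (13, 1, 15), (13, 1, 19), (13, 3, 9), (13, 3, 25), (13, 9, 3), (13, 9, 31), (13, 15, 1), (13, 15, 33), (13, 19, 1), (13, 19, 33), (13, 25, 3), (13, 25, 31), (13, 31, 9), (13, 31, 25), (15, 1, 13), (15, 1, 21), (15, 13, 1), (15, 13, 33), (15, 21, 1), (15, 21, 33), (19, 1, 13), (19, 1, 21), (21, 1, 15), (21, 1, 19)]⟩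
def row277 : Row := ⟨277, 355, 274, 168, [(2, 11, 13), (2, 11, 21), (2, 13, 11), (2, 13, 23), (2, 21, 11), (2, 21, 23), (2, 23, 13), (2, 23, 21), (3, 8, 17), (3, 17, 8), (3, 17, 26), (3, 26, 17), (8, 3, 17), (8, 17, 3), (8, 17, 31), (11, 2, 13), (11, 2, 21), (11, 13, 2), (11, 13, 32), (11, 21, 2), (13, 2, 11), (13, 2, 23), (13, 11, 2), (13, 11, 32), (13, 23, 2), (17, 3, 8), (17, 3, 26), (17, 8, 3), (17, 8, 31), (21, 2, 11), (21, 2, 23), (21, 11, 2), (23, 2, 13), (23, 2, 21), (23, 13, 2), (26, 3, 17)]⟩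
def row278 : Row := ⟨278, 241, 10, 0, [(2, 10, 15), (2, 10, 19), (2, 15, 10), (2, 15, 24), (2, 19, 10), (2, 19, 24), (2, 24, 15), (2, 24, 19), (3, 8, 16), (3, 8, 18), (3, 16, 8), (3, 16, 26), (3, 18, 8), (3, 18, 26), (3, 26, 16), (3, 26, 18), (4, 7, 14), (4, 7, 20), (4, 14, 7), (4, 14, 27), (4, 20, 7), (4, 20, 27), (4, 27, 14), (4, 27, 20), (6, 6, 11), (6, 6, 23), (6, 11, 6), (6, 11, 28), (6, 23, 6), (6, 23, 28), (6, 28, 11), (6, 28, 23), (7, 4, 14), (7, 4, 20), (7, 14, 4), (7, 14, 30), (7, 20, 4), (7, 20, 30), (7, 30, 14), (7, 30, 20), (8, 3, 16), (8, 3, 18), (8, 16, 3), (8, 16, 31), (8, 18, 3), (8, 18, 31), (8, 31, 16), (8, 31, 18), (10, 2, 15), (10, 2, 19), (10, 15, 2), (10, 15, 32), (10, 19, 2), (10, 19, 32), (10, 32, 15), (10, 32, 19), (11, 6, 6), (11, 6, 28), (11, 28, 6), (11, 28, 28), (14, 4, 7), (14, 4, 27), (14, 7, 4), (14, 7, 30), (14, 27, 4), (14, 27,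 30), (14, 30, 7), (14, 30, 27), (15, 2, 10), (15, 2, 24), (15, 10, 2), (15, 10, 32), (15, 24, 2), (15, 24, 32), (15, 32, 10), (15, 32, 24), (16, 3, 8), (16, 3, 26), (16, 8, 3), (16, 8, 31), (16, 26, 3), (16, 26, 31), (16, 31, 8), (16, 31, 26)]⟩
def row279 : Row := ⟨279, 100, 10, 1, []⟩
def row280 : Row := ⟨280, 348, 110, 25, [(5, 7, 11), (5, 7, 23), (5, 11, 7), (5, 11, 27), (5, 23, 7), (5, 23, 27), (5, 27, 11), (5, 27, 23), (7, 5, 11), (7, 5, 23), (7, 11, 5), (7, 11, 29), (7, 23, 5), (7, 23, 29), (7, 29, 11), (7, 29, 23), (11, 5, 7), (11, 5, 27), (11, 7, 5), (11, 7, 29), (11, 27, 5), (11, 27, 29), (11, 29, 7), (11, 29, 27)]⟩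
def row281 : Row := ⟨281, 370, 302, 13, [(1, 12, 17), (1, 13, 14), (1, 13, 20), (1, 14, 13), (1, 14, 21), (1, 17, 12), (1, 17, 22), (1, 20, 13), (1, 20, 21), (1, 21, 14), (1, 21, 20), (1, 22, 17), (3, 8, 15), (3, 8, 19), (3, 10, 11), (3, 10, 23), (3, 11, 10), (3, 11, 24), (3, 15, 8), (3, 15, 26), (3, 19, 8), (3, 19, 26), (3, 23, 10), (3, 23, 24), (3, 24, 11), (3, 24, 23), (3, 26, 15), (3, 26, 19), (5, 6, 13), (5, 6, 21), (5, 13, 6), (5, 13, 28), (5, 21, 6), (5, 21, 28), (5, 28, 13), (5, 28, 21), (6, 5, 13), (6, 5, 21), (6, 13, 5), (6, 13, 29), (6, 21, 5), (6, 21, 29), (6, 29, 13), (6, 29, 21), (7, 7, 8), (7, 7, 26), (7, 8, 7), (7, 8, 27), (7, 26, 7), (7, 26, 27), (7, 27, 8), (7, 27, 26), (8, 3, 15), (8, 3, 19), (8, 7, 7), (8, 7, 27), (8, 15, 3), (8, 15, 31), (8, 19, 3), (8, 19, 31), (8, 27, 7), (8, 27, 27), (10, 3, 11), (10, 3, 23), (10, 11, 3), (10, 11, 31), (10,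 23, 3), (10, 23, 31), (11, 3, 10), (11, 3, 24), (11, 10, 3), (11, 10, 31), (11, 24, 3), (12, 1, 17), (12, 17, 1), (12, 17, 33), (13, 1, 14), (13, 1, 20), (13, 5, 6), (13, 5, 28), (13, 6, 5), (13, 6, 29), (13, 14, 1), (13, 14, 33), (13, 20, 1), (13, 20, 33), (14, 1, 13), (14, 1, 21), (14, 13, 1), (14, 13, 33), (14, 21, 1), (15, 3, 8), (15, 3, 26), (15, 8, 3), (15, 8, 31), (17, 1, 12), (17, 1, 22), (17, 12, 1), (17, 12, 33), (19, 3, 8), (19, 3, 26), (19, 8, 3), (19, 8, 31), (20, 1, 13), (20, 1, 21), (20, 13, 1), (21, 1, 14), (21, 1, 20), (21, 5, 6), (21, 5, 28), (21, 6, 5), (21, 6, 29), (22, 1, 17), (23, 3, 10), (23, 3, 24), (23, 10, 3), (24, 3, 11), (24, 3, 23), (26, 3, 15), (26, 3, 19)]⟩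
def row282 : Row := ⟨282, 201, 169, 1, [(1, 12, 16), (1, 12, 18), (1, 16, 12), (1, 16, 22), (1, 18, 12), (1, 18, 22), (1, 22, 16), (1, 22, 18), (4, 9, 10), (4, 9, 24), (4, 10, 9), (4, 10, 25), (4, 24, 9), (4, 24, 25), (4, 25, 10), (4, 25, 24), (9, 4, 10), (9, 4, 24), (9, 10, 4), (9, 10, 30), (9, 24, 4), (9, 24, 30), (10, 4, 9), (10, 4, 25), (10, 9, 4), (10, 9, 30), (10, 25, 4), (10, 25, 30), (12, 1, 16), (12, 1, 18), (12, 16, 1), (12, 16, 33), (12, 18, 1), (12, 18, 33), (16, 1, 12), (16, 1, 22), (16, 12, 1), (16, 12, 33), (18, 1, 12), (18, 1, 22), (18, 12, 1), (18, 12, 33), (22, 1, 16), (22, 1, 18), (24, 4, 9), (24, 4, 25), (25, 4, 10), (25, 4, 24)]⟩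
def row283 : Row := ⟨283, 304, 247, 219, [(2, 10, 14), (2, 10, 20), (2, 14, 10), (2, 14, 24), (2, 20, 10), (2, 20, 24), (2, 24, 14), (2, 24, 20), (6, 8, 8), (6, 8, 26), (6, 26, 8), (8, 6, 8), (8, 6, 26), (8, 8, 6), (8, 8, 28), (8, 26, 6), (8, 28, 8), (10, 2, 14), (10, 2, 20), (10, 14, 2), (10, 20, 2), (14, 2, 10), (14, 2, 24), (14, 10, 2), (14, 24, 2), (20, 2, 10), (20, 2, 24), (20, 10, 2), (20, 24, 2), (24, 2, 14), (24, 2, 20), (24, 14, 2), (24, 20, 2), (26, 6, 8), (26, 8, 6), (28, 8, 8)]⟩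
def row284 : Row := ⟨284, 100, 10, 1, []⟩
def row285 : Row := ⟨285, 310, 32, 0, [(1, 12, 15), (1, 12, 19), (1, 15, 12), (1, 15, 22), (1, 19, 12), (1, 19, 22), (1, 22, 15), (1, 22, 19), (3, 9, 12), (3, 9, 22), (3, 12, 9), (3, 12, 25), (3, 22, 9), (3, 22, 25), (3, 25, 12), (3, 25, 22), (4, 7, 13), (4, 7, 21), (4, 13, 7), (4, 13, 27), (4, 21, 7), (4, 21, 27), (4, 27, 13), (4, 27, 21), (6, 7, 9), (6, 7, 25), (6, 9, 7), (6, 9, 27), (6, 25, 7), (6, 25, 27), (6, 27, 9), (6, 27, 25), (7, 4, 13), (7, 4, 21), (7, 6, 9), (7, 6, 25), (7, 9, 6), (7, 9, 28), (7, 13, 4), (7, 13, 30), (7, 21, 4), (7, 21, 30), (7, 25, 6), (7, 25, 28), (7, 28, 9), (7, 28, 25), (7, 30, 13), (7, 30, 21), (9, 3, 12), (9, 3, 22), (9, 6, 7), (9, 6, 27), (9, 7, 6), (9, 7, 28), (9, 12, 3), (9, 12, 31), (9, 22, 3), (9, 22, 31), (9, 27, 6), (9, 27, 28), (9, 28, 7), (9, 28, 27), (9, 31, 12), (9, 31, 22), (12,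 1, 15), (12, 1, 19), (12, 3, 9), (12, 3, 25), (12, 9, 3), (12, 9, 31), (12, 15, 1), (12, 15, 33), (12, 19, 1), (12, 19, 33), (12, 25, 3), (12, 25, 31), (12, 31, 9), (12, 31, 25), (12, 33, 15), (12, 33, 19), (13, 4, 7), (13, 4, 27), (13, 7, 4), (13, 7, 30), (13, 27, 4), (13, 27, 30), (13, 30, 7), (13, 30, 27), (15, 1, 12), (15, 1, 22), (15, 12, 1), (15, 12, 33), (15, 22, 1), (15, 22, 33), (15, 33, 12), (15, 33, 22)]⟩
def row286 : Row := ⟨286, 284, 27, 10, [(2, 11, 12), (2, 11, 22), (2, 12, 11), (2, 12, 23), (2, 22, 11), (2, 22, 23), (2, 23, 12), (2, 23, 22), (3, 8, 14), (3, 8, 20), (3, 14, 8), (3, 14, 26), (3, 20, 8), (3, 20, 26), (3, 26, 14), (3, 26, 20), (4, 8, 11), (4, 8, 23), (4, 11, 8), (4, 11, 26), (4, 23, 8), (4, 23, 26), (4, 26, 11), (4, 26, 23), (8, 3, 14), (8, 3, 20), (8, 4, 11), (8, 4, 23), (8, 11, 4), (8, 11, 30), (8, 14, 3), (8, 14, 31), (8, 20, 3), (8,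 20, 31), (8, 23, 4), (8, 23, 30), (8, 30, 11), (8, 30, 23), (8, 31, 14), (8, 31, 20), (11, 2, 12), (11, 2, 22), (11, 4, 8), (11, 4, 26), (11, 8, 4), (11, 8, 30), (11, 12, 2), (11, 12, 32), (11, 22, 2), (11, 22, 32), (11, 26, 4), (11, 26, 30), (11, 30, 8), (11, 30, 26), (11, 32, 12), (11, 32, 22), (12, 2, 11), (12, 2, 23), (12, 11, 2), (12, 11, 32), (12, 23, 2), (12, 23, 32), (12, 32, 11), (12, 32, 23), (14, 3, 8), (14, 3, 26), (14, 8, 3), (14, 8, 31), (14, 26, 3), (14, 26, 31), (14, 31, 8), (14, 31, 26)]⟩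
def row287 : Row := ⟨287, 100, 10, 1, []⟩
def row288 : Row := ⟨288, 186, 85, 0, [(1, 13, 13), (1, 13, 21), (1, 21, 13), (1, 21, 21), (5, 5, 17), (5, 17, 5), (5, 17, 29), (5, 29, 17), (13, 1, 13), (13, 1, 21), (13, 13, 1), (13, 13, 33), (13, 21, 1), (13, 21, 33), (17, 5, 5), (17, 5, 29), (21, 1, 13), (21, 1, 21)]⟩
def row289 : Row := ⟨289, 296, 76, 5, [(0, 17, 17), (2, 9, 17), (2, 17, 9), (2, 17, 25), (2, 25, 17), (5, 5, 16), (5, 5, 18), (5, 8, 9), (5, 8, 25), (5, 9, 8), (5, 9, 26), (5, 16, 5), (5, 16, 29), (5, 18, 5), (5, 18, 29), (5, 25, 8), (5, 25, 26), (5, 26, 9), (5, 26, 25), (5, 29, 16), (5, 29, 18), (8, 5, 9), (8, 5, 25), (8, 9, 5), (8, 9, 29), (8, 25, 5), (8, 25, 29), (8, 29, 9), (8, 29, 25), (9, 2, 17), (9, 5, 8), (9, 5, 26), (9, 8, 5), (9, 8, 29), (9, 17, 2), (9, 17, 32), (9, 26, 5), (9, 26, 29), (9, 29, 8), (9, 29, 26), (9, 32, 17), (16, 5, 5), (16, 5,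 29), (17, 0, 17), (17, 2, 9), (17, 2, 25), (17, 9, 2), (17, 9, 32), (17, 17, 0), (18, 5, 5), (18, 5, 29)]⟩
def row290 : Row := ⟨290, 359, 108, 14, [(0, 16, 17), (0, 17, 16), (0, 17, 18), (0, 18, 17), (1, 12, 14), (1, 12, 20), (1, 14, 12), (1, 14, 22), (1, 20, 12), (1, 20, 22), (1, 22, 14), (1, 22, 20), (2, 9, 16), (2, 9, 18), (2, 10, 13), (2, 10, 21), (2, 13, 10), (2, 13, 24), (2, 16, 9), (2, 16, 25), (2, 18, 9), (2, 18, 25), (2, 21, 10), (2, 21, 24), (2, 24, 13), (2, 24, 21), (2, 25, 16), (2, 25, 18), (4, 6, 17), (4, 17, 6), (4, 17, 28), (4, 28, 17), (5, 6, 12), (5, 6, 22), (5, 12, 6), (5, 12, 28), (5, 22, 6), (5, 22, 28), (5, 28, 12), (5, 28, 22), (6, 4, 17), (6, 5, 12), (6, 5, 22), (6, 12, 5), (6, 12, 29), (6, 17, 4), (6, 17, 30), (6, 22, 5), (6, 22, 29), (6, 29, 12), (6, 29, 22), (6, 30, 17), (9, 2, 16), (9, 2, 18), (9, 16, 2), (9, 16, 32), (9, 18, 2), (9, 18,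 32), (9, 32, 16), (9, 32, 18), (10, 2, 13), (10, 2, 21), (10, 13, 2), (10, 13, 32), (10, 21, 2), (10, 21, 32), (10, 32, 13), (10, 32, 21), (12, 1, 14), (12, 1, 20), (12, 5, 6), (12, 5, 28), (12, 6, 5), (12, 6, 29), (12, 14, 1), (12, 14, 33), (12, 20, 1), (12, 20, 33), (12, 28, 5), (12, 28, 29), (12, 29, 6), (12, 29, 28), (12, 33, 14), (12, 33, 20), (13, 2, 10), (13, 2, 24), (13, 10, 2), (13, 10, 32), (13, 24, 2), (13, 24, 32), (14, 1, 12), (14, 1, 22), (14, 12, 1), (14, 12, 33), (14, 22, 1), (14, 22, 33), (16, 0, 17), (16, 2, 9), (16, 2, 25), (16, 9, 2), (16, 9, 32), (16, 17, 0), (16, 17, 34), (17, 0, 16), (17, 0, 18), (17, 4, 6), (17, 4, 28), (17, 6, 4), (17, 6, 30), (17, 16, 0), (17, 18, 0), (18, 0, 17), (18, 2, 9), (18, 2, 25), (18, 9, 2), (18, 9, 32), (20, 1, 12), (20, 1, 22), (21, 2, 10), (21, 2, 24)]⟩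
def row291 : Row := ⟨291, 298, 296, 289, [(0, 16, 16), (0, 16, 18), (0, 18, 16), (0, 18, 18), (4, 6, 16), (4, 6, 18), (4, 16, 6), (4, 16, 28), (4, 18, 6), (4, 18, 28), (4, 28, 16), (4, 28, 18), (6, 4, 16), (6, 4, 18), (6, 6, 10), (6, 6, 24), (6, 10, 6), (6, 10, 28), (6, 16, 4), (6, 18, 4), (6, 24, 6), (6, 28, 10), (10, 6, 6), (10, 6, 28), (10, 28, 6), (16, 0, 16), (16, 0, 18), (16, 4, 6), (16, 4, 28), (16, 6, 4), (16, 16, 0), (16, 18, 0), (16, 28, 4), (18, 0, 16), (18, 0, 18), (18, 4, 6), (18, 4, 28), (18, 6, 4), (18, 16, 0), (18, 18, 0), (18, 28, 4), (24, 6, 6), (28, 4, 16), (28, 4, 18), (28, 6, 10), (28, 10, 6), (28, 16, 4), (28, 18, 4)]⟩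
def row292 : Row := ⟨292, 240, 33, 1, [(1, 11, 17), (1, 17, 11), (1, 17, 23), (1, 23, 17), (5, 5, 15), (5, 5, 19), (5, 15, 5), (5, 15, 29), (5, 19, 5), (5, 19, 29), (5, 29, 15), (5, 29, 19), (11, 1, 17), (11, 17, 1), (11, 17, 33), (11, 33, 17), (15, 5, 5), (15, 5, 29), (15, 29, 5), (15, 29, 29), (17, 1, 11), (17, 1, 23), (17, 11, 1), (17, 11, 33)]⟩

theorem ok263 : rowOK 17 7 12 row263 = true := by decide +kernel
theorem ok264 : rowOK 17 7 12 row264 = true := by decide +kernel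
theorem ok265 : rowOK 17 7 12 row265 = true := by decide +kernel
theorem ok266 : rowOK 17 7 12 row266 = true := by decide +kernel
theorem ok267 : rowOK 17 7 12 row267 = true := by decide +kernel
theorem ok268 : rowOK 17 7 12 row268 = true := by decide +kernel
theorem ok269 : rowOK 17 7 12 row269 = true := by decide +kernel
theorem ok270 : rowOK 17 7 12 row270 = true := by decide +kernel
theorem ok271 : rowOK 17 7 12 row271 = true := by decide +kernel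
theorem ok272 : rowOK 17 7 12 row272 = true := by decide +kernel
theorem ok273 : rowOK 17 7 12 row273 = true := by decide +kernel
theorem ok274 : rowOK 17 7 12 row274 = true := by decide +kernel
theorem ok275 : rowOK 17 7 12 row275 = true := by decide +kernel
theorem ok276 : rowOK 17 7 12 row276 = true := by decide +kernel
theorem ok277 : rowOK 17 7 12 row277 = true := by decide +kernel
theorem ok278 : rowOK 17 7 12 row278 = true := by decide +kernel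
theorem ok279 : rowOK 17 7 12 row279 = true := by decide +kernel
theorem ok280 : rowOK 17 7 12 row280 = true := by decide +kernel
theorem ok281 : rowOK 17 7 12 row281 = true := by decide +kernel
theorem ok282 : rowOK 17 7 12 row282 = true := by decide +kernel
theorem ok283 : rowOK 17 7 12 row283 = true := by decide +kernel
theorem ok284 : rowOK 17 7 12 row284 = true := by decide +kernel
theorem ok285 : rowOK 17 7 12 row285 = true := by decide +kernel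
theorem ok286 : rowOK 17 7 12 row286 = true := by decide +kernel
theorem ok287 : rowOK 17 7 12 row287 = true := by decide +kernel
theorem ok288 : rowOK 17 7 12 row288 = true := by decide +kernel
theorem ok289 : rowOK 17 7 12 row289 = true := by decide +kernel
theorem ok290 : rowOK 17 7 12 row290 = true := by decide +kernel
theorem ok291 : rowOK 17 7 12 row291 = true := by decide +kernel
theorem ok292 : rowOK 17 7 12 row292 = true := by decide +kernel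

theorem rows (N : ℕ) (h1 : 263 ≤ N) (h2 : N ≤ 292) :
    ∃ R : Row, R.N = N ∧ rowOK 17 7 12 R = true := by
  interval_cases N
  · exact ⟨row263, rfl, ok263⟩
  · exact ⟨row264, rfl, ok264⟩
  · exact ⟨row265, rfl, ok265⟩
  · exact ⟨row266, rfl, ok266⟩
  · exact ⟨row267, rfl, ok267⟩
  · exact ⟨row268, rfl, ok268⟩
  · exact ⟨row269, rfl, ok269⟩
  · exact ⟨row270, rfl, ok270⟩
  · exact ⟨row271, rfl, ok271⟩
  · exact ⟨row272, rfl, ok272⟩
  · exact ⟨row273, rfl, ok273⟩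
  · exact ⟨row274, rfl, ok274⟩
  · exact ⟨row275, rfl, ok275⟩
  · exact ⟨row276, rfl, ok276⟩
  · exact ⟨row277, rfl, ok277⟩
  · exact ⟨row278, rfl, ok278⟩
  · exact ⟨row279, rfl, ok279⟩
  · exact ⟨row280, rfl, ok280⟩
  · exact ⟨row281, rfl, ok281⟩
  · exact ⟨row282, rfl, ok282⟩
  · exact ⟨row283, rfl, ok283⟩
  · exact ⟨row284, rfl, ok284⟩
  · exact ⟨row285, rfl, ok285⟩
  · exact ⟨row286, rfl, ok286⟩
  · exact ⟨row287, rfl, ok287⟩
  · exact ⟨row288, rfl, ok288⟩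
  · exact ⟨row289, rfl, ok289⟩
  · exact ⟨row290, rfl, ok290⟩
  · exact ⟨row291, rfl, ok291⟩
  · exact ⟨row292, rfl, ok292⟩

end Pool.Agent.Lib.MPe4ee32.IP.D7f
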