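import Pool.Agent.Lib.MP_e4ee32_co.IP.Check

/-! Integer packings (MP_e4ee32_co): rows of the table, checked by the kernel. -/

namespace Pool.Agent.Lib.MPe4ee32.IP.D8a

def row162 : Row := ⟨162, 340, 65, 46, [(0, 9, 9), (0, 9, 15), (0, 15, 9), (0, 15, 15), (1, 7, 8), (1, 7, 16), (1, 8, 7), (1, 8, 17), (1, 16, 7), (1, 16, 17), (1, 17, 8), (1, 17, 16), (3, 3, 12), (3, 12, 3), (3, 12, 21), (3, 21, 12), (4, 5, 5), (4, 5, 19), (4, 19, 5), (4, 19, 19), (5, 4, 5), (5, 4, 19), (5, 5, 4), (5, 5, 20), (5, 19, 4), (5, 19, 20), (5, 20, 5), (5, 20, 19), (7, 1, 8), (7, 1, 16), (7, 8, 1), (7, 8, 23), (7, 16, 1), (7, 16, 23), (7, 23, 8), (7, 23, 16), (8, 1, 7), (8, 1, 17), (8, 7, 1), (8, 7, 23), (8, 17, 1), (8, 17, 23), (8, 23, 7), (8, 23, 17), (9, 0, 9), (9, 0, 15), (9, 9, 0), (9, 9, 24), (9, 15, 0), (9, 15, 24), (9, 24, 9), (9, 24, 15), (12, 3, 3), (12, 3, 21)]⟩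

theorem ok162 : rowOK 12 8 12 row162 = true := by decide +kernel

theorem rows (N : ℕ) (h1 : 162 ≤ N) (h2 : N ≤ 162) :
    ∃ R : Row, R.N = N ∧ rowOK 12 8 12 R = true := by
  interval_cases N
  · exact ⟨row162, rfl, ok162⟩

end Pool.Agent.Lib.MPe4ee32.IP.D8a
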