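import Pool.Agent.Lib.MP_e4ee32_co.IP.Check

/-! Integer packings (MP_e4ee32_co): rows of the table, checked by the kernel. -/

namespace Pool.Agent.Lib.MPe4ee32.IP.D8b

def row242 : Row := ⟨242, 331, 80, 42, [(0, 11, 14), (0, 11, 16), (0, 14, 11), (0, 14, 19), (0, 16, 11), (0, 16, 19), (0, 19, 14), (0, 19, 16), (2, 7, 12), (2, 7, 18), (2, 12, 7), (2, 12, 23), (2, 18, 7), (2, 18, 23), (2, 23, 12), (2, 23, 18), (3, 8, 8), (3, 8, 22), (3, 22, 8), (3, 22, 22), (4, 4, 15), (4, 15, 4), (4, 15, 26), (4, 26, 15), (7, 2, 12), (7, 2, 18), (7, 12, 2), (7, 12, 28), (7, 18, 2), (7, 18, 28), (7, 28, 12), (7, 28, 18), (8, 3, 8), (8, 3, 22), (8, 8, 3), (8, 8, 27), (8, 22, 3), (8, 22, 27), (8, 27, 8), (8, 27, 22), (11, 0, 14), (11, 0, 16), (11, 14, 0), (11, 14, 30), (11, 16, 0), (11, 16, 30), (11, 30, 14), (11, 30, 16), (12, 2, 7), (12, 2, 23), (12, 7, 2), (12, 7, 28), (12, 23, 2), (12,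 28, 7), (14, 0, 11), (14, 0, 19), (14, 11, 0), (14, 11, 30), (14, 19, 0), (15, 4, 4), (15, 4, 26), (16, 0, 11), (16, 0, 19), (16, 11, 0), (18, 2, 7), (18, 7, 2)]⟩

theorem ok242 : rowOK 15 8 12 row242 = true := by decide +kernel

theorem rows (N : ℕ) (h1 : 242 ≤ N) (h2 : N ≤ 242) :
    ∃ R : Row, R.N = N ∧ rowOK 15 8 12 R = true := by
  interval_cases N
  · exact ⟨row242, rfl, ok242⟩

end Pool.Agent.Lib.MPe4ee32.IP.D8b
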