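import Pool.Agent.Lib.MP_e4ee32_co.IP.Check

/-! Integer packings (MP_e4ee32_co): rows of the table, checked by the kernel. -/

namespace Pool.Agent.Lib.MPe4ee32.IP.D8c

def row293 : Row := ⟨293, 394, 153, 81, [(3, 18, 20), (3, 20, 18), (3, 20, 22), (3, 22, 20), (4, 14, 19), (4, 14, 21), (4, 19, 14), (4, 19, 26), (4, 21, 14), (4, 21, 26), (4, 26, 19), (4, 26, 21), (5, 12, 18), (5, 12, 22), (5, 18, 12), (5, 18, 28), (5, 22, 12), (5, 22, 28), (5, 28, 18), (5, 28, 22), (6, 11, 16), (6, 11, 24), (6, 16, 11), (6, 16, 29), (6, 24, 11), (6, 24, 29), (6, 29, 16), (6, 29, 24), (8, 10, 13), (8, 10, 27), (8, 13, 10), (8, 13, 30), (8, 27, 10), (8, 27, 30), (8, 30, 13), (8, 30, 27), (10, 8, 13), (10, 8, 27), (10, 13, 8), (10, 13, 32), (10, 27, 8), (10, 27, 32), (10, 32, 13), (10, 32, 27), (11, 6, 16), (11, 6, 24), (11, 16, 6), (11, 16, 34), (11, 24, 6), (11, 24, 34), (11, 34, 16), (11, 34,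 24), (12, 5, 18), (12, 5, 22), (12, 18, 5), (12, 18, 35), (12, 22, 5), (12, 22, 35), (12, 35, 18), (12, 35, 22), (13, 8, 10), (13, 8, 30), (13, 10, 8), (13, 10, 32), (13, 30, 8), (13, 30, 32), (13, 32, 10), (13, 32, 30), (14, 4, 19), (14, 4, 21), (14, 19, 4), (14, 19, 36), (14, 21, 4), (14, 21, 36), (16, 6, 11), (16, 6, 29), (16, 11, 6), (16, 11, 34), (16, 29, 6), (16, 34, 11), (18, 3, 20), (18, 5, 12), (18, 5, 28), (18, 12, 5), (18, 12, 35), (18, 20, 3), (18, 28, 5), (19, 4, 14), (19, 4, 26), (19, 14, 4), (19, 14, 36), (19, 26, 4), (20, 3, 18), (20, 3, 22), (20, 18, 3), (20, 22, 3), (21, 4, 14), (21, 4, 26), (21, 14, 4), (22, 3, 20), (22, 5, 12), (22, 5, 28), (22, 12, 5), (22, 20, 3), (24, 6, 11), (24, 11, 6), (26, 4, 19), (26, 4, 21)]⟩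
def row294 : Row := ⟨294, 328, 173, 6, [(3, 18, 19), (3, 18, 21), (3, 19, 18), (3, 19, 22), (3, 21, 18), (3, 21, 22), (3, 22, 19), (3, 22, 21), (6, 13, 13), (6, 13, 27), (6, 27, 13), (6, 27, 27), (7, 9, 18), (7, 9, 22), (7, 10, 15), (7, 10, 25), (7, 15, 10), (7, 15, 30), (7, 18, 9), (7, 18, 31), (7, 22, 9), (7, 22, 31), (7, 25, 10), (7, 25, 30), (7, 30, 15), (7, 30, 25), (7, 31, 18), (7, 31, 22), (9, 7, 18), (9, 7, 22), (9, 18, 7), (9, 18, 33), (9, 22, 7), (9, 22, 33), (9, 33, 18), (9, 33, 22), (10, 7, 15), (10, 7, 25), (10, 15, 7), (10, 15, 33), (10, 25, 7), (10, 25, 33), (10, 33, 15), (10, 33, 25), (13, 6, 13), (13, 6, 27), (13, 13, 6), (13, 13, 34), (13, 27, 6), (13, 27, 34), (15, 7, 10), (15, 7, 30), (15, 10, 7), (15, 10, 33), (18, 3, 19), (18, 3, 21), (18, 7, 9), (18, 7, 31), (18, 9, 7), (18, 9, 33), (18, 19, 3), (18, 19, 37), (18, 21, 3), (18, 21, 37), (19, 3, 18), (19,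 3, 22), (19, 18, 3), (19, 18, 37), (19, 22, 3), (21, 3, 18), (21, 3, 22), (21, 18, 3), (22, 3, 19), (22, 3, 21), (22, 7, 9), (22, 7, 31), (22, 9, 7), (22, 9, 33), (25, 7, 10), (25, 7, 30), (25, 10, 7), (25, 10, 33), (27, 6, 13), (27, 6, 27)]⟩
def row295 : Row := ⟨295, 100, 10, 1, []⟩
def row296 : Row := ⟨296, 392, 101, 72, [(4, 14, 18), (4, 14, 22), (4, 18, 14), (4, 18, 26), (4, 22, 14), (4, 22, 26), (4, 26, 18), (4, 26, 22), (6, 10, 20), (6, 12, 14), (6, 12, 26), (6, 14, 12), (6, 14, 28), (6, 20, 10), (6, 20, 30), (6, 26, 12), (6, 26, 28), (6, 28, 14), (6, 28, 26), (6, 30, 20), (10, 6, 20), (10, 20, 6), (10, 20, 34), (10, 34, 20), (12, 6, 14), (12, 6, 26), (12, 14, 6), (12, 14, 34), (12, 26, 6), (12, 26, 34), (12, 34, 14), (12, 34, 26), (14, 4, 18), (14, 4, 22), (14, 6, 12), (14, 6, 28), (14, 12, 6), (14, 12, 34), (14, 18, 4), (14, 18, 36), (14, 22, 4), (14, 22, 36), (14, 28,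 6), (14, 28, 34), (14, 34, 12), (14, 34, 28), (14, 36, 18), (14, 36, 22), (18, 4, 14), (18, 4, 26), (18, 14, 4), (18, 14, 36), (18, 26, 4), (20, 6, 10), (20, 6, 30), (20, 10, 6), (20, 10, 34), (22, 4, 14), (22, 4, 26), (22, 14, 4)]⟩
def row297 : Row := ⟨297, 363, 288, 286, [(3, 18, 18), (3, 18, 22), (3, 22, 18), (3, 22, 22), (4, 15, 16), (4, 15, 24), (4, 16, 15), (4, 16, 25), (4, 24, 15), (4, 24, 25), (4, 25, 16), (4, 25, 24), (5, 14, 14), (5, 14, 26), (5, 26, 14), (5, 26, 26), (6, 10, 19), (6, 10, 21), (6, 19, 10), (6, 19, 30), (6, 21, 10), (6, 21, 30), (6, 30, 19), (6, 30, 21), (7, 12, 12), (7, 12, 28), (7, 28, 12), (7, 28, 28), (8, 8, 17), (8, 8, 23), (8, 17, 8), (8, 17, 32), (8, 23, 8), (8, 23, 32), (8, 32, 17), (8, 32, 23), (10, 6, 19), (10, 6, 21), (10, 19, 6), (10, 21, 6), (12, 7, 12), (12, 7, 28), (12, 12, 7), (12, 12, 33), (12, 28, 7), (12, 33, 12), (14, 5, 14), (14,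 5, 26), (14, 14, 5), (14, 26, 5), (15, 4, 16), (15, 4, 24), (15, 16, 4), (15, 24, 4), (16, 4, 15), (16, 4, 25), (16, 15, 4), (16, 25, 4), (17, 8, 8), (17, 8, 32), (17, 32, 8), (18, 3, 18), (18, 3, 22), (18, 18, 3), (18, 22, 3), (19, 6, 10), (19, 6, 30), (19, 10, 6), (19, 30, 6), (21, 6, 10), (21, 6, 30), (21, 10, 6), (21, 30, 6), (22, 3, 18), (22, 3, 22), (22, 18, 3), (22, 22, 3), (23, 8, 8), (24, 4, 15), (24, 4, 25), (24, 15, 4), (24, 25, 4), (25, 4, 16), (25, 4, 24), (25, 16, 4), (25, 24, 4), (26, 5, 14), (26, 5, 26), (26, 14, 5), (26, 26, 5), (28, 7, 12), (28, 12, 7), (30, 6, 19), (30, 6, 21), (30, 19, 6), (30, 21, 6)]⟩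
def row298 : Row := ⟨298, 188, 84, 8, [(3, 17, 20), (3, 20, 17), (3, 20, 23), (3, 23, 20), (5, 12, 17), (5, 12, 23), (5, 17, 12), (5, 17, 28), (5, 23, 12), (5, 23, 28), (5, 28, 17), (5, 28, 23), (12, 5, 17), (12, 5, 23), (12, 17, 5), (12, 17, 35), (12, 23, 5), (12, 23, 35), (12, 35, 17), (12, 35, 23), (17, 3, 20), (17, 5, 12), (17, 5, 28), (17, 12, 5), (17, 12, 35), (17, 20, 3), (17, 20, 37), (17, 28, 5), (20, 3, 17), (20, 3, 23), (20, 17, 3), (20, 17, 37), (23, 3, 20), (23, 5, 12), (23, 5, 28), (23, 12, 5)]⟩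
def row299 : Row := ⟨299, 265, 13, 1, [(3, 17, 19), (3, 17, 21), (3, 19, 17), (3, 19, 23), (3, 21, 17), (3, 21, 23), (3, 23, 19), (3, 23, 21), (5, 13, 15), (5, 13, 25), (5, 15, 13), (5, 15, 27), (5, 25, 13), (5, 25, 27), (5, 27, 15), (5, 27, 25), (7, 9, 17), (7, 9, 23), (7, 11, 13), (7, 11, 27), (7, 13, 11), (7, 13, 29), (7, 17, 9), (7, 17, 31), (7, 23, 9), (7, 23, 31), (7, 27, 11), (7, 27, 29), (7, 29, 13), (7, 29, 27), (7, 31, 17), (7, 31, 23), (9, 7, 17), (9, 7, 23), (9, 17, 7), (9, 17, 33), (9, 23, 7), (9, 23, 33), (9, 33, 17), (9, 33, 23), (11, 7, 13), (11, 7, 27), (11, 13, 7), (11, 13, 33), (11, 27, 7), (11, 27, 33), (11, 33, 13), (11, 33, 27), (13, 5, 15), (13, 5, 25), (13, 7, 11), (13, 7, 29), (13, 11, 7), (13, 11, 33), (13, 15, 5), (13, 15, 35), (13, 25, 5), (13, 25, 35), (13, 29, 7), (13, 29, 33), (13, 33, 11), (13, 33, 29), (13, 35, 15), (13, 35, 25), (15, 5, 13),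 (15, 5, 27), (15, 13, 5), (15, 13, 35), (15, 27, 5), (15, 27, 35), (15, 35, 13), (15, 35, 27), (17, 3, 19), (17, 3, 21), (17, 7, 9), (17, 7, 31), (17, 9, 7), (17, 9, 33), (17, 19, 3), (17, 19, 37), (17, 21, 3), (17, 21, 37), (17, 31, 7), (17, 31, 33), (17, 33, 9), (17, 33, 31), (17, 37, 19), (17, 37, 21), (19, 3, 17), (19, 3, 23), (19, 17, 3), (19, 17, 37), (19, 23, 3), (19, 23, 37), (19, 37, 17), (19, 37, 23)]⟩
def row300 : Row := ⟨300, 293, 142, 115, [(6, 10, 18), (6, 10, 22), (6, 18, 10), (6, 18, 30), (6, 22, 10), (6, 22, 30), (6, 30, 18), (6, 30, 22), (10, 6, 18), (10, 6, 22), (10, 10, 10), (10, 10, 30), (10, 18, 6), (10, 18, 34), (10, 22, 6), (10, 22, 34), (10, 30, 10), (10, 30, 30), (10, 34, 18), (10, 34, 22), (18, 6, 10), (18, 6, 30), (18, 10, 6), (18, 10, 34), (18, 30, 6), (22, 6, 10), (22, 6, 30), (22, 10, 6)]⟩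
def row301 : Row := ⟨301, 398, 294, 5, [(4, 14, 17), (4, 14, 23), (4, 17, 14), (4, 17, 26), (4, 23, 14), (4, 23, 26), (4, 26, 17), (4, 26, 23), (8, 9, 14), (8, 9, 26), (8, 14, 9), (8, 14, 31), (8, 26, 9), (8, 26, 31), (8, 31, 14), (8, 31, 26), (9, 8, 14), (9, 8, 26), (9, 14, 8), (9, 14, 32), (9, 26, 8), (9, 26, 32), (9, 32, 14), (9, 32, 26), (14, 4, 17), (14, 4, 23), (14, 8, 9), (14, 8, 31), (14, 9, 8), (14, 9, 32), (14, 17, 4), (14, 17, 36), (14, 23, 4), (14, 23, 36), (17, 4, 14), (17, 4, 26), (17, 14, 4), (17, 14, 36), (23, 4, 14), (23, 4, 26), (23, 14, 4), (23, 14, 36), (26, 4, 17), (26, 4, 23), (26, 8, 9), (26, 8, 31), (26, 9, 8), (26, 9, 32)]⟩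
def row302 : Row := ⟨302, 377, 204, 114, [(3, 17, 18), (3, 17, 22), (3, 18, 17), (3, 18, 23), (3, 22, 17), (3, 22, 23), (3, 23, 18), (3, 23, 22), (6, 11, 15), (6, 11, 25), (6, 15, 11), (6, 15, 29), (6, 25, 11), (6, 25, 29), (6, 29, 15), (6, 29, 25), (9, 10, 11), (9, 10, 29), (9, 11, 10), (9, 11, 30), (9, 29, 10), (9, 29, 30), (9, 30, 11), (9, 30, 29), (10, 9, 11), (10, 9, 29), (10, 11, 9), (10, 11, 31), (10, 29, 9), (10, 29, 31), (10, 31, 11), (10, 31, 29), (11, 6, 15), (11, 6, 25), (11, 9, 10), (11, 9, 30), (11, 10, 9), (11, 10, 31), (11, 15, 6), (11, 15, 34), (11, 25, 6), (11, 25, 34), (11, 30, 9), (11, 30, 31), (11, 31, 10), (11, 31, 30), (11, 34, 15), (15, 6, 11), (15, 6, 29), (15, 11, 6), (15, 11, 34), (15, 29, 6), (15, 34, 11), (17, 3, 18), (17, 3, 22), (17, 18, 3), (17, 22, 3), (18, 3, 17), (18, 3, 23), (18, 17, 3), (18, 23, 3), (22, 3, 17), (22, 3, 23), (22, 17, 3),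 (22, 23, 3), (23, 3, 18), (23, 3, 22), (23, 18, 3), (23, 22, 3), (25, 6, 11), (25, 11, 6), (29, 6, 15)]⟩
def row303 : Row := ⟨303, 100, 10, 1, []⟩
def row304 : Row := ⟨304, 231, 208, 70, [(8, 8, 16), (8, 8, 24), (8, 16, 8), (8, 16, 32), (8, 24, 8), (8, 24, 32), (8, 32, 16), (16, 8, 8), (16, 8, 32), (24, 8, 8), (24, 8, 32), (32, 8, 16)]⟩
def row305 : Row := ⟨305, 366, 40, 19, [(3, 16, 20), (3, 20, 16), (3, 20, 24), (3, 24, 20), (4, 13, 20), (4, 20, 13), (4, 20, 27), (4, 27, 20), (5, 12, 16), (5, 12, 24), (5, 16, 12), (5, 16, 28), (5, 24, 12), (5, 24, 28), (5, 28, 16), (5, 28, 24), (6, 10, 17), (6, 10, 23), (6, 17, 10), (6, 17, 30), (6, 23, 10), (6, 23, 30), (6, 30, 17), (6, 30, 23), (7, 10, 14), (7, 10, 26), (7, 14, 10), (7, 14, 30), (7, 26, 10), (7, 26, 30), (7, 30, 14), (7, 30, 26), (10, 6, 17), (10, 6, 23), (10, 7, 14), (10, 7, 26), (10, 14, 7), (10, 14, 33), (10, 17, 6),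 (10, 17, 34), (10, 23, 6), (10, 23, 34), (10, 26, 7), (10, 26, 33), (10, 33, 14), (10, 33, 26), (10, 34, 17), (10, 34, 23), (12, 5, 16), (12, 5, 24), (12, 16, 5), (12, 16, 35), (12, 24, 5), (12, 24, 35), (12, 35, 16), (12, 35, 24), (13, 4, 20), (13, 20, 4), (13, 20, 36), (13, 36, 20), (14, 7, 10), (14, 7, 30), (14, 10, 7), (14, 10, 33), (14, 30, 7), (14, 30, 33), (14, 33, 10), (14, 33, 30), (16, 3, 20), (16, 5, 12), (16, 5, 28), (16, 12, 5), (16, 12, 35), (16, 20, 3), (16, 20, 37), (16, 28, 5), (16, 28, 35), (16, 35, 12), (16, 35, 28), (16, 37, 20), (17, 6, 10), (17, 6, 30), (17, 10, 6), (17, 10, 34), (17, 30, 6), (17, 30, 34), (17, 34, 10), (17, 34, 30), (20, 3, 16), (20, 3, 24), (20, 4, 13), (20, 4, 27), (20, 13, 4), (20, 16, 3), (20, 24, 3), (20, 27, 4)]⟩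
def row306 : Row := ⟨306, 309, 146, 65, [(3, 16, 19), (3, 16, 21), (3, 19, 16), (3, 19, 24), (3, 21, 16), (3, 21, 24), (3, 24, 19), (3, 24, 21), (4, 13, 19), (4, 13, 21), (4, 15, 15), (4, 15, 25), (4, 19, 13), (4, 19, 27), (4, 21, 13), (4, 21, 27), (4, 25, 15), (4, 25, 25), (4, 27, 19), (4, 27, 21), (5, 11, 20), (5, 20, 11), (5, 20, 29), (5, 29, 20), (7, 9, 16), (7, 9, 24), (7, 16, 9), (7, 16, 31), (7, 24, 9), (7, 24, 31), (7, 31, 16), (7, 31, 24), (8, 11, 11), (8, 11, 29), (8, 29, 11), (8, 29, 29), (9, 7, 16), (9, 7, 24), (9, 9, 12), (9, 9, 28), (9, 12, 9), (9, 12, 31), (9, 16, 7), (9, 16, 33), (9, 24, 7), (9, 24, 33), (9, 28, 9), (9, 28, 31), (9, 31, 12), (9, 31, 28), (9, 33, 16), (9, 33, 24), (11, 5, 20), (11, 8, 11), (11, 8, 29), (11, 11, 8), (11, 11, 32), (11, 20, 5), (11, 20, 35), (11, 29, 8), (11, 29, 32), (11, 32, 11), (11, 32, 29), (11, 35, 20), (12, 9, 9), (12, 9,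 31), (12, 31, 9), (12, 31, 31), (13, 4, 19), (13, 4, 21), (13, 19, 4), (13, 19, 36), (13, 21, 4), (13, 21, 36), (15, 4, 15), (15, 4, 25), (15, 15, 4), (15, 15, 36), (15, 25, 4), (16, 3, 19), (16, 3, 21), (16, 7, 9), (16, 7, 31), (16, 9, 7), (16, 9, 33), (16, 19, 3), (16, 19, 37), (16, 21, 3), (16, 31, 7), (16, 33, 9), (19, 3, 16), (19, 3, 24), (19, 4, 13), (19, 4, 27), (19, 13, 4), (19, 13, 36), (19, 16, 3), (19, 24, 3), (19, 27, 4), (20, 5, 11), (20, 5, 29), (20, 11, 5), (20, 11, 35), (21, 3, 16), (21, 3, 24), (21, 4, 13), (21, 4, 27), (21, 13, 4), (21, 16, 3), (21, 24, 3), (24, 3, 19), (24, 3, 21), (24, 7, 9), (24, 9, 7), (24, 19, 3), (25, 4, 15), (25, 4, 25), (25, 15, 4), (27, 4, 19), (27, 4, 21)]⟩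
def row307 : Row := ⟨307, 376, 335, 295, [(3, 17, 17), (3, 17, 23), (3, 23, 17), (3, 23, 23), (5, 11, 19), (5, 11, 21), (5, 19, 11), (5, 19, 29), (5, 21, 11), (5, 21, 29), (5, 29, 19), (5, 29, 21), (11, 5, 19), (11, 5, 21), (11, 19, 5), (11, 21, 5), (17, 3, 17), (17, 3, 23), (17, 17, 3), (17, 23, 3), (19, 5, 11), (19, 5, 29), (19, 11, 5), (19, 29, 5), (21, 5, 11), (21, 5, 29), (21, 11, 5), (21, 29, 5), (23, 3, 17), (23, 3, 23), (23, 17, 3), (23, 23, 3), (29, 5, 19), (29, 5, 21), (29, 19, 5), (29, 21, 5)]⟩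
def row308 : Row := ⟨308, 357, 49, 47, [(4, 14, 16), (4, 14, 24), (4, 16, 14), (4, 16, 26), (4, 24, 14), (4, 24, 26), (4, 26, 16), (4, 26, 24), (8, 10, 12), (8, 10, 28), (8, 12, 10), (8, 12, 30), (8, 28, 10), (8, 28, 30), (8, 30, 12), (8, 30, 28), (10, 8, 12), (10, 8, 28), (10, 12, 8), (10, 12, 32), (10, 28, 8), (10, 28, 32), (10, 32, 12), (10, 32, 28), (12, 8, 10), (12, 8, 30), (12, 10, 8), (12, 10, 32), (12, 30, 8), (12, 30, 32), (12, 32, 10), (12, 32, 30), (14, 4, 16), (14, 4, 24), (14, 16, 4), (14, 16, 36), (14, 24, 4), (14, 24, 36), (14, 36, 16), (14, 36, 24), (16, 4, 14), (16, 4, 26), (16, 14, 4), (16, 14, 36), (16, 26, 4), (16, 26, 36), (16, 36, 14), (16, 36, 26)]⟩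
def row309 : Row := ⟨309, 182, 20, 4, [(3, 16, 18), (3, 16, 22), (3, 18, 16), (3, 18, 24), (3, 22, 16), (3, 22, 24), (3, 24, 18), (3, 24, 22), (4, 13, 18), (4, 13, 22), (4, 18, 13), (4, 18, 27), (4, 22, 13), (4, 22, 27), (4, 27, 18), (4, 27, 22), (6, 12, 13), (6, 12, 27), (6, 13, 12), (6, 13, 28), (6, 27, 12), (6, 27, 28), (6, 28, 13), (6, 28, 27), (12, 6, 13), (12, 6, 27), (12, 13, 6), (12, 13, 34), (12, 27, 6), (12, 27, 34), (12, 34, 13), (12, 34, 27), (13, 4, 18), (13, 4, 22), (13, 6, 12), (13, 6, 28), (13, 12, 6), (13, 12, 34), (13, 18, 4), (13, 18, 36), (13, 22, 4), (13, 22, 36), (13, 28, 6), (13, 28, 34), (13, 34, 12), (13, 34, 28), (13, 36, 18), (13, 36, 22), (16, 3, 18), (16, 3, 22), (16, 18, 3), (16, 18, 37), (16, 22, 3), (16, 22, 37), (16, 37, 18), (16, 37, 22), (18, 3, 16), (18, 3, 24), (18, 4, 13), (18, 4, 27), (18, 13, 4), (18, 13, 36), (18, 16, 3), (18, 16, 37),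 (18, 24, 3), (18, 24, 37), (18, 27, 4), (18, 27, 36), (18, 36, 13), (18, 36, 27), (18, 37, 16), (18, 37, 24)]⟩
def row310 : Row := ⟨310, 254, 227, 164, [(5, 11, 18), (5, 11, 22), (5, 13, 14), (5, 13, 26), (5, 14, 13), (5, 14, 27), (5, 18, 11), (5, 18, 29), (5, 22, 11), (5, 22, 29), (5, 26, 13), (5, 26, 27), (5, 27, 14), (5, 27, 26), (5, 29, 18), (5, 29, 22), (11, 5, 18), (11, 5, 22), (11, 18, 5), (11, 18, 35), (11, 22, 5), (13, 5, 14), (13, 5, 26), (13, 14, 5), (13, 14, 35), (13, 26, 5), (14, 5, 13), (14, 5, 27), (14, 13, 5), (14, 13, 35), (14, 27, 5), (18, 5, 11), (18, 5, 29), (18, 11, 5), (18, 11, 35), (18, 29, 5), (22, 5, 11), (22, 5, 29), (22, 11, 5), (26, 5, 13), (26, 5, 27), (26, 13, 5), (27, 5, 14), (27, 5, 26), (27, 14, 5), (29, 5, 18), (29, 5, 22), (29, 18, 5)]⟩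
def row311 : Row := ⟨311, 100, 10, 1, []⟩
def row312 : Row := ⟨312, 217, 167, 56, [(6, 10, 16), (6, 10, 24), (6, 16, 10), (6, 16, 30), (6, 24, 10), (6, 24, 30), (6, 30, 16), (6, 30, 24), (10, 6, 16), (10, 6, 24), (10, 16, 6), (10, 16, 34), (10, 24, 6), (10, 24, 34), (10, 34, 16), (16, 6, 10), (16, 6, 30), (16, 10, 6), (16, 10, 34), (24, 6, 10), (24, 6, 30), (24, 10, 6), (24, 10, 34), (30, 6, 16)]⟩
def row313 : Row := ⟨313, 193, 140, 119, [(6, 11, 14), (6, 11, 26), (6, 14, 11), (6, 14, 29), (6, 26, 11), (6, 26, 29), (6, 29, 14), (6, 29, 26), (7, 8, 20), (7, 20, 8), (7, 20, 32), (7, 32, 20), (8, 7, 20), (8, 8, 15), (8, 8, 25), (8, 15, 8), (8, 15, 32), (8, 20, 7), (8, 20, 33), (8, 25, 8), (8, 25, 32), (8, 32, 15), (8, 32, 25), (8, 33, 20), (11, 6, 14), (11, 6, 26), (11, 14, 6), (11, 14, 34), (11, 26, 6), (11, 34, 14), (14, 6, 11), (14, 6, 29), (14, 11, 6), (14, 11, 34), (14, 29,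 6), (14, 34, 11), (15, 8, 8), (15, 8, 32), (15, 32, 8), (20, 7, 8), (20, 7, 32), (20, 8, 7), (20, 8, 33), (25, 8, 8), (26, 6, 11), (26, 11, 6), (29, 6, 14), (29, 14, 6)]⟩
def row314 : Row := ⟨314, 321, 19, 2, [(3, 15, 20), (3, 16, 17), (3, 16, 23), (3, 17, 16), (3, 17, 24), (3, 20, 15), (3, 20, 25), (3, 23, 16), (3, 23, 24), (3, 24, 17), (3, 24, 23), (3, 25, 20), (4, 13, 17), (4, 13, 23), (4, 17, 13), (4, 17, 27), (4, 23, 13), (4, 23, 27), (4, 27, 17), (4, 27, 23), (5, 12, 15), (5, 12, 25), (5, 15, 12), (5, 15, 28), (5, 25, 12), (5, 25, 28), (5, 28, 15), (5, 28, 25), (7, 8, 19), (7, 8, 21), (7, 11, 12), (7, 11, 28), (7, 12, 11), (7, 12, 29), (7, 19, 8), (7, 19, 32), (7, 21, 8), (7, 21, 32), (7, 28, 11), (7, 28, 29), (7, 29, 12), (7, 29, 28), (7, 32, 19), (7, 32, 21), (8, 7, 19), (8, 7, 21), (8, 9, 13), (8, 9, 27), (8, 13, 9), (8, 13, 31), (8, 19, 7), (8, 19, 33), (8, 21, 7),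 (8, 21, 33), (8, 27, 9), (8, 27, 31), (8, 31, 13), (8, 31, 27), (8, 33, 19), (8, 33, 21), (9, 8, 13), (9, 8, 27), (9, 13, 8), (9, 13, 32), (9, 27, 8), (9, 27, 32), (9, 32, 13), (9, 32, 27), (11, 7, 12), (11, 7, 28), (11, 12, 7), (11, 12, 33), (11, 28, 7), (11, 28, 33), (11, 33, 12), (11, 33, 28), (12, 5, 15), (12, 5, 25), (12, 7, 11), (12, 7, 29), (12, 11, 7), (12, 11, 33), (12, 15, 5), (12, 15, 35), (12, 25, 5), (12, 25, 35), (12, 29, 7), (12, 29, 33), (12, 33, 11), (12, 33, 29), (12, 35, 15), (12, 35, 25), (13, 4, 17), (13, 4, 23), (13, 8, 9), (13, 8, 31), (13, 9, 8), (13, 9, 32), (13, 17, 4), (13, 17, 36), (13, 23, 4), (13, 23, 36), (13, 31, 8), (13, 31, 32), (13, 32, 9), (13, 32, 31), (13, 36, 17), (13, 36, 23), (15, 3, 20), (15, 5, 12), (15, 5, 28), (15, 12, 5), (15, 12, 35), (15, 20, 3), (15, 20, 37), (15, 28, 5), (15, 28, 35), (15, 35, 12), (15, 35, 28), (15, 37, 20),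 (16, 3, 17), (16, 3, 23), (16, 17, 3), (16, 17, 37), (16, 23, 3), (16, 23, 37), (16, 37, 17), (16, 37, 23), (17, 3, 16), (17, 3, 24), (17, 4, 13), (17, 4, 27), (17, 13, 4), (17, 13, 36), (17, 16, 3), (17, 16, 37), (17, 24, 3), (17, 24, 37), (17, 27, 4), (17, 27, 36), (17, 36, 13), (17, 36, 27), (17, 37, 16), (17, 37, 24), (19, 7, 8), (19, 7, 32), (19, 8, 7), (19, 8, 33), (19, 32, 7), (19, 32, 33), (19, 33, 8), (19, 33, 32), (20, 3, 15), (20, 3, 25), (20, 15, 3), (20, 15, 37)]⟩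
def row315 : Row := ⟨315, 279, 172, 156, [(3, 15, 19), (3, 15, 21), (3, 19, 15), (3, 19, 25), (3, 21, 15), (3, 21, 25), (3, 25, 19), (3, 25, 21), (5, 11, 17), (5, 11, 23), (5, 17, 11), (5, 17, 29), (5, 23, 11), (5, 23, 29), (5, 29, 17), (5, 29, 23), (7, 9, 15), (7, 9, 25), (7, 15, 9), (7, 15, 31), (7, 25, 9), (7, 25, 31), (7, 31, 15), (7, 31, 25), (9, 7, 15), (9, 7, 25), (9, 15, 7), (9, 15, 33), (9, 25, 7), (9, 25, 33), (9, 33, 15), (9, 33, 25), (11, 5, 17), (11, 5, 23), (11, 17, 5), (11, 17, 35), (11, 23, 5), (11, 35, 17), (15, 3, 19), (15, 3, 21), (15, 7, 9), (15, 7, 31), (15, 9, 7), (15, 9, 33), (15, 19, 3), (15, 21, 3), (15, 31, 7), (15, 33, 9), (17, 5, 11), (17, 5, 29), (17, 11, 5), (17, 11, 35), (17, 29, 5), (19, 3, 15), (19, 3, 25), (19, 15, 3), (19, 25, 3), (21, 3, 15), (21, 3, 25), (21, 15, 3), (21, 25, 3), (23, 5, 11), (23, 5, 29), (23, 11, 5), (25, 3, 19), (25, 3,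 21), (25, 7, 9), (25, 9, 7), (25, 19, 3), (25, 21, 3), (29, 5, 17), (29, 17, 5)]⟩
def row316 : Row := ⟨316, 100, 10, 1, []⟩
def row317 : Row := ⟨317, 235, 46, 40, [(4, 14, 15), (4, 14, 25), (4, 15, 14), (4, 15, 26), (4, 25, 14), (4, 25, 26), (4, 26, 15), (4, 26, 25), (6, 9, 20), (6, 20, 9), (6, 20, 31), (6, 31, 20), (7, 8, 18), (7, 8, 22), (7, 18, 8), (7, 18, 32), (7, 22, 8), (7, 22, 32), (7, 32, 18), (7, 32, 22), (8, 7, 18), (8, 7, 22), (8, 18, 7), (8, 18, 33), (8, 22, 7), (8, 22, 33), (8, 33, 18), (8, 33, 22), (9, 6, 20), (9, 20, 6), (9, 20, 34), (9, 34, 20), (14, 4, 15), (14, 4, 25), (14, 15, 4), (14, 15, 36), (14, 25, 4), (14, 25, 36), (14, 36, 15), (14, 36, 25), (15, 4, 14), (15, 4, 26), (15, 14, 4), (15, 14, 36), (15, 26, 4), (15, 26, 36), (15, 36, 14), (15, 36, 26), (18, 7, 8), (18, 7, 32), (18, 8, 7), (18, 8, 33), (18, 32, 7), (18, 33, 8), (20, 6, 9), (20, 6, 31), (20,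 9, 6), (20, 31, 6), (22, 7, 8), (22, 8, 7)]⟩
def row318 : Row := ⟨318, 263, 216, 53, [(3, 15, 18), (3, 15, 22), (3, 18, 15), (3, 18, 25), (3, 22, 15), (3, 22, 25), (3, 25, 18), (3, 25, 22), (6, 9, 19), (6, 9, 21), (6, 19, 9), (6, 19, 31), (6, 21, 9), (6, 21, 31), (6, 31, 19), (6, 31, 21), (7, 10, 13), (7, 10, 27), (7, 13, 10), (7, 13, 30), (7, 27, 10), (7, 27, 30), (7, 30, 13), (7, 30, 27), (9, 6, 19), (9, 6, 21), (9, 19, 6), (9, 19, 34), (9, 21, 6), (9, 21, 34), (10, 7, 13), (10, 7, 27), (10, 13, 7), (10, 13, 33), (10, 27, 7), (10, 27, 33), (10, 33, 13), (13, 7, 10), (13, 7, 30), (13, 10, 7), (13, 10, 33), (13, 30, 7), (15, 3, 18), (15, 3, 22), (15, 18, 3), (15, 18, 37), (15, 22, 3), (18, 3, 15), (18, 3, 25), (18, 15, 3), (18, 15, 37), (18, 25, 3), (19, 6, 9), (19, 6, 31), (19, 9, 6), (19, 9, 34), (21, 6, 9), (21, 6, 31), (21, 9, 6), (21, 9, 34), (22, 3, 15), (22, 3, 25), (22,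 15, 3), (25, 3, 18), (25, 3, 22), (25, 18, 3), (27, 7, 10), (27, 7, 30), (27, 10, 7), (30, 7, 13), (31, 6, 19), (31, 6, 21)]⟩
def row319 : Row := ⟨319, 100, 10, 1, []⟩
def row320 : Row := ⟨320, 235, 167, 124, [(4, 12, 20), (4, 20, 12), (4, 20, 28), (4, 28, 20), (12, 4, 20), (12, 20, 4), (20, 4, 12), (20, 4, 28), (20, 12, 4), (20, 28, 4), (28, 4, 20), (28, 20, 4)]⟩
def row321 : Row := ⟨321, 321, 28, 16, [(3, 16, 16), (3, 16, 24), (3, 24, 16), (3, 24, 24), (4, 12, 19), (4, 12, 21), (4, 13, 16), (4, 13, 24), (4, 16, 13), (4, 16, 27), (4, 19, 12), (4, 19, 28), (4, 21, 12), (4, 21, 28), (4, 24, 13), (4, 24, 27), (4, 27, 16), (4, 27, 24), (4, 28, 19), (4, 28, 21), (6, 9, 18), (6, 9, 22), (6, 10, 15), (6, 10, 25), (6, 15, 10), (6, 15, 30), (6, 18, 9), (6, 18, 31), (6, 22, 9), (6, 22, 31), (6, 25, 10), (6, 25, 30), (6, 30, 15), (6, 30, 25), (6, 31, 18), (6, 31, 22), (9, 6, 18), (9,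 6, 22), (9, 10, 10), (9, 10, 30), (9, 18, 6), (9, 18, 34), (9, 22, 6), (9, 22, 34), (9, 30, 10), (9, 30, 30), (9, 34, 18), (9, 34, 22), (10, 6, 15), (10, 6, 25), (10, 9, 10), (10, 9, 30), (10, 10, 9), (10, 10, 31), (10, 15, 6), (10, 15, 34), (10, 25, 6), (10, 25, 34), (10, 30, 9), (10, 30, 31), (10, 31, 10), (10, 31, 30), (10, 34, 15), (10, 34, 25), (12, 4, 19), (12, 4, 21), (12, 19, 4), (12, 19, 36), (12, 21, 4), (12, 21, 36), (12, 36, 19), (12, 36, 21), (13, 4, 16), (13, 4, 24), (13, 16, 4), (13, 16, 36), (13, 24, 4), (13, 24, 36), (13, 36, 16), (13, 36, 24), (15, 6, 10), (15, 6, 30), (15, 10, 6), (15, 10, 34), (15, 30, 6), (15, 30, 34), (15, 34, 10), (15, 34, 30), (16, 3, 16), (16, 3, 24), (16, 4, 13), (16, 4, 27), (16, 13, 4), (16, 13, 36), (16, 16, 3), (16, 16, 37), (16, 24, 3), (16, 24, 37), (16, 27, 4), (16, 27, 36), (16, 36, 13), (16, 36, 27), (16, 37, 16), (16, 37,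 24), (18, 6, 9), (18, 6, 31), (18, 9, 6), (18, 9, 34), (18, 31, 6), (18, 31, 34), (18, 34, 9), (18, 34, 31), (19, 4, 12), (19, 4, 28), (19, 12, 4), (19, 12, 36), (19, 28, 4), (19, 36, 12), (21, 4, 12), (21, 12, 4)]⟩
def row322 : Row := ⟨322, 319, 20, 12, [(5, 11, 16), (5, 11, 24), (5, 16, 11), (5, 16, 29), (5, 24, 11), (5, 24, 29), (5, 29, 16), (5, 29, 24), (7, 8, 17), (7, 8, 23), (7, 17, 8), (7, 17, 32), (7, 23, 8), (7, 23, 32), (7, 32, 17), (7, 32, 23), (8, 7, 17), (8, 7, 23), (8, 17, 7), (8, 17, 33), (8, 23, 7), (8, 23, 33), (8, 33, 17), (8, 33, 23), (11, 5, 16), (11, 5, 24), (11, 16, 5), (11, 16, 35), (11, 24, 5), (11, 24, 35), (11, 35, 16), (11, 35, 24), (16, 5, 11), (16, 5, 29), (16, 11, 5), (16, 11, 35), (16, 29, 5), (16, 29, 35), (16, 35, 11), (16, 35, 29), (17, 7, 8), (17, 7, 32), (17, 8, 7), (17, 8, 33), (17, 32, 7), (17, 32, 33), (17, 33, 8), (17, 33, 32)]⟩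
def row323 : Row := ⟨323, 181, 180, 139, [(3, 15, 17), (3, 15, 23), (3, 17, 15), (3, 17, 25), (3, 23, 15), (3, 23, 25), (3, 25, 17), (3, 25, 23), (5, 13, 13), (5, 13, 27), (5, 27, 13), (5, 27, 27), (9, 9, 11), (9, 9, 29), (9, 11, 9), (9, 11, 31), (9, 29, 9), (9, 31, 11), (11, 9, 9), (11, 9, 31), (11, 31, 9), (13, 5, 13), (13, 5, 27), (13, 13, 5), (13, 13, 35), (13, 27, 5), (15, 3, 17), (15, 3, 23), (15, 17, 3), (15, 23, 3), (17, 3, 15), (17, 3, 25), (17, 15, 3), (17, 25, 3), (23, 3, 15), (23, 3, 25), (23, 15, 3), (23, 25, 3), (25, 3, 17), (25, 3, 23), (25, 17, 3), (25, 23, 3), (27, 5, 13), (27, 5, 27), (27, 13, 5), (29, 9, 9), (31, 9, 11), (31, 11, 9)]⟩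
def row324 : Row := ⟨324, 253, 173, 43, [(2, 20, 20), (4, 12, 18), (4, 12, 22), (4, 18, 12), (4, 18, 28), (4, 22, 12), (4, 22, 28), (4, 28, 18), (4, 28, 22), (6, 12, 12), (6, 12, 28), (6, 28, 12), (6, 28, 28), (8, 8, 14), (8, 8, 26), (8, 14, 8), (8, 14, 32), (8, 26, 8), (8, 26, 32), (8, 32, 14), (8, 32, 26), (12, 4, 18), (12, 4, 22), (12, 6, 12), (12, 6, 28), (12, 12, 6), (12, 12, 34), (12, 18, 4), (12, 18, 36), (12, 22, 4), (12, 22, 36), (12, 28, 6), (12, 28, 34), (14, 8, 8), (14, 8, 32), (18, 4, 12), (18, 4, 28), (18, 12, 4), (18, 12, 36), (20, 2, 20), (20, 20, 2), (22, 4, 12), (22, 4, 28), (22, 12, 4), (22, 12, 36), (26, 8, 8), (26, 8, 32), (28, 4, 18), (28, 4, 22), (28, 6, 12), (28, 6, 28)]⟩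
def row325 : Row := ⟨325, 27, 5, 2, [(2, 19, 20), (2, 20, 19), (2, 20, 21), (2, 21, 20), (3, 14, 20), (3, 20, 14), (3, 20, 26), (3, 26, 20), (5, 10, 20), (5, 12, 14), (5, 12, 26), (5, 14, 12), (5, 14, 28), (5, 20, 10), (5, 20, 30), (5, 26, 12), (5, 26, 28), (5, 28, 14), (5, 28, 26), (5, 30, 20), (8, 10, 11), (8, 10, 29), (8, 11, 10), (8, 11, 30), (8, 29, 10), (8, 29, 30), (8, 30, 11), (8, 30, 29), (10, 5, 20), (10, 8, 11), (10, 8, 29), (10, 11, 8), (10, 11, 32), (10, 20, 5), (10, 20, 35), (10, 29, 8), (10, 29, 32), (10, 32, 11), (10, 32, 29), (10, 35, 20), (11, 8, 10), (11, 8, 30), (11, 10, 8), (11, 10, 32), (11, 30, 8), (11, 30, 32), (11, 32, 10), (11, 32, 30), (12, 5, 14), (12, 5, 26), (12, 14, 5), (12, 14, 35), (12, 26, 5), (12, 26, 35), (12, 35, 14), (12, 35, 26), (14, 3, 20), (14, 5, 12), (14, 5, 28), (14, 12, 5), (14, 12, 35), (14, 20, 3), (14, 20, 37), (14, 28, 5), (14,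 28, 35), (14, 35, 12), (14, 35, 28), (14, 37, 20), (19, 2, 20), (19, 20, 2), (20, 2, 19), (20, 2, 21), (20, 3, 14), (20, 3, 26), (20, 5, 10), (20, 5, 30), (20, 10, 5), (20, 10, 35), (20, 14, 3), (20, 19, 2), (20, 21, 2), (20, 26, 3), (21, 2, 20), (21, 20, 2)]⟩
def row326 : Row := ⟨326, 281, 43, 43, [(2, 19, 19), (2, 19, 21), (2, 21, 19), (2, 21, 21), (3, 14, 19), (3, 14, 21), (3, 19, 14), (3, 19, 26), (3, 21, 14), (3, 21, 26), (3, 26, 19), (3, 26, 21), (5, 10, 19), (5, 10, 21), (5, 19, 10), (5, 19, 30), (5, 21, 10), (5, 21, 30), (5, 30, 19), (5, 30, 21), (6, 9, 17), (6, 9, 23), (6, 11, 13), (6, 11, 27), (6, 13, 11), (6, 13, 29), (6, 17, 9), (6, 17, 31), (6, 23, 9), (6, 23, 31), (6, 27, 11), (6, 27, 29), (6, 29, 13), (6, 29, 27), (6, 31, 17), (6, 31, 23), (7, 9, 14), (7, 9, 26), (7, 14, 9), (7, 14, 31), (7, 26, 9), (7, 26, 31), (7, 31, 14), (7, 31, 26), (9, 6, 17), (9, 6, 23),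 (9, 7, 14), (9, 7, 26), (9, 14, 7), (9, 14, 33), (9, 17, 6), (9, 17, 34), (9, 23, 6), (9, 23, 34), (9, 26, 7), (9, 26, 33), (9, 33, 14), (9, 33, 26), (9, 34, 17), (9, 34, 23), (10, 5, 19), (10, 5, 21), (10, 19, 5), (10, 19, 35), (10, 21, 5), (10, 21, 35), (10, 35, 19), (10, 35, 21), (11, 6, 13), (11, 6, 27), (11, 13, 6), (11, 13, 34), (11, 27, 6), (11, 27, 34), (11, 34, 13), (11, 34, 27), (13, 6, 11), (13, 6, 29), (13, 11, 6), (13, 11, 34), (13, 29, 6), (13, 29, 34), (13, 34, 11), (13, 34, 29), (14, 3, 19), (14, 3, 21), (14, 7, 9), (14, 7, 31), (14, 9, 7), (14, 9, 33), (14, 19, 3), (14, 19, 37), (14, 21, 3), (14, 21, 37), (14, 31, 7), (14, 31, 33), (14, 33, 9), (14, 33, 31), (14, 37, 19), (14, 37, 21), (17, 6, 9), (17, 6, 31), (17, 9, 6), (17, 9, 34), (17, 31, 6), (17, 34, 9), (19, 2, 19), (19, 2, 21), (19, 3, 14), (19, 3, 26), (19, 5, 10), (19, 5, 30), (19, 10, 5), (19, 10,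 35), (19, 14, 3), (19, 19, 2), (19, 21, 2), (19, 26, 3), (19, 30, 5), (19, 35, 10), (21, 2, 19), (21, 2, 21), (21, 3, 14), (21, 3, 26), (21, 5, 10), (21, 10, 5), (21, 14, 3), (21, 19, 2), (21, 21, 2), (21, 26, 3), (23, 6, 9), (23, 9, 6)]⟩
def row327 : Row := ⟨327, 100, 10, 1, []⟩
def row328 : Row := ⟨328, 399, 391, 179, [(2, 18, 20), (2, 20, 18), (2, 20, 22), (2, 22, 20), (4, 14, 14), (4, 14, 26), (4, 26, 14), (4, 26, 26), (14, 4, 14), (14, 4, 26), (14, 14, 4), (14, 14, 36), (14, 26, 4), (18, 2, 20), (18, 20, 2), (20, 2, 18), (20, 2, 22), (20, 18, 2), (20, 22, 2), (22, 2, 20), (22, 20, 2), (26, 4, 14), (26, 4, 26), (26, 14, 4)]⟩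
def row329 : Row := ⟨329, 116, 28, 23, [(2, 18, 19), (2, 18, 21), (2, 19, 18), (2, 19, 22), (2, 21, 18), (2, 21, 22), (2, 22, 19), (2, 22, 21), (3, 14, 18), (3, 14, 22), (3, 18, 14), (3, 18, 26), (3, 22, 14), (3, 22, 26), (3, 26, 18), (3, 26, 22), (4, 12, 17), (4, 12, 23), (4, 17, 12), (4, 17, 28), (4, 23, 12), (4, 23, 28), (4, 28, 17), (4, 28, 23), (5, 10, 18), (5, 10, 22), (5, 18, 10), (5, 18, 30), (5, 22, 10), (5, 22, 30), (5, 30, 18), (5, 30, 22), (7, 8, 16), (7, 8, 24), (7, 16, 8), (7, 16, 32), (7, 24, 8), (7, 24, 32), (7, 32, 16), (7, 32, 24), (8, 7, 16), (8, 7, 24), (8, 9, 12), (8, 9, 28), (8, 12, 9), (8, 12, 31), (8, 16, 7), (8, 16, 33), (8, 24, 7), (8, 24, 33), (8, 28, 9), (8, 28, 31), (8, 31, 12), (8, 31, 28), (8, 33, 16), (8, 33, 24), (9, 8, 12), (9, 8, 28), (9, 12, 8), (9, 12, 32), (9, 28, 8), (9, 28, 32), (9, 32, 12), (9, 32, 28), (10, 5, 18), (10, 5, 22), (10,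 18, 5), (10, 18, 35), (10, 22, 5), (10, 22, 35), (10, 35, 18), (10, 35, 22), (12, 4, 17), (12, 4, 23), (12, 8, 9), (12, 8, 31), (12, 9, 8), (12, 9, 32), (12, 17, 4), (12, 17, 36), (12, 23, 4), (12, 23, 36), (12, 31, 8), (12, 31, 32), (12, 32, 9), (12, 32, 31), (12, 36, 17), (12, 36, 23), (14, 3, 18), (14, 3, 22), (14, 18, 3), (14, 18, 37), (14, 22, 3), (14, 22, 37), (14, 37, 18), (14, 37, 22), (16, 7, 8), (16, 7, 32), (16, 8, 7), (16, 8, 33), (16, 32, 7), (16, 33, 8), (17, 4, 12), (17, 4, 28), (17, 12, 4), (17, 12, 36), (17, 28, 4), (17, 36, 12), (18, 2, 19), (18, 2, 21), (18, 3, 14), (18, 3, 26), (18, 5, 10), (18, 5, 30), (18, 10, 5), (18, 10, 35), (18, 14, 3), (18, 14, 37), (18, 19, 2), (18, 21, 2), (18, 26, 3), (18, 30, 5), (18, 35, 10), (19, 2, 18), (19, 2, 22), (19, 18, 2), (19, 22, 2), (21, 2, 18), (21, 2, 22), (21, 18, 2), (21, 22, 2), (22, 2, 19), (22, 2, 21), (22, 3,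 14), (22, 3, 26), (22, 5, 10), (22, 10, 5), (22, 14, 3), (22, 19, 2), (22, 21, 2), (23, 4, 12), (23, 12, 4), (24, 7, 8), (24, 8, 7)]⟩
def row330 : Row := ⟨330, 172, 99, 68, [(3, 15, 16), (3, 15, 24), (3, 16, 15), (3, 16, 25), (3, 24, 15), (3, 24, 25), (3, 25, 16), (3, 25, 24), (4, 13, 15), (4, 13, 25), (4, 15, 13), (4, 15, 27), (4, 25, 13), (4, 25, 27), (4, 27, 15), (4, 27, 25), (13, 4, 15), (13, 4, 25), (13, 15, 4), (13, 15, 36), (13, 25, 4), (15, 3, 16), (15, 3, 24), (15, 4, 13), (15, 4, 27), (15, 13, 4), (15, 13, 36), (15, 16, 3), (15, 16, 37), (15, 24, 3), (15, 27, 4), (16, 3, 15), (16, 3, 25), (16, 15, 3), (16, 15, 37), (16, 25, 3), (24, 3, 15), (24, 3, 25), (24, 15, 3), (25, 3, 16), (25, 3, 24), (25, 4, 13), (25, 4, 27), (25, 13, 4), (25, 16, 3), (27, 4, 15), (27, 4, 25), (27, 15, 4)]⟩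
def row331 : Row := ⟨331, 398, 52, 51, [(5, 11, 15), (5, 11, 25), (5, 15, 11), (5, 15, 29), (5, 25, 11), (5, 25, 29), (5, 29, 15), (5, 29, 25), (7, 11, 11), (7, 11, 29), (7, 29, 11), (7, 29, 29), (11, 5, 15), (11, 5, 25), (11, 7, 11), (11, 7, 29), (11, 11, 7), (11, 11, 33), (11, 15, 5), (11, 15, 35), (11, 25, 5), (11, 25, 35), (11, 29, 7), (11, 29, 33), (11, 33, 11), (11, 33, 29), (11, 35, 15), (11, 35, 25), (15, 5, 11), (15, 5, 29), (15, 11, 5), (15, 11, 35), (15, 29, 5), (15, 29, 35), (15, 35, 11), (15, 35, 29)]⟩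
def row332 : Row := ⟨332, 378, 306, 264, [(2, 18, 18), (2, 18, 22), (2, 22, 18), (2, 22, 22), (6, 10, 14), (6, 10, 26), (6, 14, 10), (6, 14, 30), (6, 26, 10), (6, 26, 30), (6, 30, 14), (6, 30, 26), (10, 6, 14), (10, 6, 26), (10, 14, 6), (10, 14, 34), (10, 26, 6), (10, 34, 14), (14, 6, 10), (14, 6, 30), (14, 10, 6), (14, 10, 34), (14, 30, 6), (14, 34, 10), (18, 2, 18), (18, 2, 22), (18, 18, 2), (18, 22, 2), (22, 2, 18), (22, 2, 22), (22, 18, 2), (22, 22, 2), (26, 6, 10), (26, 10, 6), (30, 6, 14), (30, 14, 6)]⟩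
def row333 : Row := ⟨333, 328, 324, 289, [(2, 17, 20), (2, 20, 17), (2, 20, 23), (2, 23, 20), (6, 9, 16), (6, 9, 24), (6, 16, 9), (6, 16, 31), (6, 24, 9), (6, 24, 31), (6, 31, 16), (7, 10, 12), (7, 10, 28), (7, 12, 10), (7, 12, 30), (7, 28, 10), (7, 30, 12), (9, 6, 16), (9, 6, 24), (9, 16, 6), (9, 16, 34), (9, 24, 6), (9, 34, 16), (10, 7, 12), (10, 7, 28), (10, 12, 7), (10, 12, 33), (10, 28, 7), (10, 33, 12), (12, 7, 10), (12, 7, 30), (12, 10, 7), (12, 10, 33), (12, 30, 7), (12, 33, 10), (16, 6, 9), (16, 6, 31), (16, 9, 6), (16, 9, 34), (16, 31, 6), (17, 2, 20), (17, 20, 2), (20, 2, 17), (20, 2, 23), (20, 17, 2), (20, 23, 2), (23, 2, 20), (23, 20, 2), (24, 6, 9), (24, 6, 31), (24, 9, 6), (28, 7, 10), (28, 10, 7), (30, 7, 12), (30, 12, 7), (31, 6, 16), (31, 16, 6), (33, 10, 12), (33, 12, 10), (34, 9, 16)]⟩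
def row334 : Row := ⟨334, 353, 197, 196, [(2, 17, 19), (2, 17, 21), (2, 19, 17), (2, 19, 23), (2, 21, 17), (2, 21, 23), (2, 23, 19), (2, 23, 21), (3, 14, 17), (3, 14, 23), (3, 17, 14), (3, 17, 26), (3, 23, 14), (3, 23, 26), (3, 26, 17), (3, 26, 23), (5, 10, 17), (5, 10, 23), (5, 17, 10), (5, 17, 30), (5, 23, 10), (5, 23, 30), (5, 30, 17), (5, 30, 23), (10, 5, 17), (10, 5, 23), (10, 17, 5), (10, 17, 35), (10, 23, 5), (10, 35, 17), (14, 3, 17), (14, 3, 23), (14, 17, 3), (14, 23, 3), (17, 2, 19), (17, 2, 21), (17, 3, 14), (17, 3, 26), (17, 5, 10), (17, 5, 30), (17, 10, 5), (17, 10, 35), (17, 14, 3), (17, 19, 2), (17, 21, 2), (17, 26, 3), (17, 30, 5), (17, 35, 10), (19, 2, 17), (19, 2, 23), (19, 17, 2), (19, 23, 2), (21, 2, 17), (21, 2, 23), (21, 17, 2), (21, 23, 2), (23, 2, 19), (23, 2, 21), (23, 3, 14), (23, 3, 26), (23, 5, 10), (23, 10, 5), (23, 14, 3), (23, 19, 2), (23, 21,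 2), (23, 26, 3), (26, 3, 17), (26, 3, 23), (26, 17, 3), (26, 23, 3), (30, 5, 17), (30, 17, 5)]⟩
def row335 : Row := ⟨335, 100, 10, 1, []⟩
def row336 : Row := ⟨336, 290, 176, 15, [(4, 12, 16), (4, 12, 24), (4, 16, 12), (4, 16, 28), (4, 24, 12), (4, 24, 28), (4, 28, 16), (4, 28, 24), (12, 4, 16), (12, 4, 24), (12, 16, 4), (12, 16, 36), (12, 24, 4), (12, 24, 36), (16, 4, 12), (16, 4, 28), (16, 12, 4), (16, 12, 36), (24, 4, 12), (24, 4, 28), (24, 12, 4), (24, 12, 36), (28, 4, 16), (28, 4, 24)]⟩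
def row337 : Row := ⟨337, 223, 100, 19, [(2, 17, 18), (2, 17, 22), (2, 18, 17), (2, 18, 23), (2, 22, 17), (2, 22, 23), (2, 23, 18), (2, 23, 22), (4, 11, 20), (4, 20, 11), (4, 20, 29), (4, 29, 20), (8, 8, 13), (8, 8, 27), (8, 13, 8), (8, 13, 32), (8, 27, 8), (8, 27, 32), (8, 32, 13), (8, 32, 27), (11, 4, 20), (11, 20, 4), (11, 20, 36), (11, 36, 20), (13, 8, 8), (13, 8, 32), (13, 32, 8), (13, 32, 32), (17, 2, 18), (17, 2, 22), (17, 18, 2), (17, 18, 38), (17, 22, 2), (17, 22, 38), (18, 2, 17), (18, 2, 23), (18, 17, 2), (18, 17, 38), (18, 23, 2), (20, 4, 11), (20, 4, 29), (20, 11, 4), (20, 11, 36), (22, 2, 17), (22, 2, 23), (22, 17, 2), (23, 2, 18), (23, 2, 22)]⟩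
def row338 : Row := ⟨338, 147, 47, 10, [(3, 13, 20), (3, 20, 13), (3, 20, 27), (3, 27, 20), (4, 11, 19), (4, 11, 21), (4, 19, 11), (4, 19, 29), (4, 21, 11), (4, 21, 29), (4, 29, 19), (4, 29, 21), (5, 12, 13), (5, 12, 27), (5, 13, 12), (5, 13, 28), (5, 27, 12), (5, 27, 28), (5, 28, 13), (5, 28, 27), (7, 7, 20), (7, 8, 15), (7, 8, 25), (7, 15, 8), (7, 15, 32), (7, 20, 7), (7, 20, 33), (7, 25, 8), (7, 25, 32), (7, 32, 15), (7, 32, 25), (7, 33, 20), (8, 7, 15), (8, 7, 25), (8, 15, 7), (8, 15, 33), (8, 25, 7), (8, 25, 33), (8, 33, 15), (8, 33, 25), (11, 4, 19), (11, 4, 21), (11, 19, 4), (11, 19, 36), (11, 21, 4), (11, 21, 36), (11, 36, 19), (11, 36, 21), (12, 5, 13), (12, 5, 27), (12, 13, 5), (12, 13, 35), (12, 27, 5), (12, 27, 35), (12, 35, 13), (12, 35, 27), (13, 3, 20), (13, 5, 12), (13, 5, 28), (13, 12, 5), (13, 12, 35), (13, 20, 3), (13, 20, 37), (13, 28, 5), (13, 28, 35), (13,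 35, 12), (13, 35, 28), (13, 37, 20), (15, 7, 8), (15, 7, 32), (15, 8, 7), (15, 8, 33), (15, 32, 7), (15, 32, 33), (15, 33, 8), (15, 33, 32), (19, 4, 11), (19, 4, 29), (19, 11, 4), (19, 11, 36), (20, 3, 13), (20, 3, 27), (20, 7, 7), (20, 7, 33), (20, 13, 3), (20, 13, 37), (21, 4, 11), (21, 4, 29), (21, 11, 4), (21, 11, 36)]⟩
def row339 : Row := ⟨339, 368, 99, 13, [(3, 13, 19), (3, 13, 21), (3, 15, 15), (3, 15, 25), (3, 19, 13), (3, 19, 27), (3, 21, 13), (3, 21, 27), (3, 25, 15), (3, 25, 25), (3, 27, 19), (3, 27, 21), (7, 7, 19), (7, 7, 21), (7, 9, 13), (7, 9, 27), (7, 13, 9), (7, 13, 31), (7, 19, 7), (7, 19, 33), (7, 21, 7), (7, 21, 33), (7, 27, 9), (7, 27, 31), (7, 31, 13), (7, 31, 27), (7, 33, 19), (7, 33, 21), (9, 7, 13), (9, 7, 27), (9, 13, 7), (9, 13, 33), (9, 27, 7), (9, 27, 33), (9, 33, 13), (9, 33, 27), (13, 3, 19), (13, 3, 21), (13, 7, 9), (13, 7, 31), (13, 9, 7), (13,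 9, 33), (13, 19, 3), (13, 19, 37), (13, 21, 3), (13, 21, 37), (13, 31, 7), (13, 31, 33), (13, 33, 9), (13, 33, 31), (13, 37, 19), (13, 37, 21), (15, 3, 15), (15, 3, 25), (15, 15, 3), (15, 15, 37), (15, 25, 3), (15, 25, 37), (15, 37, 15), (15, 37, 25), (19, 3, 13), (19, 3, 27), (19, 7, 7), (19, 7, 33), (19, 13, 3), (19, 13, 37), (21, 3, 13), (21, 3, 27), (21, 7, 7), (21, 7, 33), (21, 13, 3), (21, 13, 37)]⟩
def row340 : Row := ⟨340, 303, 301, 138, [(2, 16, 20), (2, 20, 16), (2, 20, 24), (2, 24, 20), (6, 8, 20), (6, 20, 8), (6, 20, 32), (6, 32, 20), (8, 6, 20), (8, 20, 6), (8, 20, 34), (16, 2, 20), (16, 20, 2), (20, 2, 16), (20, 2, 24), (20, 6, 8), (20, 6, 32), (20, 8, 6), (20, 8, 34), (20, 16, 2), (20, 24, 2), (24, 2, 20), (24, 20, 2), (32, 6, 20)]⟩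
def row341 : Row := ⟨341, 357, 59, 43, [(2, 16, 19), (2, 16, 21), (2, 19, 16), (2, 19, 24), (2, 21, 16), (2, 21, 24), (2, 24, 19), (2, 24, 21), (3, 14, 16), (3, 14, 24), (3, 16, 14), (3, 16, 26), (3, 24, 14), (3, 24, 26), (3, 26, 16), (3, 26, 24), (4, 11, 18), (4, 11, 22), (4, 13, 14), (4, 13, 26), (4, 14, 13), (4, 14, 27), (4, 18, 11), (4, 18, 29), (4, 22, 11), (4, 22, 29), (4, 26, 13), (4, 26, 27), (4, 27, 14), (4, 27, 26), (4, 29, 18), (4, 29, 22), (5, 10, 16), (5, 10, 24), (5, 16, 10), (5, 16, 30), (5, 24, 10), (5, 24, 30), (5, 30, 16), (5, 30, 24), (6, 8, 19), (6, 8, 21), (6, 11, 12), (6, 11, 28), (6, 12, 11), (6, 12, 29), (6, 19, 8), (6, 19, 32), (6, 21, 8), (6, 21, 32), (6, 28, 11), (6, 28, 29), (6, 29, 12), (6, 29, 28), (6, 32, 19), (6, 32, 21), (8, 6, 19), (8, 6, 21), (8, 19, 6), (8, 19, 34), (8, 21, 6), (8, 21, 34), (8, 34, 19), (8, 34, 21), (10, 5, 16), (10, 5, 24),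 (10, 16, 5), (10, 16, 35), (10, 24, 5), (10, 24, 35), (10, 35, 16), (10, 35, 24), (11, 4, 18), (11, 4, 22), (11, 6, 12), (11, 6, 28), (11, 12, 6), (11, 12, 34), (11, 18, 4), (11, 18, 36), (11, 22, 4), (11, 22, 36), (11, 28, 6), (11, 28, 34), (11, 34, 12), (11, 34, 28), (11, 36, 18), (11, 36, 22), (12, 6, 11), (12, 6, 29), (12, 11, 6), (12, 11, 34), (12, 29, 6), (12, 29, 34), (12, 34, 11), (12, 34, 29), (13, 4, 14), (13, 4, 26), (13, 14, 4), (13, 14, 36), (13, 26, 4), (13, 26, 36), (13, 36, 14), (13, 36, 26), (14, 3, 16), (14, 3, 24), (14, 4, 13), (14, 4, 27), (14, 13, 4), (14, 13, 36), (14, 16, 3), (14, 16, 37), (14, 24, 3), (14, 24, 37), (14, 27, 4), (14, 27, 36), (14, 36, 13), (14, 36, 27), (14, 37, 16), (14, 37, 24), (16, 2, 19), (16, 2, 21), (16, 3, 14), (16, 3, 26), (16, 5, 10), (16, 5, 30), (16, 10, 5), (16, 10, 35), (16, 14, 3), (16, 14, 37), (16, 19, 2), (16, 19, 38),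 (16, 21, 2), (16, 21, 38), (16, 26, 3), (16, 26, 37), (16, 30, 5), (16, 30, 35), (16, 35, 10), (16, 35, 30), (16, 37, 14), (16, 37, 26), (16, 38, 19), (16, 38, 21), (18, 4, 11), (18, 4, 29), (18, 11, 4), (18, 11, 36), (18, 29, 4), (18, 36, 11), (19, 2, 16), (19, 2, 24), (19, 6, 8), (19, 6, 32), (19, 8, 6), (19, 8, 34), (19, 16, 2), (19, 24, 2), (19, 32, 6), (19, 34, 8), (21, 2, 16), (21, 2, 24), (21, 6, 8), (21, 8, 6), (21, 16, 2), (21, 24, 2), (22, 4, 11), (22, 11, 4)]⟩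
def row342 : Row := ⟨342, 321, 125, 18, [(2, 17, 17), (2, 17, 23), (2, 23, 17), (2, 23, 23), (3, 13, 18), (3, 13, 22), (3, 18, 13), (3, 18, 27), (3, 22, 13), (3, 22, 27), (3, 27, 18), (3, 27, 22), (5, 11, 14), (5, 11, 26), (5, 14, 11), (5, 14, 29), (5, 26, 11), (5, 26, 29), (5, 29, 14), (5, 29, 26), (6, 9, 15), (6, 9, 25), (6, 15, 9), (6, 15, 31), (6, 25, 9), (6, 25, 31), (6, 31, 15), (6, 31, 25), (7, 7, 18), (7, 7, 22), (7, 18, 7), (7, 18, 33), (7, 22, 7), (7, 22, 33), (7, 33, 18), (7, 33, 22), (9, 6, 15), (9, 6, 25), (9, 9, 10), (9, 9, 30), (9, 10, 9), (9, 10, 31), (9, 15, 6), (9, 15, 34), (9, 25, 6), (9, 25, 34), (9, 30, 9), (9, 30, 31), (9, 31, 10), (9, 31, 30), (9, 34, 15), (9, 34, 25), (10, 9, 9), (10, 9, 31), (10, 31, 9), (10, 31, 31), (11, 5, 14), (11, 5, 26), (11, 14, 5), (11, 14, 35), (11, 26, 5), (11, 26, 35), (11, 35, 14), (11, 35, 26), (13, 3, 18), (13, 3, 22),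 (13, 18, 3), (13, 18, 37), (13, 22, 3), (13, 22, 37), (13, 37, 18), (13, 37, 22), (14, 5, 11), (14, 5, 29), (14, 11, 5), (14, 11, 35), (14, 29, 5), (14, 29, 35), (14, 35, 11), (15, 6, 9), (15, 6, 31), (15, 9, 6), (15, 9, 34), (15, 31, 6), (15, 34, 9), (17, 2, 17), (17, 2, 23), (17, 17, 2), (17, 17, 38), (17, 23, 2), (17, 23, 38), (18, 3, 13), (18, 3, 27), (18, 7, 7), (18, 7, 33), (18, 13, 3), (18, 13, 37), (18, 27, 3), (22, 3, 13), (22, 3, 27), (22, 7, 7), (22, 7, 33), (22, 13, 3), (23, 2, 17), (23, 2, 23), (25, 6, 9), (25, 9, 6), (26, 5, 11)]⟩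
def row343 : Row := ⟨343, 100, 10, 1, []⟩
def row344 : Row := ⟨344, 398, 339, 18, [(2, 16, 18), (2, 16, 22), (2, 18, 16), (2, 18, 24), (2, 22, 16), (2, 22, 24), (2, 24, 18), (2, 24, 22), (6, 8, 18), (6, 8, 22), (6, 18, 8), (6, 18, 32), (6, 22, 8), (6, 22, 32), (6, 32, 18), (6, 32, 22), (8, 6, 18), (8, 6, 22), (8, 10, 10), (8, 10, 30), (8, 18, 6), (8, 18, 34), (8, 22, 6), (8, 22, 34), (8, 30, 10), (8, 30, 30), (8, 34, 18), (10, 8, 10), (10, 8, 30), (10, 10, 8), (10, 10, 32), (10, 30, 8), (10, 30, 32), (10, 32, 10), (16, 2, 18), (16, 2, 22), (16, 18, 2), (16, 18, 38), (16, 22, 2), (16, 22, 38), (18, 2, 16), (18, 2, 24), (18, 6, 8), (18, 6, 32), (18, 8, 6), (18, 8, 34), (18, 16, 2), (18, 16, 38), (22, 2, 16), (22, 2, 24), (22, 6, 8), (22, 6, 32), (22, 8, 6), (22, 8, 34), (22, 16, 2), (22, 16, 38), (24, 2, 18), (24, 2, 22), (30, 8, 10), (32, 6, 18)]⟩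
def row345 : Row := ⟨345, 331, 70, 48, [(4, 12, 15), (4, 12, 25), (4, 15, 12), (4, 15, 28), (4, 25, 12), (4, 25, 28), (4, 28, 15), (4, 28, 25), (6, 10, 13), (6, 10, 27), (6, 13, 10), (6, 13, 30), (6, 27, 10), (6, 27, 30), (6, 30, 13), (6, 30, 27), (10, 6, 13), (10, 6, 27), (10, 13, 6), (10, 13, 34), (10, 27, 6), (10, 27, 34), (10, 34, 13), (10, 34, 27), (12, 4, 15), (12, 4, 25), (12, 15, 4), (12, 15, 36), (12, 25, 4), (12, 25, 36), (12, 36, 15), (12, 36, 25), (13, 6, 10), (13, 6, 30), (13, 10, 6), (13, 10, 34), (13, 30, 6), (13, 30, 34), (13, 34, 10), (13, 34, 30), (15, 4, 12), (15, 4, 28), (15, 12, 4), (15, 12, 36), (15, 28, 4), (15, 28, 36), (15, 36, 12), (15, 36, 28)]⟩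
def row346 : Row := ⟨346, 326, 182, 55, [(4, 11, 17), (4, 11, 23), (4, 17, 11), (4, 17, 29), (4, 23, 11), (4, 23, 29), (4, 29, 17), (4, 29, 23), (5, 9, 20), (5, 20, 9), (5, 20, 31), (5, 31, 20), (8, 9, 11), (8, 9, 29), (8, 11, 9), (8, 11, 31), (8, 29, 9), (8, 29, 31), (8, 31, 11), (8, 31, 29), (9, 5, 20), (9, 8, 11), (9, 8, 29), (9, 11, 8), (9, 11, 32), (9, 20, 5), (9, 20, 35), (9, 29, 8), (9, 29, 32), (9, 32, 11), (9, 32, 29), (9, 35, 20), (11, 4, 17), (11, 4, 23), (11, 8, 9), (11, 8, 31), (11, 9, 8), (11, 9, 32), (11, 17, 4), (11, 17, 36), (11, 23, 4), (11, 23, 36), (11, 31, 8), (11, 31, 32), (11, 32, 9), (11, 32, 31), (11, 36, 17), (17, 4, 11), (17, 4, 29), (17, 11, 4), (17, 11, 36), (17, 29, 4), (20, 5, 9), (20, 5, 31), (20, 9, 5), (20, 9, 35), (23, 4, 11), (23, 4, 29), (23, 11, 4), (29, 4, 17)]⟩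
def row347 : Row := ⟨347, 315, 60, 56, [(3, 13, 17), (3, 13, 23), (3, 17, 13), (3, 17, 27), (3, 23, 13), (3, 23, 27), (3, 27, 17), (3, 27, 23), (5, 9, 19), (5, 9, 21), (5, 19, 9), (5, 19, 31), (5, 21, 9), (5, 21, 31), (5, 31, 19), (5, 31, 21), (7, 7, 17), (7, 7, 23), (7, 17, 7), (7, 17, 33), (7, 23, 7), (7, 23, 33), (7, 33, 17), (7, 33, 23), (9, 5, 19), (9, 5, 21), (9, 19, 5), (9, 19, 35), (9, 21, 5), (9, 21, 35), (9, 35, 19), (9, 35, 21), (13, 3, 17), (13, 3, 23), (13, 17, 3), (13, 17, 37), (13, 23, 3), (13, 23, 37), (13, 37, 17), (13, 37, 23), (17, 3, 13), (17, 3, 27), (17, 7, 7), (17, 7, 33), (17, 13, 3), (17, 13, 37), (17, 27, 3), (17, 33, 7), (17, 37, 13), (19, 5, 9), (19, 5, 31), (19, 9, 5), (19, 9, 35), (19, 31, 5), (19, 35, 9), (21, 5, 9), (21, 9, 5), (23, 3, 13), (23, 7, 7), (23, 13, 3)]⟩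
def row348 : Row := ⟨348, 100, 10, 1, []⟩
def row349 : Row := ⟨349, 379, 377, 364, [(2, 15, 20), (2, 16, 17), (2, 16, 23), (2, 17, 16), (2, 17, 24), (2, 20, 15), (2, 20, 25), (2, 23, 16), (2, 23, 24), (2, 24, 17), (2, 24, 23), (2, 25, 20), (6, 8, 17), (6, 8, 23), (6, 17, 8), (6, 17, 32), (6, 23, 8), (6, 32, 17), (7, 8, 14), (7, 8, 26), (7, 14, 8), (7, 14, 32), (7, 26, 8), (7, 32, 14), (8, 6, 17), (8, 6, 23), (8, 7, 14), (8, 7, 26), (8, 14, 7), (8, 14, 33), (8, 17, 6), (8, 17, 34), (8, 23, 6), (8, 26, 7), (8, 33, 14), (8, 34, 17), (14, 7, 8), (14, 7, 32), (14, 8, 7), (14, 8, 33), (14, 32, 7), (14, 33, 8), (15, 2, 20), (15, 20, 2), (16, 2, 17), (16, 2, 23), (16, 17, 2), (16, 23, 2), (17, 2, 16), (17, 2, 24), (17, 6, 8), (17, 6, 32), (17, 8, 6), (17, 8, 34), (17, 16, 2), (17, 24, 2), (17, 32, 6), (17, 34, 8), (20, 2, 15), (20, 2, 25), (20, 15, 2), (20, 25, 2), (23, 2, 16), (23,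 2, 24), (23, 6, 8), (23, 8, 6), (23, 16, 2), (23, 24, 2), (24, 2, 17), (24, 2, 23), (24, 17, 2), (24, 23, 2), (25, 2, 20), (25, 20, 2), (26, 7, 8), (26, 8, 7), (32, 6, 17), (32, 7, 14), (32, 14, 7), (32, 17, 6), (33, 8, 14), (33, 14, 8), (34, 8, 17), (34, 17, 8)]⟩
def row350 : Row := ⟨350, 260, 51, 41, [(2, 15, 19), (2, 15, 21), (2, 19, 15), (2, 19, 25), (2, 21, 15), (2, 21, 25), (2, 25, 19), (2, 25, 21), (3, 14, 15), (3, 14, 25), (3, 15, 14), (3, 15, 26), (3, 25, 14), (3, 25, 26), (3, 26, 15), (3, 26, 25), (5, 9, 18), (5, 9, 22), (5, 10, 15), (5, 10, 25), (5, 15, 10), (5, 15, 30), (5, 18, 9), (5, 18, 31), (5, 22, 9), (5, 22, 31), (5, 25, 10), (5, 25, 30), (5, 30, 15), (5, 30, 25), (5, 31, 18), (5, 31, 22), (7, 10, 11), (7, 10, 29), (7, 11, 10), (7, 11, 30), (7, 29, 10), (7, 29, 30), (7, 30, 11), (7, 30, 29), (9, 5, 18), (9, 5, 22), (9, 18, 5), (9, 18, 35), (9, 22, 5), (9, 22,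 35), (9, 35, 18), (9, 35, 22), (10, 5, 15), (10, 5, 25), (10, 7, 11), (10, 7, 29), (10, 11, 7), (10, 11, 33), (10, 15, 5), (10, 15, 35), (10, 25, 5), (10, 25, 35), (10, 29, 7), (10, 29, 33), (10, 33, 11), (10, 33, 29), (10, 35, 15), (10, 35, 25), (11, 7, 10), (11, 7, 30), (11, 10, 7), (11, 10, 33), (11, 30, 7), (11, 30, 33), (11, 33, 10), (11, 33, 30), (14, 3, 15), (14, 3, 25), (14, 15, 3), (14, 15, 37), (14, 25, 3), (14, 25, 37), (14, 37, 15), (14, 37, 25), (15, 2, 19), (15, 2, 21), (15, 3, 14), (15, 3, 26), (15, 5, 10), (15, 5, 30), (15, 10, 5), (15, 10, 35), (15, 14, 3), (15, 14, 37), (15, 19, 2), (15, 19, 38), (15, 21, 2), (15, 21, 38), (15, 26, 3), (15, 26, 37), (15, 30, 5), (15, 30, 35), (15, 35, 10), (15, 35, 30), (15, 37, 14), (15, 37, 26), (15, 38, 19), (15, 38, 21), (18, 5, 9), (18, 5, 31), (18, 9, 5), (18, 9, 35), (18, 31, 5), (18, 35, 9), (19, 2, 15), (19, 2, 25),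 (19, 15, 2), (19, 25, 2), (21, 2, 15), (21, 2, 25), (21, 15, 2), (21, 25, 2), (22, 5, 9), (22, 9, 5)]⟩

theorem ok293 : rowOK 20 8 12 row293 = true := by decide +kernel
theorem ok294 : rowOK 20 8 12 row294 = true := by decide +kernel
theorem ok295 : rowOK 20 8 12 row295 = true := by decide +kernel
theorem ok296 : rowOK 20 8 12 row296 = true := by decide +kernel
theorem ok297 : rowOK 20 8 12 row297 = true := by decide +kernel
theorem ok298 : rowOK 20 8 12 row298 = true := by decide +kernel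
theorem ok299 : rowOK 20 8 12 row299 = true := by decide +kernel
theorem ok300 : rowOK 20 8 12 row300 = true := by decide +kernel
theorem ok301 : rowOK 20 8 12 row301 = true := by decide +kernel
theorem ok302 : rowOK 20 8 12 row302 = true := by decide +kernel
theorem ok303 : rowOK 20 8 12 row303 = true := by decide +kernel
theorem ok304 : rowOK 20 8 12 row304 = true := by decide +kernel
theorem ok305 : rowOK 20 8 12 row305 = true := by decide +kernel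
theorem ok306 : rowOK 20 8 12 row306 = true := by decide +kernel
theorem ok307 : rowOK 20 8 12 row307 = true := by decide +kernel
theorem ok308 : rowOK 20 8 12 row308 = true := by decide +kernel
theorem ok309 : rowOK 20 8 12 row309 = true := by decide +kernel
theorem ok310 : rowOK 20 8 12 row310 = true := by decide +kernel
theorem ok311 : rowOK 20 8 12 row311 = true := by decide +kernel
theorem ok312 : rowOK 20 8 12 row312 = true := by decide +kernel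
theorem ok313 : rowOK 20 8 12 row313 = true := by decide +kernel
theorem ok314 : rowOK 20 8 12 row314 = true := by decide +kernel
theorem ok315 : rowOK 20 8 12 row315 = true := by decide +kernel
theorem ok316 : rowOK 20 8 12 row316 = true := by decide +kernel
theorem ok317 : rowOK 20 8 12 row317 = true := by decide +kernel
theorem ok318 : rowOK 20 8 12 row318 = true := by decide +kernel
theorem ok319 : rowOK 20 8 12 row319 = true := by decide +kernel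
theorem ok320 : rowOK 20 8 12 row320 = true := by decide +kernel
theorem ok321 : rowOK 20 8 12 row321 = true := by decide +kernel
theorem ok322 : rowOK 20 8 12 row322 = true := by decide +kernel
theorem ok323 : rowOK 20 8 12 row323 = true := by decide +kernel
theorem ok324 : rowOK 20 8 12 row324 = true := by decide +kernel
theorem ok325 : rowOK 20 8 12 row325 = true := by decide +kernel
theorem ok326 : rowOK 20 8 12 row326 = true := by decide +kernel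
theorem ok327 : rowOK 20 8 12 row327 = true := by decide +kernel
theorem ok328 : rowOK 20 8 12 row328 = true := by decide +kernel
theorem ok329 : rowOK 20 8 12 row329 = true := by decide +kernel
theorem ok330 : rowOK 20 8 12 row330 = true := by decide +kernel
theorem ok331 : rowOK 20 8 12 row331 = true := by decide +kernel
theorem ok332 : rowOK 20 8 12 row332 = true := by decide +kernel
theorem ok333 : rowOK 20 8 12 row333 = true := by decide +kernel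
theorem ok334 : rowOK 20 8 12 row334 = true := by decide +kernel
theorem ok335 : rowOK 20 8 12 row335 = true := by decide +kernel
theorem ok336 : rowOK 20 8 12 row336 = true := by decide +kernel
theorem ok337 : rowOK 20 8 12 row337 = true := by decide +kernel
theorem ok338 : rowOK 20 8 12 row338 = true := by decide +kernel
theorem ok339 : rowOK 20 8 12 row339 = true := by decide +kernel
theorem ok340 : rowOK 20 8 12 row340 = true := by decide +kernel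
theorem ok341 : rowOK 20 8 12 row341 = true := by decide +kernel
theorem ok342 : rowOK 20 8 12 row342 = true := by decide +kernel
theorem ok343 : rowOK 20 8 12 row343 = true := by decide +kernel
theorem ok344 : rowOK 20 8 12 row344 = true := by decide +kernel
theorem ok345 : rowOK 20 8 12 row345 = true := by decide +kernel
theorem ok346 : rowOK 20 8 12 row346 = true := by decide +kernel
theorem ok347 : rowOK 20 8 12 row347 = true := by decide +kernel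
theorem ok348 : rowOK 20 8 12 row348 = true := by decide +kernel
theorem ok349 : rowOK 20 8 12 row349 = true := by decide +kernel
theorem ok350 : rowOK 20 8 12 row350 = true := by decide +kernel

theorem rows (N : ℕ) (h1 : 293 ≤ N) (h2 : N ≤ 350) :
    ∃ R : Row, R.N = N ∧ rowOK 20 8 12 R = true := by
  interval_cases N
  · exact ⟨row293, rfl, ok293⟩
  · exact ⟨row294, rfl, ok294⟩
  · exact ⟨row295, rfl, ok295⟩
  · exact ⟨row296, rfl, ok296⟩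
  · exact ⟨row297, rfl, ok297⟩
  · exact ⟨row298, rfl, ok298⟩
  · exact ⟨row299, rfl, ok299⟩
  · exact ⟨row300, rfl, ok300⟩
  · exact ⟨row301, rfl, ok301⟩
  · exact ⟨row302, rfl, ok302⟩
  · exact ⟨row303, rfl, ok303⟩
  · exact ⟨row304, rfl, ok304⟩
  · exact ⟨row305, rfl, ok305⟩
  · exact ⟨row306, rfl, ok306⟩
  · exact ⟨row307, rfl, ok307⟩
  · exact ⟨row308, rfl, ok308⟩
  · exact ⟨row309, rfl, ok309⟩
  · exact ⟨row310, rfl, ok310⟩
  · exact ⟨row311, rfl, ok311⟩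
  · exact ⟨row312, rfl, ok312⟩
  · exact ⟨row313, rfl, ok313⟩
  · exact ⟨row314, rfl, ok314⟩
  · exact ⟨row315, rfl, ok315⟩
  · exact ⟨row316, rfl, ok316⟩
  · exact ⟨row317, rfl, ok317⟩
  · exact ⟨row318, rfl, ok318⟩
  · exact ⟨row319, rfl, ok319⟩
  · exact ⟨row320, rfl, ok320⟩
  · exact ⟨row321, rfl, ok321⟩
  · exact ⟨row322, rfl, ok322⟩
  · exact ⟨row323, rfl, ok323⟩
  · exact ⟨row324, rfl, ok324⟩
  · exact ⟨row325, rfl, ok325⟩
  · exact ⟨row326, rfl, ok326⟩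
  · exact ⟨row327, rfl, ok327⟩
  · exact ⟨row328, rfl, ok328⟩
  · exact ⟨row329, rfl, ok329⟩
  · exact ⟨row330, rfl, ok330⟩
  · exact ⟨row331, rfl, ok331⟩
  · exact ⟨row332, rfl, ok332⟩
  · exact ⟨row333, rfl, ok333⟩
  · exact ⟨row334, rfl, ok334⟩
  · exact ⟨row335, rfl, ok335⟩
  · exact ⟨row336, rfl, ok336⟩
  · exact ⟨row337, rfl, ok337⟩
  · exact ⟨row338, rfl, ok338⟩
  · exact ⟨row339, rfl, ok339⟩
  · exact ⟨row340, rfl, ok340⟩
  · exact ⟨row341, rfl, ok341⟩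
  · exact ⟨row342, rfl, ok342⟩
  · exact ⟨row343, rfl, ok343⟩
  · exact ⟨row344, rfl, ok344⟩
  · exact ⟨row345, rfl, ok345⟩
  · exact ⟨row346, rfl, ok346⟩
  · exact ⟨row347, rfl, ok347⟩
  · exact ⟨row348, rfl, ok348⟩
  · exact ⟨row349, rfl, ok349⟩
  · exact ⟨row350, rfl, ok350⟩

end Pool.Agent.Lib.MPe4ee32.IP.D8c
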