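import Pool.Agent.Lib.MP_e4ee32_co.IP.Check

/-! Integer packings (MP_e4ee32_co): rows of the table, checked by the kernel. -/

namespace Pool.Agent.Lib.MPe4ee32.IP.D8d

def row351 : Row := ⟨351, 100, 10, 1, []⟩
def row352 : Row := ⟨352, 371, 364, 270, [(8, 8, 12), (8, 8, 28), (8, 12, 8), (8, 12, 32), (8, 28, 8), (8, 32, 12), (12, 8, 8), (12, 8, 32), (12, 32, 8), (28, 8, 8), (32, 8, 12), (32, 12, 8)]⟩
def row353 : Row := ⟨353, 338, 24, 21, [(2, 15, 18), (2, 15, 22), (2, 18, 15), (2, 18, 25), (2, 22, 15), (2, 22, 25), (2, 25, 18), (2, 25, 22), (3, 12, 20), (3, 20, 12), (3, 20, 28), (3, 28, 20), (4, 11, 16), (4, 11, 24), (4, 16, 11), (4, 16, 29), (4, 24, 11), (4, 24, 29), (4, 29, 16), (4, 29, 24), (5, 12, 12), (5, 12, 28), (5, 28, 12), (5, 28, 28), (6, 9, 14), (6, 9, 26), (6, 14, 9), (6, 14, 31), (6, 26, 9), (6, 26, 31), (6, 31, 14), (6, 31, 26), (9, 6, 14), (9, 6, 26), (9,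 14, 6), (9, 14, 34), (9, 26, 6), (9, 26, 34), (9, 34, 14), (9, 34, 26), (11, 4, 16), (11, 4, 24), (11, 16, 4), (11, 16, 36), (11, 24, 4), (11, 24, 36), (11, 36, 16), (11, 36, 24), (12, 3, 20), (12, 5, 12), (12, 5, 28), (12, 12, 5), (12, 12, 35), (12, 20, 3), (12, 20, 37), (12, 28, 5), (12, 28, 35), (12, 35, 12), (12, 35, 28), (12, 37, 20), (14, 6, 9), (14, 6, 31), (14, 9, 6), (14, 9, 34), (14, 31, 6), (14, 31, 34), (14, 34, 9), (14, 34, 31), (15, 2, 18), (15, 2, 22), (15, 18, 2), (15, 18, 38), (15, 22, 2), (15, 22, 38), (15, 38, 18), (15, 38, 22), (16, 4, 11), (16, 4, 29), (16, 11, 4), (16, 11, 36), (16, 29, 4), (16, 29, 36), (16, 36, 11), (16, 36, 29), (18, 2, 15), (18, 2, 25), (18, 15, 2), (18, 15, 38), (18, 25, 2), (18, 25, 38), (18, 38, 15), (18, 38, 25), (20, 3, 12), (20, 3, 28), (20, 12, 3), (20, 28, 3)]⟩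
def row354 : Row := ⟨354, 122, 33, 4, [(3, 12, 19), (3, 12, 21), (3, 13, 16), (3, 13, 24), (3, 16, 13), (3, 16, 27), (3, 19, 12), (3, 19, 28), (3, 21, 12), (3, 21, 28), (3, 24, 13), (3, 24, 27), (3, 27, 16), (3, 27, 24), (3, 28, 19), (3, 28, 21), (4, 13, 13), (4, 13, 27), (4, 27, 13), (4, 27, 27), (7, 7, 16), (7, 7, 24), (7, 9, 12), (7, 9, 28), (7, 12, 9), (7, 12, 31), (7, 16, 7), (7, 16, 33), (7, 24, 7), (7, 24, 33), (7, 28, 9), (7, 28, 31), (7, 31, 12), (7, 31, 28), (7, 33, 16), (7, 33, 24), (9, 7, 12), (9, 7, 28), (9, 12, 7), (9, 12, 33), (9, 28, 7), (9, 28, 33), (9, 33, 12), (9, 33, 28), (12, 3, 19), (12, 3, 21), (12, 7, 9), (12, 7, 31), (12, 9, 7), (12, 9, 33), (12, 19, 3), (12, 19, 37), (12, 21, 3), (12, 21, 37), (12, 31, 7), (12, 31, 33), (12, 33, 9), (12, 33, 31), (12, 37, 19), (12, 37, 21), (13, 3, 16), (13, 3, 24), (13, 4, 13), (13, 4, 27), (13, 13, 4), (13, 13,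 36), (13, 16, 3), (13, 16, 37), (13, 24, 3), (13, 24, 37), (13, 27, 4), (13, 27, 36), (13, 36, 13), (13, 36, 27), (13, 37, 16), (13, 37, 24), (16, 3, 13), (16, 3, 27), (16, 7, 7), (16, 7, 33), (16, 13, 3), (16, 13, 37), (16, 27, 3), (16, 27, 37), (16, 33, 7), (16, 33, 33), (19, 3, 12), (19, 3, 28), (19, 12, 3), (19, 12, 37), (21, 3, 12), (21, 3, 28), (21, 12, 3), (21, 12, 37), (24, 3, 13), (24, 3, 27)]⟩
def row355 : Row := ⟨355, 63, 63, 8, [(5, 9, 17), (5, 9, 23), (5, 11, 13), (5, 11, 27), (5, 13, 11), (5, 13, 29), (5, 17, 9), (5, 17, 31), (5, 23, 9), (5, 23, 31), (5, 27, 11), (5, 27, 29), (5, 29, 13), (5, 29, 27), (5, 31, 17), (5, 31, 23), (9, 5, 17), (9, 5, 23), (9, 17, 5), (9, 17, 35), (9, 23, 5), (9, 23, 35), (11, 5, 13), (11, 5, 27), (11, 13, 5), (11, 13, 35), (11, 27, 5), (11, 27, 35), (13, 5, 11), (13, 5, 29), (13, 11, 5), (13, 11, 35), (17, 5, 9), (17, 5, 31), (17,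 9, 5), (17, 9, 35), (23, 5, 9), (23, 5, 31), (23, 9, 5), (23, 9, 35), (27, 5, 11), (27, 5, 29), (27, 11, 5), (27, 11, 35), (29, 5, 13), (29, 5, 27), (31, 5, 17), (31, 5, 23)]⟩
def row356 : Row := ⟨356, 290, 211, 178, [(2, 16, 16), (2, 16, 24), (2, 24, 16), (2, 24, 24), (4, 10, 20), (4, 12, 14), (4, 12, 26), (4, 14, 12), (4, 14, 28), (4, 20, 10), (4, 20, 30), (4, 26, 12), (4, 26, 28), (4, 28, 14), (4, 28, 26), (4, 30, 20), (6, 8, 16), (6, 8, 24), (6, 16, 8), (6, 16, 32), (6, 24, 8), (6, 24, 32), (6, 32, 16), (6, 32, 24), (8, 6, 16), (8, 6, 24), (8, 16, 6), (8, 16, 34), (8, 24, 6), (8, 24, 34), (8, 34, 16), (10, 4, 20), (10, 20, 4), (10, 20, 36), (12, 4, 14), (12, 4, 26), (12, 14, 4), (12, 14, 36), (12, 26, 4), (12, 36, 14), (14, 4, 12), (14, 4, 28), (14, 12, 4), (14, 12, 36), (14, 28, 4), (16, 2, 16), (16, 2, 24), (16, 6, 8), (16, 6, 32), (16, 8, 6), (16, 8, 34), (16, 16,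 2), (16, 24, 2), (16, 32, 6), (16, 34, 8), (20, 4, 10), (20, 4, 30), (20, 10, 4), (20, 30, 4), (24, 2, 16), (24, 2, 24), (24, 6, 8), (24, 8, 6), (24, 16, 2), (24, 24, 2), (26, 4, 12), (26, 4, 28), (26, 12, 4), (28, 4, 14), (28, 14, 4), (30, 4, 20), (32, 6, 16)]⟩
def row357 : Row := ⟨357, 180, 173, 163, [(3, 12, 18), (3, 12, 22), (3, 18, 12), (3, 18, 28), (3, 22, 12), (3, 22, 28), (3, 28, 18), (3, 28, 22), (4, 10, 19), (4, 10, 21), (4, 19, 10), (4, 19, 30), (4, 21, 10), (4, 21, 30), (4, 30, 19), (4, 30, 21), (10, 4, 19), (10, 4, 21), (10, 19, 4), (10, 21, 4), (12, 3, 18), (12, 3, 22), (12, 18, 3), (12, 22, 3), (18, 3, 12), (18, 3, 28), (18, 12, 3), (18, 28, 3), (19, 4, 10), (19, 4, 30), (19, 10, 4), (19, 30, 4), (21, 4, 10), (21, 4, 30), (21, 10, 4), (21, 30, 4), (22, 3, 12), (22, 3, 28), (22, 12, 3), (22, 28, 3), (28, 3, 18), (28, 3, 22), (28, 18, 3), (28, 22, 3), (30,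 4, 19), (30, 4, 21), (30, 19, 4), (30, 21, 4)]⟩
def row358 : Row := ⟨358, 259, 199, 164, [(2, 15, 17), (2, 15, 23), (2, 17, 15), (2, 17, 25), (2, 23, 15), (2, 23, 25), (2, 25, 17), (2, 25, 23), (6, 11, 11), (6, 11, 29), (6, 29, 11), (6, 29, 29), (11, 6, 11), (11, 6, 29), (11, 11, 6), (11, 11, 34), (11, 29, 6), (11, 34, 11), (15, 2, 17), (15, 2, 23), (15, 17, 2), (15, 23, 2), (17, 2, 15), (17, 2, 25), (17, 15, 2), (17, 25, 2), (23, 2, 15), (23, 2, 25), (23, 15, 2), (23, 25, 2), (25, 2, 17), (25, 2, 23), (25, 17, 2), (25, 23, 2), (29, 6, 11), (29, 11, 6)]⟩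
def row359 : Row := ⟨359, 100, 10, 1, []⟩
def row360 : Row := ⟨360, 358, 68, 23, [(2, 14, 20), (2, 20, 14), (2, 20, 26), (2, 26, 20), (4, 10, 18), (4, 10, 22), (4, 18, 10), (4, 18, 30), (4, 22, 10), (4, 22, 30), (4, 30, 18), (4, 30, 22), (6, 10, 12), (6, 10, 28), (6, 12, 10), (6, 12, 30), (6, 28, 10), (6, 28, 30), (6, 30, 12), (6, 30, 28), (10, 4, 18), (10, 4, 22), (10, 6, 12), (10, 6, 28), (10, 12, 6), (10, 12, 34), (10, 18, 4), (10, 18, 36), (10, 22, 4), (10, 22, 36), (10, 28, 6), (10, 28, 34), (10, 34, 12), (10, 34, 28), (10, 36, 18), (10, 36, 22), (12, 6, 10), (12, 6, 30), (12, 10, 6), (12, 10, 34), (12, 30, 6), (12, 30, 34), (12, 34, 10), (12, 34, 30), (14, 2, 20), (14, 20, 2), (14, 20, 38), (14, 38, 20), (18, 4, 10), (18, 4, 30), (18, 10, 4), (18, 10, 36), (18, 30, 4), (20, 2, 14), (20, 2, 26), (20, 14, 2), (20, 26, 2), (22, 4, 10), (22, 4, 30), (22, 10, 4)]⟩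
def row361 : Row := ⟨361, 272, 153, 82, [(1, 20, 20), (2, 14, 19), (2, 14, 21), (2, 19, 14), (2, 19, 26), (2, 21, 14), (2, 21, 26), (2, 26, 19), (2, 26, 21), (3, 14, 14), (3, 14, 26), (3, 26, 14), (3, 26, 26), (5, 10, 14), (5, 10, 26), (5, 14, 10), (5, 14, 30), (5, 26, 10), (5, 26, 30), (5, 30, 14), (5, 30, 26), (10, 5, 14), (10, 5, 26), (10, 14, 5), (10, 14, 35), (10, 26, 5), (10, 26, 35), (10, 35, 14), (14, 2, 19), (14, 2, 21), (14, 3, 14), (14, 3, 26), (14, 5, 10), (14, 5, 30), (14, 10, 5), (14, 10, 35), (14, 14, 3), (14, 14, 37), (14, 19, 2), (14, 19, 38), (14, 21, 2), (14, 21, 38), (14, 26, 3), (14, 30, 5), (14, 35, 10), (19, 2, 14), (19, 2, 26), (19, 14, 2), (19, 26, 2), (20, 1, 20), (20, 20, 1), (21, 2, 14), (21, 2, 26), (21, 14, 2), (21, 26, 2), (26, 2, 19), (26, 2, 21), (26, 3, 14), (26, 3, 26), (26, 5, 10), (26, 10, 5), (26, 14, 3), (30, 5, 14)]⟩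
def row362 : Row := ⟨362, 265, 24, 20, [(1, 19, 20), (1, 20, 19), (1, 20, 21), (1, 21, 20), (3, 12, 17), (3, 12, 23), (3, 17, 12), (3, 17, 28), (3, 23, 12), (3, 23, 28), (3, 28, 17), (3, 28, 23), (4, 11, 15), (4, 11, 25), (4, 15, 11), (4, 15, 29), (4, 25, 11), (4, 25, 29), (4, 29, 15), (4, 29, 25), (5, 9, 16), (5, 9, 24), (5, 16, 9), (5, 16, 31), (5, 24, 9), (5, 24, 31), (5, 31, 16), (5, 31, 24), (7, 8, 13), (7, 8, 27), (7, 13, 8), (7, 13, 32), (7, 27, 8), (7, 27, 32), (7, 32, 13), (7, 32, 27), (8, 7, 13), (8, 7, 27), (8, 13, 7), (8, 13, 33), (8, 27, 7), (8, 27, 33), (8, 33, 13), (8, 33, 27), (9, 5, 16), (9, 5, 24), (9, 16, 5), (9, 16, 35), (9, 24, 5), (9, 24, 35), (9, 35, 16), (9, 35, 24), (11, 4, 15), (11, 4, 25), (11, 15, 4), (11, 15, 36), (11, 25, 4), (11, 25, 36), (11, 36, 15), (11, 36, 25), (12, 3, 17), (12, 3, 23), (12, 17, 3), (12, 17, 37), (12, 23, 3), (12, 23,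 37), (12, 37, 17), (12, 37, 23), (13, 7, 8), (13, 7, 32), (13, 8, 7), (13, 8, 33), (13, 32, 7), (13, 32, 33), (13, 33, 8), (13, 33, 32), (15, 4, 11), (15, 4, 29), (15, 11, 4), (15, 11, 36), (15, 29, 4), (15, 29, 36), (15, 36, 11), (15, 36, 29), (16, 5, 9), (16, 5, 31), (16, 9, 5), (16, 9, 35), (16, 31, 5), (16, 31, 35), (16, 35, 9), (16, 35, 31), (17, 3, 12), (17, 3, 28), (17, 12, 3), (17, 12, 37), (17, 28, 3), (17, 28, 37), (17, 37, 12), (17, 37, 28), (19, 1, 20), (19, 20, 1), (20, 1, 19), (20, 1, 21), (20, 19, 1), (20, 21, 1), (21, 1, 20), (21, 20, 1)]⟩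
def row363 : Row := ⟨363, 226, 148, 9, [(1, 19, 19), (1, 19, 21), (1, 21, 19), (1, 21, 21), (3, 13, 15), (3, 13, 25), (3, 15, 13), (3, 15, 27), (3, 25, 13), (3, 25, 27), (3, 27, 15), (3, 27, 25), (7, 7, 15), (7, 7, 25), (7, 15, 7), (7, 15, 33), (7, 25, 7), (7, 25, 33), (7, 33, 15), (7, 33, 25), (9, 9, 9), (9, 9, 31), (9, 31, 9), (9, 31, 31), (13, 3, 15), (13, 3, 25), (13, 15, 3), (13, 15, 37), (13, 25, 3), (13, 25, 37), (15, 3, 13), (15, 3, 27), (15, 7, 7), (15, 7, 33), (15, 13, 3), (15, 13, 37), (15, 27, 3), (19, 1, 19), (19, 1, 21), (19, 19, 1), (19, 19, 39), (19, 21, 1), (21, 1, 19), (21, 1, 21), (21, 19, 1), (25, 3, 13), (25, 3, 27), (25, 7, 7), (25, 7, 33), (25, 13, 3), (27, 3, 15), (27, 3, 25)]⟩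
def row364 : Row := ⟨364, 255, 234, 98, [(2, 14, 18), (2, 14, 22), (2, 18, 14), (2, 18, 26), (2, 22, 14), (2, 22, 26), (2, 26, 18), (2, 26, 22), (14, 2, 18), (14, 2, 22), (14, 18, 2), (14, 18, 38), (14, 22, 2), (18, 2, 14), (18, 2, 26), (18, 14, 2), (18, 14, 38), (18, 26, 2), (22, 2, 14), (22, 2, 26), (22, 14, 2), (26, 2, 18), (26, 2, 22), (26, 18, 2)]⟩
def row365 : Row := ⟨365, 253, 26, 20, [(1, 18, 20), (1, 20, 18), (1, 20, 22), (1, 22, 20), (2, 15, 16), (2, 15, 24), (2, 16, 15), (2, 16, 25), (2, 24, 15), (2, 24, 25), (2, 25, 16), (2, 25, 24), (4, 10, 17), (4, 10, 23), (4, 17, 10), (4, 17, 30), (4, 23, 10), (4, 23, 30), (4, 30, 17), (4, 30, 23), (6, 7, 20), (6, 8, 15), (6, 8, 25), (6, 15, 8), (6, 15, 32), (6, 20, 7), (6, 20, 33), (6, 25, 8), (6, 25, 32), (6, 32, 15), (6, 32, 25), (6, 33, 20), (7, 6, 20), (7, 20, 6), (7, 20, 34), (7, 34, 20), (8, 6, 15), (8, 6, 25), (8,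 9, 10), (8, 9, 30), (8, 10, 9), (8, 10, 31), (8, 15, 6), (8, 15, 34), (8, 25, 6), (8, 25, 34), (8, 30, 9), (8, 30, 31), (8, 31, 10), (8, 31, 30), (8, 34, 15), (8, 34, 25), (9, 8, 10), (9, 8, 30), (9, 10, 8), (9, 10, 32), (9, 30, 8), (9, 30, 32), (9, 32, 10), (9, 32, 30), (10, 4, 17), (10, 4, 23), (10, 8, 9), (10, 8, 31), (10, 9, 8), (10, 9, 32), (10, 17, 4), (10, 17, 36), (10, 23, 4), (10, 23, 36), (10, 31, 8), (10, 31, 32), (10, 32, 9), (10, 32, 31), (10, 36, 17), (10, 36, 23), (15, 2, 16), (15, 2, 24), (15, 6, 8), (15, 6, 32), (15, 8, 6), (15, 8, 34), (15, 16, 2), (15, 16, 38), (15, 24, 2), (15, 24, 38), (15, 32, 6), (15, 32, 34), (15, 34, 8), (15, 34, 32), (15, 38, 16), (15, 38, 24), (16, 2, 15), (16, 2, 25), (16, 15, 2), (16, 15, 38), (16, 25, 2), (16, 25, 38), (16, 38, 15), (16, 38, 25), (17, 4, 10), (17, 4, 30), (17, 10, 4), (17, 10, 36), (17, 30, 4), (17, 30, 36),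 (17, 36, 10), (17, 36, 30), (18, 1, 20), (18, 20, 1), (18, 20, 39), (18, 39, 20), (20, 1, 18), (20, 1, 22), (20, 6, 7), (20, 6, 33), (20, 7, 6), (20, 7, 34), (20, 18, 1), (20, 22, 1)]⟩
def row366 : Row := ⟨366, 314, 100, 48, [(1, 18, 19), (1, 18, 21), (1, 19, 18), (1, 19, 22), (1, 21, 18), (1, 21, 22), (1, 22, 19), (1, 22, 21), (6, 7, 19), (6, 7, 21), (6, 9, 13), (6, 9, 27), (6, 13, 9), (6, 13, 31), (6, 19, 7), (6, 19, 33), (6, 21, 7), (6, 21, 33), (6, 27, 9), (6, 27, 31), (6, 31, 13), (6, 31, 27), (6, 33, 19), (6, 33, 21), (7, 6, 19), (7, 6, 21), (7, 19, 6), (7, 19, 34), (7, 21, 6), (7, 21, 34), (7, 34, 19), (7, 34, 21), (9, 6, 13), (9, 6, 27), (9, 13, 6), (9, 13, 34), (9, 27, 6), (9, 27, 34), (9, 34, 13), (9, 34, 27), (13, 6, 9), (13, 6, 31), (13, 9, 6), (13, 9, 34), (13, 31, 6), (13, 31, 34), (13, 34, 9), (13, 34, 31), (18, 1, 19), (18, 1, 21), (18, 19, 1), (18, 21,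 1), (19, 1, 18), (19, 1, 22), (19, 6, 7), (19, 6, 33), (19, 7, 6), (19, 7, 34), (19, 18, 1), (19, 22, 1), (21, 1, 18), (21, 1, 22), (21, 6, 7), (21, 6, 33), (21, 7, 6), (21, 7, 34), (21, 18, 1), (21, 22, 1), (22, 1, 19), (22, 1, 21), (22, 19, 1), (22, 21, 1)]⟩
def row367 : Row := ⟨367, 100, 10, 1, []⟩
def row368 : Row := ⟨368, 100, 10, 1, []⟩
def row369 : Row := ⟨369, 313, 79, 23, [(1, 18, 18), (1, 18, 22), (1, 22, 18), (1, 22, 22), (2, 14, 17), (2, 14, 23), (2, 17, 14), (2, 17, 26), (2, 23, 14), (2, 23, 26), (2, 26, 17), (2, 26, 23), (3, 12, 16), (3, 12, 24), (3, 16, 12), (3, 16, 28), (3, 24, 12), (3, 24, 28), (3, 28, 16), (3, 28, 24), (4, 12, 13), (4, 12, 27), (4, 13, 12), (4, 13, 28), (4, 27, 12), (4, 27, 28), (4, 28, 13), (4, 28, 27), (5, 8, 20), (5, 20, 8), (5, 20, 32), (5, 32, 20), (6, 7, 18), (6, 7, 22), (6, 18, 7), (6, 18, 33), (6, 22, 7), (6, 22, 33), (6, 33, 18),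 (6, 33, 22), (7, 6, 18), (7, 6, 22), (7, 10, 10), (7, 10, 30), (7, 18, 6), (7, 18, 34), (7, 22, 6), (7, 22, 34), (7, 30, 10), (7, 30, 30), (7, 34, 18), (7, 34, 22), (8, 5, 20), (8, 8, 11), (8, 8, 29), (8, 11, 8), (8, 11, 32), (8, 20, 5), (8, 20, 35), (8, 29, 8), (8, 29, 32), (8, 32, 11), (8, 32, 29), (8, 35, 20), (10, 7, 10), (10, 7, 30), (10, 10, 7), (10, 10, 33), (10, 30, 7), (10, 30, 33), (10, 33, 10), (10, 33, 30), (11, 8, 8), (11, 8, 32), (11, 32, 8), (11, 32, 32), (12, 3, 16), (12, 3, 24), (12, 4, 13), (12, 4, 27), (12, 13, 4), (12, 13, 36), (12, 16, 3), (12, 16, 37), (12, 24, 3), (12, 24, 37), (12, 27, 4), (12, 27, 36), (12, 36, 13), (12, 36, 27), (12, 37, 16), (12, 37, 24), (13, 4, 12), (13, 4, 28), (13, 12, 4), (13, 12, 36), (13, 28, 4), (13, 28, 36), (13, 36, 12), (13, 36, 28), (14, 2, 17), (14, 2, 23), (14, 17, 2), (14, 17, 38), (14, 23, 2), (14, 23, 38), (14,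 38, 17), (14, 38, 23), (16, 3, 12), (16, 3, 28), (16, 12, 3), (16, 12, 37), (16, 28, 3), (16, 28, 37), (16, 37, 12), (17, 2, 14), (17, 2, 26), (17, 14, 2), (17, 14, 38), (17, 26, 2), (17, 26, 38), (18, 1, 18), (18, 1, 22), (18, 6, 7), (18, 6, 33), (18, 7, 6), (18, 7, 34), (18, 18, 1), (18, 18, 39), (18, 22, 1), (18, 22, 39), (20, 5, 8), (20, 5, 32), (20, 8, 5), (20, 8, 35), (22, 1, 18), (22, 1, 22), (22, 6, 7), (22, 6, 33), (22, 7, 6), (22, 7, 34), (23, 2, 14), (23, 2, 26), (24, 3, 12)]⟩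
def row370 : Row := ⟨370, 363, 305, 5, [(1, 17, 20), (1, 20, 17), (1, 20, 23), (1, 23, 20), (3, 11, 20), (3, 20, 11), (3, 20, 29), (3, 29, 20), (5, 8, 19), (5, 8, 21), (5, 11, 12), (5, 11, 28), (5, 12, 11), (5, 12, 29), (5, 19, 8), (5, 19, 32), (5, 21, 8), (5, 21, 32), (5, 28, 11), (5, 28, 29), (5, 29, 12), (5, 29, 28), (5, 32, 19), (5, 32, 21), (8, 5, 19), (8, 5, 21), (8, 19, 5), (8, 19, 35), (8, 21, 5), (8, 21, 35), (11, 3, 20), (11, 5, 12), (11, 5, 28), (11, 12, 5), (11, 12, 35), (11, 20, 3), (11, 20, 37), (11, 28, 5), (11, 28, 35), (12, 5, 11), (12, 5, 29), (12, 11, 5), (12, 11, 35), (12, 29, 5), (12, 29, 35), (17, 1, 20), (17, 20, 1), (17, 20, 39), (19, 5, 8), (19, 5, 32), (19, 8, 5), (19, 8, 35), (20, 1, 17), (20, 1, 23), (20, 3, 11), (20, 3, 29), (20, 11, 3), (20, 11, 37), (20, 17, 1), (20, 17, 39), (21, 5, 8), (21, 5, 32), (21, 8, 5), (21, 8, 35), (23, 1, 20), (28,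 5, 11), (28, 5, 29), (29, 3, 20), (29, 5, 12), (29, 5, 28), (32, 5, 19), (32, 5, 21)]⟩
def row371 : Row := ⟨371, 319, 316, 314, [(1, 17, 19), (1, 17, 21), (1, 19, 17), (1, 19, 23), (1, 21, 17), (1, 21, 23), (1, 23, 19), (1, 23, 21), (3, 11, 19), (3, 11, 21), (3, 19, 11), (3, 19, 29), (3, 21, 11), (3, 21, 29), (3, 29, 19), (3, 29, 21), (5, 9, 15), (5, 9, 25), (5, 15, 9), (5, 15, 31), (5, 25, 9), (5, 31, 15), (7, 9, 11), (7, 9, 29), (7, 11, 9), (7, 11, 31), (7, 29, 9), (7, 31, 11), (9, 5, 15), (9, 5, 25), (9, 7, 11), (9, 7, 29), (9, 11, 7), (9, 11, 33), (9, 15, 5), (9, 15, 35), (9, 25, 5), (9, 29, 7), (9, 33, 11), (9, 35, 15), (11, 3, 19), (11, 3, 21), (11, 7, 9), (11, 7, 31), (11, 9, 7), (11, 9, 33), (11, 19, 3), (11, 21, 3), (11, 31, 7), (11, 33, 9), (15, 5, 9), (15, 5, 31), (15, 9, 5), (15, 9, 35), (15, 31, 5), (15, 35, 9), (17, 1, 19), (17, 1, 21), (17, 19, 1), (17, 21,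 1), (19, 1, 17), (19, 1, 23), (19, 3, 11), (19, 3, 29), (19, 11, 3), (19, 17, 1), (19, 23, 1), (19, 29, 3), (21, 1, 17), (21, 1, 23), (21, 3, 11), (21, 3, 29), (21, 11, 3), (21, 17, 1), (21, 23, 1), (21, 29, 3), (23, 1, 19), (23, 1, 21), (23, 19, 1), (23, 21, 1), (25, 5, 9), (25, 9, 5), (29, 3, 19), (29, 3, 21), (29, 7, 9), (29, 9, 7), (29, 19, 3), (29, 21, 3), (31, 5, 15), (31, 7, 11), (31, 11, 7), (31, 15, 5), (33, 9, 11), (33, 11, 9), (35, 9, 15), (35, 15, 9)]⟩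
def row372 : Row := ⟨372, 371, 54, 19, [(4, 10, 16), (4, 10, 24), (4, 16, 10), (4, 16, 30), (4, 24, 10), (4, 24, 30), (4, 30, 16), (4, 30, 24), (10, 4, 16), (10, 4, 24), (10, 16, 4), (10, 16, 36), (10, 24, 4), (10, 24, 36), (10, 36, 16), (10, 36, 24), (16, 4, 10), (16, 4, 30), (16, 10, 4), (16, 10, 36), (16, 30, 4), (16, 30, 36), (16, 36, 10), (16, 36, 30)]⟩
def row373 : Row := ⟨373, 342, 26, 3, [(2, 13, 20), (2, 20, 13), (2, 20, 27), (2, 27, 20), (4, 11, 14), (4, 11, 26), (4, 14, 11), (4, 14, 29), (4, 26, 11), (4, 26, 29), (4, 29, 14), (4, 29, 26), (5, 8, 18), (5, 8, 22), (5, 18, 8), (5, 18, 32), (5, 22, 8), (5, 22, 32), (5, 32, 18), (5, 32, 22), (8, 5, 18), (8, 5, 22), (8, 18, 5), (8, 18, 35), (8, 22, 5), (8, 22, 35), (8, 35, 18), (8, 35, 22), (11, 4, 14), (11, 4, 26), (11, 14, 4), (11, 14, 36), (11, 26, 4), (11, 26, 36), (11, 36, 14), (11, 36, 26), (13, 2, 20), (13,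 20, 2), (13, 20, 38), (13, 38, 20), (14, 4, 11), (14, 4, 29), (14, 11, 4), (14, 11, 36), (14, 29, 4), (14, 29, 36), (14, 36, 11), (14, 36, 29), (18, 5, 8), (18, 5, 32), (18, 8, 5), (18, 8, 35), (18, 32, 5), (18, 32, 35), (18, 35, 8), (18, 35, 32), (20, 2, 13), (20, 2, 27), (20, 13, 2), (20, 13, 38)]⟩
def row374 : Row := ⟨374, 343, 16, 1, [(1, 17, 18), (1, 17, 22), (1, 18, 17), (1, 18, 23), (1, 22, 17), (1, 22, 23), (1, 23, 18), (1, 23, 22), (2, 13, 19), (2, 13, 21), (2, 15, 15), (2, 15, 25), (2, 19, 13), (2, 19, 27), (2, 21, 13), (2, 21, 27), (2, 25, 15), (2, 25, 25), (2, 27, 19), (2, 27, 21), (3, 11, 18), (3, 11, 22), (3, 13, 14), (3, 13, 26), (3, 14, 13), (3, 14, 27), (3, 18, 11), (3, 18, 29), (3, 22, 11), (3, 22, 29), (3, 26, 13), (3, 26, 27), (3, 27, 14), (3, 27, 26), (3, 29, 18), (3, 29, 22), (5, 10, 13), (5, 10, 27), (5, 13, 10), (5, 13, 30), (5, 27, 10), (5, 27,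 30), (5, 30, 13), (5, 30, 27), (6, 7, 17), (6, 7, 23), (6, 17, 7), (6, 17, 33), (6, 23, 7), (6, 23, 33), (6, 33, 17), (6, 33, 23), (7, 6, 17), (7, 6, 23), (7, 7, 14), (7, 7, 26), (7, 14, 7), (7, 14, 33), (7, 17, 6), (7, 17, 34), (7, 23, 6), (7, 23, 34), (7, 26, 7), (7, 26, 33), (7, 33, 14), (7, 33, 26), (7, 34, 17), (7, 34, 23), (10, 5, 13), (10, 5, 27), (10, 13, 5), (10, 13, 35), (10, 27, 5), (10, 27, 35), (10, 35, 13), (10, 35, 27), (11, 3, 18), (11, 3, 22), (11, 18, 3), (11, 18, 37), (11, 22, 3), (11, 22, 37), (11, 37, 18), (11, 37, 22), (13, 2, 19), (13, 2, 21), (13, 3, 14), (13, 3, 26), (13, 5, 10), (13, 5, 30), (13, 10, 5), (13, 10, 35), (13, 14, 3), (13, 14, 37), (13, 19, 2), (13, 19, 38), (13, 21, 2), (13, 21, 38), (13, 26, 3), (13, 26, 37), (13, 30, 5), (13, 30, 35), (13, 35, 10), (13, 35, 30), (13, 37, 14), (13, 37, 26), (13, 38, 19), (13, 38, 21), (14, 3, 13),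 (14, 3, 27), (14, 7, 7), (14, 7, 33), (14, 13, 3), (14, 13, 37), (14, 27, 3), (14, 27, 37), (14, 33, 7), (14, 33, 33), (14, 37, 13), (14, 37, 27), (15, 2, 15), (15, 2, 25), (15, 15, 2), (15, 15, 38), (15, 25, 2), (15, 25, 38), (15, 38, 15), (15, 38, 25), (17, 1, 18), (17, 1, 22), (17, 6, 7), (17, 6, 33), (17, 7, 6), (17, 7, 34), (17, 18, 1), (17, 18, 39), (17, 22, 1), (17, 22, 39), (17, 33, 6), (17, 33, 34), (17, 34, 7), (17, 34, 33), (17, 39, 18), (17, 39, 22), (18, 1, 17), (18, 1, 23), (18, 3, 11), (18, 3, 29), (18, 11, 3), (18, 11, 37), (18, 17, 1), (18, 17, 39), (18, 23, 1), (18, 23, 39), (18, 29, 3), (18, 29, 37), (18, 37, 11), (18, 37, 29), (18, 39, 17), (18, 39, 23), (19, 2, 13), (19, 2, 27), (19, 13, 2), (19, 13, 38), (19, 27, 2), (19, 27, 38), (19, 38, 13), (19, 38, 27)]⟩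
def row375 : Row := ⟨375, 100, 10, 1, []⟩
def row376 : Row := ⟨376, 279, 275, 243, [(2, 14, 16), (2, 14, 24), (2, 16, 14), (2, 16, 26), (2, 24, 14), (2, 24, 26), (2, 26, 16), (2, 26, 24), (6, 8, 14), (6, 8, 26), (6, 14, 8), (6, 14, 32), (6, 26, 8), (6, 32, 14), (8, 6, 14), (8, 6, 26), (8, 14, 6), (8, 14, 34), (8, 26, 6), (8, 34, 14), (14, 2, 16), (14, 2, 24), (14, 6, 8), (14, 6, 32), (14, 8, 6), (14, 8, 34), (14, 16, 2), (14, 24, 2), (14, 32, 6), (14, 34, 8), (16, 2, 14), (16, 2, 26), (16, 14, 2), (16, 26, 2), (24, 2, 14), (24, 2, 26), (24, 14, 2), (24, 26, 2), (26, 2, 16), (26, 2, 24), (26, 6, 8), (26, 8, 6), (26, 16, 2), (26, 24, 2), (32, 6, 14), (32, 14, 6), (34, 8, 14), (34, 14, 8)]⟩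
def row377 : Row := ⟨377, 382, 51, 24, [(1, 16, 20), (1, 20, 16), (1, 20, 24), (1, 24, 20), (2, 13, 18), (2, 13, 22), (2, 18, 13), (2, 18, 27), (2, 22, 13), (2, 22, 27), (2, 27, 18), (2, 27, 22), (4, 9, 20), (4, 20, 9), (4, 20, 31), (4, 31, 20), (6, 10, 11), (6, 10, 29), (6, 11, 10), (6, 11, 30), (6, 29, 10), (6, 29, 30), (6, 30, 11), (6, 30, 29), (7, 8, 12), (7, 8, 28), (7, 12, 8), (7, 12, 32), (7, 28, 8), (7, 28, 32), (7, 32, 12), (7, 32, 28), (8, 7, 12), (8, 7, 28), (8, 12, 7), (8, 12, 33), (8, 28, 7), (8, 28, 33), (8, 33, 12), (8, 33, 28), (9, 4, 20), (9, 20, 4), (9, 20, 36), (9, 36, 20), (10, 6, 11), (10, 6, 29), (10, 11, 6), (10, 11, 34), (10, 29, 6), (10, 29, 34), (10, 34, 11), (10, 34, 29), (11, 6, 10), (11, 6, 30), (11, 10, 6), (11, 10, 34), (11, 30, 6), (11, 30, 34), (11, 34, 10), (11, 34, 30), (12, 7, 8), (12, 7, 32), (12, 8, 7), (12, 8, 33), (12, 32, 7), (12,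 32, 33), (12, 33, 8), (12, 33, 32), (13, 2, 18), (13, 2, 22), (13, 18, 2), (13, 18, 38), (13, 22, 2), (13, 22, 38), (13, 38, 18), (13, 38, 22), (16, 1, 20), (16, 20, 1), (16, 20, 39), (16, 39, 20), (18, 2, 13), (18, 2, 27), (18, 13, 2), (18, 13, 38), (18, 27, 2), (18, 38, 13), (20, 1, 16), (20, 1, 24), (20, 4, 9), (20, 4, 31), (20, 9, 4), (20, 9, 36), (20, 16, 1), (20, 24, 1), (22, 2, 13), (22, 13, 2)]⟩
def row378 : Row := ⟨378, 382, 125, 75, [(1, 16, 19), (1, 16, 21), (1, 19, 16), (1, 19, 24), (1, 21, 16), (1, 21, 24), (1, 24, 19), (1, 24, 21), (3, 12, 15), (3, 12, 25), (3, 15, 12), (3, 15, 28), (3, 25, 12), (3, 25, 28), (3, 28, 15), (3, 28, 25), (4, 9, 19), (4, 9, 21), (4, 19, 9), (4, 19, 31), (4, 21, 9), (4, 21, 31), (4, 31, 19), (4, 31, 21), (5, 8, 17), (5, 8, 23), (5, 17, 8), (5, 17, 32), (5, 23, 8), (5, 23, 32), (5, 32, 17), (5, 32, 23), (8, 5, 17), (8, 5, 23), (8,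 17, 5), (8, 17, 35), (8, 23, 5), (8, 23, 35), (8, 35, 17), (8, 35, 23), (9, 4, 19), (9, 4, 21), (9, 19, 4), (9, 19, 36), (9, 21, 4), (9, 21, 36), (9, 36, 19), (9, 36, 21), (12, 3, 15), (12, 3, 25), (12, 15, 3), (12, 15, 37), (12, 25, 3), (12, 25, 37), (12, 37, 15), (12, 37, 25), (15, 3, 12), (15, 3, 28), (15, 12, 3), (15, 12, 37), (15, 28, 3), (15, 37, 12), (16, 1, 19), (16, 1, 21), (16, 19, 1), (16, 19, 39), (16, 21, 1), (17, 5, 8), (17, 5, 32), (17, 8, 5), (17, 8, 35), (17, 32, 5), (17, 35, 8), (19, 1, 16), (19, 1, 24), (19, 4, 9), (19, 4, 31), (19, 9, 4), (19, 9, 36), (19, 16, 1), (19, 24, 1), (19, 31, 4), (21, 1, 16), (21, 1, 24), (21, 4, 9), (21, 4, 31), (21, 9, 4), (21, 16, 1), (21, 24, 1), (23, 5, 8), (23, 8, 5), (24, 1, 19), (24, 1, 21), (24, 19, 1), (25, 3, 12), (25, 12, 3)]⟩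
def row379 : Row := ⟨379, 336, 324, 46, [(1, 17, 17), (1, 17, 23), (1, 23, 17), (1, 23, 23), (3, 11, 17), (3, 11, 23), (3, 17, 11), (3, 17, 29), (3, 23, 11), (3, 23, 29), (3, 29, 17), (3, 29, 23), (11, 3, 17), (11, 3, 23), (11, 17, 3), (11, 17, 37), (11, 23, 3), (11, 23, 37), (17, 1, 17), (17, 1, 23), (17, 3, 11), (17, 3, 29), (17, 11, 3), (17, 11, 37), (17, 17, 1), (17, 17, 39), (17, 23, 1), (23, 1, 17), (23, 1, 23), (23, 3, 11), (23, 3, 29), (23, 11, 3), (23, 11, 37), (23, 17, 1), (29, 3, 17), (29, 3, 23)]⟩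
def row380 : Row := ⟨380, 100, 10, 1, []⟩
def row381 : Row := ⟨381, 278, 73, 6, [(1, 16, 18), (1, 16, 22), (1, 18, 16), (1, 18, 24), (1, 22, 16), (1, 22, 24), (1, 24, 18), (1, 24, 22), (4, 9, 18), (4, 9, 22), (4, 10, 15), (4, 10, 25), (4, 15, 10), (4, 15, 30), (4, 18, 9), (4, 18, 31), (4, 22, 9), (4, 22, 31), (4, 25, 10), (4, 25, 30), (4, 30, 15), (4, 30, 25), (4, 31, 18), (4, 31, 22), (6, 7, 16), (6, 7, 24), (6, 9, 12), (6, 9, 28), (6, 12, 9), (6, 12, 31), (6, 16, 7), (6, 16, 33), (6, 24, 7), (6, 24, 33), (6, 28, 9), (6, 28, 31), (6, 31, 12), (6, 31, 28), (6, 33, 16), (6, 33, 24), (7, 6, 16), (7, 6, 24), (7, 16, 6), (7, 16, 34), (7, 24, 6), (7, 24, 34), (7, 34, 16), (7, 34, 24), (9, 4, 18), (9, 4, 22), (9, 6, 12), (9, 6, 28), (9, 12, 6), (9, 12, 34), (9, 18, 4), (9, 18, 36), (9, 22, 4), (9, 22, 36), (9, 28, 6), (9, 28, 34), (9, 34, 12), (9, 34, 28), (9, 36, 18), (9, 36,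 22), (10, 4, 15), (10, 4, 25), (10, 15, 4), (10, 15, 36), (10, 25, 4), (10, 25, 36), (10, 36, 15), (10, 36, 25), (12, 6, 9), (12, 6, 31), (12, 9, 6), (12, 9, 34), (12, 31, 6), (12, 31, 34), (12, 34, 9), (12, 34, 31), (15, 4, 10), (15, 4, 30), (15, 10, 4), (15, 10, 36), (15, 30, 4), (15, 30, 36), (15, 36, 10), (15, 36, 30), (16, 1, 18), (16, 1, 22), (16, 6, 7), (16, 6, 33), (16, 7, 6), (16, 7, 34), (16, 18, 1), (16, 18, 39), (16, 22, 1), (16, 22, 39), (16, 33, 6), (16, 33, 34), (16, 34, 7), (16, 34, 33), (18, 1, 16), (18, 1, 24), (18, 4, 9), (18, 4, 31), (18, 9, 4), (18, 9, 36), (18, 16, 1), (18, 16, 39), (18, 24, 1), (18, 24, 39), (22, 1, 16), (22, 1, 24), (22, 4, 9), (22, 4, 31), (22, 9, 4), (22, 9, 36), (24, 1, 18), (24, 1, 22)]⟩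
def row382 : Row := ⟨382, 353, 351, 311, [(2, 13, 17), (2, 13, 23), (2, 17, 13), (2, 17, 27), (2, 23, 13), (2, 23, 27), (2, 27, 17), (2, 27, 23), (5, 9, 14), (5, 9, 26), (5, 14, 9), (5, 14, 31), (5, 26, 9), (5, 31, 14), (9, 5, 14), (9, 5, 26), (9, 14, 5), (9, 14, 35), (9, 26, 5), (9, 35, 14), (13, 2, 17), (13, 2, 23), (13, 17, 2), (13, 23, 2), (14, 5, 9), (14, 5, 31), (14, 9, 5), (14, 9, 35), (14, 31, 5), (14, 35, 9), (17, 2, 13), (17, 2, 27), (17, 13, 2), (17, 27, 2), (23, 2, 13), (23, 2, 27), (23, 13, 2), (23, 27, 2), (26, 5, 9), (26, 9, 5), (27, 2, 17), (27, 2, 23), (27, 17, 2), (27, 23, 2), (31, 5, 14), (31, 14, 5), (35, 9, 14), (35, 14, 9)]⟩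
def row383 : Row := ⟨383, 100, 10, 1, []⟩
def row384 : Row := ⟨384, 272, 124, 73, [(4, 12, 12), (4, 12, 28), (4, 28, 12), (4, 28, 28), (12, 4, 12), (12, 4, 28), (12, 12, 4), (12, 12, 36), (12, 28, 4), (12, 28, 36), (12, 36, 12), (28, 4, 12)]⟩
def row385 : Row := ⟨385, 358, 19, 2, [(2, 14, 15), (2, 14, 25), (2, 15, 14), (2, 15, 26), (2, 25, 14), (2, 25, 26), (2, 26, 15), (2, 26, 25), (5, 8, 16), (5, 8, 24), (5, 16, 8), (5, 16, 32), (5, 24, 8), (5, 24, 32), (5, 32, 16), (5, 32, 24), (8, 5, 16), (8, 5, 24), (8, 16, 5), (8, 16, 35), (8, 24, 5), (8, 24, 35), (8, 35, 16), (8, 35, 24), (14, 2, 15), (14, 2, 25), (14, 15, 2), (14, 15, 38), (14, 25, 2), (14, 25, 38), (14, 38, 15), (14, 38, 25), (15, 2, 14), (15, 2, 26), (15, 14, 2), (15, 14, 38), (15, 26, 2), (15, 26, 38), (15, 38, 14), (15, 38, 26), (16, 5, 8), (16, 5, 32), (16, 8, 5), (16, 8, 35), (16, 32, 5), (16, 32, 35), (16,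 35, 8), (16, 35, 32)]⟩
def row386 : Row := ⟨386, 312, 50, 0, [(1, 15, 20), (1, 16, 17), (1, 16, 23), (1, 17, 16), (1, 17, 24), (1, 20, 15), (1, 20, 25), (1, 23, 16), (1, 23, 24), (1, 24, 17), (1, 24, 23), (1, 25, 20), (3, 11, 16), (3, 11, 24), (3, 16, 11), (3, 16, 29), (3, 24, 11), (3, 24, 29), (3, 29, 16), (3, 29, 24), (4, 9, 17), (4, 9, 23), (4, 11, 13), (4, 11, 27), (4, 13, 11), (4, 13, 29), (4, 17, 9), (4, 17, 31), (4, 23, 9), (4, 23, 31), (4, 27, 11), (4, 27, 29), (4, 29, 13), (4, 29, 27), (4, 31, 17), (4, 31, 23), (8, 9, 9), (8, 9, 31), (8, 31, 9), (8, 31, 31), (9, 4, 17), (9, 4, 23), (9, 8, 9), (9, 8, 31), (9, 9, 8), (9, 9, 32), (9, 17, 4), (9, 17, 36), (9, 23, 4), (9, 23, 36), (9, 31, 8), (9, 31, 32), (9, 32, 9), (9, 32, 31), (9, 36, 17), (9, 36, 23), (11, 3, 16), (11, 3, 24), (11, 4, 13), (11, 4, 27), (11, 13, 4), (11, 13, 36), (11, 16, 3), (11, 16, 37), (11, 24,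 3), (11, 24, 37), (11, 27, 4), (11, 27, 36), (11, 36, 13), (11, 36, 27), (11, 37, 16), (11, 37, 24), (13, 4, 11), (13, 4, 29), (13, 11, 4), (13, 11, 36), (13, 29, 4), (13, 29, 36), (13, 36, 11), (13, 36, 29), (15, 1, 20), (15, 20, 1), (15, 20, 39), (15, 39, 20), (16, 1, 17), (16, 1, 23), (16, 3, 11), (16, 3, 29), (16, 11, 3), (16, 11, 37), (16, 17, 1), (16, 17, 39), (16, 23, 1), (16, 23, 39), (16, 29, 3), (16, 29, 37), (16, 37, 11), (16, 37, 29), (16, 39, 17), (16, 39, 23), (17, 1, 16), (17, 1, 24), (17, 4, 9), (17, 4, 31), (17, 9, 4), (17, 9, 36), (17, 16, 1), (17, 16, 39), (17, 24, 1), (17, 24, 39), (17, 31, 4), (17, 31, 36), (17, 36, 9), (17, 36, 31), (20, 1, 15), (20, 1, 25), (20, 15, 1), (20, 15, 39), (23, 1, 16), (23, 1, 24)]⟩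
def row387 : Row := ⟨387, 196, 151, 7, [(1, 15, 19), (1, 15, 21), (1, 19, 15), (1, 19, 25), (1, 21, 15), (1, 21, 25), (1, 25, 19), (1, 25, 21), (3, 13, 13), (3, 13, 27), (3, 27, 13), (3, 27, 27), (5, 11, 11), (5, 11, 29), (5, 29, 11), (5, 29, 29), (7, 7, 13), (7, 7, 27), (7, 13, 7), (7, 13, 33), (7, 27, 7), (7, 27, 33), (7, 33, 13), (7, 33, 27), (11, 5, 11), (11, 5, 29), (11, 11, 5), (11, 11, 35), (11, 29, 5), (11, 29, 35), (13, 3, 13), (13, 3, 27), (13, 7, 7), (13, 7, 33), (13, 13, 3), (13, 13, 37), (13, 27, 3), (13, 27, 37), (15, 1, 19), (15, 1, 21), (15, 19, 1), (15, 19, 39), (15, 21, 1), (15, 21, 39), (19, 1, 15), (19, 1, 25), (19, 15, 1), (19, 15, 39), (21, 1, 15), (21, 1, 25), (21, 15, 1), (21, 15, 39), (25, 1, 19), (25, 1, 21), (27, 3, 13), (27, 3, 27), (27, 7, 7), (27, 7, 33), (29, 5, 11), (29, 5, 29)]⟩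
def row388 : Row := ⟨388, 219, 145, 48, [(2, 12, 20), (2, 20, 12), (2, 20, 28), (2, 28, 20), (8, 8, 10), (8, 8, 30), (8, 10, 8), (8, 10, 32), (8, 30, 8), (8, 30, 32), (8, 32, 10), (8, 32, 30), (10, 8, 8), (10, 8, 32), (10, 32, 8), (12, 2, 20), (12, 20, 2), (12, 20, 38), (20, 2, 12), (20, 2, 28), (20, 12, 2), (20, 12, 38), (28, 2, 20), (30, 8, 8)]⟩
def row389 : Row := ⟨389, 260, 41, 1, [(2, 12, 19), (2, 12, 21), (2, 13, 16), (2, 13, 24), (2, 16, 13), (2, 16, 27), (2, 19, 12), (2, 19, 28), (2, 21, 12), (2, 21, 28), (2, 24, 13), (2, 24, 27), (2, 27, 16), (2, 27, 24), (2, 28, 19), (2, 28, 21), (3, 10, 20), (3, 12, 14), (3, 12, 26), (3, 14, 12), (3, 14, 28), (3, 20, 10), (3, 20, 30), (3, 26, 12), (3, 26, 28), (3, 28, 14), (3, 28, 26), (3, 30, 20), (5, 10, 12), (5, 10, 28), (5, 12, 10), (5, 12, 30), (5, 28, 10), (5, 28, 30), (5, 30, 12), (5, 30, 28), (6, 8, 13), (6, 8, 27), (6,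 13, 8), (6, 13, 32), (6, 27, 8), (6, 27, 32), (6, 32, 13), (6, 32, 27), (8, 6, 13), (8, 6, 27), (8, 13, 6), (8, 13, 34), (8, 27, 6), (8, 27, 34), (8, 34, 13), (8, 34, 27), (10, 3, 20), (10, 5, 12), (10, 5, 28), (10, 12, 5), (10, 12, 35), (10, 20, 3), (10, 20, 37), (10, 28, 5), (10, 28, 35), (10, 35, 12), (10, 35, 28), (10, 37, 20), (12, 2, 19), (12, 2, 21), (12, 3, 14), (12, 3, 26), (12, 5, 10), (12, 5, 30), (12, 10, 5), (12, 10, 35), (12, 14, 3), (12, 14, 37), (12, 19, 2), (12, 19, 38), (12, 21, 2), (12, 21, 38), (12, 26, 3), (12, 26, 37), (12, 30, 5), (12, 30, 35), (12, 35, 10), (12, 35, 30), (12, 37, 14), (12, 37, 26), (12, 38, 19), (12, 38, 21), (13, 2, 16), (13, 2, 24), (13, 6, 8), (13, 6, 32), (13, 8, 6), (13, 8, 34), (13, 16, 2), (13, 16, 38), (13, 24, 2), (13, 24, 38), (13, 32, 6), (13, 32, 34), (13, 34, 8), (13, 34, 32), (13, 38, 16), (13, 38, 24), (14, 3, 12),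 (14, 3, 28), (14, 12, 3), (14, 12, 37), (14, 28, 3), (14, 28, 37), (14, 37, 12), (14, 37, 28), (16, 2, 13), (16, 2, 27), (16, 13, 2), (16, 13, 38), (16, 27, 2), (16, 27, 38), (16, 38, 13), (16, 38, 27), (19, 2, 12), (19, 2, 28), (19, 12, 2), (19, 12, 38), (20, 3, 10), (20, 3, 30), (20, 10, 3), (20, 10, 37), (21, 2, 12), (21, 2, 28), (21, 12, 2), (21, 12, 38)]⟩
def row390 : Row := ⟨390, 193, 49, 8, [(1, 15, 18), (1, 15, 22), (1, 18, 15), (1, 18, 25), (1, 22, 15), (1, 22, 25), (1, 25, 18), (1, 25, 22), (3, 10, 19), (3, 10, 21), (3, 19, 10), (3, 19, 30), (3, 21, 10), (3, 21, 30), (3, 30, 19), (3, 30, 21), (6, 7, 15), (6, 7, 25), (6, 15, 7), (6, 15, 33), (6, 25, 7), (6, 25, 33), (6, 33, 15), (6, 33, 25), (7, 6, 15), (7, 6, 25), (7, 9, 10), (7, 9, 30), (7, 10, 9), (7, 10, 31), (7, 15, 6), (7, 15, 34), (7, 25, 6), (7, 25, 34), (7, 30, 9), (7, 30, 31), (7, 31, 10), (7, 31, 30),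 (7, 34, 15), (7, 34, 25), (9, 7, 10), (9, 7, 30), (9, 10, 7), (9, 10, 33), (9, 30, 7), (9, 30, 33), (9, 33, 10), (9, 33, 30), (10, 3, 19), (10, 3, 21), (10, 7, 9), (10, 7, 31), (10, 9, 7), (10, 9, 33), (10, 19, 3), (10, 19, 37), (10, 21, 3), (10, 21, 37), (10, 31, 7), (10, 31, 33), (10, 33, 9), (10, 33, 31), (10, 37, 19), (10, 37, 21), (15, 1, 18), (15, 1, 22), (15, 6, 7), (15, 6, 33), (15, 7, 6), (15, 7, 34), (15, 18, 1), (15, 18, 39), (15, 22, 1), (15, 22, 39), (15, 33, 6), (15, 33, 34), (15, 34, 7), (15, 34, 33), (15, 39, 18), (15, 39, 22), (18, 1, 15), (18, 1, 25), (18, 15, 1), (18, 15, 39), (18, 25, 1), (19, 3, 10), (19, 3, 30), (19, 10, 3), (19, 10, 37), (21, 3, 10), (21, 3, 30), (21, 10, 3), (21, 10, 37), (22, 1, 15), (22, 1, 25), (22, 15, 1)]⟩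
def row391 : Row := ⟨391, 100, 10, 1, []⟩
def row392 : Row := ⟨392, 281, 11, 5, [(2, 12, 18), (2, 12, 22), (2, 18, 12), (2, 18, 28), (2, 22, 12), (2, 22, 28), (2, 28, 18), (2, 28, 22), (4, 10, 14), (4, 10, 26), (4, 14, 10), (4, 14, 30), (4, 26, 10), (4, 26, 30), (4, 30, 14), (4, 30, 26), (6, 6, 20), (6, 20, 6), (6, 20, 34), (6, 34, 20), (10, 4, 14), (10, 4, 26), (10, 14, 4), (10, 14, 36), (10, 26, 4), (10, 26, 36), (10, 36, 14), (10, 36, 26), (12, 2, 18), (12, 2, 22), (12, 18, 2), (12, 18, 38), (12, 22, 2), (12, 22, 38), (12, 38, 18), (12, 38, 22), (14, 4, 10), (14, 4, 30), (14, 10, 4), (14, 10, 36), (14, 30, 4), (14, 30, 36), (14, 36, 10), (14, 36, 30), (18, 2, 12), (18, 2, 28), (18, 12, 2), (18, 12, 38), (18, 28, 2), (18, 28, 38), (18, 38, 12), (18, 38, 28), (20, 6, 6), (20, 6, 34)]⟩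
def row393 : Row := ⟨393, 256, 76, 46, [(1, 16, 16), (1, 16, 24), (1, 24, 16), (1, 24, 24), (3, 10, 18), (3, 10, 22), (3, 18, 10), (3, 18, 30), (3, 22, 10), (3, 22, 30), (3, 30, 18), (3, 30, 22), (4, 9, 16), (4, 9, 24), (4, 16, 9), (4, 16, 31), (4, 24, 9), (4, 24, 31), (4, 31, 16), (4, 31, 24), (6, 6, 19), (6, 6, 21), (6, 19, 6), (6, 19, 34), (6, 21, 6), (6, 21, 34), (6, 34, 19), (6, 34, 21), (9, 4, 16), (9, 4, 24), (9, 16, 4), (9, 16, 36), (9, 24, 4), (9, 24, 36), (9, 36, 16), (9, 36, 24), (10, 3, 18), (10, 3, 22), (10, 18, 3), (10, 18, 37), (10, 22, 3), (10, 22, 37), (10, 37, 18), (10, 37, 22), (16, 1, 16), (16, 1, 24), (16, 4, 9), (16, 4, 31), (16, 9, 4), (16, 9, 36), (16, 16, 1), (16, 16, 39), (16, 24, 1), (16, 31, 4), (16, 36, 9), (18, 3, 10), (18, 3, 30), (18, 10, 3), (18, 10, 37), (18, 30, 3), (19, 6, 6), (19, 6, 34), (21, 6, 6), (21, 6, 34), (22, 3, 10), (22, 3,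 30), (22, 10, 3), (24, 1, 16), (24, 1, 24), (24, 4, 9), (24, 9, 4), (24, 16, 1)]⟩
def row394 : Row := ⟨394, 291, 268, 146, [(5, 7, 20), (5, 8, 15), (5, 8, 25), (5, 15, 8), (5, 15, 32), (5, 20, 7), (5, 20, 33), (5, 25, 8), (5, 25, 32), (5, 32, 15), (5, 32, 25), (5, 33, 20), (7, 5, 20), (7, 8, 11), (7, 8, 29), (7, 11, 8), (7, 11, 32), (7, 20, 5), (7, 20, 35), (7, 29, 8), (7, 32, 11), (8, 5, 15), (8, 5, 25), (8, 7, 11), (8, 7, 29), (8, 11, 7), (8, 11, 33), (8, 15, 5), (8, 15, 35), (8, 25, 5), (8, 29, 7), (8, 33, 11), (8, 35, 15), (11, 7, 8), (11, 7, 32), (11, 8, 7), (11, 8, 33), (11, 32, 7), (11, 33, 8), (15, 5, 8), (15, 5, 32), (15, 8, 5), (15, 8, 35), (15, 32, 5), (20, 5, 7), (20, 5, 33), (20, 7, 5), (20, 7, 35), (25, 5, 8), (25, 5, 32), (25, 8, 5), (29, 7, 8), (29, 8, 7), (32, 5, 15), (32, 7, 11), (32, 11, 7), (32, 15, 5), (33, 5, 20), (33, 8, 11), (33, 11, 8)]⟩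
def row395 : Row := ⟨395, 241, 158, 3, [(1, 15, 17), (1, 15, 23), (1, 17, 15), (1, 17, 25), (1, 23, 15), (1, 23, 25), (1, 25, 17), (1, 25, 23), (3, 11, 15), (3, 11, 25), (3, 15, 11), (3, 15, 29), (3, 25, 11), (3, 25, 29), (3, 29, 15), (3, 29, 25), (5, 7, 19), (5, 7, 21), (5, 9, 13), (5, 9, 27), (5, 13, 9), (5, 13, 31), (5, 19, 7), (5, 19, 33), (5, 21, 7), (5, 21, 33), (5, 27, 9), (5, 27, 31), (5, 31, 13), (5, 31, 27), (5, 33, 19), (5, 33, 21), (7, 5, 19), (7, 5, 21), (7, 19, 5), (7, 19, 35), (7, 21, 5), (7, 21, 35), (7, 35, 19), (7, 35, 21), (9, 5, 13), (9, 5, 27), (9, 13, 5), (9, 13, 35), (9, 27, 5), (9, 27, 35), (9, 35, 13), (9, 35, 27), (11, 3, 15), (11, 3, 25), (11, 15, 3), (11, 15, 37), (11, 25, 3), (11, 25, 37), (13, 5, 9), (13, 5, 31), (13, 9, 5), (13, 9, 35), (15, 1, 17), (15, 1, 23), (15, 3, 11), (15, 3, 29), (15, 11, 3), (15, 11, 37), (15, 17, 1), (15, 17, 39),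 (15, 23, 1), (15, 23, 39), (17, 1, 15), (17, 1, 25), (17, 15, 1), (17, 15, 39), (19, 5, 7), (19, 5, 33), (19, 7, 5), (19, 7, 35), (21, 5, 7), (21, 5, 33), (21, 7, 5), (21, 7, 35), (23, 1, 15), (23, 1, 25), (23, 15, 1), (23, 15, 39), (25, 1, 17), (25, 1, 23), (25, 3, 11), (25, 3, 29), (25, 11, 3), (25, 11, 37), (27, 5, 9), (27, 5, 31), (27, 9, 5), (27, 9, 35), (29, 3, 15), (29, 3, 25)]⟩
def row396 : Row := ⟨396, 300, 296, 8, [(2, 14, 14), (2, 14, 26), (2, 26, 14), (2, 26, 26), (6, 6, 18), (6, 6, 22), (6, 10, 10), (6, 10, 30), (6, 18, 6), (6, 18, 34), (6, 22, 6), (6, 22, 34), (6, 30, 10), (6, 30, 30), (6, 34, 18), (6, 34, 22), (10, 6, 10), (10, 6, 30), (10, 10, 6), (10, 10, 34), (10, 30, 6), (14, 2, 14), (14, 2, 26), (14, 14, 2), (14, 14, 38), (14, 26, 2), (18, 6, 6), (18, 6, 34), (22, 6, 6), (22, 6, 34), (26, 2, 14), (26, 2, 26), (26, 14, 2), (30, 6, 10), (30, 6, 30), (30,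 10, 6)]⟩
def row397 : Row := ⟨397, 336, 205, 108, [(1, 14, 20), (1, 20, 14), (1, 20, 26), (1, 26, 20), (2, 12, 17), (2, 12, 23), (2, 17, 12), (2, 17, 28), (2, 23, 12), (2, 23, 28), (2, 28, 17), (2, 28, 23), (12, 2, 17), (12, 2, 23), (12, 17, 2), (12, 17, 38), (12, 23, 2), (12, 23, 38), (14, 1, 20), (14, 20, 1), (17, 2, 12), (17, 2, 28), (17, 12, 2), (17, 12, 38), (17, 28, 2), (20, 1, 14), (20, 1, 26), (20, 14, 1), (20, 26, 1), (23, 2, 12), (23, 2, 28), (23, 12, 2), (26, 1, 20), (26, 20, 1), (28, 2, 17), (28, 2, 23)]⟩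
def row398 : Row := ⟨398, 277, 113, 111, [(1, 14, 19), (1, 14, 21), (1, 19, 14), (1, 19, 26), (1, 21, 14), (1, 21, 26), (1, 26, 19), (1, 26, 21), (2, 13, 15), (2, 13, 25), (2, 15, 13), (2, 15, 27), (2, 25, 13), (2, 25, 27), (2, 27, 15), (2, 27, 25), (3, 10, 17), (3, 10, 23), (3, 17, 10), (3, 17, 30), (3, 23, 10), (3, 23, 30), (3, 30, 17), (3, 30, 23), (5, 7, 18), (5, 7, 22), (5, 18, 7), (5, 18, 33), (5, 22, 7), (5, 22, 33), (5, 33, 18), (5, 33, 22), (6, 9, 11), (6, 9, 29), (6, 11, 9), (6, 11, 31), (6, 29, 9), (6, 29, 31), (6, 31, 11), (6, 31, 29), (7, 5, 18), (7, 5, 22), (7, 18, 5), (7, 18, 35), (7, 22, 5), (7, 22, 35), (7, 35, 18), (7, 35, 22), (9, 6, 11), (9, 6, 29), (9, 11, 6), (9, 11, 34), (9, 29, 6), (9, 29, 34), (9, 34, 11), (9, 34, 29), (10, 3, 17), (10, 3, 23), (10, 17, 3), (10, 17, 37), (10, 23, 3), (10, 23, 37), (10, 37, 17), (10, 37, 23), (11, 6, 9), (11, 6,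 31), (11, 9, 6), (11, 9, 34), (11, 31, 6), (11, 34, 9), (13, 2, 15), (13, 2, 25), (13, 15, 2), (13, 15, 38), (13, 25, 2), (13, 38, 15), (14, 1, 19), (14, 1, 21), (14, 19, 1), (14, 21, 1), (15, 2, 13), (15, 2, 27), (15, 13, 2), (15, 13, 38), (15, 27, 2), (15, 38, 13), (17, 3, 10), (17, 3, 30), (17, 10, 3), (17, 10, 37), (17, 30, 3), (17, 37, 10), (18, 5, 7), (18, 5, 33), (18, 7, 5), (18, 7, 35), (18, 33, 5), (18, 35, 7), (19, 1, 14), (19, 1, 26), (19, 14, 1), (19, 26, 1), (21, 1, 14), (21, 1, 26), (21, 14, 1), (21, 26, 1), (22, 5, 7), (22, 7, 5), (23, 3, 10), (23, 10, 3), (25, 2, 13), (25, 13, 2), (26, 1, 19), (26, 1, 21), (26, 19, 1), (26, 21, 1), (27, 2, 15), (27, 15, 2), (29, 6, 9), (29, 9, 6)]⟩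
def row399 : Row := ⟨399, 100, 10, 1, []⟩
def row400 : Row := ⟨400, 369, 159, 71, [(0, 20, 20), (4, 8, 20), (4, 20, 8), (4, 20, 32), (4, 32, 20), (8, 4, 20), (8, 20, 4), (8, 20, 36), (8, 36, 20), (20, 0, 20), (20, 4, 8), (20, 4, 32), (20, 8, 4), (20, 8, 36), (20, 20, 0)]⟩

theorem ok351 : rowOK 20 8 12 row351 = true := by decide +kernel
theorem ok352 : rowOK 20 8 12 row352 = true := by decide +kernel
theorem ok353 : rowOK 20 8 12 row353 = true := by decide +kernel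
theorem ok354 : rowOK 20 8 12 row354 = true := by decide +kernel
theorem ok355 : rowOK 20 8 12 row355 = true := by decide +kernel
theorem ok356 : rowOK 20 8 12 row356 = true := by decide +kernel
theorem ok357 : rowOK 20 8 12 row357 = true := by decide +kernel
theorem ok358 : rowOK 20 8 12 row358 = true := by decide +kernel
theorem ok359 : rowOK 20 8 12 row359 = true := by decide +kernel
theorem ok360 : rowOK 20 8 12 row360 = true := by decide +kernel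
theorem ok361 : rowOK 20 8 12 row361 = true := by decide +kernel
theorem ok362 : rowOK 20 8 12 row362 = true := by decide +kernel
theorem ok363 : rowOK 20 8 12 row363 = true := by decide +kernel
theorem ok364 : rowOK 20 8 12 row364 = true := by decide +kernel
theorem ok365 : rowOK 20 8 12 row365 = true := by decide +kernel
theorem ok366 : rowOK 20 8 12 row366 = true := by decide +kernel
theorem ok367 : rowOK 20 8 12 row367 = true := by decide +kernel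
theorem ok368 : rowOK 20 8 12 row368 = true := by decide +kernel
theorem ok369 : rowOK 20 8 12 row369 = true := by decide +kernel
theorem ok370 : rowOK 20 8 12 row370 = true := by decide +kernel
theorem ok371 : rowOK 20 8 12 row371 = true := by decide +kernel
theorem ok372 : rowOK 20 8 12 row372 = true := by decide +kernel
theorem ok373 : rowOK 20 8 12 row373 = true := by decide +kernel
theorem ok374 : rowOK 20 8 12 row374 = true := by decide +kernel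
theorem ok375 : rowOK 20 8 12 row375 = true := by decide +kernel
theorem ok376 : rowOK 20 8 12 row376 = true := by decide +kernel
theorem ok377 : rowOK 20 8 12 row377 = true := by decide +kernel
theorem ok378 : rowOK 20 8 12 row378 = true := by decide +kernel
theorem ok379 : rowOK 20 8 12 row379 = true := by decide +kernel
theorem ok380 : rowOK 20 8 12 row380 = true := by decide +kernel
theorem ok381 : rowOK 20 8 12 row381 = true := by decide +kernel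
theorem ok382 : rowOK 20 8 12 row382 = true := by decide +kernel
theorem ok383 : rowOK 20 8 12 row383 = true := by decide +kernel
theorem ok384 : rowOK 20 8 12 row384 = true := by decide +kernel
theorem ok385 : rowOK 20 8 12 row385 = true := by decide +kernel
theorem ok386 : rowOK 20 8 12 row386 = true := by decide +kernel
theorem ok387 : rowOK 20 8 12 row387 = true := by decide +kernel
theorem ok388 : rowOK 20 8 12 row388 = true := by decide +kernel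
theorem ok389 : rowOK 20 8 12 row389 = true := by decide +kernel
theorem ok390 : rowOK 20 8 12 row390 = true := by decide +kernel
theorem ok391 : rowOK 20 8 12 row391 = true := by decide +kernel
theorem ok392 : rowOK 20 8 12 row392 = true := by decide +kernel
theorem ok393 : rowOK 20 8 12 row393 = true := by decide +kernel
theorem ok394 : rowOK 20 8 12 row394 = true := by decide +kernel
theorem ok395 : rowOK 20 8 12 row395 = true := by decide +kernel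
theorem ok396 : rowOK 20 8 12 row396 = true := by decide +kernel
theorem ok397 : rowOK 20 8 12 row397 = true := by decide +kernel
theorem ok398 : rowOK 20 8 12 row398 = true := by decide +kernel
theorem ok399 : rowOK 20 8 12 row399 = true := by decide +kernel
theorem ok400 : rowOK 20 8 12 row400 = true := by decide +kernel

theorem rows (N : ℕ) (h1 : 351 ≤ N) (h2 : N ≤ 400) :
    ∃ R : Row, R.N = N ∧ rowOK 20 8 12 R = true := by
  interval_cases N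
  · exact ⟨row351, rfl, ok351⟩
  · exact ⟨row352, rfl, ok352⟩
  · exact ⟨row353, rfl, ok353⟩
  · exact ⟨row354, rfl, ok354⟩
  · exact ⟨row355, rfl, ok355⟩
  · exact ⟨row356, rfl, ok356⟩
  · exact ⟨row357, rfl, ok357⟩
  · exact ⟨row358, rfl, ok358⟩
  · exact ⟨row359, rfl, ok359⟩
  · exact ⟨row360, rfl, ok360⟩
  · exact ⟨row361, rfl, ok361⟩
  · exact ⟨row362, rfl, ok362⟩
  · exact ⟨row363, rfl, ok363⟩
  · exact ⟨row364, rfl, ok364⟩
  · exact ⟨row365, rfl, ok365⟩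
  · exact ⟨row366, rfl, ok366⟩
  · exact ⟨row367, rfl, ok367⟩
  · exact ⟨row368, rfl, ok368⟩
  · exact ⟨row369, rfl, ok369⟩
  · exact ⟨row370, rfl, ok370⟩
  · exact ⟨row371, rfl, ok371⟩
  · exact ⟨row372, rfl, ok372⟩
  · exact ⟨row373, rfl, ok373⟩
  · exact ⟨row374, rfl, ok374⟩
  · exact ⟨row375, rfl, ok375⟩
  · exact ⟨row376, rfl, ok376⟩
  · exact ⟨row377, rfl, ok377⟩
  · exact ⟨row378, rfl, ok378⟩
  · exact ⟨row379, rfl, ok379⟩
  · exact ⟨row380, rfl, ok380⟩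
  · exact ⟨row381, rfl, ok381⟩
  · exact ⟨row382, rfl, ok382⟩
  · exact ⟨row383, rfl, ok383⟩
  · exact ⟨row384, rfl, ok384⟩
  · exact ⟨row385, rfl, ok385⟩
  · exact ⟨row386, rfl, ok386⟩
  · exact ⟨row387, rfl, ok387⟩
  · exact ⟨row388, rfl, ok388⟩
  · exact ⟨row389, rfl, ok389⟩
  · exact ⟨row390, rfl, ok390⟩
  · exact ⟨row391, rfl, ok391⟩
  · exact ⟨row392, rfl, ok392⟩
  · exact ⟨row393, rfl, ok393⟩
  · exact ⟨row394, rfl, ok394⟩
  · exact ⟨row395, rfl, ok395⟩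
  · exact ⟨row396, rfl, ok396⟩
  · exact ⟨row397, rfl, ok397⟩
  · exact ⟨row398, rfl, ok398⟩
  · exact ⟨row399, rfl, ok399⟩
  · exact ⟨row400, rfl, ok400⟩

end Pool.Agent.Lib.MPe4ee32.IP.D8d
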