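import Pool.Agent.Lib.MP_e4ee32_co.IP.Core
import Pool.Agent.Lib.MP_e4ee32_co.IP.D7a
import Pool.Agent.Lib.MP_e4ee32_co.IP.D7b
import Pool.Agent.Lib.MP_e4ee32_co.IP.D7c
import Pool.Agent.Lib.MP_e4ee32_co.IP.D7d
import Pool.Agent.Lib.MP_e4ee32_co.IP.D7e
import Pool.Agent.Lib.MP_e4ee32_co.IP.D7f
import Pool.Agent.Lib.MP_e4ee32_co.IP.D8a
import Pool.Agent.Lib.MP_e4ee32_co.IP.D8b
import Pool.Agent.Lib.MP_e4ee32_co.IP.D8c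
import Pool.Agent.Lib.MP_e4ee32_co.IP.D8d

/-!
Integer packings (MP_e4ee32_co): assembly.
-/

namespace Pool.Agent.Lib.MPe4ee32.IP

theorem rows7 (N : ℕ) (h0 : 0 < N) (h1 : N ≤ 292) (h2 : N ≠ 162) (h3 : N ≠ 242) :
    ∃ (o fuel : ℕ) (R : Row), R.N = N ∧ rowOK o 7 fuel R = true := by
  by_cases c1 : N ≤ 100
  · obtain ⟨R, e1, e2⟩ := D7a.rows N h0 c1
    exact ⟨12, 12, R, e1, e2⟩
  by_cases c2 : N ≤ 161
  · obtain ⟨R, e1, e2⟩ := D7b.rows N (by omega) c2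
    exact ⟨12, 12, R, e1, e2⟩
  by_cases c3 : N ≤ 200
  · obtain ⟨R, e1, e2⟩ := D7c.rows N (by omega) c3 h2
    exact ⟨17, 12, R, e1, e2⟩
  by_cases c4 : N ≤ 230
  · obtain ⟨R, e1, e2⟩ := D7d.rows N (by omega) c4
    exact ⟨17, 12, R, e1, e2⟩
  by_cases c5 : N ≤ 262
  · obtain ⟨R, e1, e2⟩ := D7e.rows N (by omega) c5 h3
    exact ⟨17, 12, R, e1, e2⟩
  · obtain ⟨R, e1, e2⟩ := D7f.rows N (by omega) h1
    exact ⟨17, 12, R, e1, e2⟩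

theorem rows8 (N : ℕ) (h0 : 0 < N) (h1 : N ≤ 400) :
    ∃ (o k fuel : ℕ) (R : Row), k ≤ 8 ∧ R.N = N ∧ rowOK o k fuel R = true := by
  by_cases c1 : N = 162
  · obtain ⟨R, e1, e2⟩ := D8a.rows N (by omega) (by omega)
    exact ⟨12, 8, 12, R, le_rfl, e1, e2⟩
  by_cases c2 : N = 242
  · obtain ⟨R, e1, e2⟩ := D8b.rows N (by omega) (by omega)
    exact ⟨15, 8, 12, R, le_rfl, e1, e2⟩
  by_cases c3 : N ≤ 292
  · obtain ⟨o, fuel, R, e1, e2⟩ := rows7 N h0 c3 c1 c2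
    exact ⟨o, 7, fuel, R, by norm_num, e1, e2⟩
  by_cases c4 : N ≤ 350
  · obtain ⟨R, e1, e2⟩ := D8c.rows N (by omega) c4
    exact ⟨20, 8, 12, R, le_rfl, e1, e2⟩
  · obtain ⟨R, e1, e2⟩ := D8d.rows N (by omega) h1
    exact ⟨20, 8, 12, R, le_rfl, e1, e2⟩

open Classical in
theorem seven (P : Finset E3) (r : ℝ) (hr : 0 < r) (hP : P.Nonempty)
    (hsep : ∀ p ∈ P, ∀ q ∈ P, p ≠ q → 2 * r ≤ dist p q) (N : ℕ) (h0 : 0 < N) (h1 : N ≤ 292)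
    (h2 : N ≠ 162) (h3 : N ≠ 242) (A : E3 ≃ₗᵢ[ℝ] E3)
    (hA : ∀ p ∈ P, ∀ q ∈ P, dist p q = 2 * r →
      ∀ i, ∃ z : ℤ, √(N : ℝ) / (2 * r) * A (p - q) i = z) :
    ∃ p ∈ P, (P.filter fun q => dist p q = 2 * r).card ≤ 6 := by
  obtain ⟨o, fuel, R, e1, e2⟩ := rows7 N h0 h1 h2 h3
  subst e1
  obtain ⟨p, hp, hc⟩ := packing e2 h0 P r hr hP hsep A hA
  exact ⟨p, hp, by omega⟩

open Classical in
theorem eight (P : Finset E3) (r : ℝ) (hr : 0 < r) (hP : P.Nonempty)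
    (hsep : ∀ p ∈ P, ∀ q ∈ P, p ≠ q → 2 * r ≤ dist p q) (N : ℕ) (h0 : 0 < N) (h1 : N ≤ 400)
    (A : E3 ≃ₗᵢ[ℝ] E3)
    (hA : ∀ p ∈ P, ∀ q ∈ P, dist p q = 2 * r →
      ∀ i, ∃ z : ℤ, √(N : ℝ) / (2 * r) * A (p - q) i = z) :
    ∃ p ∈ P, (P.filter fun q => dist p q = 2 * r).card ≤ 7 := by
  obtain ⟨o, k, fuel, R, hk, e1, e2⟩ := rows8 N h0 h1
  subst e1
  obtain ⟨p, hp, hc⟩ := packing e2 h0 P r hr hP hsep A hA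
  exact ⟨p, hp, by omega⟩

end Pool.Agent.Lib.MPe4ee32.IP
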